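import Pool.Agent.Lib.MP_1ad228_ntE.EBase
import Pool.Agent.Lib.MP_10e784_agF.D2
import Pool.Agent.Lib.MP_1ad228_ntH.HC3

/-! The data and the vectors of coefficients; the coefficients of `H` as dummy variables. -/

set_option autoImplicit false

open Classical

namespace HNE

open Finset Polynomial FGO FQQ HNF

theorem EX3_mem {m n H : ℕ} (f : Vn (TT m n)) :
    f ∈ boxN (TT m n) H ↔ (∀ j : Fin (2 * m * (2 * n)), |f (Fin.castAdd (MM m n + 1) j)| ≤ (H : ℤ)) ∧
      ∀ i, |cG f i| ≤ (H : ℤ) := by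
  rw [mem_boxN]
  constructor
  · intro h
    exact ⟨fun j => h _, fun i => h _⟩
  · rintro ⟨h1, h2⟩ i
    refine Fin.addCases (m := 2 * m * (2 * n)) (n := MM m n + 1)
      (motive := fun i : Fin (2 * m * (2 * n) + (MM m n + 1)) => |f i| ≤ (H : ℤ)) (fun j => h1 j) (fun j => h2 j) i

theorem EX3_cH {m n : ℕ} (f : Vn (TT m n)) (j : Fin (2 * m * (2 * n))) :
    cH f (finProdFinEquiv.symm j).1 (finProdFinEquiv.symm j).2 = f (Fin.castAdd (MM m n + 1) j) := by
  unfold cH
  rw [Prod.mk.eta, Equiv.apply_symm_apply]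

theorem EX3_mem2 {m n H : ℕ} (f : Vn (TT m n)) :
    f ∈ boxN (TT m n) H ↔ (∀ i j, |Gm (cG f) i j| ≤ (H : ℤ)) ∧ (∀ i j, |cH f i j| ≤ (H : ℤ)) := by
  rw [EX3_mem]
  constructor
  · rintro ⟨h1, h2⟩
    exact ⟨fun i j => h2 _, fun i j => h1 _⟩
  · rintro ⟨h1, h2⟩
    refine ⟨fun j => ?_, fun i => ?_⟩
    · rw [← EX3_cH f j]
      exact h2 _ _
    · have h3 := h1 (sg m n i).1 (sg m n i).2
      unfold Gm at h3
      rwa [Prod.mk.eta, Equiv.symm_apply_apply] at h3

/-- the vector of the coefficients -/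
noncomputable def EX3_inv {m n : ℕ} (G : Fin (2 * m + 1) → Fin (2 * n + 1) → ℤ) (H : Fin (2 * m) → Fin (2 * n) → ℤ) :
    Vn (TT m n) :=
  Fin.append (m := 2 * m * (2 * n)) (n := MM m n + 1)
    (fun j => H (finProdFinEquiv.symm j).1 (finProdFinEquiv.symm j).2) (fun i => G (sg m n i).1 (sg m n i).2)

theorem EX3_G {m n : ℕ} (G : Fin (2 * m + 1) → Fin (2 * n + 1) → ℤ) (H : Fin (2 * m) → Fin (2 * n) → ℤ) :
    Gm (cG (m := m) (n := n) (EX3_inv G H)) = G := by
  funext i j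
  unfold Gm cG EX3_inv
  rw [Fin.append_right, Equiv.apply_symm_apply]

theorem EX3_H {m n : ℕ} (G : Fin (2 * m + 1) → Fin (2 * n + 1) → ℤ) (H : Fin (2 * m) → Fin (2 * n) → ℤ) :
    cH (m := m) (n := n) (EX3_inv G H) = H := by
  funext i j
  unfold cH EX3_inv
  rw [Fin.append_left, Equiv.symm_apply_apply]

theorem EX3_f {m n : ℕ} (f : Vn (TT m n)) : EX3_inv (Gm (cG f)) (cH f) = f := by
  funext i
  unfold EX3_inv
  refine Fin.addCases (m := 2 * m * (2 * n)) (n := MM m n + 1)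
    (motive := fun i : Fin (2 * m * (2 * n) + (MM m n + 1)) =>
      Fin.append (fun j => cH f (finProdFinEquiv.symm j).1 (finProdFinEquiv.symm j).2)
        (fun i => Gm (cG f) (sg m n i).1 (sg m n i).2) i = f i) (fun j => ?_) (fun j => ?_) i
  · rw [Fin.append_left, EX3_cH]
  · rw [Fin.append_right]
    unfold Gm
    rw [Prod.mk.eta, Equiv.symm_apply_apply]
    rfl

/-- the bijection -/
noncomputable def EX3_eq (m n : ℕ) : Vn (TT m n) × (V × V) ≃ Dt m n where
  toFun s := toDt s.1 s.2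
  invFun q := (EX3_inv q.2.1 q.2.2, q.1)
  left_inv := by
    rintro ⟨f, u⟩
    show (EX3_inv (Gm (cG f)) (cH f), u) = (f, u)
    rw [EX3_f]
  right_inv := by
    rintro ⟨u, G, H⟩
    show (u, (Gm (cG (EX3_inv G H)), cH (EX3_inv G H))) = (u, (G, H))
    rw [EX3_G, EX3_H]

theorem EX3_box {m n H N : ℕ} (s : Vn (TT m n) × (V × V)) :
    s ∈ Bx (TT m n) H N ↔ InBox H N (toDt s.1 s.2) := by
  unfold Bx
  rw [Finset.mem_product, EX3_mem2, mem_box2, mem_box, mem_box]
  constructor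
  · rintro ⟨⟨h1, h2⟩, h3, h4⟩
    exact ⟨h3, h4, h1, h2⟩
  · rintro ⟨h3, h4, h1, h2⟩
    exact ⟨⟨h1, h2⟩, h3, h4⟩

/-- Proof. `(f, u) ↦ toDt f u` is a bijection from `Vn (TT m n) × (V × V)` onto `Dt m n` (inverse: `f = Fin.addCases (fun i => H (finProdFinEquiv.symm i).1 (finProdFinEquiv.symm i).2) (fun j => G (sg m n j).1 (sg m n j).2)`) which maps `Bx` onto the data in the box. Model `card_Dt` in QX3.lean of MP_10e784_agQ. -/
theorem card_DtE {m n : ℕ} (H N : ℕ) (P : Dt m n → Prop) :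
    Nat.card {q : Dt m n // InBox H N q ∧ P q} = ((Bx (TT m n) H N).filter fun s => P (toDt s.1 s.2)).card := by
  have e : {s // s ∈ (Bx (TT m n) H N).filter fun s => P (toDt s.1 s.2)} ≃
      {q : Dt m n // InBox H N q ∧ P q} :=
    (EX3_eq m n).subtypeEquiv fun s => by
      rw [Finset.mem_filter, EX3_box]
      exact Iff.rfl
  rw [← Nat.card_congr e, Nat.card_eq_fintype_card, Fintype.card_coe]

/-- Proof. `f ↦ (the first 2 m * (2 n) coordinates, cG f)` is a bijection of `boxN (TT m n) H` onto `piFinset × boxN (MM m n) H`. -/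
theorem dummy_card {m n : ℕ} (H N : ℕ) (Q : Vn (MM m n) → V × V → Prop) :
    ((Bx (TT m n) H N).filter fun s => Q (cG s.1) s.2).card =
      (2 * H + 1) ^ (2 * m * (2 * n)) * ((Bx (MM m n) H N).filter fun s => Q s.1 s.2).card := by
  have hI : (Icc (-(H : ℤ)) (H : ℤ)).card = 2 * H + 1 := by
    rw [Int.card_Icc]
    omega
  have hD : (Fintype.piFinset fun _ : Fin (2 * m * (2 * n)) => Icc (-(H : ℤ)) (H : ℤ)).card =
      (2 * H + 1) ^ (2 * m * (2 * n)) := by
    rw [Fintype.card_piFinset, Finset.prod_const, hI, Finset.card_univ, Fintype.card_fin]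
  rw [← hD, ← Finset.card_product]
  have hmD : ∀ g : Fin (2 * m * (2 * n)) → ℤ,
      (g ∈ Fintype.piFinset fun _ : Fin (2 * m * (2 * n)) => Icc (-(H : ℤ)) (H : ℤ)) ↔
        ∀ j, |g j| ≤ (H : ℤ) := by
    intro g
    rw [Fintype.mem_piFinset]
    exact forall_congr' fun i => by rw [Finset.mem_Icc, abs_le]
  refine Finset.card_bij' (fun s _ => (fun j => s.1 (Fin.castAdd (MM m n + 1) j), (cG s.1, s.2)))
    (fun t _ => (Fin.append (m := 2 * m * (2 * n)) (n := MM m n + 1) t.1 t.2.1, t.2.2)) ?_ ?_ ?_ ?_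
  · intro s hs
    rw [Finset.mem_filter] at hs
    obtain ⟨hs1, hs2⟩ := hs
    unfold Bx at hs1
    rw [Finset.mem_product, EX3_mem] at hs1
    rw [Finset.mem_product, hmD, Finset.mem_filter]
    refine ⟨hs1.1.1, ?_, hs2⟩
    unfold Bx
    rw [Finset.mem_product, mem_boxN]
    exact ⟨hs1.1.2, hs1.2⟩
  · intro t ht
    rw [Finset.mem_product, hmD, Finset.mem_filter] at ht
    obtain ⟨h1, h2, h3⟩ := ht
    unfold Bx at h2
    rw [Finset.mem_product, mem_boxN] at h2
    have hc : cG (m := m) (n := n) (Fin.append (m := 2 * m * (2 * n)) (n := MM m n + 1) t.1 t.2.1) = t.2.1 := by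
      funext i
      exact Fin.append_right _ _ i
    rw [Finset.mem_filter]
    refine ⟨?_, ?_⟩
    · unfold Bx
      rw [Finset.mem_product, EX3_mem]
      refine ⟨⟨fun j => ?_, fun i => ?_⟩, h2.2⟩
      · show |Fin.append (m := 2 * m * (2 * n)) (n := MM m n + 1) t.1 t.2.1 (Fin.castAdd (MM m n + 1) j)| ≤ _
        rw [Fin.append_left]
        exact h1 j
      · show |cG (m := m) (n := n) (Fin.append (m := 2 * m * (2 * n)) (n := MM m n + 1) t.1 t.2.1) i| ≤ _
        rw [hc]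
        exact h2.1 i
    · show Q (cG (m := m) (n := n) (Fin.append (m := 2 * m * (2 * n)) (n := MM m n + 1) t.1 t.2.1)) t.2.2
      rw [hc]
      exact h3
  · rintro ⟨f, u⟩ _
    refine Prod.ext ?_ rfl
    funext i
    exact Fin.addCases (m := 2 * m * (2 * n)) (n := MM m n + 1)
      (motive := fun i : Fin (2 * m * (2 * n) + (MM m n + 1)) =>
        Fin.append (fun j => f (Fin.castAdd (MM m n + 1) j)) (cG f) i = f i)
      (fun j => by rw [Fin.append_left]) (fun j => by rw [Fin.append_right]; rfl) i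
  · rintro ⟨g, c, u⟩ _
    refine Prod.ext ?_ (Prod.ext ?_ rfl)
    · funext j
      exact Fin.append_left _ _ j
    · funext j
      exact Fin.append_right _ _ j

end HNE
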