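import Pool.Agent.Lib.MP_1ad228_ntE.PB1

/-! Small primes, the real place. -/

set_option autoImplicit false

open Classical

namespace HNE

open Finset Polynomial FGO FQQ HNF

/-- Proof. Hensel's lemma (`hensels_lemma`) for `T² - x` at `T = 1`: value `1 - x`, derivative `2`. -/
theorem sq_near_one (p : ℕ) [Fact p.Prime] (x : ℤ_[p]) (h : ‖x - 1‖ < ‖(2 : ℤ_[p])‖ ^ 2) : ∃ z : ℤ_[p], z ^ 2 = x := by
  have e1 : (X ^ 2 - C x : ℤ_[p][X]).aeval (1 : ℤ_[p]) = 1 - x := by simp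
  have e2 : (derivative (X ^ 2 - C x : ℤ_[p][X])).aeval (1 : ℤ_[p]) = 2 := by
    simp
    norm_num
  have h1 : ‖(X ^ 2 - C x : ℤ_[p][X]).aeval (1 : ℤ_[p])‖ < ‖(derivative (X ^ 2 - C x : ℤ_[p][X])).aeval (1 : ℤ_[p])‖ ^ 2 := by
    rw [e1, e2, norm_sub_rev]
    exact h
  obtain ⟨z, hz, -⟩ := hensels_lemma h1
  refine ⟨z, ?_⟩
  have : z ^ 2 - x = 0 := by simpa using hz
  linear_combination this

/-- Proof. `f0` at the places of `G` is `G0` (`Fin.addCases_right`). -/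
theorem clE_G {m n M : ℕ} {f : Vn (TT m n)} {u : V × V} (h : ClE M f u) (i : Fin (2 * m + 1)) (j : Fin (2 * n + 1)) :
    (M : ℤ) ∣ Gm (cG f) i j - G0 m n i j := by
  have h1 := h.1 (Fin.natAdd (2 * m * (2 * n)) ((sg m n).symm (i, j)))
  have h2 : f0 m n (Fin.natAdd (2 * m * (2 * n)) ((sg m n).symm (i, j))) = G0 m n i j := by
    unfold f0
    show (Fin.addCases (fun _ => 0) (fun j => G0 m n (sg m n j).1 (sg m n j).2) (Fin.natAdd (2 * m * (2 * n)) ((sg m n).symm (i, j))) : ℤ) = G0 m n i j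
    rw [Fin.addCases_right, Equiv.apply_symm_apply]
  rw [h2] at h1
  exact h1

theorem clE_H {m n M : ℕ} {f : Vn (TT m n)} {u : V × V} (h : ClE M f u) (i : Fin (2 * m)) (j : Fin (2 * n)) :
    (M : ℤ) ∣ cH f i j := by
  have h1 := h.1 (Fin.castAdd (MM m n + 1) (finProdFinEquiv (i, j)))
  have h2 : f0 m n (Fin.castAdd (MM m n + 1) (finProdFinEquiv (i, j))) = 0 := by
    unfold f0
    show (Fin.addCases (fun _ => 0) (fun j => G0 m n (sg m n j).1 (sg m n j).2) (Fin.castAdd (MM m n + 1) (finProdFinEquiv (i, j))) : ℤ) = 0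
    rw [Fin.addCases_left]
  rw [h2, sub_zero] at h1
  exact h1

/-- the value of a form at the corner `(1, 0; 1, 0)` -/
theorem vB_corner {F : Type} [CommRing F] {k l : ℕ} (G : Fin (k + 1) → Fin (l + 1) → ℤ) :
    vB G (1 : F) 0 1 0 = ((G (Fin.last k) (Fin.last l) : ℤ) : F) := by
  have key : ∀ (k : ℕ) (i : Fin (k + 1)), i ≠ Fin.last k → (0 : F) ^ (k + 1 - 1 - (i : ℕ)) = 0 := by
    intro k i hi
    refine zero_pow ?_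
    have h1 := i.isLt
    have h2 : (i : ℕ) ≠ k := fun h => hi (Fin.ext h)
    omega
  unfold vB
  rw [Finset.sum_eq_single (Fin.last k), Finset.sum_eq_single (Fin.last l)]
  · simp
  · intro j _ hj
    rw [key l j hj]
    simp
  · intro h
    exact absurd (Finset.mem_univ _) h
  · intro i _ hi
    refine Finset.sum_eq_zero fun j _ => ?_
    rw [key k i hi]
    simp
  · intro h
    exact absurd (Finset.mem_univ _) h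

/-- the norm of an integer divisible by `M` -/
theorem PB2_norm (p : ℕ) [Fact p.Prime] (M : ℕ) (a : ℤ) (h : (M : ℤ) ∣ a) : ‖((a : ℤ) : ℤ_[p])‖ ≤ ‖((M : ℕ) : ℤ_[p])‖ := by
  obtain ⟨b, rfl⟩ := h
  push_cast
  rw [norm_mul]
  calc ‖((M : ℕ) : ℤ_[p])‖ * ‖((b : ℤ) : ℤ_[p])‖ ≤ ‖((M : ℕ) : ℤ_[p])‖ * 1 := by
        exact mul_le_mul_of_nonneg_left (PadicInt.norm_le_one _) (norm_nonneg _)
    _ = _ := mul_one _

theorem PB2_norm_M (w2 : ℕ) (p : ℕ) [Fact p.Prime] (hp : p ≤ w2) :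
    ‖((8 * primorial w2 : ℕ) : ℤ_[p])‖ < ‖(2 : ℤ_[p])‖ ^ 2 := by
  have hp0 : p.Prime := Fact.out
  have hd : p ∣ primorial w2 := by
    unfold primorial
    refine Finset.dvd_prod_of_mem _ ?_
    simp only [Finset.mem_filter, Finset.mem_range]
    exact ⟨by omega, hp0⟩
  obtain ⟨c, hc⟩ := hd
  rw [hc]
  have hlt : ‖((p : ℕ) : ℤ_[p])‖ < 1 := by
    rw [PadicInt.norm_p]
    have : (1 : ℝ) < p := by exact_mod_cast hp0.one_lt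
    exact inv_lt_one_of_one_lt₀ this
  have h2 : 0 < ‖(2 : ℤ_[p])‖ := by
    rw [norm_pos_iff]
    exact two_ne_zero
  have h2' : ‖(2 : ℤ_[p])‖ ≤ 1 := PadicInt.norm_le_one _
  have hc1 : ‖((c : ℕ) : ℤ_[p])‖ ≤ 1 := PadicInt.norm_le_one _
  have e : ((8 * (p * c) : ℕ) : ℤ_[p]) = 2 * (2 ^ 2 * ((p : ℕ) : ℤ_[p]) * ((c : ℕ) : ℤ_[p])) := by
    push_cast
    ring
  rw [e, norm_mul, norm_mul, norm_mul, norm_pow]
  have h3 : 0 ≤ ‖((p : ℕ) : ℤ_[p])‖ := norm_nonneg _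
  have h4 : 0 ≤ ‖((c : ℕ) : ℤ_[p])‖ := norm_nonneg _
  calc ‖(2 : ℤ_[p])‖ * (‖(2 : ℤ_[p])‖ ^ 2 * ‖((p : ℕ) : ℤ_[p])‖ * ‖((c : ℕ) : ℤ_[p])‖)
      ≤ 1 * (‖(2 : ℤ_[p])‖ ^ 2 * ‖((p : ℕ) : ℤ_[p])‖ * 1) := by
        gcongr
    _ = ‖(2 : ℤ_[p])‖ ^ 2 * ‖((p : ℕ) : ℤ_[p])‖ := by ring
    _ < ‖(2 : ℤ_[p])‖ ^ 2 * 1 := by
        exact mul_lt_mul_of_pos_left hlt (by positivity)
    _ = _ := mul_one _

/-- **Proof.** `M = 8 primorial w2` (never compute it). At `(1, 0; 1, 0)`: `v(1,0) = u.1.1 ≡ 1`, `w(1,0) = u.2.1 ≡ 1`, `G = Gm (cG f) last last ≡ 1`, `H = cH f last last ≡ 0` modulo `M` (`m, n ≥ 1`: `2 m = (2 m - 1) + 1`). `‖M‖ < ‖2‖²` in `ℤ_p` for `p ≤ w2` (`p = 2`: `8 ∣ M`, `1/8 < 1/4`; `p` odd: `p ∣ M`, `1/p < 1`).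
`sq_near_one` gives `s² = v(1,0)`, `s'² = w(1,0)` in `ℤ_p`, and then `r² = G + s s' H` (`‖G + s s' H - 1‖ ≤ ‖M‖`, ultrametric). `isPt_cover` over `ℚ_p`. -/
theorem loc_small_E {m n : ℕ} (hm : 1 ≤ m) (hn : 1 ≤ n) (w2 : ℕ) (p : ℕ) [Fact p.Prime] (hp : p ≤ w2) (f : Vn (TT m n)) (u : V × V)
    (h : ClE (8 * primorial w2) f u) : HasPoint ℚ_[p] (toDt f u) := by
  obtain ⟨k, hk⟩ : ∃ k, 2 * m = k + 1 := ⟨2 * m - 1, by omega⟩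
  obtain ⟨l, hl⟩ : ∃ l, 2 * n = l + 1 := ⟨2 * n - 1, by omega⟩
  have hM := PB2_norm_M w2 p hp
  set M : ℕ := 8 * primorial w2 with hMdef
  clear_value M
  have hv : ‖((u.1.1 : ℤ) : ℤ_[p]) - 1‖ < ‖(2 : ℤ_[p])‖ ^ 2 := by
    have h1 := PB2_norm p M (u.1.1 - 1) h.2.1.1
    push_cast at h1
    exact lt_of_le_of_lt h1 hM
  have hw : ‖((u.2.1 : ℤ) : ℤ_[p]) - 1‖ < ‖(2 : ℤ_[p])‖ ^ 2 := by
    have h1 := PB2_norm p M (u.2.1 - 1) h.2.2.1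
    push_cast at h1
    exact lt_of_le_of_lt h1 hM
  obtain ⟨s, hs⟩ := sq_near_one p _ hv
  obtain ⟨s', hs'⟩ := sq_near_one p _ hw
  have hG : ‖((Gm (cG f) (Fin.last (2 * m)) (Fin.last (2 * n)) : ℤ) : ℤ_[p]) - 1‖ ≤ ‖((M : ℕ) : ℤ_[p])‖ := by
    have h1 := clE_G h (Fin.last (2 * m)) (Fin.last (2 * n))
    have h2 : G0 m n (Fin.last (2 * m)) (Fin.last (2 * n)) = 1 := by simp [G0]
    rw [h2] at h1
    have h3 := PB2_norm p M _ h1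
    push_cast at h3
    exact h3
  -- the value of H
  obtain ⟨η, hη1, hη2⟩ : ∃ η : ℤ, (M : ℤ) ∣ η ∧ vB (cH f) (1 : ℚ_[p]) 0 1 0 = (η : ℚ_[p]) := by
    have key : ∀ (a b : ℕ) (H : Fin a → Fin b → ℤ), (∀ i j, (M : ℤ) ∣ H i j) → a = k + 1 → b = l + 1 →
        ∃ η : ℤ, (M : ℤ) ∣ η ∧ vB H (1 : ℚ_[p]) 0 1 0 = (η : ℚ_[p]) := by
      intro a b H hH ha hb
      subst ha
      subst hb
      exact ⟨_, hH _ _, vB_corner H⟩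
    exact key _ _ (cH f) (fun i j => clE_H h i j) hk hl
  have hr : ‖((Gm (cG f) (Fin.last (2 * m)) (Fin.last (2 * n)) : ℤ) : ℤ_[p]) + s * s' * ((η : ℤ) : ℤ_[p]) - 1‖ < ‖(2 : ℤ_[p])‖ ^ 2 := by
    refine lt_of_le_of_lt ?_ hM
    have e : ((Gm (cG f) (Fin.last (2 * m)) (Fin.last (2 * n)) : ℤ) : ℤ_[p]) + s * s' * ((η : ℤ) : ℤ_[p]) - 1
        = (((Gm (cG f) (Fin.last (2 * m)) (Fin.last (2 * n)) : ℤ) : ℤ_[p]) - 1) + s * s' * ((η : ℤ) : ℤ_[p]) := by ring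
    rw [e]
    refine (PadicInt.nonarchimedean _ _).trans (max_le hG ?_)
    rw [norm_mul]
    calc ‖s * s'‖ * ‖((η : ℤ) : ℤ_[p])‖ ≤ 1 * ‖((M : ℕ) : ℤ_[p])‖ :=
          mul_le_mul (PadicInt.norm_le_one _) (PB2_norm p M η hη1) (norm_nonneg _) zero_le_one
      _ = _ := one_mul _
  obtain ⟨r, hr⟩ := sq_near_one p _ hr
  refine ⟨_, isPt_cover (toDt f u) (1 : ℚ_[p]) 0 1 0 (s : ℚ_[p]) (s' : ℚ_[p]) (r : ℚ_[p]) (fun h => one_ne_zero h.1)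
    (fun h => one_ne_zero h.1) ?_ ?_ ?_⟩
  · have h1 : ((s ^ 2 : ℤ_[p]) : ℚ_[p]) = (((u.1.1 : ℤ) : ℤ_[p]) : ℚ_[p]) := by rw [hs]
    push_cast at h1
    rw [h1]
    simp [vV, toDt]
  · have h1 : ((s' ^ 2 : ℤ_[p]) : ℚ_[p]) = (((u.2.1 : ℤ) : ℤ_[p]) : ℚ_[p]) := by rw [hs']
    push_cast at h1
    rw [h1]
    simp [vV, toDt]
  · have h1 : ((r ^ 2 : ℤ_[p]) : ℚ_[p]) = ((((Gm (cG f) (Fin.last (2 * m)) (Fin.last (2 * n)) : ℤ) : ℤ_[p]) + s * s' * ((η : ℤ) : ℤ_[p]) : ℤ_[p]) : ℚ_[p]) := by rw [hr]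
    push_cast at h1
    rw [h1]
    show _ = vB (Gm (cG f)) (1 : ℚ_[p]) 0 1 0 + (s : ℚ_[p]) * (s' : ℚ_[p]) * vB (cH f) (1 : ℚ_[p]) 0 1 0
    rw [hη2, vB_corner]

/-- Proof. At `(1, 0; 1, 0)`: `s = √v(1,0)`, `s' = ± √w(1,0)` with the sign such that `s s' H ≥ 0`, `r = √(G + s s' H)`; `isPt_cover`. -/
theorem real_E {m n : ℕ} (hm : 1 ≤ m) (hn : 1 ≤ n) (f : Vn (TT m n)) (u : V × V) (h : PosE f u) : HasPoint ℝ (toDt f u) := by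
  obtain ⟨hG, hv, hw⟩ := h
  have hv' : (0 : ℝ) < (u.1.1 : ℝ) := by exact_mod_cast hv
  have hw' : (0 : ℝ) < (u.2.1 : ℝ) := by exact_mod_cast hw
  have hG' : (0 : ℝ) < ((Gm (cG f) (Fin.last (2 * m)) (Fin.last (2 * n)) : ℤ) : ℝ) := by exact_mod_cast hG
  obtain ⟨s, hs⟩ : ∃ s : ℝ, s ^ 2 = (u.1.1 : ℝ) := ⟨√(u.1.1 : ℝ), Real.sq_sqrt hv'.le⟩
  obtain ⟨t, ht⟩ : ∃ t : ℝ, t ^ 2 = (u.2.1 : ℝ) := ⟨√(u.2.1 : ℝ), Real.sq_sqrt hw'.le⟩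
  obtain ⟨s', hs', hpos⟩ : ∃ s' : ℝ, s' ^ 2 = (u.2.1 : ℝ) ∧ 0 ≤ s * s' * vB (cH f) (1 : ℝ) 0 1 0 := by
    rcases le_total 0 (s * t * vB (cH f) (1 : ℝ) 0 1 0) with h0 | h0
    · exact ⟨t, ht, h0⟩
    · refine ⟨-t, by rw [neg_sq]; exact ht, ?_⟩
      have e : s * -t * vB (cH f) (1 : ℝ) 0 1 0 = -(s * t * vB (cH f) (1 : ℝ) 0 1 0) := by ring
      rw [e]
      linarith
  have hr0 : 0 ≤ ((Gm (cG f) (Fin.last (2 * m)) (Fin.last (2 * n)) : ℤ) : ℝ) + s * s' * vB (cH f) (1 : ℝ) 0 1 0 := by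
    linarith
  refine ⟨_, isPt_cover (toDt f u) (1 : ℝ) 0 1 0 s s'
    (√(((Gm (cG f) (Fin.last (2 * m)) (Fin.last (2 * n)) : ℤ) : ℝ) + s * s' * vB (cH f) (1 : ℝ) 0 1 0))
    (fun h => one_ne_zero h.1) (fun h => one_ne_zero h.1) ?_ ?_ ?_⟩
  · rw [hs]
    simp [vV, toDt]
  · rw [hs']
    simp [vV, toDt]
  · rw [Real.sq_sqrt hr0]
    show _ = vB (Gm (cG f)) (1 : ℝ) 0 1 0 + s * s' * vB (cH f) (1 : ℝ) 0 1 0
    rw [vB_corner]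

theorem els_E {m n : ℕ} (hm : 1 ≤ m) (hn : 1 ≤ n) : ∃ w1 : ℕ, 3 ≤ w1 ∧ ∀ w2 : ℕ, w1 ≤ w2 → ∀ (f : Vn (TT m n)) (u : V × V),
    ClE (8 * primorial w2) f u → PosE f u → (∀ p : ℕ, p.Prime → w2 < p → ¬ BdP p f u) →
    HasPoint ℝ (toDt f u) ∧ ∀ (p : ℕ) [Fact p.Prime], HasPoint ℚ_[p] (toDt f u) := by
  obtain ⟨w1, hw1, h1⟩ := loc_E hm hn
  refine ⟨w1, hw1, fun w2 hw2 f u hC hP hB => ⟨real_E hm hn f u hP, fun p hp => ?_⟩⟩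
  by_cases h : p ≤ w2
  · exact loc_small_E hm hn w2 p h f u hC
  · exact h1 p (by omega) f u (hB p hp.out (by omega))

end HNE
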