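import Pool.Agent.Lib.MP_1ad228_ntE.PC2

/-! Smoothness over `ℂ`. -/

set_option autoImplicit false

open Classical

namespace HNE

open Finset Polynomial FGO FQQ HNF

/-- Proof. As `QC2_val` (QC2.lean of MP_10e784_agQ) with `ℓ` instead of `3`. -/
theorem exists_val (l : ℕ) (hl : l.Prime) : ∃ B : ValuationSubring ℂ, (l : B) ∈ IsLocalRing.maximalIdeal B := by
  let A : Subring ℂ := (Int.castRingHom ℂ).range
  have hI : (Ideal.span {(l : A)} : Ideal A) ≠ ⊤ := by
    rw [Ne, Ideal.eq_top_iff_one, Ideal.mem_span_singleton]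
    rintro ⟨⟨a, n, hn⟩, ha⟩
    have h1 : (1 : ℂ) = l * a := congrArg (fun t : A => (t : ℂ)) ha
    have h2 : (n : ℂ) = a := hn
    rw [← h2] at h1
    have h3 : (1 : ℤ) = l * n := by exact_mod_cast h1
    have h4 : (l : ℤ) ∣ 1 := ⟨n, h3⟩
    have h5 : l ∣ 1 := by exact_mod_cast h4
    exact hl.one_lt.ne' (Nat.dvd_one.1 h5)
  obtain ⟨B, -, hB⟩ := Ideal.image_subset_nonunits_valuationSubring (Ideal.span {(l : A)}) hI
  refine ⟨B, ?_⟩
  have h3 : (l : ℂ) ∈ B.nonunits := hB ⟨l, Ideal.subset_span rfl, rfl⟩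
  rw [← ValuationSubring.coe_mem_nonunits_iff]
  exact h3

/-- Proof. `A.submatrix r c = R * A * S` with matrices of zeros and ones (or `A.submatrix id c = A * S`, transposes), `Matrix.rank_mul_le_left`, `rank_mul_le_right`; an invertible `3 x 3` matrix has rank `3` (`Matrix.rank_of_isUnit`). -/
theorem three_le_rank {k : Type} [Field k] {a b : ℕ} (A : Matrix (Fin a) (Fin b) k) (r : Fin 3 → Fin a) (c : Fin 3 → Fin b)
    (h : (A.submatrix r c).det ≠ 0) : 3 ≤ A.rank := by
  have h1 := Matrix.rank_submatrix_le A r c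
  have h2 := Matrix.rank_of_det_ne_zero h
  rw [Fintype.card_fin] at h2
  omega

/-- an element whose square is in a valuation ring is in the ring -/
theorem PC3_sq (B : ValuationSubring ℂ) (a : ℂ) (h : a ^ 2 ∈ B) : a ∈ B := by
  rw [← ValuationSubring.valuation_le_one_iff] at h ⊢
  rw [map_pow] at h
  exact (pow_le_one_iff (two_ne_zero)).1 h

/-- scaling a pair of complex numbers which are not both zero into a valuation ring -/
theorem PC3_pair (B : ValuationSubring ℂ) (x z : ℂ) (h : ¬ (x = 0 ∧ z = 0)) :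
    ∃ lam : ℂ, lam ≠ 0 ∧ lam * x ∈ B ∧ lam * z ∈ B ∧ (lam * x = 1 ∨ lam * z = 1) := by
  have key : ∀ a b : ℂ, B.valuation b ≤ B.valuation a → a ≠ 0 → a⁻¹ * b ∈ B := by
    intro a b hab ha
    rw [← ValuationSubring.valuation_le_one_iff, mul_comm, ← div_eq_mul_inv, map_div₀]
    exact div_le_one_of_le₀ hab zero_le
  rcases le_total (B.valuation x) (B.valuation z) with h1 | h1
  · have hz : z ≠ 0 := by
      intro hz
      rw [hz, map_zero] at h1
      exact h ⟨(B.valuation.zero_iff).1 (le_antisymm h1 zero_le), hz⟩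
    exact ⟨z⁻¹, inv_ne_zero hz, key z x h1 hz, key z z le_rfl hz, Or.inr (inv_mul_cancel₀ hz)⟩
  · have hx : x ≠ 0 := by
      intro hx
      rw [hx, map_zero] at h1
      exact h ⟨hx, (B.valuation.zero_iff).1 (le_antisymm h1 zero_le)⟩
    exact ⟨x⁻¹, inv_ne_zero hx, key x x le_rfl hx, key x z h1 hx, Or.inl (inv_mul_cancel₀ hx)⟩

theorem PC3_vV (B : ValuationSubring ℂ) (v : ℤ × ℤ × ℤ) (x z : ℂ) (hx : x ∈ B) (hz : z ∈ B) : vV v x z ∈ B := by
  unfold vV
  have hi : ∀ n : ℤ, (n : ℂ) ∈ B := fun n => intCast_mem B n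
  exact add_mem (add_mem (mul_mem (hi _) (pow_mem hx 2)) (mul_mem (mul_mem (hi _) hx) hz)) (mul_mem (hi _) (pow_mem hz 2))

theorem PC3_vB (B : ValuationSubring ℂ) {k l : ℕ} (G : Fin k → Fin l → ℤ) (x z y t : ℂ) (hx : x ∈ B) (hz : z ∈ B) (hy : y ∈ B)
    (ht : t ∈ B) : vB G x z y t ∈ B := by
  unfold vB
  refine sum_mem fun i _ => sum_mem fun j _ => ?_
  exact mul_mem (mul_mem (intCast_mem B _) (mul_mem (pow_mem hx _) (pow_mem hz _))) (mul_mem (pow_mem hy _) (pow_mem ht _))

/-- `6 m n` is not zero in characteristic `l` -/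
theorem PC3_six {k : Type} [Field k] {N l : ℕ} (hl : l.Prime) (h6 : ¬ l ∣ N) (h0 : (l : k) = 0) : (N : k) ≠ 0 := by
  intro h1
  have hc : IsCoprime (l : ℤ) (N : ℤ) := Nat.isCoprime_iff_coprime.2 ((Nat.Prime.coprime_iff_not_dvd hl).2 h6)
  obtain ⟨a, b, hab⟩ := hc
  have h2 : (((a * l + b * N : ℤ)) : k) = ((1 : ℤ) : k) := by rw [hab]
  push_cast at h2
  rw [h0, h1, mul_zero, mul_zero, add_zero] at h2
  exact zero_ne_one h2

theorem PC3_scl {F : Type} [Field F] (m n : ℕ) {lam mu : F} (h1 : lam ≠ 0) (h2 : mu ≠ 0) (i : Fin 7) : scl m n lam mu i ≠ 0 := by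
  fin_cases i
  · exact h1
  · exact h1
  · exact h2
  · exact h2
  · exact mul_ne_zero h1 h2
  · exact mul_ne_zero (pow_ne_zero _ h1) (pow_ne_zero _ h2)
  · exact mul_ne_zero (pow_ne_zero _ h1) (pow_ne_zero _ h2)

/-- the scaling of the minors -/
theorem PC3_det {F : Type} [Field F] {m n : ℕ} (hm : 1 ≤ m) (hn : 1 ≤ n) (q : Dt m n) (P : Fin 7 → F) (lam mu : F)
    (r : Fin 3 → Fin 6) (c : Fin 3 → Fin 7) :
    ((JE q (fun j => scl m n lam mu j * P j)).submatrix r c).det * ∏ i, scl m n lam mu (c i) =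
      (∏ i, sce m n lam mu (r i)) * ((JE q P).submatrix r c).det := by
  rw [← Matrix.det_diagonal, ← Matrix.det_diagonal, ← Matrix.det_mul, ← Matrix.det_mul]
  congr 1
  ext i j
  rw [Matrix.mul_diagonal, Matrix.diagonal_mul, Matrix.submatrix_apply, Matrix.submatrix_apply]
  exact JE_scale hm hn q P lam mu (r i) (c j)

/-- **Proof.** `B` = the valuation ring of `exists_val l`. `P` a complex point. `lam` = the inverse of the coordinate `x` or `z` with the larger valuation (not zero), `mu` = the inverse of `y` or `t`; `P' = scl m n lam mu · P` satisfies the equations (`eqs_scale`), its coordinates `x', z', y', t'` are in `B`, `x' = 1` or `z' = 1`, `y' = 1` or `t' = 1`. `a'² = V' W' ∈ B`: `a' ∈ B`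
(valuation `≤ 1`); `D' = G' + a' H' ∈ B`; `b'² = V' D'`, `c'² = W' D'`: `b', c' ∈ B`. So `P'` comes from `Q : Fin 7 → B`, `eqs (toDt f u) Q = 0` (`map_eqs` for the injection), and the reduction `Q̄` is a point over the residue field `k`; `(l : k) = 0`, so `k` has characteristic `l` and `6 m n ≠ 0` in `k` (`l` does not divide `6 m n`; Bézout).
`jac_field`: rows `r`, columns `c` with nonzero determinant; it is the reduction of the determinant over `B` (`map_JE`, `RingHom.map_det`), which is therefore not zero, and so is the determinant at `P'` over `ℂ`. `JE_scale`: the submatrix at `P'` times `diagonal (scl ∘ c)` is `diagonal (sce ∘ r)` times the submatrix at `P`; all `scl`, `sce` are products of powers of `lam`, `mu`,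
not zero. So the determinant at `P` is not zero: `three_le_rank`. -/
theorem smooth_E {m n : ℕ} (hm : 1 ≤ m) (hn : 1 ≤ n) (l : ℕ) (hl : l.Prime) (h6 : ¬ l ∣ 6 * m * n) (f : Vn (TT m n)) (u : V × V)
    (h : ClE l f u) : Smooth (toDt f u) := by
  intro P hP
  show 3 ≤ (JE (toDt f u) P).rank
  generalize hq : toDt f u = q at hP ⊢
  obtain ⟨B, hB⟩ := exists_val l hl
  obtain ⟨lam, hlam, hx, hz, hxz⟩ := PC3_pair B (P 0) (P 1) hP.1
  obtain ⟨mu, hmu, hy, ht, hyt⟩ := PC3_pair B (P 2) (P 3) hP.2.1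
  let P' : Fin 7 → ℂ := fun j => scl m n lam mu j * P j
  have heq : ∀ i, eqs q P' i = 0 := by
    intro i
    have h1 := eqs_scale hm hn q P lam mu i
    rw [hP.2.2] at h1
    rw [show eqs q P' i = _ from h1]
    exact mul_zero _
  have hP0 : P' 0 ∈ B := hx
  have hP1 : P' 1 ∈ B := hz
  have hP2 : P' 2 ∈ B := hy
  have hP3 : P' 3 ∈ B := ht
  have hV : fV q P' ∈ B := PC3_vV B _ _ _ hP0 hP1
  have hW : fW q P' ∈ B := PC3_vV B _ _ _ hP2 hP3
  have hP4 : P' 4 ∈ B := by
    apply PC3_sq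
    have h0 : P' 4 ^ 2 - fV q P' * fW q P' = 0 := heq 0
    rw [sub_eq_zero.1 h0]
    exact mul_mem hV hW
  have hD : fD q P' ∈ B :=
    add_mem (PC3_vB B _ _ _ _ _ hP0 hP1 hP2 hP3) (mul_mem hP4 (PC3_vB B _ _ _ _ _ hP0 hP1 hP2 hP3))
  have hP5 : P' 5 ∈ B := by
    apply PC3_sq
    have h0 : P' 5 ^ 2 - fV q P' * fD q P' = 0 := heq 1
    rw [sub_eq_zero.1 h0]
    exact mul_mem hV hD
  have hP6 : P' 6 ∈ B := by
    apply PC3_sq
    have h0 : P' 6 ^ 2 - fW q P' * fD q P' = 0 := heq 2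
    rw [sub_eq_zero.1 h0]
    exact mul_mem hW hD
  have hPB : ∀ i, P' i ∈ B := by
    intro i
    fin_cases i
    · exact hP0
    · exact hP1
    · exact hP2
    · exact hP3
    · exact hP4
    · exact hP5
    · exact hP6
  let Q : Fin 7 → B := fun i => ⟨P' i, hPB i⟩
  have hQ : (fun j => B.subtype (Q j)) = P' := rfl
  have heQ : ∀ i, eqs q Q i = 0 := by
    intro i
    apply Subtype.coe_injective
    show B.subtype (eqs q Q i) = 0
    rw [map_eqs, hQ]
    exact heq i
  let ρ : B →+* IsLocalRing.ResidueField B := IsLocalRing.residue B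
  have hl0 : (l : IsLocalRing.ResidueField B) = 0 := by
    have h1 : ρ (l : B) = 0 := (IsLocalRing.residue_eq_zero_iff _).2 hB
    rw [map_natCast] at h1
    exact h1
  have hone : ∀ i, P' i = 1 → ρ (Q i) ≠ 0 := by
    intro i hi h0
    have h1 : Q i = 1 := Subtype.coe_injective hi
    rw [h1, map_one] at h0
    exact one_ne_zero h0
  have hpt : IsPt q (fun j => ρ (Q j)) := by
    refine ⟨?_, ?_, ?_⟩
    · rintro ⟨h0, h1⟩
      rcases hxz with h2 | h2
      · exact hone 0 h2 h0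
      · exact hone 1 h2 h1
    · rintro ⟨h0, h1⟩
      rcases hyt with h2 | h2
      · exact hone 2 h2 h0
      · exact hone 3 h2 h1
    · funext i
      rw [← map_eqs, heQ, map_zero]
      rfl
  rw [← hq] at hpt
  obtain ⟨r, c, hrc⟩ := jac_field hm hn hl0 (PC3_six hl h6 hl0) f u h _ hpt
  rw [hq] at hrc
  have hmat : ∀ (S : Type) [CommRing S] (φ : B →+* S), ((JE q (fun j => φ (Q j))).submatrix r c).det =
      φ (((JE q Q).submatrix r c).det) := by
    intro S _ φ
    rw [RingHom.map_det]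
    congr 1
    ext i j
    rw [RingHom.mapMatrix_apply, Matrix.map_apply, Matrix.submatrix_apply, Matrix.submatrix_apply, map_JE]
  have hdB : ((JE q Q).submatrix r c).det ≠ 0 := by
    intro h0
    apply hrc
    rw [hmat _ ρ, h0, map_zero]
  have hdP' : ((JE q P').submatrix r c).det ≠ 0 := by
    rw [← hQ, hmat _ B.subtype]
    intro h0
    apply hdB
    apply Subtype.coe_injective
    exact h0
  have hdet := PC3_det hm hn q P lam mu r c
  have hprod : ∏ i, scl m n lam mu (c i) ≠ 0 := Finset.prod_ne_zero_iff.2 fun i _ => PC3_scl m n hlam hmu (c i)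
  refine three_le_rank _ r c ?_
  intro h0
  rw [h0, mul_zero] at hdet
  rcases mul_eq_zero.1 hdet with h1 | h1
  · exact hdP' h1
  · exact hprod h1

end HNE
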