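import Pool.Agent.Lib.MP_1ad228_ntE.PP2
import Pool.Agent.Lib.MP_1ad228_ntH.PE1
import Pool.Agent.Lib.MP_10e784_agQ.QE1

/-! The number of data in the class; the number of bad data at a prime `p ≤ 4 N`. -/

set_option autoImplicit false

open Classical

namespace HNE

open Finset Polynomial FGO FQQ HNF

theorem PE2_ind_cl {m n M : ℕ} (c : FQQ.Vn (TT m n)) (u : V × V) : ind (ClE M c u) =
    ind (CgN M c (f0 m n)) * (ind (Cg M u.1 (1, 0, -1)) * ind (Cg M u.2 (1, 0, -1))) := by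
  unfold ClE
  rw [HNQ.QE1_ind_and, HNQ.QE1_ind_and]

theorem PE2_E3_cl {m n M : ℕ} (hM : 0 < M) :
    E3 (TT m n) M (fun c u => ind (ClE M c u)) ≤ 1 / (M : ℝ) ^ (TT m n + 7) := by
  have hM' : (0 : ℝ) < M := by exact_mod_cast hM
  obtain ⟨S, hS⟩ : ∃ S : ℝ, S = ∑ f ∈ cubeN (TT m n) M, ind (CgN M f (f0 m n)) := ⟨_, rfl⟩
  have hS1 : S ≤ 1 := hS ▸ HNQ.QE1_cubeN (f0 m n)
  have hS0 : 0 ≤ S := hS ▸ Finset.sum_nonneg fun f _ => ind_nonneg _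
  have h1 : ∀ u : V × V, ExN (TT m n) M (fun c => ind (ClE M c u)) =
      S / (M : ℝ) ^ (TT m n + 1) * (ind (Cg M u.1 (1, 0, -1)) * ind (Cg M u.2 (1, 0, -1))) := by
    intro u
    unfold ExN
    simp only [PE2_ind_cl]
    rw [← Finset.sum_mul, ← hS]
    ring
  unfold E3
  simp only [h1]
  unfold Ex cube2
  have h0 : ∑ u ∈ cube M ×ˢ cube M, ind (Cg M u.1 (1, 0, -1)) * ind (Cg M u.2 (1, 0, -1)) =
      (∑ v ∈ cube M, ind (Cg M v (1, 0, -1))) * ∑ w ∈ cube M, ind (Cg M w (1, 0, -1)) := by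
    rw [Finset.sum_product, Finset.sum_mul_sum]
  rw [← Finset.mul_sum, h0]
  have h2 : (∑ v ∈ cube M, ind (Cg M v (1, 0, -1))) * ∑ w ∈ cube M, ind (Cg M w (1, 0, -1)) ≤ 1 :=
    mul_le_one₀ (HNQ.QE1_cube _) (Finset.sum_nonneg fun f _ => ind_nonneg _) (HNQ.QE1_cube _)
  have h3 : S / (M : ℝ) ^ (TT m n + 1) *
      ((∑ v ∈ cube M, ind (Cg M v (1, 0, -1))) * ∑ w ∈ cube M, ind (Cg M w (1, 0, -1))) ≤
      1 / (M : ℝ) ^ (TT m n + 1) := by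
    refine (mul_le_mul_of_nonneg_left h2 (by positivity)).trans ?_
    rw [mul_one]
    exact div_le_div_of_nonneg_right hS1 (by positivity)
  refine (div_le_div_of_nonneg_right h3 (by positivity)).trans (le_of_eq ?_)
  rw [div_div, ← pow_add]

theorem PE2_per {m n M : ℕ} : Per3 M (fun (c : FQQ.Vn (TT m n)) u => ind (ClE M c u)) := by
  intro f f' u u' h1 h2 h3
  have e1 : CgN M f (f0 m n) ↔ CgN M f' (f0 m n) := forall_congr' fun i => HNQ.QE1_dvd (h1 i)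
  have e2 : Cg M u.1 (1, 0, -1) ↔ Cg M u'.1 (1, 0, -1) := by
    unfold Cg
    rw [HNQ.QE1_dvd h2.1, HNQ.QE1_dvd h2.2.1, HNQ.QE1_dvd h2.2.2]
  have e3 : Cg M u.2 (1, 0, -1) ↔ Cg M u'.2 (1, 0, -1) := by
    unfold Cg
    rw [HNQ.QE1_dvd h3.1, HNQ.QE1_dvd h3.2.1, HNQ.QE1_dvd h3.2.2]
  have e : ClE M f u ↔ ClE M f' u' := by
    unfold ClE
    rw [e1, e2, e3]
  show ind (ClE M f u) = ind (ClE M f' u')
  rw [propext e]

theorem PE2_perB {m n p : ℕ} : Per3 p (fun (c : FQQ.Vn (TT m n)) u => ind (BdP p c u)) :=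
  Per3_of (TT m n) p fun c v w => ind (BdF c v w)

theorem PE2_E3B {m n p : ℕ} (hm : 1 ≤ m) (hn : 1 ≤ n) (hp : p.Prime) (h2 : W0 m n ≤ p) :
    E3 (TT m n) p (fun c u => ind (BdP p c u)) ≤ (CB m n : ℝ) / (p : ℝ) ^ 2 := by
  have : Fact p.Prime := ⟨hp⟩
  have : NeZero p := ⟨hp.ne_zero⟩
  have h1 := E3_eq_Av (TT m n) p fun c v w => ind (BdF c v w)
  have h3 : E3 (TT m n) p (fun c u => ind (BdP p c u)) = Av (TT m n) p (fun c v w => ind (BdF c v w)) := h1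
  rw [h3]
  exact Av_BdE hm hn p h2

/-- Proof. Copy `clQ_bad_card` (QE1.lean of MP_10e784_agQ; all its auxiliary lemmas are there) with `Av_BdE` in place of `Av_BdQ`, `TT m n` in place of `5`, `CB m n` in place of `42250000`. -/
theorem clE_bad_card {m n : ℕ} (hm : 1 ≤ m) (hn : 1 ≤ n) {H N M p : ℕ} (hN : 0 < N) (hH : N ≤ H) (hM : 0 < M) (hp : p.Prime)
    (h2 : W0 m n ≤ p) (hc : M.Coprime p) (hq : M * p ≤ 4 * N) :
    (((Bx (TT m n) H N).filter fun s => ClE M s.1 s.2 ∧ BdP p s.1 s.2).card : ℝ) ≤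
      (8 * (H : ℝ)) ^ (TT m n + 1) * (8 * (N : ℝ)) ^ 6 * ((CB m n : ℝ) / ((M : ℝ) ^ (TT m n + 7) * (p : ℝ) ^ 2)) := by
  rw [TA_card (fun c u => ClE M c u ∧ BdP p c u)]
  simp only [HNQ.QE1_ind_and]
  have h1 := box3_mean (m := TT m n) (H := H) (N := N) (q := M * p) hN hH
    (Nat.mul_pos hM hp.pos) hq (fun c u => ind (ClE M c u) * ind (BdP p c u))
    (fun c u => mul_nonneg (ind_nonneg _) (ind_nonneg _)) (PE2_per.mul PE2_perB)
  refine h1.trans ?_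
  refine mul_le_mul_of_nonneg_left ?_ (by positivity)
  rw [E3_mul hM hp.pos hc PE2_per PE2_perB]
  have h2 := PE2_E3B (m := m) (n := n) hm hn hp h2
  have h3 := PE2_E3_cl (m := m) (n := n) hM
  have h4 : (0 : ℝ) ≤ E3 (TT m n) p (fun c u => ind (BdP p c u)) := by
    have h5 := E3_mono (TT m n) p (fun _ _ => (0 : ℝ)) (fun c u => ind (BdP p c u)) fun c u => ind_nonneg _
    rwa [E3_const hp.pos] at h5
  calc E3 (TT m n) M (fun c u => ind (ClE M c u)) * E3 (TT m n) p (fun c u => ind (BdP p c u))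
      ≤ 1 / (M : ℝ) ^ (TT m n + 7) * ((CB m n : ℝ) / (p : ℝ) ^ 2) := mul_le_mul h3 h2 h4 (by positivity)
    _ = (CB m n : ℝ) / ((M : ℝ) ^ (TT m n + 7) * (p : ℝ) ^ 2) := by
        rw [div_mul_div_comm, one_mul]

/-- Proof. Copy `bdQ_card` (QE1.lean). -/
theorem bdE_card {m n : ℕ} (hm : 1 ≤ m) (hn : 1 ≤ n) {H N p : ℕ} (hN : 0 < N) (hH : N ≤ H) (hp : p.Prime) (h2 : W0 m n ≤ p)
    (hq : p ≤ 4 * N) :
    (((Bx (TT m n) H N).filter fun s => BdP p s.1 s.2).card : ℝ) ≤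
      (8 * (H : ℝ)) ^ (TT m n + 1) * (8 * (N : ℝ)) ^ 6 * ((CB m n : ℝ) / (p : ℝ) ^ 2) := by
  rw [TA_card (fun c u => BdP p c u)]
  have h1 := box3_mean (m := TT m n) (H := H) (N := N) (q := p) hN hH hp.pos hq
    (fun c u => ind (BdP p c u)) (fun c u => ind_nonneg _) PE2_perB
  refine h1.trans ?_
  exact mul_le_mul_of_nonneg_left (PE2_E3B hm hn hp h2) (by positivity)

/-- Proof. Copy `clQ_lower` (QE1.lean; `QE1_AP` = `HNF.PE1_AP`), simpler: all coordinates of `f` in `[1, H]`, all coordinates of `u` in `[1, N]`, in their classes modulo `M`. -/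
theorem clE_lower {m n : ℕ} {H N M : ℕ} (hM : 0 < M) (hMN : M ≤ N) (hH : N ≤ H) :
    (H : ℝ) ^ (TT m n + 1) * (N : ℝ) ^ 6 / (2 * (M : ℝ)) ^ (TT m n + 7) ≤
      (((Bx (TT m n) H N).filter fun s => ClE M s.1 s.2 ∧ PosE s.1 s.2).card : ℝ) := by
  have hN0 : 0 < N := lt_of_lt_of_le hM hMN
  have hH0 : 0 < H := lt_of_lt_of_le hN0 hH
  have hM' : (0 : ℝ) < M := by exact_mod_cast hM
  obtain ⟨AH, hAH⟩ : ∃ AH : ℤ → Finset ℤ, AH = fun a => (Icc (1 : ℤ) (H : ℤ)).filter fun x => (M : ℤ) ∣ x - a := ⟨_, rfl⟩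
  obtain ⟨AN, hAN⟩ : ∃ AN : ℤ → Finset ℤ, AN = fun a => (Icc (1 : ℤ) (N : ℤ)).filter fun x => (M : ℤ) ∣ x - a := ⟨_, rfl⟩
  have mAH : ∀ a x, x ∈ AH a ↔ (1 ≤ x ∧ x ≤ (H : ℤ)) ∧ (M : ℤ) ∣ x - a := by
    intro a x
    rw [hAH]
    show x ∈ (Icc (1 : ℤ) (H : ℤ)).filter (fun x => (M : ℤ) ∣ x - a) ↔ _
    rw [Finset.mem_filter, Finset.mem_Icc]
  have mAN : ∀ a x, x ∈ AN a ↔ (1 ≤ x ∧ x ≤ (N : ℤ)) ∧ (M : ℤ) ∣ x - a := by
    intro a x
    rw [hAN]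
    show x ∈ (Icc (1 : ℤ) (N : ℤ)).filter (fun x => (M : ℤ) ∣ x - a) ↔ _
    rw [Finset.mem_filter, Finset.mem_Icc]
  obtain ⟨SF, hSF⟩ : ∃ SF : Finset (FQQ.Vn (TT m n)), SF = Fintype.piFinset fun i : Fin (TT m n + 1) =>
      AH (f0 m n i) := ⟨_, rfl⟩
  obtain ⟨SV, hSV⟩ : ∃ SV : Finset V, SV = AN 1 ×ˢ (AN 0 ×ˢ AN (-1)) := ⟨_, rfl⟩
  have hsub : SF ×ˢ (SV ×ˢ SV) ⊆
      (Bx (TT m n) H N).filter fun s => ClE M s.1 s.2 ∧ PosE s.1 s.2 := by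
    rintro ⟨c, v, w⟩ hs
    rw [Finset.mem_product, Finset.mem_product] at hs
    obtain ⟨h1, h2, h3⟩ := hs
    have h4 : c ∈ SF := h1
    rw [hSF, Fintype.mem_piFinset] at h4
    have hf : ∀ i : Fin (TT m n + 1), (1 ≤ c i ∧ c i ≤ (H : ℤ)) ∧ (M : ℤ) ∣ c i - f0 m n i := by
      intro i
      exact (mAH _ _).1 (h4 i)
    have hv : v ∈ SV := h2
    have hw : w ∈ SV := h3
    rw [hSV, Finset.mem_product, Finset.mem_product, mAN, mAN, mAN] at hv hw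
    rw [Finset.mem_filter, Bx, Finset.mem_product]
    refine ⟨⟨?_, ?_⟩, ⟨fun i => (hf i).2, ⟨hv.1.2, hv.2.1.2, hv.2.2.2⟩, ⟨hw.1.2, hw.2.1.2, hw.2.2.2⟩⟩, ?_⟩
    · rw [boxN, Fintype.mem_piFinset]
      intro i
      rw [Finset.mem_Icc]
      exact ⟨by linarith [(hf i).1.1], (hf i).1.2⟩
    · rw [box2, Finset.mem_product]
      constructor
      · rw [FGO.box, Finset.mem_product, Finset.mem_product, Finset.mem_Icc, Finset.mem_Icc, Finset.mem_Icc]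
        exact ⟨⟨by linarith [hv.1.1.1], hv.1.1.2⟩, ⟨by linarith [hv.2.1.1.1], hv.2.1.1.2⟩,
          ⟨by linarith [hv.2.2.1.1], hv.2.2.1.2⟩⟩
      · rw [FGO.box, Finset.mem_product, Finset.mem_product, Finset.mem_Icc, Finset.mem_Icc, Finset.mem_Icc]
        exact ⟨⟨by linarith [hw.1.1.1], hw.1.1.2⟩, ⟨by linarith [hw.2.1.1.1], hw.2.1.1.2⟩,
          ⟨by linarith [hw.2.2.1.1], hw.2.2.1.2⟩⟩
    · refine ⟨?_, by linarith [hv.1.1.1], by linarith [hw.1.1.1]⟩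
      show 0 < c (Fin.natAdd (2 * m * (2 * n)) ((sg m n).symm (Fin.last (2 * m), Fin.last (2 * n))))
      linarith [(hf (Fin.natAdd (2 * m * (2 * n)) ((sg m n).symm (Fin.last (2 * m), Fin.last (2 * n))))).1.1]
  have hcard := Finset.card_le_card hsub
  have hSFc : ((H : ℝ) / (2 * M)) ^ (TT m n + 1) ≤ (SF.card : ℝ) := by
    rw [hSF, Fintype.card_piFinset, Nat.cast_prod]
    have h3 : ((H : ℝ) / (2 * M)) ^ (TT m n + 1) = ∏ _i : Fin (TT m n + 1), ((H : ℝ) / (2 * M)) := by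
      rw [Finset.prod_const, Finset.card_univ, Fintype.card_fin]
    rw [h3]
    refine Finset.prod_le_prod (fun i _ => by positivity) fun i _ => ?_
    rw [hAH]
    exact HNQ.QE1_AP H M hM (hMN.trans hH) _
  have a1 : ∀ a, (N : ℝ) / (2 * M) ≤ ((AN a).card : ℝ) := fun a => by
    rw [hAN]
    exact HNQ.QE1_AP N M hM hMN a
  have b2 : (0 : ℝ) ≤ (N : ℝ) / (2 * M) := by positivity
  have hSVc : ((N : ℝ) / (2 * M)) * (((N : ℝ) / (2 * M)) * ((N : ℝ) / (2 * M))) ≤ (SV.card : ℝ) := by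
    rw [hSV, Finset.card_product, Finset.card_product]
    push_cast
    exact mul_le_mul (a1 _) (mul_le_mul (a1 _) (a1 _) b2 (Nat.cast_nonneg _)) (mul_nonneg b2 b2) (Nat.cast_nonneg _)
  rw [Finset.card_product, Finset.card_product] at hcard
  have hcR : ((SF.card * (SV.card * SV.card) : ℕ) : ℝ) ≤ _ := Nat.cast_le.2 hcard
  refine le_trans ?_ hcR
  push_cast
  calc (H : ℝ) ^ (TT m n + 1) * (N : ℝ) ^ 6 / (2 * (M : ℝ)) ^ (TT m n + 7)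
      = ((H : ℝ) / (2 * M)) ^ (TT m n + 1) * ((((N : ℝ) / (2 * M)) * (((N : ℝ) / (2 * M)) * ((N : ℝ) / (2 * M)))) *
          (((N : ℝ) / (2 * M)) * (((N : ℝ) / (2 * M)) * ((N : ℝ) / (2 * M))))) := by
        have e1 : (2 * (M : ℝ)) ^ (TT m n + 7) = (2 * (M : ℝ)) ^ (TT m n + 1) * (2 * (M : ℝ)) ^ 6 := by
          rw [← pow_add]
        have e2 : ((N : ℝ) / (2 * M)) * (((N : ℝ) / (2 * M)) * ((N : ℝ) / (2 * M))) *
            (((N : ℝ) / (2 * M)) * (((N : ℝ) / (2 * M)) * ((N : ℝ) / (2 * M)))) = (N : ℝ) ^ 6 / (2 * (M : ℝ)) ^ 6 := by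
          rw [← div_pow]
          ring
        rw [e2, div_pow, e1]
        rw [div_mul_div_comm]
    _ ≤ _ := mul_le_mul hSFc (mul_le_mul hSVc hSVc (by positivity) (Nat.cast_nonneg _)) (by positivity)
        (Nat.cast_nonneg _)

end HNE
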