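import Pool.Agent.Lib.MP_1ad228_ntE.PF2
import Pool.Agent.Lib.MP_1ad228_ntE.PE2
import Pool.Agent.Lib.MP_1ad228_ntE.PC3
import Pool.Agent.Lib.MP_1ad228_ntE.PB2
import Pool.Agent.Lib.MP_1ad228_ntE.EX3
import Pool.Agent.Lib.MP_1ad228_ntG.Po3
import Pool.Agent.Lib.MP_1ad228_ntG.Z0

/-! Part (2): a positive proportion of the surfaces is smooth and soluble everywhere. -/

set_option autoImplicit false

open Classical

namespace HNE

open Finset Polynomial FGO FQQ HNF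

/-- a prime number which does not divide `6 m n`. Proof. `Nat.exists_infinite_primes (6 m n + 1)`. -/
theorem exists_l (m n : ℕ) (hm : 1 ≤ m) (hn : 1 ≤ n) : ∃ l : ℕ, l.Prime ∧ ¬ l ∣ 6 * m * n := by
  obtain ⟨l, h1, h2⟩ := Nat.exists_infinite_primes (6 * m * n + 1)
  refine ⟨l, h2, fun h => ?_⟩
  have h3 : 0 < 6 * m * n := Nat.mul_pos (Nat.mul_pos (by norm_num) hm) hn
  have h4 := Nat.le_of_dvd h3 h
  omega

private theorem PH_fib {α β : Type*} (A : Finset α) (B : Finset β) (P : α × β → Prop) {i1 : DecidablePred P}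
    (C : ℝ) (h : ∑ v ∈ B, ((A.filter fun w => P (w, v)).card : ℝ) ≤ C) :
    (((A ×ˢ B).filter P).card : ℝ) ≤ C := by
  have e : ((A ×ˢ B).filter P).card = ∑ v ∈ B, (A.filter fun w => P (w, v)).card := by
    rw [Finset.card_filter, Finset.sum_product_right]
    refine Finset.sum_congr rfl fun v _ => ?_
    rw [Finset.card_filter]
  rw [e]
  push_cast
  exact h

private theorem PH_boxN (m H : ℕ) (hH : 1 ≤ H) : ((boxN m H).card : ℝ) ≤ (3 * (H : ℝ)) ^ (m + 1) := by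
  unfold boxN
  rw [Fintype.card_piFinset, Finset.prod_const, Z0_card, Finset.card_univ, Fintype.card_fin]
  push_cast
  have h1 : (1 : ℝ) ≤ H := by exact_mod_cast hH
  refine pow_le_pow_left₀ (by positivity) (by linarith) _

private theorem PH_box2 (N : ℕ) (hN : 6 ≤ N) : ((box2 N).card : ℝ) ≤ 729 * (N : ℝ) ^ 6 := by
  rw [box2, card_product]
  push_cast
  have h := Po3_box N hN
  have h0 : (0 : ℝ) ≤ ((FGO.box N).card : ℝ) := Nat.cast_nonneg _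
  calc ((FGO.box N).card : ℝ) * ((FGO.box N).card : ℝ) ≤ (27 * (N : ℝ) ^ 3) * (27 * (N : ℝ) ^ 3) := by gcongr
    _ = 729 * (N : ℝ) ^ 6 := by ring

private theorem PH_union {α : Type*} (B : Finset α) (a b : ℕ) (ha : 1 ≤ a) (Q : ℕ → α → Prop)
    [∀ p, DecidablePred (Q p)] [DecidablePred fun f => ∃ p : ℕ, p.Prime ∧ a < p ∧ p ≤ b ∧ Q p f] (c : ℝ) (hc : 0 ≤ c)
    (h : ∀ p : ℕ, p.Prime → a < p → p ≤ b → ((B.filter (Q p)).card : ℝ) ≤ c / (p : ℝ) ^ 2) :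
    ((B.filter fun f => ∃ p : ℕ, p.Prime ∧ a < p ∧ p ≤ b ∧ Q p f).card : ℝ) ≤ c / a := by
  have h1 : (B.filter fun f => ∃ p : ℕ, p.Prime ∧ a < p ∧ p ≤ b ∧ Q p f) ⊆
      ((Ioc a b).filter Nat.Prime).biUnion fun p => B.filter (Q p) := by
    intro f hf
    rw [mem_filter] at hf
    obtain ⟨hB, p, hp, hzp, hpP, hQ⟩ := hf
    exact mem_biUnion.2 ⟨p, mem_filter.2 ⟨mem_Ioc.2 ⟨hzp, hpP⟩, hp⟩, mem_filter.2 ⟨hB, hQ⟩⟩
  have h2 : (B.filter fun f => ∃ p : ℕ, p.Prime ∧ a < p ∧ p ≤ b ∧ Q p f).card ≤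
      ∑ p ∈ (Ioc a b).filter Nat.Prime, (B.filter (Q p)).card := (card_le_card h1).trans card_biUnion_le
  have ha0 : (0 : ℝ) < a := by exact_mod_cast ha
  have h3 : ∑ p ∈ Ioc a b, ((p : ℝ) ^ 2)⁻¹ ≤ 1 / a := by
    rcases le_total a b with h | h
    · have h4 := sum_Ioc_inv_sq_le_sub (α := ℝ) (by omega : a ≠ 0) h
      have h5 : (0 : ℝ) ≤ (b : ℝ)⁻¹ := by positivity
      rw [one_div]
      linarith
    · rw [Finset.Ioc_eq_empty (by omega), Finset.sum_empty]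
      positivity
  calc ((B.filter fun f => ∃ p : ℕ, p.Prime ∧ a < p ∧ p ≤ b ∧ Q p f).card : ℝ)
      ≤ ((∑ p ∈ (Ioc a b).filter Nat.Prime, (B.filter (Q p)).card : ℕ) : ℝ) := by exact_mod_cast h2
    _ = ∑ p ∈ (Ioc a b).filter Nat.Prime, ((B.filter (Q p)).card : ℝ) := by push_cast; rfl
    _ ≤ ∑ p ∈ (Ioc a b).filter Nat.Prime, c / (p : ℝ) ^ 2 := by
        refine Finset.sum_le_sum fun p hp => ?_
        rw [mem_filter, mem_Ioc] at hp
        exact h p hp.2 hp.1.1 hp.1.2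
    _ ≤ ∑ p ∈ Ioc a b, c / (p : ℝ) ^ 2 := by
        refine Finset.sum_le_sum_of_subset_of_nonneg (Finset.filter_subset _ _) fun p _ _ => ?_
        positivity
    _ = c * ∑ p ∈ Ioc a b, ((p : ℝ) ^ 2)⁻¹ := by
        rw [Finset.mul_sum]
        refine Finset.sum_congr rfl fun p _ => ?_
        rw [div_eq_mul_inv]
    _ ≤ c * (1 / a) := mul_le_mul_of_nonneg_left h3 hc
    _ = c / a := by rw [mul_one_div]

private theorem PH_cop (w p : ℕ) (hp : p.Prime) (hw : 3 ≤ w) (h : w < p) : (8 * primorial w).Coprime p := by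
  rw [Nat.coprime_comm, Nat.Prime.coprime_iff_not_dvd hp]
  intro h1
  rcases (Nat.Prime.dvd_mul hp).1 h1 with h2 | h2
  · have h3 : p ∣ 2 ^ 3 := h2
    have h4 := hp.dvd_of_dvd_pow h3
    have h5 := Nat.le_of_dvd (by norm_num) h4
    omega
  · unfold primorial at h2
    obtain ⟨q, hq, hpq⟩ := hp.prime.exists_mem_finset_dvd h2
    rw [mem_filter, mem_range] at hq
    have h4 := (Nat.prime_dvd_prime_iff_eq hp hq.2).1 hpq
    omega

private theorem PH_dvd (w l : ℕ) (hl : l.Prime) (h : l ≤ w) : l ∣ 8 * primorial w := by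
  refine Dvd.dvd.mul_left ?_ 8
  unfold primorial
  exact Finset.dvd_prod_of_mem (fun p => p) (mem_filter.2 ⟨mem_range.2 (by omega), hl⟩)

private theorem PH_cl {m n M l : ℕ} (hl : l ∣ M) {f : Vn (TT m n)} {u : V × V} (h : ClE M f u) : ClE l f u := by
  have hl' : (l : ℤ) ∣ (M : ℤ) := Int.natCast_dvd_natCast.2 hl
  obtain ⟨h1, h2, h3⟩ := h
  exact ⟨fun i => hl'.trans (h1 i), ⟨hl'.trans h2.1, hl'.trans h2.2.1, hl'.trans h2.2.2⟩,
    ⟨hl'.trans h3.1, hl'.trans h3.2.1, hl'.trans h3.2.2⟩⟩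

private theorem PH_ds {v : V} (h : Cg 8 v (1, 0, -1)) : v.1 ≠ 0 ∧ v.2.2 ≠ 0 ∧ ds v ≠ 0 := by
  obtain ⟨a, b, c⟩ := v
  obtain ⟨⟨x, hx⟩, ⟨y, hy⟩, ⟨z, hz⟩⟩ := h
  push_cast at hx hy hz
  have ha : a = 8 * x + 1 := by linarith
  have hb : b = 8 * y := by linarith
  have hc : c = 8 * z - 1 := by linarith
  refine ⟨?_, ?_, ?_⟩
  · show a ≠ 0
    omega
  · show c ≠ 0
    omega
  · show b ^ 2 - 4 * a * c ≠ 0
    rw [ha, hb, hc]
    intro h
    have e : (8 * y) ^ 2 - 4 * (8 * x + 1) * (8 * z - 1) = 8 * (8 * y ^ 2 - 32 * x * z + 4 * x - 4 * z) + 4 := by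
      ring
    rw [e] at h
    generalize 8 * y ^ 2 - 32 * x * z + 4 * x - 4 * z = k at h
    omega

/-- the conditions of `large_E` -/
private def PH_good (N : ℕ) (u : V × V) : Prop :=
  u.1.1 ≠ 0 ∧ u.1.2.2 ≠ 0 ∧ u.2.1 ≠ 0 ∧ ds u.1 ≠ 0 ∧ ds u.2 ≠ 0 ∧
    (∀ p : ℕ, p.Prime → 4 * N < p → ¬ ((p : ℤ) ∣ ds u.1 ∧ (p : ℤ) ∣ ds u.2))

/-- (part 2) **Proof.** Copy `HNQ.part2_Q` (QH.lean of MP_10e784_agQ, complete proof), simpler: no typical data are needed (no `core_card`, no `nz_card`). `w1` of `els_E`, `l` of `exists_l`; `M = 8 primorial w2` (NEVER compute it; generalize it as soon as the facts are collected) with `w2 ≥ w1, l, W0 m n, 3` and `w2 ≥ 4 · CB m n · 16^(TT + 7)`.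
Facts on `M`: `els_E`; coprime to all primes `p > w2`; `l ∣ M` (so `ClE M` implies `ClE l` and `smooth_E`); `8 ∣ M`; `M > 0`. In the class modulo `M`: `v1 ≡ 1`, `v3 ≡ -1`, `w1 ≡ 1`, `ds v ≡ 4`, `ds w ≡ 4` modulo `8`, so they are not `0`.
`ε = 1 / (2 M)^(TT + 7)`, `X = H^(TT+1) N^6`. `clE_lower`: `≥ ε X` data with `ClE M`, `PosE`. Exceptions: a bad prime `w2 < p ≤ 4 N / M` (`clE_bad_card`, `QH_union`, sum `1 / w2`): `≤ ε X / 4`; a bad prime `4 N / M < p ≤ 4 N` (`bdE_card`; `W0 ≤ 4 N / M` for large `N`): `≤ A1 X / N`; a prime `p > N` dividing both discriminants (`FGO.disc_large`): `≤ A2 X / N`;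
a bad prime `p > 4 N` for a datum with `v1, v3, w1, ds v, ds w ≠ 0` and no prime `> 4 N` dividing both discriminants (`large_E` for each `u ∈ box2 N`, `QH_fib`): `≤ 729 C X / N`. For `N` large the sum of the last three is at most `ε X / 4`. All the others are smooth and have points everywhere (`els_E`, `smooth_E`). `card_DtE`; `N^(K (TT + 1) + 6) = X`. (`TT m n + 1 = 8 m n + 2 m + 2 n + 1` is used in EFin.) -/
theorem part2_E (m n K : ℕ) (hm : 1 ≤ m) (hn : 1 ≤ n) (hK : 5 ≤ K) : ∃ c : ℝ, 0 < c ∧ ∃ N₀ : ℕ, ∀ N : ℕ, N₀ ≤ N →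
    c * (N : ℝ) ^ (K * (TT m n + 1) + 6) ≤
      (Nat.card {q : Dt m n // InBox (N ^ K) N q ∧ Smooth q ∧ HasPoint ℝ q ∧ ∀ (p : ℕ) [Fact p.Prime], HasPoint ℚ_[p] q} : ℝ) := by
  obtain ⟨w1, hw1, hels⟩ := els_E hm hn
  obtain ⟨l, hl, hl6⟩ := exists_l m n hm hn
  obtain ⟨CL, hCL, N1, hN1, hlarge⟩ := large_E hm hn
  obtain ⟨w2, hw24, hw23, hw2w, hw2l, hw2W⟩ : ∃ w2 : ℕ, 4 * CB m n * 16 ^ (TT m n + 7) ≤ w2 ∧ 3 ≤ w2 ∧ w1 ≤ w2 ∧
      l ≤ w2 ∧ W0 m n ≤ w2 :=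
    ⟨4 * CB m n * 16 ^ (TT m n + 7) + (3 + (w1 + (l + W0 m n))), by omega, by omega, by omega, by omega, by omega⟩
  have hE2 := hels w2 hw2w
  have hlM : l ∣ 8 * primorial w2 := PH_dvd w2 l hl hw2l
  have h8M : 8 ∣ 8 * primorial w2 := Dvd.intro _ rfl
  have hcop : ∀ p : ℕ, p.Prime → w2 < p → (8 * primorial w2).Coprime p := fun p hp h => PH_cop w2 p hp hw23 h
  have hMpos : 0 < 8 * primorial w2 := Nat.mul_pos (by norm_num) (primorial_pos w2)
  generalize 8 * primorial w2 = M at hE2 hcop hMpos hlM h8M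
  have hSm : ∀ (f : Vn (TT m n)) (u : V × V), ClE M f u → Smooth (toDt f u) :=
    fun f u h => smooth_E hm hn l hl hl6 f u (PH_cl hlM h)
  have hM0 : (0 : ℝ) < M := by exact_mod_cast hMpos
  obtain ⟨ε, hε⟩ : ∃ ε : ℝ, ε = 1 / (2 * (M : ℝ)) ^ (TT m n + 7) := ⟨_, rfl⟩
  have hε0 : 0 < ε := by rw [hε]; positivity
  obtain ⟨A, hA⟩ : ∃ A : ℝ, A = (CB m n : ℝ) * 8 ^ (TT m n + 7) * M + 1701 * 3 ^ (TT m n + 1) + 729 * CL :=
    ⟨_, rfl⟩
  have hA0 : 0 < A := by rw [hA]; positivity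
  refine ⟨ε / 2, by positivity, max (max N1 (M * (W0 m n + 4))) (max M ⌈4 * A / ε⌉₊), fun N hN => ?_⟩
  have hNN1 : N1 ≤ N := (le_max_left _ _).trans ((le_max_left _ _).trans hN)
  have hNW : M * (W0 m n + 4) ≤ N := (le_max_right _ _).trans ((le_max_left _ _).trans hN)
  have hNM : M ≤ N := (le_max_left _ _).trans ((le_max_right _ _).trans hN)
  have hNA : ⌈4 * A / ε⌉₊ ≤ N := (le_max_right _ _).trans ((le_max_right _ _).trans hN)
  have hN16 : 16 ≤ N := hN1.trans hNN1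
  have hNpos : 0 < N := by omega
  have hNr : (1 : ℝ) ≤ N := by exact_mod_cast hNpos
  have hNr0 : (0 : ℝ) < N := by linarith
  obtain ⟨H, hH⟩ : ∃ H : ℕ, H = N ^ K := ⟨_, rfl⟩
  have hHr : (H : ℝ) = (N : ℝ) ^ K := by rw [hH]; push_cast; rfl
  have hN5 : N ^ 5 ≤ H := by
    rw [hH]
    exact Nat.pow_le_pow_right hNpos (by omega)
  have hNH : N ≤ H := by
    rw [hH]
    exact Nat.le_self_pow (by omega) N
  have hNHr : (N : ℝ) ≤ H := by exact_mod_cast hNH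
  have hHr0 : (0 : ℝ) < H := by linarith
  have hH1 : 1 ≤ H := by omega
  obtain ⟨X, hX⟩ : ∃ X : ℝ, X = (H : ℝ) ^ (TT m n + 1) * (N : ℝ) ^ 6 := ⟨_, rfl⟩
  have hX0 : 0 < X := by rw [hX]; positivity
  have hX1 : (N : ℝ) ^ (K * (TT m n + 1) + 6) = X := by
    rw [hX, hHr, pow_add, ← pow_mul]
  have e8 : (8 * (H : ℝ)) ^ (TT m n + 1) * (8 * (N : ℝ)) ^ 6 = 8 ^ (TT m n + 7) * X := by
    rw [hX, mul_pow, mul_pow, show TT m n + 7 = (TT m n + 1) + 6 by omega, pow_add (8 : ℝ) (TT m n + 1) 6]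
    ring
  obtain ⟨Pr, hPr⟩ : ∃ Pr : Dt m n → Prop, Pr = fun q => Smooth q ∧ HasPoint ℝ q ∧ ∀ (p : ℕ) [Fact p.Prime], HasPoint ℚ_[p] q :=
    ⟨_, rfl⟩
  have hcount : Nat.card {q : Dt m n // InBox (N ^ K) N q ∧ Smooth q ∧ HasPoint ℝ q ∧ ∀ (p : ℕ) [Fact p.Prime], HasPoint ℚ_[p] q} =
      Nat.card {q : Dt m n // InBox H N q ∧ Pr q} := by
    rw [hPr, hH]
  rw [hX1, hcount, card_DtE]
  -- the lower bound
  have hlow := clE_lower (m := m) (n := n) hMpos hNM hNH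
  rw [← hX] at hlow
  have hlow2 : X * ε ≤ (((Bx (TT m n) H N).filter fun s => ClE M s.1 s.2 ∧ PosE s.1 s.2).card : ℝ) := by
    refine le_trans (le_of_eq ?_) hlow
    rw [hε]
    ring
  -- the error terms
  have hqW : W0 m n + 4 ≤ 4 * N / M := by
    rw [Nat.le_div_iff_mul_le hMpos]
    calc (W0 m n + 4) * M = M * (W0 m n + 4) := by ring
      _ ≤ N := hNW
      _ ≤ 4 * N := by omega
  have hq1 : 1 ≤ 4 * N / M := by omega
  have ea := PH_union (Bx (TT m n) H N) w2 (4 * N / M) (by omega) (fun p s => ClE M s.1 s.2 ∧ BdP p s.1 s.2)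
    ((8 * (H : ℝ)) ^ (TT m n + 1) * (8 * (N : ℝ)) ^ 6 * ((CB m n : ℝ) / (M : ℝ) ^ (TT m n + 7))) (by positivity) (by
      intro p hp h1 h2
      have h3 : M * p ≤ 4 * N := by
        rw [mul_comm]
        exact (Nat.le_div_iff_mul_le hMpos).1 h2
      have h4 := clE_bad_card hm hn hNpos hNH hMpos hp (by omega) (hcop p hp h1) h3
      refine h4.trans (le_of_eq ?_)
      have hp0 : (p : ℝ) ≠ 0 := by
        have := hp.pos
        positivity
      field_simp)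
  have eb := PH_union (Bx (TT m n) H N) (4 * N / M) (4 * N) hq1 (fun p s => BdP p s.1 s.2)
    ((8 * (H : ℝ)) ^ (TT m n + 1) * (8 * (N : ℝ)) ^ 6 * (CB m n : ℝ)) (by positivity) (by
      intro p hp h1 h2
      have h4 := bdE_card hm hn hNpos hNH hp (by omega) h2
      refine h4.trans (le_of_eq ?_)
      ring)
  have ba : (8 * (H : ℝ)) ^ (TT m n + 1) * (8 * (N : ℝ)) ^ 6 * ((CB m n : ℝ) / (M : ℝ) ^ (TT m n + 7)) / (w2 : ℝ) ≤
      X * ε / 4 := by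
    have hw : (0 : ℝ) < w2 := by
      have : 0 < w2 := by omega
      exact_mod_cast this
    rw [e8, div_le_iff₀ hw]
    have h1 : (4 : ℝ) * (CB m n : ℝ) * 16 ^ (TT m n + 7) ≤ w2 := by exact_mod_cast hw24
    have h16 : (16 : ℝ) ^ (TT m n + 7) = 8 ^ (TT m n + 7) * 2 ^ (TT m n + 7) := by
      rw [← mul_pow]
      norm_num
    have h2 : X * ε / 4 * (4 * (CB m n : ℝ) * 16 ^ (TT m n + 7)) =
        8 ^ (TT m n + 7) * X * ((CB m n : ℝ) / (M : ℝ) ^ (TT m n + 7)) := by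
      rw [hε, h16, mul_pow]
      generalize (8 : ℝ) ^ (TT m n + 7) = y8
      have hy2 : (2 : ℝ) ^ (TT m n + 7) ≠ 0 := by positivity
      have hyM : (M : ℝ) ^ (TT m n + 7) ≠ 0 := by positivity
      generalize (2 : ℝ) ^ (TT m n + 7) = y2 at *
      generalize (M : ℝ) ^ (TT m n + 7) = yM at *
      field_simp
    rw [← h2]
    exact mul_le_mul_of_nonneg_left h1 (by positivity)
  have bb : (8 * (H : ℝ)) ^ (TT m n + 1) * (8 * (N : ℝ)) ^ 6 * (CB m n : ℝ) / ((4 * N / M : ℕ) : ℝ) ≤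
      X * ((CB m n : ℝ) * 8 ^ (TT m n + 7) * M / N) := by
    have h1 : (N : ℝ) ≤ M * ((4 * N / M : ℕ) : ℝ) := by
      have h2 := Nat.div_add_mod (4 * N) M
      have h3 := Nat.mod_lt (4 * N) hMpos
      have h4 : N ≤ M * (4 * N / M) := by omega
      exact_mod_cast h4
    have h0 : (0 : ℝ) < ((4 * N / M : ℕ) : ℝ) := by
      have : 0 < 4 * N / M := by omega
      exact_mod_cast this
    rw [e8, div_le_iff₀ h0]
    generalize (8 : ℝ) ^ (TT m n + 7) = y8 at *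
    have hCB : (0 : ℝ) ≤ (CB m n : ℝ) := Nat.cast_nonneg _
    have hy8 : 0 ≤ y8 := by
      by_contra hcon
      have h5 : y8 * X < 0 := mul_neg_of_neg_of_pos (not_le.1 hcon) hX0
      have h6 : (0 : ℝ) ≤ (8 * (H : ℝ)) ^ (TT m n + 1) * (8 * (N : ℝ)) ^ 6 := by positivity
      linarith
    calc y8 * X * (CB m n : ℝ) = X * (CB m n * y8) * (N / N) := by
          rw [div_self hNr0.ne']
          ring
      _ = X * (CB m n * y8 / N) * N := by ring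
      _ ≤ X * (CB m n * y8 / N) * (M * ((4 * N / M : ℕ) : ℝ)) := by
        refine mul_le_mul_of_nonneg_left h1 (by positivity)
      _ = _ := by ring
  -- both discriminants
  have bd : (((Bx (TT m n) H N).filter fun s => s.2.1.1 ≠ 0 ∧ s.2.2.1 ≠ 0 ∧ ∃ p : ℕ, p.Prime ∧ N < p ∧
      (p : ℤ) ∣ disc s.2.1 ∧ (p : ℤ) ∣ disc s.2.2).card : ℝ) ≤ X * (1701 * 3 ^ (TT m n + 1) / N) := by
    have h1 : (((Bx (TT m n) H N).filter fun s => s.2.1.1 ≠ 0 ∧ s.2.2.1 ≠ 0 ∧ ∃ p : ℕ, p.Prime ∧ N < p ∧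
      (p : ℤ) ∣ disc s.2.1 ∧ (p : ℤ) ∣ disc s.2.2)) = boxN (TT m n) H ×ˢ ((box2 N).filter fun u =>
        u.1.1 ≠ 0 ∧ u.2.1 ≠ 0 ∧ ∃ p : ℕ, p.Prime ∧ N < p ∧ (p : ℤ) ∣ disc u.1 ∧ (p : ℤ) ∣ disc u.2) := by
      ext s
      unfold Bx
      simp only [mem_filter, mem_product]
      constructor
      · rintro ⟨⟨h1, h2⟩, h3⟩
        exact ⟨h1, h2, h3⟩
      · rintro ⟨h1, h2, h3⟩
        exact ⟨⟨h1, h2⟩, h3⟩
    rw [h1, card_product]
    push_cast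
    have h2 := PH_boxN (TT m n) H hH1
    have h3 := disc_large N (by omega)
    calc _ ≤ (3 * (H : ℝ)) ^ (TT m n + 1) * (1701 * (N : ℝ) ^ 5) := by gcongr
      _ = X * (1701 * 3 ^ (TT m n + 1) / N) := by
        rw [hX, mul_pow]
        field_simp
  -- large primes
  have bf : (((Bx (TT m n) H N).filter fun s => PH_good N s.2 ∧
      ∃ p : ℕ, p.Prime ∧ 4 * N < p ∧ BdP p s.1 s.2).card : ℝ) ≤ X * (729 * CL / N) := by
    unfold Bx
    refine PH_fib _ _ _ _ ?_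
    have h1 : ∀ u ∈ box2 N, (((boxN (TT m n) H).filter fun f => PH_good N (f, u).2 ∧
        ∃ p : ℕ, p.Prime ∧ 4 * N < p ∧ BdP p (f, u).1 (f, u).2).card : ℝ) ≤
        CL * (H : ℝ) ^ (TT m n + 1) / N := by
      intro u hu
      by_cases hgu : PH_good N u
      · obtain ⟨g1, g2, g3, g4, g5, g6⟩ := hgu
        have h2 := hlarge H N hNN1 hN5 u hu g1 g2 g3 g4 g5 g6
        refine le_trans ?_ h2
        have h3 : ((boxN (TT m n) H).filter fun f => PH_good N (f, u).2 ∧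
            ∃ p : ℕ, p.Prime ∧ 4 * N < p ∧ BdP p (f, u).1 (f, u).2) ⊆
            (boxN (TT m n) H).filter fun f => ∃ p : ℕ, p.Prime ∧ 4 * N < p ∧ BdP p f u := by
          intro f hf
          rw [mem_filter] at hf ⊢
          exact ⟨hf.1, hf.2.2⟩
        exact_mod_cast card_le_card h3
      · have h3 : ((boxN (TT m n) H).filter fun f => PH_good N (f, u).2 ∧
            ∃ p : ℕ, p.Prime ∧ 4 * N < p ∧ BdP p (f, u).1 (f, u).2) = ∅ :=
          Finset.filter_eq_empty_iff.2 fun f _ hf => hgu hf.1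
        rw [h3, card_empty, Nat.cast_zero]
        positivity
    refine (Finset.sum_le_sum h1).trans ?_
    rw [Finset.sum_const, nsmul_eq_mul]
    have h2 := PH_box2 N (by omega)
    calc ((box2 N).card : ℝ) * (CL * (H : ℝ) ^ (TT m n + 1) / N) ≤
          (729 * (N : ℝ) ^ 6) * (CL * (H : ℝ) ^ (TT m n + 1) / N) :=
          mul_le_mul_of_nonneg_right h2 (by positivity)
      _ = X * (729 * CL / N) := by
        rw [hX]
        ring
  -- the inclusion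
  have hsub : (Bx (TT m n) H N).filter (fun s => ClE M s.1 s.2 ∧ PosE s.1 s.2) ⊆
      (Bx (TT m n) H N).filter (fun s => Pr (toDt s.1 s.2)) ∪
        ((Bx (TT m n) H N).filter (fun s => ∃ p : ℕ, p.Prime ∧ w2 < p ∧ p ≤ 4 * N / M ∧ ClE M s.1 s.2 ∧ BdP p s.1 s.2) ∪
          ((Bx (TT m n) H N).filter (fun s => ∃ p : ℕ, p.Prime ∧ 4 * N / M < p ∧ p ≤ 4 * N ∧ BdP p s.1 s.2) ∪
            ((Bx (TT m n) H N).filter (fun s => s.2.1.1 ≠ 0 ∧ s.2.2.1 ≠ 0 ∧ ∃ p : ℕ, p.Prime ∧ N < p ∧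
                (p : ℤ) ∣ disc s.2.1 ∧ (p : ℤ) ∣ disc s.2.2) ∪
                (Bx (TT m n) H N).filter (fun s => PH_good N s.2 ∧
                    ∃ p : ℕ, p.Prime ∧ 4 * N < p ∧ BdP p s.1 s.2)))) := by
    intro s hs
    rw [mem_filter] at hs
    obtain ⟨hB, hcl, hpos⟩ := hs
    simp only [mem_union, mem_filter]
    by_cases hc : ∀ p : ℕ, p.Prime → w2 < p → ¬ BdP p s.1 s.2
    · refine Or.inl ⟨hB, ?_⟩
      rw [hPr]
      exact ⟨hSm s.1 s.2 hcl, hE2 s.1 s.2 hcl hpos hc⟩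
    · push Not at hc
      obtain ⟨p, hp, hwp, hbad⟩ := hc
      by_cases h4 : p ≤ 4 * N / M
      · exact Or.inr (Or.inl ⟨hB, p, hp, hwp, h4, hcl, hbad⟩)
      by_cases h5 : p ≤ 4 * N
      · exact Or.inr (Or.inr (Or.inl ⟨hB, p, hp, by omega, h5, hbad⟩))
      have hcl8 := PH_cl h8M hcl
      obtain ⟨v1, v3, dv⟩ := PH_ds hcl8.2.1
      obtain ⟨v2, -, dw⟩ := PH_ds hcl8.2.2
      by_cases h7 : ∃ p : ℕ, p.Prime ∧ N < p ∧ (p : ℤ) ∣ disc s.2.1 ∧ (p : ℤ) ∣ disc s.2.2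
      · exact Or.inr (Or.inr (Or.inr (Or.inl ⟨hB, v1, v2, h7⟩)))
      · refine Or.inr (Or.inr (Or.inr (Or.inr ⟨hB, ⟨v1, v3, v2, dv, dw, ?_⟩, p, hp, by omega, hbad⟩)))
        intro p' hp' hN' h9
        exact h7 ⟨p', hp', by omega, h9.1, h9.2⟩
  have hc2 := (card_le_card hsub).trans ((card_union_le _ _).trans (Nat.add_le_add_left ((card_union_le _ _).trans
    (Nat.add_le_add_left ((card_union_le _ _).trans (Nat.add_le_add_left (card_union_le _ _) _)) _)) _))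
  have hc3 : (((Bx (TT m n) H N).filter (fun s => ClE M s.1 s.2 ∧ PosE s.1 s.2)).card : ℝ) ≤
      (((Bx (TT m n) H N).filter (fun s => Pr (toDt s.1 s.2))).card : ℝ) +
        ((((Bx (TT m n) H N).filter (fun s => ∃ p : ℕ, p.Prime ∧ w2 < p ∧ p ≤ 4 * N / M ∧ ClE M s.1 s.2 ∧ BdP p s.1 s.2)).card : ℝ) +
          ((((Bx (TT m n) H N).filter (fun s => ∃ p : ℕ, p.Prime ∧ 4 * N / M < p ∧ p ≤ 4 * N ∧ BdP p s.1 s.2)).card : ℝ) +
            ((((Bx (TT m n) H N).filter (fun s => s.2.1.1 ≠ 0 ∧ s.2.2.1 ≠ 0 ∧ ∃ p : ℕ, p.Prime ∧ N < p ∧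
                (p : ℤ) ∣ disc s.2.1 ∧ (p : ℤ) ∣ disc s.2.2)).card : ℝ) +
                (((Bx (TT m n) H N).filter (fun s => PH_good N s.2 ∧
                    ∃ p : ℕ, p.Prime ∧ 4 * N < p ∧ BdP p s.1 s.2)).card : ℝ)))) := by
    exact_mod_cast hc2
  have hNA2 : 4 * A / ε ≤ N := (Nat.le_ceil _).trans (by exact_mod_cast hNA)
  have hAN : X * (A / N) ≤ X * ε / 4 := by
    have h1 : A / N ≤ ε / 4 := by
      rw [div_le_div_iff₀ hNr0 (by norm_num)]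
      rw [div_le_iff₀ hε0] at hNA2
      linarith
    calc X * (A / N) ≤ X * (ε / 4) := mul_le_mul_of_nonneg_left h1 hX0.le
      _ = X * ε / 4 := by ring
  have hsplit : X * (A / N) = X * ((CB m n : ℝ) * 8 ^ (TT m n + 7) * M / N) + X * (1701 * 3 ^ (TT m n + 1) / N) +
      X * (729 * CL / N) := by
    rw [hA]
    ring
  have hgoal : ε / 2 * X = X * ε - X * ε / 4 - X * ε / 4 := by ring
  rw [hgoal]
  linarith

end HNE
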