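import Pool.Agent.Lib.MP_1ad228_ntE.EM
import Pool.Agent.Lib.MP_1ad228_ntE.PH

/-! The theorem. -/

set_option autoImplicit false

open Classical

namespace HNE

theorem cyc_E (m n K : ℕ) (hm : 1 ≤ m) (hn : 1 ≤ n) (hK : m + n + 3 ≤ K) :
    (∃ C : ℝ, ∀ N : ℕ, 16 ≤ N →
      (Nat.card {q : Dt m n // InBox (N ^ K) N q ∧ (Adelic q ∨ Global q)} : ℝ) ≤
        C * (N : ℝ) ^ ((8 * m * n + 2 * m + 2 * n + 1) * K + 6) / Real.log (Real.log N)) ∧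
    (∃ c : ℝ, 0 < c ∧ ∃ N₀ : ℕ, ∀ N : ℕ, N₀ ≤ N → c * (N : ℝ) ^ ((8 * m * n + 2 * m + 2 * n + 1) * K + 6) ≤
      (Nat.card {q : Dt m n // InBox (N ^ K) N q ∧ Smooth q ∧ HasPoint ℝ q ∧
        ∀ (p : ℕ) [Fact p.Prime], HasPoint ℚ_[p] q} : ℝ)) := by
  have e : (8 * m * n + 2 * m + 2 * n + 1) * K + 6 = K * (TT m n + 1) + 6 := by
    unfold TT MM
    ring
  rw [e]
  obtain ⟨C, -, h1⟩ := part1_E m n K hm hn hK
  exact ⟨⟨C, h1⟩, part2_E m n K hm hn (by omega)⟩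

end HNE
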