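import Pool.Agent.Lib.MP_1ad228_nt.ZDefs

/-!
# MP_1ad228_nt: zero-cycles on the surfaces `X = Y / (s, s', r) ↦ (-s, -s', -r)`,
# `Y : s² = v(x, z), s'² = w(y, t), r² = G(x, z; y, t) + s s' H(x, z; y, t)`: the definitions of the statement

`v`, `w` are binary quadratic forms, `G` is a form of bidegree `(2 m, 2 n)`, `H` a form of bidegree `(2 m - 1, 2 n - 1)`, all over `ℤ`.
With `a = s s'`, `b = s r`, `c = s' r`, `D = G + a H` the surface `X` is given by the condition that the symmetric matrix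
`[[v, a, b], [a, w, c], [b, c, D]]` has rank at most one.  For `m = n = 1` these are Enriques surfaces (Horikawa's model).
-/

set_option autoImplicit false

namespace HNE

/-- the data of a surface: `((v, w), (G, H))`; `v = (a, b, c)` is the form `a x² + b x z + c z²`, and `G i j` is the coefficient of
`x^i z^(2m-i) y^j t^(2n-j)` in `G`, `H i j` the coefficient of `x^i z^(2m-1-i) y^j t^(2n-1-j)` in `H` -/
abbrev Dt (m n : ℕ) : Type :=
  ((ℤ × ℤ × ℤ) × (ℤ × ℤ × ℤ)) × ((Fin (2 * m + 1) → Fin (2 * n + 1) → ℤ) × (Fin (2 * m) → Fin (2 * n) → ℤ))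

section ring

variable {F : Type} [CommRing F] {m n : ℕ}

/-- the value of the quadratic form `v` at `(x, z)` -/
def vV (v : ℤ × ℤ × ℤ) (x z : F) : F := (v.1 : F) * x ^ 2 + (v.2.1 : F) * x * z + (v.2.2 : F) * z ^ 2

/-- the value at `(x, z; y, t)` of the form of bidegree `(k - 1, l - 1)` with the coefficients `G` -/
def vB {k l : ℕ} (G : Fin k → Fin l → ℤ) (x z y t : F) : F :=
  ∑ i : Fin k, ∑ j : Fin l, (G i j : F) * (x ^ (i : ℕ) * z ^ (k - 1 - (i : ℕ))) * (y ^ (j : ℕ) * t ^ (l - 1 - (j : ℕ)))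

/-- the value of `v`; the coordinates are `P = (x, z, y, t, a, b, c)` -/
def fV (q : Dt m n) (P : Fin 7 → F) : F := vV q.1.1 (P 0) (P 1)

/-- the value of `w` -/
def fW (q : Dt m n) (P : Fin 7 → F) : F := vV q.1.2 (P 2) (P 3)

/-- the value of `D = G + a H` -/
def fD (q : Dt m n) (P : Fin 7 → F) : F :=
  vB q.2.1 (P 0) (P 1) (P 2) (P 3) + P 4 * vB q.2.2 (P 0) (P 1) (P 2) (P 3)

/-- the six equations of the surface: `a² = v w`, `b² = v D`, `c² = w D`, `a b = v c`, `a c = w b`, `b c = D a` -/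
def eqs (q : Dt m n) (P : Fin 7 → F) : Fin 6 → F :=
  ![P 4 ^ 2 - fV q P * fW q P, P 5 ^ 2 - fV q P * fD q P, P 6 ^ 2 - fW q P * fD q P,
    P 4 * P 5 - fV q P * P 6, P 4 * P 6 - fW q P * P 5, P 5 * P 6 - fD q P * P 4]

/-- `P` are the coordinates of a point of the surface -/
def IsPt (q : Dt m n) (P : Fin 7 → F) : Prop :=
  ¬ (P 0 = 0 ∧ P 1 = 0) ∧ ¬ (P 2 = 0 ∧ P 3 = 0) ∧ eqs q P = 0

end ring

/-- The surface has a point over the field `F`. -/
def HasPoint (F : Type) [Field F] {m n : ℕ} (q : Dt m n) : Prop := ∃ P : Fin 7 → F, IsPt q P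

/-- The surface is smooth: at every complex point the matrix of the partial derivatives of the six equations with respect to the
seven coordinates has rank (at least, hence equal to) three. -/
def Smooth {m n : ℕ} (q : Dt m n) : Prop :=
  ∀ P : Fin 7 → ℂ, IsPt q P →
    3 ≤ (Matrix.of fun (i : Fin 6) (j : Fin 7) =>
      MvPolynomial.aeval P (MvPolynomial.pderiv j (eqs q (MvPolynomial.X : Fin 7 → MvPolynomial (Fin 7) ℤ) i))).rank

/-- The coefficients of `v`, `w` are at most `N`, those of `G`, `H` at most `B` in absolute value. -/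
def InBox {m n : ℕ} (B N : ℕ) (q : Dt m n) : Prop :=
  (|q.1.1.1| ≤ N ∧ |q.1.1.2.1| ≤ N ∧ |q.1.1.2.2| ≤ N) ∧ (|q.1.2.1| ≤ N ∧ |q.1.2.2.1| ≤ N ∧ |q.1.2.2.2| ≤ N) ∧
    (∀ i j, |q.2.1 i j| ≤ B) ∧ (∀ i j, |q.2.2 i j| ≤ B)

/-- A point of the surface with coordinates in a finite extension `K` of `F`. -/
structure Pt (F : Type) [Field F] {m n : ℕ} (q : Dt m n) where
  K : Type
  [field : Field K]
  [alg : Algebra F K]
  [fin : FiniteDimensional F K]
  P : Fin 7 → K
  isPt : IsPt q P

attribute [instance] Pt.field Pt.alg Pt.fin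

open Classical in
/-- The value at `P` of the function `v`, up to squares.  (If `v` vanishes at `P` we use `w` or `D`, which are the same functions
up to squares, since `v w = a²`, `v D = b²`, `w D = c²`.) -/
noncomputable def Pt.val {F : Type} [Field F] {m n : ℕ} {q : Dt m n} (P : Pt F q) : P.K :=
  if fV q P.P ≠ 0 then fV q P.P else if fW q P.P ≠ 0 then fW q P.P else fD q P.P

/-- A zero-cycle on the surface over `F`: a formal integral combination of points over finite extensions. -/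
abbrev Cyc (F : Type) [Field F] {m n : ℕ} (q : Dt m n) := List (ℤ × Pt F q)

/-- The degree of a zero-cycle. -/
noncomputable def Cyc.deg {F : Type} [Field F] {m n : ℕ} {q : Dt m n} (z : Cyc F q) : ℤ :=
  (z.map fun r => r.1 * (Module.finrank F r.2.K : ℤ)).sum

/-- The value of the function `v` at a zero-cycle, an element of `F*` modulo squares: for every `β ∈ F*` the value
of the Brauer class `(v, β)` at the zero-cycle is the class of the quaternion algebra `(z.cls, β)`. -/
noncomputable def Cyc.cls {F : Type} [Field F] {m n : ℕ} {q : Dt m n} (z : Cyc F q) : F :=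
  (z.map fun r => (Algebra.norm F r.2.val) ^ r.1).prod

/-- There is a family of zero-cycles, one for each place of `ℚ`, of odd degree at all primes `p`, which is orthogonal to all the
Brauer classes `(v, β)`, `β ∈ ℚ*`. -/
def Adelic {m n : ℕ} (q : Dt m n) : Prop :=
  ∃ (z : ∀ (p : ℕ) [Fact p.Prime], Cyc ℚ_[p] q) (z₀ : Cyc ℝ q),
    (∀ (p : ℕ) [Fact p.Prime], Odd (z p).deg) ∧
    ∀ β : ℚ, β ≠ 0 → ZC.SumZero (fun p _ => (z p).cls) z₀.cls β

/-- There is a zero-cycle of odd degree over `ℚ`. -/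
def Global {m n : ℕ} (q : Dt m n) : Prop :=
  ∃ z : Cyc ℚ q, Odd z.deg

end HNE
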