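import Pool.Agent.Lib.MP_1ad228_ntE.EBase

/-! The numbering of the monomials. -/

set_option autoImplicit false

open Classical

namespace HNE

open Finset Polynomial FGO FQQ HNF

theorem EA0_ext {α β : Type} [Fintype β] (τ : α ≃ β) (ι : Fin 4 → α)
    (hι : Function.Injective ι) (g : Fin 4 → β) (hg : Function.Injective g) :
    ∃ σ : α ≃ β, ∀ k, σ (ι k) = g k := by
  have hτ : Function.Injective (τ ∘ ι) := τ.injective.comp hι
  let e : {x // x ∈ Set.range (τ ∘ ι)} ≃ {x // x ∈ Set.range g} :=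
    (Equiv.ofInjective (τ ∘ ι) hτ).symm.trans (Equiv.ofInjective g hg)
  refine ⟨τ.trans e.extendSubtype, fun k => ?_⟩
  have h := e.extendSubtype_apply_of_mem (τ (ι k)) ⟨k, rfl⟩
  rw [Equiv.trans_apply, h]
  have h2 : (⟨τ (ι k), ⟨k, rfl⟩⟩ : {x // x ∈ Set.range (τ ∘ ι)}) = Equiv.ofInjective (τ ∘ ι) hτ k := rfl
  rw [h2]
  show ((Equiv.ofInjective g hg) ((Equiv.ofInjective (τ ∘ ι) hτ).symm
    (Equiv.ofInjective (τ ∘ ι) hτ k)) : β) = g k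
  rw [Equiv.symm_apply_apply]
  rfl

theorem EA0_MM {m n : ℕ} (hm : 1 ≤ m) (hn : 1 ≤ n) : 4 ≤ MM m n := by
  show 4 ≤ 2 * m * (2 * n) + 2 * m + 2 * n
  have h := Nat.zero_le (2 * m * (2 * n))
  omega

theorem sg_exists {m n : ℕ} (hm : 1 ≤ m) (hn : 1 ≤ n) :
    ∃ σ : Fin (MM m n + 1) ≃ Fin (2 * m + 1) × Fin (2 * n + 1), SgOK σ := by
  have hM := EA0_MM hm hn
  let ι : Fin 4 → Fin (MM m n + 1) := fun k => ⟨k.1, by have := k.2; omega⟩
  have hι : Function.Injective ι := fun a b h => Fin.ext (congrArg (fun x : Fin (MM m n + 1) => x.1) h)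
  let g : Fin 4 → Fin (2 * m + 1) × Fin (2 * n + 1) :=
    fun k => (⟨k.1 % 2, by omega⟩, ⟨k.1 / 2, by have := k.2; omega⟩)
  have hg : Function.Injective g := by
    intro a b h
    have h1 : a.1 % 2 = b.1 % 2 := congrArg (fun p => (p.1 : ℕ)) h
    have h2 : a.1 / 2 = b.1 / 2 := congrArg (fun p => (p.2 : ℕ)) h
    apply Fin.ext
    omega
  obtain ⟨σ, hσ⟩ := EA0_ext (Fintype.equivOfCardEq (MM_card m n)) ι hι g hg
  have key : ∀ (k : Fin 4) (i : Fin (MM m n + 1)), (i : ℕ) = k → σ i = g k := by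
    intro k i hi
    have h : i = ι k := Fin.ext hi
    rw [h, hσ]
  refine ⟨σ, ?_, ?_, ?_, ?_⟩
  · intro i hi
    rw [key 0 i hi]
    exact ⟨rfl, rfl⟩
  · intro i hi
    rw [key 1 i hi]
    exact ⟨rfl, rfl⟩
  · intro i hi
    rw [key 2 i hi]
    exact ⟨rfl, rfl⟩
  · intro i hi
    rw [key 3 i hi]
    exact ⟨rfl, rfl⟩

theorem sg_ok {m n : ℕ} (hm : 1 ≤ m) (hn : 1 ≤ n) : SgOK (sg m n) := by
  have h := sg_exists hm hn
  unfold sg
  rw [dif_pos h]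
  exact h.choose_spec

theorem EA0_eE {m n : ℕ} (i : Fin (MM m n + 1)) :
    eE m n i = (((sg m n i).1 : ℕ), ((sg m n i).2 : ℕ)) := by
  unfold eE
  rw [dif_pos i.2]

theorem Mon_eE {m n : ℕ} (hm : 1 ≤ m) (hn : 1 ≤ n) : Mon (MM m n) (eE m n) := by
  have hM := EA0_MM hm hn
  obtain ⟨h0, h1, h2, h3⟩ := sg_ok hm hn
  have key : ∀ j (hj : j < MM m n + 1), eE m n j =
      (((sg m n ⟨j, hj⟩).1 : ℕ), ((sg m n ⟨j, hj⟩).2 : ℕ)) := fun j hj => EA0_eE ⟨j, hj⟩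
  refine ⟨by omega, ?_, ?_, ?_, ?_⟩
  · rw [key 0 (by omega), (h0 _ rfl).1, (h0 _ rfl).2]
  · rw [key 1 (by omega), (h1 _ rfl).1, (h1 _ rfl).2]
  · rw [key 2 (by omega), (h2 _ rfl).1, (h2 _ rfl).2]
  · rw [key 3 (by omega), (h3 _ rfl).1, (h3 _ rfl).2]

/-- Proof. `unfold hl bv Gm eE`; sum over `Fin (MM m n + 1)` = sum over the pairs (`Equiv.sum_comp`/`Fintype.sum_equiv` with `sg m n`, `Fintype.sum_prod_type`). -/
theorem hl_eE {F : Type} [CommRing F] {m n : ℕ} (c : Fin (MM m n + 1) → F) (r q : F) :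
    hl (eE m n) c r q = bv (Gm c) r 1 q 1 := by
  unfold hl bv
  rw [← Fintype.sum_prod_type' (fun (i : Fin (2 * m + 1)) (j : Fin (2 * n + 1)) =>
    Gm c i j * (r ^ (i : ℕ) * 1 ^ (2 * m + 1 - 1 - (i : ℕ))) * (q ^ (j : ℕ) * 1 ^ (2 * n + 1 - 1 - (j : ℕ))))]
  refine Fintype.sum_equiv (sg m n) _ _ (fun i => ?_)
  rw [EA0_eE i]
  unfold Gm
  rw [Prod.mk.eta, Equiv.symm_apply_apply, one_pow, one_pow, mul_one, mul_one, mul_assoc]

/-- Proof. `sg.symm (0, 0) = 0` by `sg_ok`: `Gm (c + t e_0) = Gm c + t (x^0 y^0)`. -/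
theorem bv_update {F : Type} [CommRing F] {m n : ℕ} (hm : 1 ≤ m) (hn : 1 ≤ n) (c c' : Fin (MM m n + 1) → F)
    (h : ∀ i, i ≠ 0 → c' i = c i) (r q : F) : bv (Gm c') r 1 q 1 = bv (Gm c) r 1 q 1 + (c' 0 - c 0) := by
  rw [← hl_eE, ← hl_eE]
  unfold hl
  rw [Fin.sum_univ_succ, Fin.sum_univ_succ]
  have h1 : ∀ i : Fin (MM m n), c' i.succ = c i.succ := fun i => h _ (Fin.succ_ne_zero i)
  have h2 : eE m n ((0 : Fin (MM m n + 1)) : ℕ) = (0, 0) := (Mon_eE hm hn).e0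
  rw [h2, pow_zero, pow_zero, mul_one, mul_one, mul_one]
  have h3 : ∑ i : Fin (MM m n), c' i.succ * (r ^ (eE m n (i.succ : Fin (MM m n + 1))).1 *
      q ^ (eE m n (i.succ : Fin (MM m n + 1))).2) = ∑ i : Fin (MM m n), c i.succ *
      (r ^ (eE m n (i.succ : Fin (MM m n + 1))).1 * q ^ (eE m n (i.succ : Fin (MM m n + 1))).2) :=
    Finset.sum_congr rfl (fun i _ => by rw [h1])
  rw [h3]
  ring

theorem abs_Gm {m n : ℕ} {c : Vn (MM m n)} {H : ℤ} (h : ∀ i, |c i| ≤ H) (i : Fin (2 * m + 1)) (j : Fin (2 * n + 1)) :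
    |Gm c i j| ≤ H := h _

end HNE
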