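import Pool.Agent.Lib.MP_1ad228_ntE.EBase
import Pool.Agent.Lib.MP_1ad228_ntH.HB1

/-! The form `BE` (the resultant with respect to `(y, t)`), its values, the factorisations of the resultant `RE`. -/

set_option autoImplicit false

open Classical

namespace HNE

open Finset Polynomial FGO FQQ HNF

theorem vB_eq {F : Type} [CommRing F] {k l : ℕ} (G : Fin k → Fin l → ℤ) (x z y t : F) :
    vB G x z y t = bv (fun i j => (G i j : F)) x z y t := rfl

theorem vV_eq {F : Type} [CommRing F] (v : V) (x z : F) : vV v x z = qv ((v.1 : F), (v.2.1 : F), (v.2.2 : F)) x z := rfl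

theorem map_bv {F F' : Type} [CommRing F] [CommRing F'] (φ : F →+* F') {k l : ℕ} (G : Fin k → Fin l → F) (x z y t : F) :
    φ (bv G x z y t) = bv (fun i j => φ (G i j)) (φ x) (φ z) (φ y) (φ t) := by
  unfold bv
  simp only [map_sum, map_mul, map_pow]

/-- Proof. `unfold hv row bv`, exchange the sums (`Finset.sum_comm`), `Finset.sum_mul`; `2 * n + 1 - 1 - j = 2 * n - j`. -/
theorem hv_row {F : Type} [CommRing F] {k n : ℕ} (G : Fin k → Fin (2 * n + 1) → F) (x z y t : F) :
    hv (m := 2 * n) (row G x z) y t = bv G x z y t := by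
  unfold hv row bv
  rw [Finset.sum_comm]
  refine Finset.sum_congr rfl fun j _ => ?_
  rw [Finset.sum_mul, Finset.sum_mul]
  refine Finset.sum_congr rfl fun i _ => ?_
  have h : 2 * n + 1 - 1 - (j : ℕ) = 2 * n - (j : ℕ) := by omega
  rw [h]
  ring

theorem hv_col {F : Type} [CommRing F] {m l : ℕ} (G : Fin (2 * m + 1) → Fin l → F) (x z y t : F) :
    hv (m := 2 * m) (col G y t) x z = bv G x z y t := by
  unfold hv col bv
  refine Finset.sum_congr rfl fun i _ => ?_
  rw [Finset.sum_mul, Finset.sum_mul]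
  refine Finset.sum_congr rfl fun j _ => ?_
  have h : 2 * m + 1 - 1 - (i : ℕ) = 2 * m - (i : ℕ) := by omega
  rw [h]
  ring

/-- helper -/
theorem EA1_hom {F : Type} [CommRing F] {k : ℕ} (i : Fin k) (lam x z : F) :
    (lam * x) ^ (i : ℕ) * (lam * z) ^ (k - 1 - (i : ℕ)) = lam ^ (k - 1) * (x ^ (i : ℕ) * z ^ (k - 1 - (i : ℕ))) := by
  have hi := i.isLt
  have h : k - 1 = (i : ℕ) + (k - 1 - (i : ℕ)) := by omega
  have h2 : lam ^ (k - 1) = lam ^ (i : ℕ) * lam ^ (k - 1 - (i : ℕ)) := by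
    rw [← pow_add, ← h]
  rw [h2, mul_pow, mul_pow]
  ring

/-- homogeneity. Proof. `(λ x)^i (λ z)^(k-1-i) = λ^(k-1) x^i z^(k-1-i)` as `i ≤ k - 1` for `i : Fin k`. -/
theorem row_smul {F : Type} [CommRing F] {k l : ℕ} (G : Fin k → Fin l → F) (lam x z : F) (j : Fin l) :
    row G (lam * x) (lam * z) j = lam ^ (k - 1) * row G x z j := by
  unfold row
  rw [Finset.mul_sum]
  refine Finset.sum_congr rfl fun i _ => ?_
  rw [EA1_hom]
  ring

theorem bv_smul {F : Type} [CommRing F] {k l : ℕ} (G : Fin k → Fin l → F) (lam mu x z y t : F) :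
    bv G (lam * x) (lam * z) (mu * y) (mu * t) = lam ^ (k - 1) * mu ^ (l - 1) * bv G x z y t := by
  unfold bv
  rw [Finset.mul_sum]
  refine Finset.sum_congr rfl fun i _ => ?_
  rw [Finset.mul_sum]
  refine Finset.sum_congr rfl fun j _ => ?_
  rw [EA1_hom, EA1_hom]
  ring

theorem EA1_coeff_Pf {F : Type} [CommRing F] {m' d : ℕ} (f : Fin (m' + 1) → F[X]) (hf : ∀ j, (f j).natDegree ≤ d) (k : ℕ) :
    ((Pf f).coeff k).natDegree ≤ d := by
  unfold Pf
  rw [Polynomial.finsetSum_coeff]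
  refine natDegree_sum_le_of_forall_le _ _ fun i _ => ?_
  rw [Polynomial.coeff_C_mul, Polynomial.coeff_X_pow]
  split_ifs
  · rw [mul_one]
    exact hf i
  · rw [mul_zero, natDegree_zero]
    exact Nat.zero_le _

theorem EA1_coeff_Pq {F : Type} [CommRing F] (w : F × F × F) (k : ℕ) :
    ((Pq ((C w.1, C w.2.1, C w.2.2) : F[X] × F[X] × F[X])).coeff k).natDegree ≤ 0 := by
  have h : Pq ((C w.1, C w.2.1, C w.2.2) : F[X] × F[X] × F[X]) = (Pq w).map C := by
    unfold Pq
    simp only [Polynomial.map_add, Polynomial.map_mul, Polynomial.map_pow, Polynomial.map_C, Polynomial.map_X]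
  rw [h, Polynomial.coeff_map, natDegree_C]

/-- the degree of the resultant of a form with polynomial coefficients and a quadratic form with constant coefficients.
Proof. `Rs` is the Sylvester determinant of size `m' + 2`; `Matrix.det_apply`, each product over `Fin (m' + 2)` (`Fin.prod_univ_add` as in `FQQ.abs_Rs_le`, file RE of MP_10e784_agF) has `m'` factors which are constants (coefficients of `Pq`) and `2` factors
which are coefficients of `Pf f` (of degree `≤ d`): `natDegree ≤ 2 d` (`natDegree_sum_le_of_forall_le`, `natDegree_prod_le`). -/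
theorem deg_Rs {F : Type} [CommRing F] {m' d : ℕ} (f : Fin (m' + 1) → F[X]) (w : F × F × F) (hf : ∀ j, (f j).natDegree ≤ d) :
    (Rs f (C w.1, C w.2.1, C w.2.2)).natDegree ≤ 2 * d := by
  have e1 : ∀ (i : Fin (m' + 2)) (j : Fin m'),
      (sylvester (Pf f) (Pq (C w.1, C w.2.1, C w.2.2)) m' 2 i (Fin.castAdd 2 j)).natDegree ≤ 0 := by
    intro i j
    unfold sylvester
    rw [Matrix.of_apply, Fin.addCases_left]
    split_ifs
    · exact EA1_coeff_Pq w _
    · rw [natDegree_zero]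
  have e2 : ∀ (i : Fin (m' + 2)) (j : Fin 2),
      (sylvester (Pf f) (Pq (C w.1, C w.2.1, C w.2.2)) m' 2 i (Fin.natAdd m' j)).natDegree ≤ d := by
    intro i j
    unfold sylvester
    rw [Matrix.of_apply, Fin.addCases_right]
    split_ifs
    · exact EA1_coeff_Pf f hf _
    · rw [natDegree_zero]
      exact Nat.zero_le _
  have e4 : Rs f (C w.1, C w.2.1, C w.2.2) = ∑ σ : Equiv.Perm (Fin (m' + 2)),
      Equiv.Perm.sign σ • ∏ i, sylvester (Pf f) (Pq (C w.1, C w.2.1, C w.2.2)) m' 2 (σ i) i := by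
    unfold Rs Polynomial.resultant
    exact Matrix.det_apply _
  rw [e4]
  refine natDegree_sum_le_of_forall_le _ _ fun σ _ => ?_
  have e5 : (Equiv.Perm.sign σ • ∏ i, sylvester (Pf f) (Pq (C w.1, C w.2.1, C w.2.2)) m' 2 (σ i) i).natDegree ≤
      (∏ i, sylvester (Pf f) (Pq (C w.1, C w.2.1, C w.2.2)) m' 2 (σ i) i).natDegree := by
    rcases Int.units_eq_one_or (Equiv.Perm.sign σ) with h | h
    · rw [h, one_smul]
    · rw [h, Units.neg_smul, one_smul, natDegree_neg]
  refine e5.trans ((natDegree_prod_le _ _).trans ?_)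
  rw [Fin.sum_univ_add]
  have f2 : ∑ i : Fin m', (sylvester (Pf f) (Pq (C w.1, C w.2.1, C w.2.2)) m' 2 (σ (Fin.castAdd 2 i))
      (Fin.castAdd 2 i)).natDegree ≤ 0 := by
    calc ∑ i : Fin m', (sylvester (Pf f) (Pq (C w.1, C w.2.1, C w.2.2)) m' 2 (σ (Fin.castAdd 2 i))
          (Fin.castAdd 2 i)).natDegree ≤ ∑ _i : Fin m', 0 := Finset.sum_le_sum fun i _ => e1 _ i
      _ = 0 := by simp
  have f3 : ∑ i : Fin 2, (sylvester (Pf f) (Pq (C w.1, C w.2.1, C w.2.2)) m' 2 (σ (Fin.natAdd m' i))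
      (Fin.natAdd m' i)).natDegree ≤ 2 * d := by
    calc ∑ i : Fin 2, (sylvester (Pf f) (Pq (C w.1, C w.2.1, C w.2.2)) m' 2 (σ (Fin.natAdd m' i))
          (Fin.natAdd m' i)).natDegree ≤ ∑ _i : Fin 2, d := Finset.sum_le_sum fun i _ => e2 _ i
      _ = 2 * d := by simp
  omega

/-- Proof. The ring homomorphism `mapRingHom φ` commutes with `Rs` (`HNF.Rs_map`), `coeff_map`; `Polynomial.map_sum`, `map_C`, `map_X`. -/
theorem map_BE {F F' : Type} [CommRing F] [CommRing F'] (φ : F →+* F') {m n : ℕ} (G : Fin (2 * m + 1) → Fin (2 * n + 1) → F)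
    (w : F × F × F) (i : Fin (4 * m + 1)) :
    φ (BE G w i) = BE (fun a b => φ (G a b)) (φ w.1, φ w.2.1, φ w.2.2) i := by
  unfold BE
  rw [← Polynomial.coeff_map, ← Polynomial.coe_mapRingHom, HNF.Rs_map]
  simp only [map_sum, map_mul, map_pow, coe_mapRingHom, Polynomial.map_C, Polynomial.map_X]

/-- the polynomial whose coefficients are `BE` -/
noncomputable def EA1_P {F : Type} [CommRing F] {m n : ℕ} (G : Fin (2 * m + 1) → Fin (2 * n + 1) → F) (w : F × F × F) : F[X] :=
  Rs (m := 2 * n) (fun j : Fin (2 * n + 1) => ∑ a : Fin (2 * m + 1), C (G a j) * X ^ (a : ℕ))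
    (C w.1, C w.2.1, C w.2.2)

theorem EA1_deg_P {F : Type} [CommRing F] {m n : ℕ} (G : Fin (2 * m + 1) → Fin (2 * n + 1) → F) (w : F × F × F) :
    (EA1_P G w).natDegree < 4 * m + 1 := by
  have h := deg_Rs (d := 2 * m) (fun j : Fin (2 * n + 1) => ∑ a : Fin (2 * m + 1), C (G a j) * X ^ (a : ℕ)) w (by
    intro j
    refine natDegree_sum_le_of_forall_le _ _ fun a _ => ?_
    refine (natDegree_C_mul_X_pow_le _ _).trans ?_
    have := a.isLt
    omega)
  have h2 : (EA1_P G w).natDegree ≤ 2 * (2 * m) := h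
  omega

theorem EA1_Pf_BE {F : Type} [CommRing F] {m n : ℕ} (G : Fin (2 * m + 1) → Fin (2 * n + 1) → F) (w : F × F × F) :
    Pf (m := 4 * m) (BE G w) = EA1_P G w := by
  rw [Polynomial.as_sum_range_C_mul_X_pow' (EA1_P G w) (EA1_deg_P G w)]
  rw [← Fin.sum_univ_eq_sum_range (fun i => C ((EA1_P G w).coeff i) * X ^ i) (4 * m + 1)]
  rfl

theorem EA1_hv_col {F : Type} [CommRing F] {m n : ℕ} (G : Fin (2 * m + 1) → Fin (2 * n + 1) → F) (q : F) :
    hv (m := 2 * n) (fun j : Fin (2 * n + 1) => ∑ a : Fin (2 * m + 1), C (G a j) * X ^ (a : ℕ)) (C q) 1 =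
      Pf (m := 2 * m) (col G q 1) := by
  unfold hv Pf col
  simp only [one_pow, mul_one, Finset.sum_mul, map_sum, map_mul, map_pow]
  rw [Finset.sum_comm]
  refine Finset.sum_congr rfl fun a _ => Finset.sum_congr rfl fun j _ => ?_
  ring

theorem EA1_map_hv {F F' : Type} [CommRing F] [CommRing F'] (φ : F →+* F') {k : ℕ} (f : Fin (k + 1) → F) (x z : F) :
    φ (hv f x z) = hv (fun i => φ (f i)) (φ x) (φ z) := by
  unfold hv
  simp only [map_sum, map_mul, map_pow]

/-- the values of `BE` at `(x, 1)`. Proof. The evaluation at `x` commutes with `Rs` (`HNF.Rs_map` for `Polynomial.evalRingHom x`); the polynomial `P = Rs ..` over `F[X]` has degree `≤ 4 m` (`deg_Rs` with `d = 2 m`), so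
`P.eval x = ∑ i : Fin (4 m + 1), P.coeff i * x ^ i` (`Polynomial.eval_eq_sum_range'`, `Fin.sum_univ_eq_sum_range`) `= hv (BE G w) x 1`. -/
theorem hv_BE_one {F : Type} [CommRing F] {m n : ℕ} (G : Fin (2 * m + 1) → Fin (2 * n + 1) → F) (w : F × F × F) (x : F) :
    hv (m := 4 * m) (BE G w) x 1 = Rs (m := 2 * n) (row G x 1) w := by
  have hd : (EA1_P G w).natDegree < 4 * m + 1 := EA1_deg_P G w
  have h1 : hv (m := 4 * m) (BE G w) x 1 = (EA1_P G w).eval x := by
    rw [Polynomial.eval_eq_sum_range' hd]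
    unfold hv
    rw [← Fin.sum_univ_eq_sum_range (fun i => (EA1_P G w).coeff i * x ^ i) (4 * m + 1)]
    refine Finset.sum_congr rfl fun i _ => ?_
    rw [one_pow, mul_one]
    rfl
  rw [h1, ← Polynomial.coe_evalRingHom]
  unfold EA1_P
  rw [HNF.Rs_map]
  unfold row
  simp only [map_sum, map_mul, map_pow, coe_evalRingHom, eval_C, eval_X, one_pow, mul_one]

theorem EA1_map_hvBE {F F' : Type} [CommRing F] [CommRing F'] (φ : F →+* F') {m n : ℕ} (G : Fin (2 * m + 1) → Fin (2 * n + 1) → F)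
    (w : F × F × F) (x z : F) :
    φ (hv (m := 4 * m) (BE G w) x z) =
      hv (m := 4 * m) (BE (fun a b => φ (G a b)) (φ w.1, φ w.2.1, φ w.2.2)) (φ x) (φ z) := by
  rw [EA1_map_hv]
  simp only [map_BE]

theorem EA1_map_Rsrow {F F' : Type} [CommRing F] [CommRing F'] (φ : F →+* F') {m n : ℕ} (G : Fin (2 * m + 1) → Fin (2 * n + 1) → F)
    (w : F × F × F) (x z : F) :
    φ (Rs (m := 2 * n) (row G x z) w) =
      Rs (m := 2 * n) (row (fun a b => φ (G a b)) (φ x) (φ z)) (φ w.1, φ w.2.1, φ w.2.2) := by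
  rw [HNF.Rs_map]
  unfold row
  simp only [map_sum, map_mul, map_pow]

theorem EA1_field {L : Type} [Field L] {m n : ℕ} (G : Fin (2 * m + 1) → Fin (2 * n + 1) → L)
    (w : L × L × L) (x T : L) (hT : T ≠ 0) :
    hv (m := 4 * m) (BE G w) x T = Rs (m := 2 * n) (row G x T) w := by
  have e1 : x = T * (x / T) := by
    rw [mul_comm, div_mul_cancel₀ x hT]
  have e2 : T = T * 1 := (mul_one T).symm
  have h1 : hv (m := 4 * m) (BE G w) x T = T ^ (4 * m) * hv (m := 4 * m) (BE G w) (x / T) 1 := by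
    rw [← hv_smul, ← e1, ← e2]
  have h2 : row G x T = fun j => T ^ (2 * m) * row G (x / T) 1 j := by
    funext j
    have h := row_smul G T (x / T) 1 j
    rw [← e1, ← e2] at h
    exact h
  rw [h1, h2, Rs_cmul_left, hv_BE_one]
  ring

/-- the values of `BE`. Proof. Let `T` be a new variable, `L = FractionRing F[T]`. Over `L`, `T ≠ 0`: `hv (BE G w) x T = T ^ (4 m) * hv (BE G w) (x / T) 1` (`hv_smul`), `row G x T = T ^ (2 m) • row G (x / T) 1` (`row_smul`), `Rs (c • f) w = c ^ 2 * Rs f w` (`FQQ.Rs_cmul_left`, file RA), so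
`hv (BE G w) x T = Rs (row G x T) w` over `L` by `hv_BE_one`; both sides are images of elements of `F[T]` (`map_BE`, `Rs_map`; `F[T] → L` is injective), so the identity holds in `F[T]`; evaluate at `T = z`. -/
theorem hv_BE {F : Type} [CommRing F] [IsDomain F] {m n : ℕ} (G : Fin (2 * m + 1) → Fin (2 * n + 1) → F) (w : F × F × F) (x z : F) :
    hv (m := 4 * m) (BE G w) x z = Rs (m := 2 * n) (row G x z) w := by
  have hinj : Function.Injective (algebraMap F[X] (FractionRing F[X])) := IsFractionRing.injective F[X] (FractionRing F[X])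
  have h1 : hv (m := 4 * m) (BE (fun a b => (C (G a b) : F[X])) (C w.1, C w.2.1, C w.2.2)) (C x) X =
      Rs (m := 2 * n) (row (fun a b => (C (G a b) : F[X])) (C x) X) (C w.1, C w.2.1, C w.2.2) := by
    apply hinj
    rw [EA1_map_hvBE, EA1_map_Rsrow]
    have hT : algebraMap F[X] (FractionRing F[X]) X ≠ 0 := by
      intro h0
      rw [← map_zero (algebraMap F[X] (FractionRing F[X]))] at h0
      exact X_ne_zero (hinj h0)
    exact EA1_field _ _ _ _ hT
  have h2 := congrArg (Polynomial.evalRingHom z) h1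
  rw [EA1_map_hvBE, EA1_map_Rsrow] at h2
  simpa only [coe_evalRingHom, eval_C, eval_X] using h2

/-- Proof. `Rs_map`, `map_BE`. (Model `RQ_map` in QB1.lean of MP_10e784_agQ.) -/
theorem RE_map {F F' : Type} [CommRing F] [CommRing F'] (φ : F →+* F') {m n : ℕ} (G : Fin (2 * m + 1) → Fin (2 * n + 1) → F)
    (v w : F × F × F) : φ (RE G v w) = RE (fun a b => φ (G a b)) (φ v.1, φ v.2.1, φ v.2.2) (φ w.1, φ w.2.1, φ w.2.2) := by
  unfold RE
  rw [HNF.Rs_map]
  congr 1
  funext i
  exact map_BE φ G w i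

theorem RE_cast {m n : ℕ} (p : ℕ) (c : Vn (MM m n)) (v w : V) :
    ((RE (Gm c) v w : ℤ) : ZMod p) = RE (Gm (cN p c)) (cV p v) (cV p w) := by
  exact RE_map (Int.castRingHom (ZMod p)) (Gm c) v w

/-- Proof. `Rs_split` (file RC of FQQ). -/
theorem RE_vsplit {F : Type} [CommRing F] {m n : ℕ} (G : Fin (2 * m + 1) → Fin (2 * n + 1) → F) (w : F × F × F) (a r s : F) :
    RE G (a, -(a * (r + s)), a * r * s) w =
      a ^ (4 * m) * hv (m := 4 * m) (BE G w) r 1 * hv (m := 4 * m) (BE G w) s 1 := by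
  unfold RE
  rw [Rs_split]

/-- Proof. `hv_BE_one`, `Rs_split`, `hv_row`. -/
theorem hv_BE_split {F : Type} [CommRing F] {m n : ℕ} (G : Fin (2 * m + 1) → Fin (2 * n + 1) → F) (b q q' x : F) :
    hv (m := 4 * m) (BE G (b, -(b * (q + q')), b * q * q')) x 1 = b ^ (2 * n) * (bv G x 1 q 1 * bv G x 1 q' 1) := by
  rw [hv_BE_one, Rs_split, hv_row, hv_row]
  ring

/-- Proof. `Pf (BE G w) = C (b ^ (2 n)) * (Pf (col G q 1) * Pf (col G q' 1))`: the polynomial `Pf (BE G w)` is `Rs` over `F[X]` itself (`natDegree ≤ 4 m`, `deg_Rs`; coefficients), by `Rs_split` over `F[X]` it is `C b ^ (2 n) * hv f (C q) 1 * hv f (C q') 1` with `f j = ∑ a, C (G a j) * X ^ a`, and `hv f (C q) 1 = Pf (col G q 1)`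
(exchange the sums). Then `Polynomial.resultant_C_mul_left`, `HNF.res_mul` with `m1 = m2 = 2 m`, `4 m = 2 m + 2 m`. (Model `RQ_wsplit` in QB1.lean.) -/
theorem RE_wsplit {F : Type} [CommRing F] {m n : ℕ} (G : Fin (2 * m + 1) → Fin (2 * n + 1) → F) (v : F × F × F) (b q q' : F) :
    RE G v (b, -(b * (q + q')), b * q * q') =
      b ^ (4 * n) * (Rs (m := 2 * m) (col G q 1) v * Rs (m := 2 * m) (col G q' 1) v) := by
  have h0 : Pf (m := 4 * m) (BE G (b, -(b * (q + q')), b * q * q')) =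
      C (b ^ (2 * n)) * (Pf (m := 2 * m) (col G q 1) * Pf (m := 2 * m) (col G q' 1)) := by
    rw [EA1_Pf_BE]
    unfold EA1_P
    simp only [map_neg, map_mul, map_add]
    rw [Rs_split, EA1_hv_col, EA1_hv_col, map_pow]
    ring
  have h3 : (Pq v).natDegree ≤ 2 := by
    unfold Pq
    compute_degree
  have h4 := HNF.res_mul (Pf (m := 2 * m) (col G q 1)) (Pf (m := 2 * m) (col G q' 1)) (Pq v) (2 * m) (2 * m) 2
    (natDegree_Pf _) (natDegree_Pf _) h3
  have e : 4 * m = 2 * m + 2 * m := by ring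
  unfold RE Rs
  rw [h0, resultant_C_mul_left, e, h4]
  ring

end HNE
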