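import Pool.Agent.Lib.MP_1ad228_ntE.EA1
import Pool.Agent.Lib.MP_1ad228_ntE.EA0
import Pool.Agent.Lib.MP_1ad228_ntH.HB2

/-! Common zeros modulo `p`; the resultant is a square modulo the primes dividing a discriminant. -/

set_option autoImplicit false

open Classical

namespace HNE

open Finset Polynomial FGO FQQ HNF

/-- Proof. Copy `Ez_of_RQ` (QB2.lean of MP_10e784_agQ): `split_of_sq` for `v` and `w`; `RE_vsplit`, `hv_BE_split`: one of the four numbers `bv (Gm c) r 1 q 1` vanishes; `hl_eE`. -/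
theorem Ez_of_RE {F : Type} [Field F] {m n : ℕ} (h2 : (2 : F) ≠ 0) (c : Fin (MM m n + 1) → F) (v w : F × F × F)
    (hv : v.1 ≠ 0) (hw1 : w.1 ≠ 0) (hdv : IsSquare (ds v)) (hdw : IsSquare (ds w)) (h : RE (Gm c) v w = 0) :
    Ez (eE m n) c v w := by
  obtain ⟨r, s, hrs⟩ := split_of_sq h2 v hv hdv
  obtain ⟨q, q', hqq⟩ := split_of_sq h2 w hw1 hdw
  have key : ∀ x : F, FQQ.hv (m := 4 * m) (BE (Gm c) w) x 1 = 0 → qv v x 1 = 0 →
      Ez (eE m n) c v w := by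
    intro x hx hvx
    have hw : ∀ y : F, (y = q ∨ y = q') → qv w y 1 = 0 := by
      intro y hy
      rw [hqq]
      unfold qv
      rcases hy with rfl | rfl <;> ring
    rw [hqq, hv_BE_split] at hx
    rcases mul_eq_zero.mp hx with h' | h'
    · exact absurd h' (pow_ne_zero _ hw1)
    · rcases mul_eq_zero.mp h' with h'' | h''
      · exact ⟨x, q, hvx, hw q (Or.inl rfl), by rw [hl_eE]; exact h''⟩
      · exact ⟨x, q', hvx, hw q' (Or.inr rfl), by rw [hl_eE]; exact h''⟩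
  have hv1 : ∀ y : F, (y = r ∨ y = s) → qv v y 1 = 0 := by
    intro y hy
    rw [hrs]
    unfold qv
    rcases hy with rfl | rfl <;> ring
  rw [hrs, RE_vsplit] at h
  rcases mul_eq_zero.mp h with h' | h'
  · rcases mul_eq_zero.mp h' with h'' | h''
    · exact absurd h'' (pow_ne_zero _ hv)
    · exact key r h'' (hv1 r (Or.inl rfl))
  · exact key s h' (hv1 s (Or.inr rfl))

/-- Proof. Copy `Sq_RQ_v`: `v = v.1 (x - s z)²`: `RE = (v.1 ^ (2 m) * hv (BE G w) s 1) ^ 2`. -/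
theorem Sq_RE_v {F : Type} [Field F] {m n : ℕ} (h2 : (2 : F) ≠ 0) (G : Fin (2 * m + 1) → Fin (2 * n + 1) → F) (v w : F × F × F)
    (hv : v.1 ≠ 0) (hd : ds v = 0) (h : RE G v w ≠ 0) : Sq (RE G v w) := by
  obtain ⟨r, s, hrs⟩ := split_of_sq h2 v hv ⟨0, by rw [hd, mul_zero]⟩
  have hd2 : v.1 ^ 2 * (r - s) ^ 2 = 0 := by
    rw [← hd]
    have e : ds v = ds (v.1, -(v.1 * (r + s)), v.1 * r * s) := by rw [← hrs]
    rw [e]
    unfold ds
    ring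
  have hrs' : r = s := by
    rcases mul_eq_zero.mp hd2 with h' | h'
    · exact absurd (pow_eq_zero_iff (two_ne_zero) |>.mp h') hv
    · exact sub_eq_zero.mp (pow_eq_zero_iff (two_ne_zero) |>.mp h')
  refine ⟨h, ?_⟩
  rw [hrs, RE_vsplit, hrs']
  exact ⟨v.1 ^ (2 * m) * FQQ.hv (m := 4 * m) (BE G w) s 1, by ring⟩

/-- Proof. Copy `Sq_RQ_w` (`RE_wsplit`). -/
theorem Sq_RE_w {F : Type} [Field F] {m n : ℕ} (h2 : (2 : F) ≠ 0) (G : Fin (2 * m + 1) → Fin (2 * n + 1) → F) (v w : F × F × F)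
    (hw1 : w.1 ≠ 0) (hd : ds w = 0) (h : RE G v w ≠ 0) : Sq (RE G v w) := by
  obtain ⟨q, q', hqq⟩ := split_of_sq h2 w hw1 ⟨0, by rw [hd, mul_zero]⟩
  have hd2 : w.1 ^ 2 * (q - q') ^ 2 = 0 := by
    rw [← hd]
    have e : ds w = ds (w.1, -(w.1 * (q + q')), w.1 * q * q') := by rw [← hqq]
    rw [e]
    unfold ds
    ring
  have hqq' : q = q' := by
    rcases mul_eq_zero.mp hd2 with h' | h'
    · exact absurd (pow_eq_zero_iff (two_ne_zero) |>.mp h') hw1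
    · exact sub_eq_zero.mp (pow_eq_zero_iff (two_ne_zero) |>.mp h')
  refine ⟨h, ?_⟩
  rw [hqq, RE_wsplit, hqq']
  exact ⟨w.1 ^ (2 * n) * Rs (m := 2 * m) (col G q' 1) v, by ring⟩

private theorem EA2_cast {m n : ℕ} (G : Fin (2 * m + 1) → Fin (2 * n + 1) → ℤ) (v w : V) (p : ℕ) :
    ((RE G v w : ℤ) : ZMod p) = RE (fun a b => ((G a b : ℤ) : ZMod p)) (cV p v) (cV p w) :=
  RE_map (Int.castRingHom (ZMod p)) G v w

/-- Proof. Copy `jac_RQ_v`. (`RE_map` with `Int.castRingHom (ZMod p)`.) -/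
theorem jac_RE_v {m n : ℕ} (G : Fin (2 * m + 1) → Fin (2 * n + 1) → ℤ) (v w : V) (p : ℕ) (hp : p.Prime) (h2 : p ≠ 2)
    (hR : ¬ (p : ℤ) ∣ RE G v w) (hd : (p : ℤ) ∣ ds v) (hv : ¬ (p : ℤ) ∣ v.1) : jacobiSym (RE G v w) p = 1 := by
  have := Fact.mk hp
  refine HB2_jac _ p hp ?_
  have hR' : ((RE G v w : ℤ) : ZMod p) ≠ 0 := fun h => hR ((ZMod.intCast_zmod_eq_zero_iff_dvd _ _).1 h)
  rw [EA2_cast] at hR' ⊢
  refine Sq_RE_v (HB2_two p hp h2) _ (cV p v) (cV p w) ?_ ?_ hR'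
  · exact fun h => hv ((ZMod.intCast_zmod_eq_zero_iff_dvd _ _).1 h)
  · rw [← ds_cast]
    exact (ZMod.intCast_zmod_eq_zero_iff_dvd _ _).2 hd

theorem jac_RE_w {m n : ℕ} (G : Fin (2 * m + 1) → Fin (2 * n + 1) → ℤ) (v w : V) (p : ℕ) (hp : p.Prime) (h2 : p ≠ 2)
    (hR : ¬ (p : ℤ) ∣ RE G v w) (hd : (p : ℤ) ∣ ds w) (hw1 : ¬ (p : ℤ) ∣ w.1) : jacobiSym (RE G v w) p = 1 := by
  have := Fact.mk hp
  refine HB2_jac _ p hp ?_
  have hR' : ((RE G v w : ℤ) : ZMod p) ≠ 0 := fun h => hR ((ZMod.intCast_zmod_eq_zero_iff_dvd _ _).1 h)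
  rw [EA2_cast] at hR' ⊢
  refine Sq_RE_w (HB2_two p hp h2) _ (cV p v) (cV p w) ?_ ?_ hR'
  · exact fun h => hw1 ((ZMod.intCast_zmod_eq_zero_iff_dvd _ _).1 h)
  · rw [← ds_cast]
    exact (ZMod.intCast_zmod_eq_zero_iff_dvd _ _).2 hd

end HNE
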