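import Pool.Agent.Lib.MP_1ad228_ntE.EA1
import Pool.Agent.Lib.MP_1ad228_ntH.HB2
import Pool.Agent.Lib.MP_1ad228_ntH.LD1
import Pool.Agent.Lib.MP_1ad228_ntH.LD2
import Pool.Agent.Lib.MP_1ad228_ntE.EA2

/-! The resultant is a norm from both quadratic fields; the switch. -/

set_option autoImplicit false

open Classical

namespace HNE

open Finset Polynomial FGO FQQ HNF

/-- Proof. Copy `rat_RQ_v` (QB3.lean of MP_10e784_agQ): `HB2_quad`, `HB2_roots`, `RE_map`, `RE_vsplit`; `t = hv (BE G w) r 1`, `σ t = hv (BE G w) s 1` (`HB2_map_hv`, `map_BE`); `RE = v.1 ^ (4 m) * t * σ t`, `x = v.1 ^ (2 m) * ..`. -/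
theorem rat_RE_v {m n : ℕ} (G : Fin (2 * m + 1) → Fin (2 * n + 1) → ℤ) (v w : V) (hv : v.1 ≠ 0) :
    ∃ x y : ℚ, ((RE G v w : ℤ) : ℚ) = x ^ 2 - ((ds v : ℤ) : ℚ) * y ^ 2 := by
  obtain ⟨Q, _, φ, σ, ω, hinj, hω, hσω, hσ, hnorm⟩ := HB2_quad ((ds v : ℤ) : ℚ)
  obtain ⟨r, s, hr, hs, hvs⟩ := HB2_roots φ σ ω v hv hω hσω hσ
  have h1 := RE_map (φ.comp (Int.castRingHom ℚ)) G v w
  have h2 : ((φ.comp (Int.castRingHom ℚ) v.1, φ.comp (Int.castRingHom ℚ) v.2.1,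
      φ.comp (Int.castRingHom ℚ) v.2.2) : Q × Q × Q) = (φ v.1, φ v.2.1, φ v.2.2) := rfl
  rw [h2, hvs, RE_vsplit] at h1
  obtain ⟨t, ht⟩ : ∃ t : Q, t = FQQ.hv (m := 4 * m) (BE (fun a b => φ.comp (Int.castRingHom ℚ) (G a b))
      (φ.comp (Int.castRingHom ℚ) w.1, φ.comp (Int.castRingHom ℚ) w.2.1,
      φ.comp (Int.castRingHom ℚ) w.2.2)) r 1 := ⟨_, rfl⟩
  have hσt : σ t = FQQ.hv (m := 4 * m) (BE (fun a b => φ.comp (Int.castRingHom ℚ) (G a b))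
      (φ.comp (Int.castRingHom ℚ) w.1, φ.comp (Int.castRingHom ℚ) w.2.1,
      φ.comp (Int.castRingHom ℚ) w.2.2)) s 1 := by
    rw [ht, HB2_map_hv, hr, map_one]
    have h3 : ∀ i, σ (BE (fun a b => φ.comp (Int.castRingHom ℚ) (G a b))
        (φ.comp (Int.castRingHom ℚ) w.1, φ.comp (Int.castRingHom ℚ) w.2.1,
        φ.comp (Int.castRingHom ℚ) w.2.2) i) = BE (fun a b => φ.comp (Int.castRingHom ℚ) (G a b))
        (φ.comp (Int.castRingHom ℚ) w.1, φ.comp (Int.castRingHom ℚ) w.2.1,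
        φ.comp (Int.castRingHom ℚ) w.2.2) i := by
      intro i
      rw [map_BE]
      simp only [RingHom.coe_comp, Function.comp_apply, hσ]
    simp only [h3]
  rw [← ht, ← hσt, mul_assoc] at h1
  obtain ⟨x, y, hxy⟩ := hnorm t
  rw [hxy] at h1
  refine ⟨v.1 ^ (2 * m) * x, v.1 ^ (2 * m) * y, ?_⟩
  apply hinj
  have h3 : φ ((RE G v w : ℤ) : ℚ) = (φ.comp (Int.castRingHom ℚ)) (RE G v w) := rfl
  rw [h3, h1, ← map_pow, ← map_mul]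
  congr 1
  ring

/-- Proof. Copy `rat_RQ_w` with `RE_wsplit`: `t = Rs (col G r 1) v`, `σ t = Rs (col G s 1) v` (`HB2_map_Rs`; `σ (col G r 1 i) = col G s 1 i` by `map_sum`, `map_mul`, `map_pow`). -/
theorem rat_RE_w {m n : ℕ} (G : Fin (2 * m + 1) → Fin (2 * n + 1) → ℤ) (v w : V) (hw1 : w.1 ≠ 0) :
    ∃ x y : ℚ, ((RE G v w : ℤ) : ℚ) = x ^ 2 - ((ds w : ℤ) : ℚ) * y ^ 2 := by
  obtain ⟨Q, _, φ, σ, ω, hinj, hω, hσω, hσ, hnorm⟩ := HB2_quad ((ds w : ℤ) : ℚ)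
  obtain ⟨r, s, hr, hs, hvs⟩ := HB2_roots φ σ ω w hw1 hω hσω hσ
  have h1 := RE_map (φ.comp (Int.castRingHom ℚ)) G v w
  have h2 : ((φ.comp (Int.castRingHom ℚ) w.1, φ.comp (Int.castRingHom ℚ) w.2.1,
      φ.comp (Int.castRingHom ℚ) w.2.2) : Q × Q × Q) = (φ w.1, φ w.2.1, φ w.2.2) := rfl
  rw [h2, hvs, RE_wsplit] at h1
  obtain ⟨t, ht⟩ : ∃ t : Q, t = Rs (m := 2 * m) (col (fun a b => φ.comp (Int.castRingHom ℚ) (G a b)) r 1)
      (φ.comp (Int.castRingHom ℚ) v.1, φ.comp (Int.castRingHom ℚ) v.2.1,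
      φ.comp (Int.castRingHom ℚ) v.2.2) := ⟨_, rfl⟩
  have hσt : σ t = Rs (m := 2 * m) (col (fun a b => φ.comp (Int.castRingHom ℚ) (G a b)) s 1)
      (φ.comp (Int.castRingHom ℚ) v.1, φ.comp (Int.castRingHom ℚ) v.2.1,
      φ.comp (Int.castRingHom ℚ) v.2.2) := by
    rw [ht, HB2_map_Rs]
    have h3 : (fun i => σ (col (fun a b => φ.comp (Int.castRingHom ℚ) (G a b)) r 1 i)) =
        col (fun a b => φ.comp (Int.castRingHom ℚ) (G a b)) s 1 := by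
      funext i
      unfold col
      simp only [map_sum, map_mul, map_pow, map_one, RingHom.coe_comp, Function.comp_apply, hσ, hr]
    rw [h3]
    simp only [RingHom.coe_comp, Function.comp_apply, hσ]
  rw [← ht, ← hσt] at h1
  obtain ⟨x, y, hxy⟩ := hnorm t
  rw [hxy] at h1
  refine ⟨w.1 ^ (2 * n) * x, w.1 ^ (2 * n) * y, ?_⟩
  apply hinj
  have h3 : φ ((RE G v w : ℤ) : ℚ) = (φ.comp (Int.castRingHom ℚ)) (RE G v w) := rfl
  rw [h3, h1, ← map_pow, ← map_mul]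
  congr 1
  ring

/-- Proof. Copy `switch_Q` (QB5.lean of MP_10e784_agQ). -/
theorem switch_E {m n : ℕ} (G : Fin (2 * m + 1) → Fin (2 * n + 1) → ℤ) (v w : V) (hR : RE G v w ≠ 0) (hv : v.1 ≠ 0) (hw1 : w.1 ≠ 0)
    (β : ℤ) (hβ : Squarefree β) (h : Cn (RE G v w) v w β) :
    ∃ δ : ℤ, Squarefree δ ∧ δ ^ 2 ≤ |RE G v w| ∧ Cn (RE G v w) v w δ := by
  refine switch1 hR v w (fun p hp h2 hpR hd h1 => jac_RE_v G v w p hp h2 hpR hd h1)
    (fun p hp h2 hpR hd h1 => jac_RE_w G v w p hp h2 hpR hd h1) ?_ ?_ β hβ h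
  · intro p hp h2 _ hj
    obtain ⟨x, y, hxy⟩ := rat_RE_v G v w hv
    exact even_of_rat hp h2 hR hj hxy
  · intro p hp h2 _ hj
    obtain ⟨x, y, hxy⟩ := rat_RE_w G v w hw1
    exact even_of_rat hp h2 hR hj hxy

end HNE
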