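import Pool.Agent.Lib.MP_1ad228_ntE.EA1
import Pool.Agent.Lib.MP_1ad228_ntE.EA0
import Pool.Agent.Lib.MP_10e784_agF.RE

/-! The size of the resultant; the number of the vectors with vanishing resultant. -/

set_option autoImplicit false
set_option linter.unusedSectionVars false

open Classical

namespace HNE

open Finset Polynomial FGO FQQ HNF

/-- the sum of the absolute values of the coefficients -/
noncomputable def nrm (P : ℤ[X]) : ℤ := ∑ i ∈ P.support, |P.coeff i|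

theorem EA4_nrm_eq (P : ℤ[X]) (S : Finset ℕ) (hS : P.support ⊆ S) : nrm P = ∑ i ∈ S, |P.coeff i| := by
  unfold nrm
  refine Finset.sum_subset hS ?_
  intro i _ hi
  rw [notMem_support_iff.1 hi, abs_zero]

theorem abs_coeff_le_nrm (P : ℤ[X]) (i : ℕ) : |P.coeff i| ≤ nrm P := by
  by_cases hi : i ∈ P.support
  · unfold nrm
    exact Finset.single_le_sum (f := fun i => |P.coeff i|) (fun j _ => abs_nonneg _) hi
  · rw [notMem_support_iff.1 hi, abs_zero]
    exact Finset.sum_nonneg fun j _ => abs_nonneg _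

theorem nrm_nonneg (P : ℤ[X]) : 0 ≤ nrm P := Finset.sum_nonneg fun _ _ => abs_nonneg _

theorem nrm_add (P Q : ℤ[X]) : nrm (P + Q) ≤ nrm P + nrm Q := by
  have h1 := EA4_nrm_eq P (P.support ∪ Q.support ∪ (P + Q).support)
    (Finset.subset_union_left.trans Finset.subset_union_left)
  have h2 := EA4_nrm_eq Q (P.support ∪ Q.support ∪ (P + Q).support)
    (Finset.subset_union_right.trans Finset.subset_union_left)
  have h3 := EA4_nrm_eq (P + Q) (P.support ∪ Q.support ∪ (P + Q).support) Finset.subset_union_right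
  rw [h1, h2, h3, ← Finset.sum_add_distrib]
  refine Finset.sum_le_sum fun i _ => ?_
  rw [coeff_add]
  exact abs_add_le _ _

theorem EA4_nrm_zero : nrm 0 = 0 := by
  unfold nrm
  simp

theorem EA4_nrm_monomial (i : ℕ) (a : ℤ) : nrm (monomial i a) = |a| := by
  rw [EA4_nrm_eq (monomial i a) {i} (support_monomial_subset i a), Finset.sum_singleton,
    coeff_monomial_same]

theorem EA4_nrm_sum {ι : Type*} (s : Finset ι) (f : ι → ℤ[X]) : nrm (∑ i ∈ s, f i) ≤ ∑ i ∈ s, nrm (f i) := by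
  induction s using Finset.induction_on with
  | empty => simp [EA4_nrm_zero]
  | insert a s ha ih =>
    rw [Finset.sum_insert ha, Finset.sum_insert ha]
    exact (nrm_add _ _).trans (add_le_add le_rfl ih)

theorem nrm_mul (P Q : ℤ[X]) : nrm (P * Q) ≤ nrm P * nrm Q := by
  rw [mul_eq_sum_sum]
  refine (EA4_nrm_sum _ _).trans ?_
  have h : nrm P * nrm Q = ∑ i ∈ P.support, ∑ j ∈ Q.support, |P.coeff i| * |Q.coeff j| := by
    unfold nrm
    rw [Finset.sum_mul_sum]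
  rw [h]
  refine Finset.sum_le_sum fun i _ => ?_
  rw [Polynomial.sum_def]
  refine (EA4_nrm_sum _ _).trans ?_
  refine Finset.sum_le_sum fun j _ => ?_
  rw [EA4_nrm_monomial, abs_mul]

theorem nrm_C (a : ℤ) : nrm (C a) = |a| := by
  rw [← monomial_zero_left]
  exact EA4_nrm_monomial 0 a

theorem nrm_C_mul_X_pow (a : ℤ) (i : ℕ) : nrm (C a * X ^ i) = |a| := by
  rw [C_mul_X_pow_eq_monomial]
  exact EA4_nrm_monomial i a

theorem EA4_nrm_prod {ι : Type*} (s : Finset ι) (f : ι → ℤ[X]) (c : ι → ℤ) (h : ∀ i ∈ s, nrm (f i) ≤ c i) :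
    nrm (∏ i ∈ s, f i) ≤ ∏ i ∈ s, c i := by
  induction s using Finset.induction_on with
  | empty =>
    rw [Finset.prod_empty, Finset.prod_empty, ← C_1, nrm_C, abs_one]
  | insert a s ha ih =>
    rw [Finset.prod_insert ha, Finset.prod_insert ha]
    have h1 := h a (Finset.mem_insert_self a s)
    have h2 := ih fun i hi => h i (Finset.mem_insert_of_mem hi)
    exact (nrm_mul _ _).trans (mul_le_mul h1 h2 (nrm_nonneg _) ((nrm_nonneg _).trans h1))

theorem EA4_nrm_neg (P : ℤ[X]) : nrm (-P) = nrm P := by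
  unfold nrm
  rw [support_neg]
  refine Finset.sum_congr rfl fun i _ => ?_
  rw [coeff_neg, abs_neg]

theorem EA4_nrm_sign (u : ℤˣ) (P : ℤ[X]) : nrm (u • P) = nrm P := by
  rw [Units.smul_def]
  rcases Int.units_eq_one_or u with h | h
  · rw [h, Units.val_one, one_smul]
  · rw [h, Units.val_neg, Units.val_one, neg_smul, one_smul, EA4_nrm_neg]

theorem EA4_coeff_Pq (w : V) (N : ℕ) (h1 : |w.1| ≤ (N : ℤ)) (h2 : |w.2.1| ≤ (N : ℤ)) (h3 : |w.2.2| ≤ (N : ℤ))
    (k : ℕ) : nrm ((Pq ((C w.1, C w.2.1, C w.2.2) : ℤ[X] × ℤ[X] × ℤ[X])).coeff k) ≤ (N : ℤ) := by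
  have h : (Pq ((C w.1, C w.2.1, C w.2.2) : ℤ[X] × ℤ[X] × ℤ[X])).coeff k =
      (if k = 2 then C w.1 else 0) + (if k = 1 then C w.2.1 else 0) + (if k = 0 then C w.2.2 else 0) := by
    unfold Pq
    rw [coeff_add, coeff_add, coeff_C_mul, coeff_X_pow, coeff_C_mul, coeff_X, coeff_C]
    simp only [mul_ite, mul_one, mul_zero, eq_comm (a := (1 : ℕ)) (b := k)]
  have hN : (0 : ℤ) ≤ N := Int.natCast_nonneg N
  rw [h]
  by_cases k2 : k = 2
  · subst k2
    rw [if_pos rfl, if_neg (by norm_num), if_neg (by norm_num), add_zero, add_zero, nrm_C]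
    exact h1
  by_cases k1 : k = 1
  · subst k1
    rw [if_neg (by norm_num), if_pos rfl, if_neg (by norm_num), add_zero, zero_add, nrm_C]
    exact h2
  by_cases k0 : k = 0
  · subst k0
    rw [if_neg (by norm_num), if_neg (by norm_num), if_pos rfl, zero_add, zero_add, nrm_C]
    exact h3
  · simp [k0, k1, k2, EA4_nrm_zero]

theorem EA4_coeff_Pf {k : ℕ} (f : Fin (k + 1) → ℤ[X]) (c : ℤ) (hc : 0 ≤ c) (hf : ∀ i, nrm (f i) ≤ c) (j : ℕ) :
    nrm ((Pf f).coeff j) ≤ c := by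
  by_cases hk : j < k + 1
  · have h := coeff_Pf f ⟨j, hk⟩
    simp only at h
    rw [h]
    exact hf _
  · rw [coeff_eq_zero_of_natDegree_lt (lt_of_le_of_lt (natDegree_Pf f) (by omega)), EA4_nrm_zero]
    exact hc

theorem EA4_nrm_Rs {k : ℕ} (f : Fin (k + 1) → ℤ[X]) (w : V) (c : ℤ) (N : ℕ) (hc : 0 ≤ c)
    (hf : ∀ i, nrm (f i) ≤ c) (h1 : |w.1| ≤ (N : ℤ)) (h2 : |w.2.1| ≤ (N : ℤ)) (h3 : |w.2.2| ≤ (N : ℤ)) :
    nrm (Rs f (C w.1, C w.2.1, C w.2.2)) ≤ ((k + 2).factorial : ℤ) * c ^ 2 * (N : ℤ) ^ k := by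
  have hN : (0 : ℤ) ≤ N := Int.natCast_nonneg N
  set Q : ℤ[X][X] := Pq ((C w.1, C w.2.1, C w.2.2) : ℤ[X] × ℤ[X] × ℤ[X]) with hQ
  have e1 : ∀ (i : Fin (k + 2)) (j : Fin k),
      nrm (sylvester (Pf f) Q k 2 i (Fin.castAdd 2 j)) ≤ (N : ℤ) := by
    intro i j
    unfold sylvester
    rw [Matrix.of_apply, Fin.addCases_left]
    split_ifs
    · exact EA4_coeff_Pq w N h1 h2 h3 _
    · rw [EA4_nrm_zero]
      exact hN
  have e2 : ∀ (i : Fin (k + 2)) (j : Fin 2),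
      nrm (sylvester (Pf f) Q k 2 i (Fin.natAdd k j)) ≤ c := by
    intro i j
    unfold sylvester
    rw [Matrix.of_apply, Fin.addCases_right]
    split_ifs
    · exact EA4_coeff_Pf f c hc hf _
    · rw [EA4_nrm_zero]
      exact hc
  have e3 : ∀ σ : Equiv.Perm (Fin (k + 2)),
      nrm (Equiv.Perm.sign σ • ∏ i, sylvester (Pf f) Q k 2 (σ i) i) ≤ c ^ 2 * (N : ℤ) ^ k := by
    intro σ
    rw [EA4_nrm_sign, Fin.prod_univ_add]
    refine (nrm_mul _ _).trans ?_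
    have f2 : nrm (∏ i : Fin k, sylvester (Pf f) Q k 2 (σ (Fin.castAdd 2 i)) (Fin.castAdd 2 i)) ≤
        (N : ℤ) ^ k := by
      refine (EA4_nrm_prod _ _ (fun _ => (N : ℤ)) fun i _ => e1 _ i).trans (le_of_eq ?_)
      simp
    have f3 : nrm (∏ i : Fin 2, sylvester (Pf f) Q k 2 (σ (Fin.natAdd k i)) (Fin.natAdd k i)) ≤
        c ^ 2 := by
      refine (EA4_nrm_prod _ _ (fun _ => c) fun i _ => e2 _ i).trans (le_of_eq ?_)
      simp
    rw [mul_comm (c ^ 2)]
    exact mul_le_mul f2 f3 (nrm_nonneg _) (pow_nonneg hN k)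
  have e4 : Rs f (C w.1, C w.2.1, C w.2.2) = ∑ σ : Equiv.Perm (Fin (k + 2)),
      Equiv.Perm.sign σ • ∏ i, sylvester (Pf f) Q k 2 (σ i) i := by
    unfold Rs Polynomial.resultant
    exact Matrix.det_apply _
  rw [e4]
  calc nrm (∑ σ : Equiv.Perm (Fin (k + 2)), Equiv.Perm.sign σ • ∏ i, sylvester (Pf f) Q k 2 (σ i) i)
      ≤ ∑ σ : Equiv.Perm (Fin (k + 2)),
        nrm (Equiv.Perm.sign σ • ∏ i, sylvester (Pf f) Q k 2 (σ i) i) := EA4_nrm_sum _ _
    _ ≤ ∑ _σ : Equiv.Perm (Fin (k + 2)), c ^ 2 * (N : ℤ) ^ k := Finset.sum_le_sum fun σ _ => e3 σ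
    _ = ((k + 2).factorial : ℤ) * c ^ 2 * (N : ℤ) ^ k := by
        rw [Finset.sum_const, Finset.card_univ, Fintype.card_perm, Fintype.card_fin, nsmul_eq_mul]
        ring

/-- Proof. As `FQQ.abs_Rs_le` (file RE of MP_10e784_agF) with `nrm` in the place of `| |`: the Sylvester determinant has `(2 n + 2)!` terms, each a product of `2 n` coefficients of `Pq (C w..)` (`nrm ≤ N`) and of `2` coefficients of `Pf f` (`nrm ≤ (2 m + 1) H`). -/
theorem abs_BE_le {m n : ℕ} (G : Fin (2 * m + 1) → Fin (2 * n + 1) → ℤ) (w : V) (H N : ℕ) (hG : ∀ i j, |G i j| ≤ (H : ℤ))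
    (hw : w ∈ box N) (i : Fin (4 * m + 1)) :
    |BE G w i| ≤ (((2 * n + 2).factorial * ((2 * m + 1) * H) ^ 2 * N ^ (2 * n) : ℕ) : ℤ) := by
  have hw' := mem_box.1 hw
  have hc : (0 : ℤ) ≤ (((2 * m + 1) * H : ℕ) : ℤ) := Int.natCast_nonneg _
  have h := EA4_nrm_Rs (k := 2 * n)
    (fun j : Fin (2 * n + 1) => ∑ a : Fin (2 * m + 1), C (G a j) * X ^ (a : ℕ)) w (((2 * m + 1) * H : ℕ) : ℤ) N hc
    (by
      intro j
      refine (EA4_nrm_sum _ _).trans ?_
      calc ∑ a : Fin (2 * m + 1), nrm (C (G a j) * X ^ (a : ℕ))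
          ≤ ∑ _a : Fin (2 * m + 1), (H : ℤ) := Finset.sum_le_sum fun a _ => by
            rw [nrm_C_mul_X_pow]
            exact hG a j
        _ = (((2 * m + 1) * H : ℕ) : ℤ) := by
            rw [Finset.sum_const, Finset.card_univ, Fintype.card_fin, nsmul_eq_mul]
            push_cast
            ring)
    hw'.1 hw'.2.1 hw'.2.2
  refine (abs_coeff_le_nrm _ _).trans (h.trans (le_of_eq ?_))
  push_cast
  ring

/-- the constant -/
def CE (m n : ℕ) : ℕ := (4 * m + 2).factorial * ((2 * n + 2).factorial * (2 * m + 1) ^ 2) ^ 2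

/-- Proof. `FQQ.abs_Rs_le` with the bound of `abs_BE_le` for the coefficients of `BE`: `(4 m + 2)! ((2 n + 2)! ((2 m + 1) H)² N^(2 n))² N^(4 m)`. -/
theorem abs_RE_le {m n : ℕ} (G : Fin (2 * m + 1) → Fin (2 * n + 1) → ℤ) (v w : V) (H N : ℕ) (hG : ∀ i j, |G i j| ≤ (H : ℤ))
    (hv : v ∈ box N) (hw : w ∈ box N) :
    |RE G v w| ≤ ((CE m n * H ^ 4 * N ^ (4 * m + 4 * n) : ℕ) : ℤ) := by
  have hv' := mem_box.1 hv
  have h := abs_Rs_le (m := 4 * m) (BE G w) v ((2 * n + 2).factorial * ((2 * m + 1) * H) ^ 2 * N ^ (2 * n)) N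
    (fun i => abs_BE_le G w H N hG hw i) hv'.1 hv'.2.1 hv'.2.2
  refine h.trans (le_of_eq ?_)
  unfold CE
  push_cast
  ring

end HNE
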