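import Pool.Agent.Lib.MP_1ad228_ntE.EA1
import Pool.Agent.Lib.MP_1ad228_ntE.EA0

/-! The number of the vectors with vanishing resultant. -/

set_option autoImplicit false

open Classical

namespace HNE

open Finset Polynomial FGO FQQ HNF

/-- fibres over the other coordinates. Proof. Copy `QV2_fiber` (QV2.lean of MP_10e784_agQ) with `5` replaced by `M`. -/
theorem fiber_card {M : ℕ} (H k : ℕ) (i0 : Fin (M + 1)) (S : Finset (Vn M)) (hS : S ⊆ boxN M H)
    (h : ∀ c ∈ S, ∃ T : Finset ℤ, T.card ≤ k ∧ ∀ c' ∈ S, (∀ j, j ≠ i0 → c' j = c j) → c' i0 ∈ T) :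
    S.card ≤ k * (2 * H + 1) ^ M := by
  have h1 : (Fintype.piFinset fun _ : Fin M => Icc (-(H : ℤ)) (H : ℤ)).card = (2 * H + 1) ^ M := by
    rw [Fintype.card_piFinset]
    simp only [Finset.prod_const, Finset.card_univ, Fintype.card_fin, Int.card_Icc]
    congr 1
    omega
  rw [← h1]
  refine Finset.card_le_mul_card_image_of_maps_to
    (f := fun (c : Vn M) (j : Fin M) => c (i0.succAbove j)) ?_ k ?_
  · intro c hc
    have hb := hS hc
    rw [boxN, Fintype.mem_piFinset] at hb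
    rw [Fintype.mem_piFinset]
    intro j
    exact hb _
  · intro b _
    by_cases hE : (S.filter fun c => (fun j : Fin M => c (i0.succAbove j)) = b) = ∅
    · rw [hE]
      simp
    · obtain ⟨c, hc⟩ := Finset.nonempty_iff_ne_empty.2 hE
      rw [Finset.mem_filter] at hc
      obtain ⟨T, hT, hT2⟩ := h c hc.1
      refine le_trans (Finset.card_le_card_of_injOn (fun c' => c' i0) ?_ ?_) hT
      · intro c' hc'
        rw [Finset.mem_coe, Finset.mem_filter] at hc'
        refine hT2 c' hc'.1 ?_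
        intro j hj
        obtain ⟨l, hl⟩ := Fin.exists_succAbove_eq hj
        have e : c' (i0.succAbove l) = c (i0.succAbove l) := congrFun (hc'.2.trans hc.2.symm) l
        rw [← hl]
        exact e
      · intro c1 hc1 c2 hc2 he
        rw [Finset.mem_coe, Finset.mem_filter] at hc1 hc2
        funext j
        by_cases hj : j = i0
        · rw [hj]
          exact he
        · obtain ⟨l, hl⟩ := Fin.exists_succAbove_eq hj
          have e : c1 (i0.succAbove l) = c2 (i0.succAbove l) := congrFun (hc1.2.trans hc2.2.symm) l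
          rw [← hl]
          exact e

/-- over a field in which `v` and `w` split. Proof. `split_of_sq`, `RE_vsplit`, `hv_BE_split`. -/
theorem RE_zero_root {F : Type} [Field F] [IsAlgClosed F] [CharZero F] {m n : ℕ} (v w : F × F × F) (hv : v.1 ≠ 0) (hw1 : w.1 ≠ 0) :
    ∃ S : Finset (F × F), S.card ≤ 4 ∧ ∀ G : Fin (2 * m + 1) → Fin (2 * n + 1) → F, RE G v w = 0 →
      ∃ rq ∈ S, bv G rq.1 1 rq.2 1 = 0 := by
  have h2 : (2 : F) ≠ 0 := two_ne_zero
  have hsqv : IsSquare (ds v) := by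
    obtain ⟨z, hz⟩ := IsAlgClosed.exists_eq_mul_self (ds v)
    exact ⟨z, hz⟩
  have hsqw : IsSquare (ds w) := by
    obtain ⟨z, hz⟩ := IsAlgClosed.exists_eq_mul_self (ds w)
    exact ⟨z, hz⟩
  obtain ⟨r, s, hrs⟩ := split_of_sq h2 v hv hsqv
  obtain ⟨q, q', hqq⟩ := split_of_sq h2 w hw1 hsqw
  refine ⟨{(r, q), (r, q'), (s, q), (s, q')}, ?_, ?_⟩
  · exact Finset.card_le_four
  · intro G hG
    rw [hrs, RE_vsplit, hqq, hv_BE_split, hv_BE_split] at hG
    have hva : v.1 ^ (4 * m) ≠ 0 := pow_ne_zero _ hv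
    have hwb : w.1 ^ (2 * n) ≠ 0 := pow_ne_zero _ hw1
    rcases mul_eq_zero.1 hG with h | h
    · have h3 := (mul_eq_zero.1 h).resolve_left hva
      rcases mul_eq_zero.1 ((mul_eq_zero.1 h3).resolve_left hwb) with h4 | h4
      · exact ⟨(r, q), by simp, h4⟩
      · exact ⟨(r, q'), by simp, h4⟩
    · rcases mul_eq_zero.1 ((mul_eq_zero.1 h).resolve_left hwb) with h4 | h4
      · exact ⟨(s, q), by simp, h4⟩
      · exact ⟨(s, q'), by simp, h4⟩

/-- Proof. `K = ℂ`, `S` of `RE_zero_root` (`RE_map` with `Int.castRingHom ℂ`). If `c`, `c'` differ only in the coordinate `0` (`bv_update` of EA0) and `RE (Gm c') v w = 0` then `c' 0 = c 0 - bv (Gm c) r 1 q 1` for one of the at most four `(r, q) ∈ S`: `fiber_card` with `k = 4` (`T` = the finite set of the integers `t` with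
`(t : ℂ) = c 0 - bv (Gm c) r 1 q 1` for some `(r, q) ∈ S`: at most four, as the cast is injective: image of `S` under a partial inverse). -/
theorem RE_zero_card {m n : ℕ} (hm : 1 ≤ m) (hn : 1 ≤ n) (H : ℕ) (v w : V) (hv : v.1 ≠ 0) (hw1 : w.1 ≠ 0) :
    ((boxN (MM m n) H).filter fun c => RE (Gm c) v w = 0).card ≤ 4 * (2 * H + 1) ^ (MM m n) := by
  obtain ⟨S, hS4, hS⟩ := RE_zero_root (F := ℂ) (m := m) (n := n)
    (Int.castRingHom ℂ v.1, Int.castRingHom ℂ v.2.1, Int.castRingHom ℂ v.2.2)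
    (Int.castRingHom ℂ w.1, Int.castRingHom ℂ w.2.1, Int.castRingHom ℂ w.2.2)
    (by
      show ((v.1 : ℤ) : ℂ) ≠ 0
      exact_mod_cast hv)
    (by
      show ((w.1 : ℤ) : ℂ) ≠ 0
      exact_mod_cast hw1)
  refine fiber_card H 4 0 _ (Finset.filter_subset _ _) ?_
  intro c _
  refine ⟨S.image fun rq => if h : ∃ t : ℤ, (t : ℂ) =
      (c 0 : ℂ) - bv (Gm (m := m) (n := n) fun i => (c i : ℂ)) rq.1 1 rq.2 1 then h.choose else 0,
      Finset.card_image_le.trans hS4, ?_⟩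
  intro c' hc' hj
  rw [Finset.mem_filter] at hc'
  have h0 : RE (fun a b => Int.castRingHom ℂ (Gm c' a b))
      (Int.castRingHom ℂ v.1, Int.castRingHom ℂ v.2.1, Int.castRingHom ℂ v.2.2)
      (Int.castRingHom ℂ w.1, Int.castRingHom ℂ w.2.1, Int.castRingHom ℂ w.2.2) = 0 := by
    rw [← RE_map, hc'.2, map_zero]
  obtain ⟨rq, hrq, h1⟩ := hS _ h0
  have h2 : bv (Gm (m := m) (n := n) fun i => (c' i : ℂ)) rq.1 1 rq.2 1 = 0 := h1
  rw [bv_update hm hn (fun i => (c i : ℂ)) (fun i => (c' i : ℂ)) (fun i hi => by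
    show ((c' i : ℤ) : ℂ) = ((c i : ℤ) : ℂ)
    rw [hj i hi])] at h2
  have h3 : ((c' 0 : ℤ) : ℂ) = (c 0 : ℂ) - bv (Gm (m := m) (n := n) fun i => (c i : ℂ)) rq.1 1 rq.2 1 := by
    linear_combination h2
  rw [Finset.mem_image]
  refine ⟨rq, hrq, ?_⟩
  have hex : ∃ t : ℤ, (t : ℂ) =
      (c 0 : ℂ) - bv (Gm (m := m) (n := n) fun i => (c i : ℂ)) rq.1 1 rq.2 1 := ⟨c' 0, h3⟩
  rw [dif_pos hex]
  have h4 : ((hex.choose : ℤ) : ℂ) = ((c' 0 : ℤ) : ℂ) := hex.choose_spec.trans h3.symm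
  exact_mod_cast h4

end HNE
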