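import Pool.Agent.Lib.MP_1ad228_ntE.Defs
import Pool.Agent.Lib.MP_1ad228_ntH.LC1
import Pool.Agent.Lib.MP_1ad228_ntH.Defs

/-!
# MP_1ad228_nt, Enriques surfaces: the resultant, the coordinates
-/

set_option autoImplicit false

open Classical

namespace HNE

open Finset Polynomial FGO FQQ HNF

section ring

variable {F : Type} [CommRing F]

/-- the value at `(x, z; y, t)` of the form of bidegree `(k - 1, l - 1)` with the coefficients `G` in `F` -/
def bv {k l : ℕ} (G : Fin k → Fin l → F) (x z y t : F) : F :=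
  ∑ i : Fin k, ∑ j : Fin l, G i j * (x ^ (i : ℕ) * z ^ (k - 1 - (i : ℕ))) * (y ^ (j : ℕ) * t ^ (l - 1 - (j : ℕ)))

/-- the form in `(y, t)` obtained for fixed `(x, z)` -/
def row {k l : ℕ} (G : Fin k → Fin l → F) (x z : F) : Fin l → F :=
  fun j => ∑ i : Fin k, G i j * (x ^ (i : ℕ) * z ^ (k - 1 - (i : ℕ)))

/-- the form in `(x, z)` obtained for fixed `(y, t)` -/
def col {k l : ℕ} (G : Fin k → Fin l → F) (y t : F) : Fin k → F :=
  fun i => ∑ j : Fin l, G i j * (y ^ (j : ℕ) * t ^ (l - 1 - (j : ℕ)))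

/-- the resultant, with respect to `(y, t)`, of `G` and `w`: a binary form of degree `4 m` in `(x, z)` -/
noncomputable def BE {m n : ℕ} (G : Fin (2 * m + 1) → Fin (2 * n + 1) → F) (w : F × F × F) : Fin (4 * m + 1) → F :=
  fun i => (Rs (m := 2 * n) (fun j : Fin (2 * n + 1) => ∑ a : Fin (2 * m + 1), C (G a j) * X ^ (a : ℕ))
    (C w.1, C w.2.1, C w.2.2)).coeff (i : ℕ)

/-- the resultant of the three forms `G, v, w` -/
noncomputable def RE {m n : ℕ} (G : Fin (2 * m + 1) → Fin (2 * n + 1) → F) (v w : F × F × F) : F :=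
  Rs (m := 4 * m) (BE G w) v

end ring

/-- the number of the coefficients of `G` is `MM m n + 1` -/
abbrev MM (m n : ℕ) : ℕ := 2 * m * (2 * n) + 2 * m + 2 * n

/-- the number of all coefficients of `H` and `G` is `TT m n + 1` -/
abbrev TT (m n : ℕ) : ℕ := 2 * m * (2 * n) + MM m n

/-- the numbering of the monomials of `G` begins with `1, r, q, r q` -/
def SgOK {m n : ℕ} (σ : Fin (MM m n + 1) ≃ Fin (2 * m + 1) × Fin (2 * n + 1)) : Prop :=
  (∀ i : Fin (MM m n + 1), (i : ℕ) = 0 → ((σ i).1 : ℕ) = 0 ∧ ((σ i).2 : ℕ) = 0) ∧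
  (∀ i : Fin (MM m n + 1), (i : ℕ) = 1 → ((σ i).1 : ℕ) = 1 ∧ ((σ i).2 : ℕ) = 0) ∧
  (∀ i : Fin (MM m n + 1), (i : ℕ) = 2 → ((σ i).1 : ℕ) = 0 ∧ ((σ i).2 : ℕ) = 1) ∧
  (∀ i : Fin (MM m n + 1), (i : ℕ) = 3 → ((σ i).1 : ℕ) = 1 ∧ ((σ i).2 : ℕ) = 1)

theorem MM_card (m n : ℕ) : Fintype.card (Fin (MM m n + 1)) = Fintype.card (Fin (2 * m + 1) × Fin (2 * n + 1)) := by
  rw [Fintype.card_fin, Fintype.card_prod, Fintype.card_fin, Fintype.card_fin]
  ring

/-- the numbering of the monomials of `G` -/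
noncomputable def sg (m n : ℕ) : Fin (MM m n + 1) ≃ Fin (2 * m + 1) × Fin (2 * n + 1) :=
  if h : ∃ σ : Fin (MM m n + 1) ≃ Fin (2 * m + 1) × Fin (2 * n + 1), SgOK σ then h.choose
  else Fintype.equivOfCardEq (MM_card m n)

/-- the exponents of the monomials -/
noncomputable def eE (m n : ℕ) (j : ℕ) : ℕ × ℕ :=
  if h : j < MM m n + 1 then (((sg m n ⟨j, h⟩).1 : ℕ), ((sg m n ⟨j, h⟩).2 : ℕ)) else (0, 0)

/-- the form `G` with the vector of coefficients `c` -/
noncomputable def Gm {F : Type} {m n : ℕ} (c : Fin (MM m n + 1) → F) : Fin (2 * m + 1) → Fin (2 * n + 1) → F :=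
  fun i j => c ((sg m n).symm (i, j))

/-- the coefficients of `G` in the vector of all coefficients -/
def cG {F : Type} {m n : ℕ} (f : Fin (TT m n + 1) → F) : Fin (MM m n + 1) → F :=
  fun i => f (Fin.natAdd (2 * m * (2 * n)) i)

/-- the form `H` -/
def cH {F : Type} {m n : ℕ} (f : Fin (TT m n + 1) → F) : Fin (2 * m) → Fin (2 * n) → F :=
  fun i j => f (Fin.castAdd (MM m n + 1) (finProdFinEquiv (i, j)))

/-- the data of the surface with the vector `f` of all coefficients of `H`, `G` and the pair `u = (v, w)` -/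
noncomputable def toDt {m n : ℕ} (f : Vn (TT m n)) (u : V × V) : Dt m n := (u, (Gm (cG f), cH f))

/-- the resultant of the surface `q` -/
noncomputable def Rq {m n : ℕ} (q : Dt m n) : ℤ := RE q.2.1 q.1.1 q.1.2

end HNE
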