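import Pool.Agent.Lib.MP_1ad228_ntE.EA1
import Pool.Agent.Lib.MP_1ad228_ntH.LV
import Pool.Agent.Lib.MP_1ad228_ntH.HI1

/-! The generic point attached to a point of the surface. -/

set_option autoImplicit false

open Classical

namespace HNE

open Finset Polynomial FGO FQQ HNF ZC ZG

section

variable {F : Type} [CommRing F] {m n : ℕ}

/-- the six equations. Proof. `congrFun h.2.2 i` for `i = 0, .., 5`, `simp [eqs]`, `sub_eq_zero`. -/
theorem IsPt.eq {q : Dt m n} {P : Fin 7 → F} (h : IsPt q P) :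
    P 4 ^ 2 = fV q P * fW q P ∧ P 5 ^ 2 = fV q P * fD q P ∧ P 6 ^ 2 = fW q P * fD q P ∧
    P 4 * P 5 = fV q P * P 6 ∧ P 4 * P 6 = fW q P * P 5 ∧ P 5 * P 6 = fD q P * P 4 := by
  have h0 := h.2.2
  have e : ∀ i, eqs q P i = 0 := fun i => congrFun h0 i
  have e0 := e 0
  have e1 := e 1
  have e2 := e 2
  have e3 := e 3
  have e4 := e 4
  have e5 := e 5
  simp only [eqs, Matrix.cons_val_zero, Matrix.cons_val_one, Matrix.cons_val] at e0 e1 e2 e3 e4 e5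
  exact ⟨sub_eq_zero.1 e0, sub_eq_zero.1 e1, sub_eq_zero.1 e2, sub_eq_zero.1 e3, sub_eq_zero.1 e4, sub_eq_zero.1 e5⟩

/-- the converse -/
theorem isPt_of {q : Dt m n} {P : Fin 7 → F} (h1 : ¬ (P 0 = 0 ∧ P 1 = 0)) (h2 : ¬ (P 2 = 0 ∧ P 3 = 0))
    (e0 : P 4 ^ 2 = fV q P * fW q P) (e1 : P 5 ^ 2 = fV q P * fD q P) (e2 : P 6 ^ 2 = fW q P * fD q P)
    (e3 : P 4 * P 5 = fV q P * P 6) (e4 : P 4 * P 6 = fW q P * P 5) (e5 : P 5 * P 6 = fD q P * P 4) : IsPt q P := by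
  refine ⟨h1, h2, ?_⟩
  funext i
  fin_cases i
  · exact sub_eq_zero.2 e0
  · exact sub_eq_zero.2 e1
  · exact sub_eq_zero.2 e2
  · exact sub_eq_zero.2 e3
  · exact sub_eq_zero.2 e4
  · exact sub_eq_zero.2 e5

end

/-- The three functions have no common zero. Proof. If `V = W = D = 0` then `P 4 ^ 2 = 0`, so `P 4 = 0` and `G = D = 0` at the point. `row G x z` and `w` have the common zero `(y, t)` (`hv_row`): `Rs (row G x z) w = 0` (`Rs_zero_of_root`, `1 ≤ 2 n`), i.e. `hv (BE G w) x z = 0` (`hv_BE`); `BE G w` and `v` have the common zero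
`(x, z)`: `RE = 0` in `K` (`Rs_zero_of_root`, `1 ≤ 4 m`); `RE_map` for `Int.castRingHom K`, injective. Model `noz_of_R` in QI1.lean of MP_10e784_agQ. -/
theorem noz_of_R {m n : ℕ} (hm : 1 ≤ m) (hn : 1 ≤ n) (q : Dt m n) (hR : Rq q ≠ 0) (K : Type) [Field K] [CharZero K]
    (P : Fin 7 → K) (h : IsPt q P) : ¬ (fV q P = 0 ∧ fW q P = 0 ∧ fD q P = 0) := by
  rintro ⟨h1, h2, h3⟩
  have he := h.eq.1
  have hP4 : P 4 = 0 := by
    rw [h1, zero_mul] at he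
    exact pow_eq_zero_iff (two_ne_zero) |>.1 he
  have hG : bv (fun i j => ((q.2.1 i j : ℤ) : K)) (P 0) (P 1) (P 2) (P 3) = 0 := by
    have h4 := h3
    unfold fD at h4
    rw [hP4, zero_mul, add_zero, vB_eq] at h4
    exact h4
  have h4 : FQQ.hv (m := 2 * n) (row (fun i j => ((q.2.1 i j : ℤ) : K)) (P 0) (P 1)) (P 2) (P 3) = 0 := by
    rw [hv_row]
    exact hG
  have hw : qv (((q.1.2.1 : ℤ) : K), ((q.1.2.2.1 : ℤ) : K), ((q.1.2.2.2 : ℤ) : K)) (P 2) (P 3) = 0 := by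
    rw [← vV_eq]
    exact h2
  have h5 := Rs_zero_of_root (by omega : 1 ≤ 2 * n) _ _ (P 2) (P 3) h.2.1 h4 hw
  have h6 : FQQ.hv (m := 4 * m) (BE (fun i j => ((q.2.1 i j : ℤ) : K)) (((q.1.2.1 : ℤ) : K), ((q.1.2.2.1 : ℤ) : K), ((q.1.2.2.2 : ℤ) : K)))
      (P 0) (P 1) = 0 := by
    rw [hv_BE]
    exact h5
  have hw' : qv (((q.1.1.1 : ℤ) : K), ((q.1.1.2.1 : ℤ) : K), ((q.1.1.2.2 : ℤ) : K)) (P 0) (P 1) = 0 := by
    rw [← vV_eq]
    exact h1
  have h7 := Rs_zero_of_root (by omega : 1 ≤ 4 * m) _ _ (P 0) (P 1) h.1 h6 hw'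
  have h8 : ((Rq q : ℤ) : K) = 0 := by
    rw [← h7]
    exact RE_map (Int.castRingHom K) q.2.1 q.1.1 q.1.2
  exact hR (by exact_mod_cast h8)

/-- the generic point attached to a point of the surface: the pair `(V, W)`, or `(0, D)` if `V = W = 0` -/
noncomputable def toGP {F : Type} [Field F] [CharZero F] {m n : ℕ} (hm : 1 ≤ m) (hn : 1 ≤ n) {q : Dt m n} (hR : Rq q ≠ 0)
    (P : Pt F q) : GP F where
  K := P.K
  a := fV q P.P
  b := if fV q P.P = 0 ∧ fW q P.P = 0 then fD q P.P else fW q P.P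
  y := if fV q P.P = 0 ∧ fW q P.P = 0 then 0 else P.P 4
  eq := by
    by_cases h : fV q P.P = 0 ∧ fW q P.P = 0
    · rw [if_pos h, if_pos h, h.1]
      ring
    · rw [if_neg h, if_neg h]
      exact P.isPt.eq.1
  ne := by
    have : CharZero P.K := charZero_of_injective_algebraMap (algebraMap F P.K).injective
    rintro ⟨h1, h2⟩
    by_cases h : fV q P.P = 0 ∧ fW q P.P = 0
    · rw [if_pos h] at h2
      exact noz_of_R hm hn q hR P.K P.P P.isPt ⟨h.1, h.2, h2⟩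
    · rw [if_neg h] at h2
      exact h ⟨h1, h2⟩

theorem toGP_val {F : Type} [Field F] [CharZero F] {m n : ℕ} (hm : 1 ≤ m) (hn : 1 ≤ n) {q : Dt m n} (hR : Rq q ≠ 0)
    (P : Pt F q) : (toGP hm hn hR P).val = P.val := by
  change (if fV q P.P = 0 then (if fV q P.P = 0 ∧ fW q P.P = 0 then fD q P.P else fW q P.P) else fV q P.P) = P.val
  unfold Pt.val
  by_cases h1 : fV q P.P = 0
  · by_cases h2 : fW q P.P = 0
    · rw [if_pos h1, if_pos ⟨h1, h2⟩, if_neg (not_not.2 h1), if_neg (not_not.2 h2)]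
    · rw [if_pos h1, if_neg (fun h => h2 h.2), if_neg (not_not.2 h1), if_pos h2]
  · rw [if_neg h1, if_pos h1]

/-- Proof. `HI1_form` (file HI1.lean of H). -/
theorem toGP_NfA {F : Type} [Field F] [CharZero F] {m n : ℕ} (hm : 1 ≤ m) (hn : 1 ≤ n) {q : Dt m n} (hR : Rq q ≠ 0)
    (P : Pt F q) (hv : q.1.1.1 ≠ 0) : (toGP hm hn hR P).NfA q.1.1.1 (ds (q.1.1 : V)) := by
  have : CharZero P.K := charZero_of_injective_algebraMap (algebraMap F P.K).injective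
  exact HI1_form q.1.1 hv (P.P 0) (P.P 1) P.isPt.1

theorem EI1_id {K : Type} [Field K] [CharZero K] (D e : K) (he : e ≠ 0) :
    D = ((1 + D) / 2) ^ 2 - e ^ 2 * ((D - 1) / (2 * e)) ^ 2 := by
  field_simp
  ring

/-- Proof. If not `V = W = 0`: `HI1_form`. If `V = W = 0`: `HI1_form` for `w` at `(y, t)` gives `X, Y`, not both zero, with `0 = X² - ds w Y²`; `Y ≠ 0`, so `e = X / Y` satisfies `e² = ds w`, `e ≠ 0`; put `X' = (1 + 4 w.1 D)/2`, `Y' = (4 w.1 D - 1)/(2 e)`: `X' - e Y' = 1`, `X' + e Y' = 4 w.1 D`. -/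
theorem toGP_NfB {F : Type} [Field F] [CharZero F] {m n : ℕ} (hm : 1 ≤ m) (hn : 1 ≤ n) {q : Dt m n} (hR : Rq q ≠ 0)
    (P : Pt F q) (hw1 : q.1.2.1 ≠ 0) (hd : ds (q.1.2 : V) ≠ 0) : (toGP hm hn hR P).NfB q.1.2.1 (ds (q.1.2 : V)) := by
  have : CharZero P.K := charZero_of_injective_algebraMap (algebraMap F P.K).injective
  obtain ⟨X, Y, h1, h2⟩ := HI1_form q.1.2 hw1 (P.P 2) (P.P 3) P.isPt.2.1
  by_cases h : fV q P.P = 0 ∧ fW q P.P = 0
  · have h0 : vV q.1.2 (P.P 2) (P.P 3) = 0 := h.2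
    have h1' : X ^ 2 = ((ds (q.1.2 : V) : ℤ) : P.K) * Y ^ 2 := by
      have h3 : 4 * ((q.1.2.1 : ℤ) : P.K) * vV q.1.2 (P.P 2) (P.P 3) = X ^ 2 - ((ds (q.1.2 : V) : ℤ) : P.K) * Y ^ 2 := h1
      rw [h0, mul_zero] at h3
      exact sub_eq_zero.1 h3.symm
    have hdK : ((ds (q.1.2 : V) : ℤ) : P.K) ≠ 0 := Int.cast_ne_zero.2 hd
    have hwK : ((q.1.2.1 : ℤ) : P.K) ≠ 0 := Int.cast_ne_zero.2 hw1
    have hY : Y ≠ 0 := by
      intro hY
      rw [hY] at h1'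
      have h3 : X ^ 2 = 0 := by rw [h1']; ring
      exact h2 ⟨pow_eq_zero_iff (two_ne_zero) |>.1 h3, hY⟩
    obtain ⟨e, he⟩ : ∃ e : P.K, e * Y = X := ⟨X / Y, div_mul_cancel₀ X hY⟩
    have hee : e ^ 2 = ((ds (q.1.2 : V) : ℤ) : P.K) := by
      have hY2 : Y ^ 2 ≠ 0 := pow_ne_zero 2 hY
      apply mul_right_cancel₀ hY2
      rw [← h1', ← he]
      ring
    have he0 : e ≠ 0 := by
      intro h3
      rw [h3] at hee
      exact hdK (by rw [← hee]; ring)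
    have h20 : (2 : P.K) ≠ 0 := two_ne_zero
    have h2e : (2 * e : P.K) ≠ 0 := mul_ne_zero h20 he0
    have key : ∃ X Y : P.K, 4 * ((q.1.2.1 : ℤ) : P.K) * fD q P.P =
        X ^ 2 - ((ds (q.1.2 : V) : ℤ) : P.K) * Y ^ 2 ∧ ¬ (X = 0 ∧ Y = 0) := by
      refine ⟨(1 + 4 * ((q.1.2.1 : ℤ) : P.K) * fD q P.P) / 2, (4 * ((q.1.2.1 : ℤ) : P.K) * fD q P.P - 1) / (2 * e), ?_, ?_⟩
      · rw [← hee]
        exact EI1_id (4 * ((q.1.2.1 : ℤ) : P.K) * fD q P.P) e he0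
      · rintro ⟨h3, h4⟩
        rw [div_eq_zero_iff] at h3 h4
        have h3' := h3.resolve_right h20
        have h4' := h4.resolve_right h2e
        have h5 : (2 : P.K) = 0 := by linear_combination h3' - h4'
        exact h20 h5
    have hb : (toGP hm hn hR P).b = fD q P.P := if_pos h
    obtain ⟨X', Y', h3, h4⟩ := key
    refine ⟨X', Y', ?_, h4⟩
    rw [hb]
    exact h3
  · have hb : (toGP hm hn hR P).b = fW q P.P := if_neg h
    refine ⟨X, Y, ?_, h2⟩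
    rw [hb]
    exact h1

end HNE
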