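import Pool.Agent.Lib.MP_1ad228_ntH.LV

/-! Two forms with integral coefficients in a finite extension of `ℚ_p` whose resultant is a unit: at a primitive point one of the values is a unit. -/

set_option autoImplicit false

open Classical

namespace HNE

open Finset FGO FQQ ZC ZG Polynomial HNF

section

variable {p : ℕ} [Fact p.Prime] {K : Type} [Field K] [Algebra ℚ_[p] K]

theorem EV1_Rs_map {F F' : Type} [CommRing F] [CommRing F'] (φ : F →+* F') {m : ℕ} (f : Fin (m + 1) → F) (v : F × F × F) :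
    φ (Rs f v) = Rs (fun i => φ (f i)) (φ v.1, φ v.2.1, φ v.2.2) := by
  have h1 : (Pf f).map φ = Pf (fun i => φ (f i)) := by
    unfold Pf
    rw [Polynomial.map_sum]
    refine Finset.sum_congr rfl fun i _ => ?_
    rw [Polynomial.map_mul, Polynomial.map_pow, Polynomial.map_C, Polynomial.map_X]
  have h2 : (Pq v).map φ = Pq (φ v.1, φ v.2.1, φ v.2.2) := by
    unfold Pq
    rw [Polynomial.map_add, Polynomial.map_add, Polynomial.map_mul, Polynomial.map_mul,
      Polynomial.map_pow, Polynomial.map_C, Polynomial.map_C, Polynomial.map_C, Polynomial.map_X]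
  unfold Rs
  rw [← h1, ← h2, Polynomial.resultant_map_map]

/-- the ring of integral elements -/
noncomputable def EV1_O (L : LVal p K) : Subring K where
  carrier := {x | L.v x ≤ 1}
  mul_mem' := fun ha hb => LV_mul_le L ha hb
  one_mem' := (v_one L).le
  add_mem' := fun ha hb => (L.add _ _).trans (max_le ha hb)
  zero_mem' := by
    show L.v 0 ≤ 1
    rw [(L.zero_iff 0).2 rfl]
    exact zero_le_one
  neg_mem' := fun {x} hx => by
    show L.v (-x) ≤ 1
    rw [v_neg]
    exact hx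

/-- the residue field -/
theorem EV1_res (L : LVal p K) : ∃ (k : Type) (_ : Field k) (φ : EV1_O L →+* k), ∀ x : EV1_O L, φ x = 0 ↔ L.v (x : K) < 1 := by
  let I : Ideal (EV1_O L) :=
    { carrier := {x | L.v (x : K) < 1}
      add_mem' := fun {a b} ha hb => LV_add_lt L ha hb
      zero_mem' := by
        show L.v ((0 : EV1_O L) : K) < 1
        rw [Subring.coe_zero, (L.zero_iff 0).2 rfl]
        exact zero_lt_one
      smul_mem' := fun c {x} hx => by
        show L.v ((c * x : EV1_O L) : K) < 1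
        rw [Subring.coe_mul, mul_comm]
        exact LV_mul_lt L hx c.2 }
  have hI : I.IsMaximal := by
    rw [Ideal.isMaximal_iff]
    refine ⟨?_, ?_⟩
    · intro h
      have h1 : L.v ((1 : EV1_O L) : K) < 1 := h
      rw [Subring.coe_one, v_one] at h1
      exact lt_irrefl _ h1
    · intro J x _ hxI hxJ
      have h1 : L.v (x : K) = 1 := by
        refine le_antisymm x.2 ?_
        by_contra hlt
        exact hxI (not_le.1 hlt)
      have hx0 : (x : K) ≠ 0 := by
        intro h0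
        rw [h0, (L.zero_iff 0).2 rfl] at h1
        exact zero_ne_one h1
      have hinv : L.v ((x : K)⁻¹) ≤ 1 := by
        rw [v_inv, h1, inv_one]
      have h2 := J.mul_mem_left ⟨(x : K)⁻¹, hinv⟩ hxJ
      have h3 : (⟨(x : K)⁻¹, hinv⟩ * x : EV1_O L) = 1 := by
        apply Subtype.ext
        show (x : K)⁻¹ * (x : K) = 1
        exact inv_mul_cancel₀ hx0
      rwa [h3] at h2
  refine ⟨EV1_O L ⧸ I, Ideal.Quotient.field I, Ideal.Quotient.mk I, fun x => ?_⟩
  exact Ideal.Quotient.eq_zero_iff_mem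

theorem EV1_eval_le (L : LVal p K) (P : (EV1_O L)[X]) {x : K} (hx : L.v x ≤ 1) : L.v (P.eval₂ (EV1_O L).subtype x) ≤ 1 := by
  rw [Polynomial.eval₂_eq_sum_range]
  refine LV_sum_le L _ _ 1 zero_le_one fun i _ => LV_mul_le L ?_ (LV_pow_le L hx i)
  exact (P.coeff i).2

theorem EV1_hv_le (L : LVal p K) {m : ℕ} (f : Fin (m + 1) → K) (hf : ∀ i, L.v (f i) ≤ 1) {x z : K} (hx : L.v x ≤ 1) (hz : L.v z ≤ 1) :
    L.v (FQQ.hv f x z) ≤ 1 := by
  unfold FQQ.hv
  exact LV_sum_le L _ _ 1 zero_le_one fun i _ => LV_mul_le L (LV_mul_le L (hf i) (LV_pow_le L hx _)) (LV_pow_le L hz _)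

theorem EV1_qv_le (L : LVal p K) (w : K × K × K) (hw : L.v w.1 ≤ 1 ∧ L.v w.2.1 ≤ 1 ∧ L.v w.2.2 ≤ 1) {x z : K} (hx : L.v x ≤ 1) (hz : L.v z ≤ 1) :
    L.v (qv w x z) ≤ 1 := by
  unfold qv
  refine (L.add _ _).trans (max_le ((L.add _ _).trans (max_le ?_ ?_)) ?_)
  · exact LV_mul_le L hw.1 (LV_pow_le L hx _)
  · exact LV_mul_le L (LV_mul_le L hw.2.1 hx) hz
  · exact LV_mul_le L hw.2.2 (LV_pow_le L hz _)

/-- the affine case -/
theorem EV1_aff (L : LVal p K) {m : ℕ} (f : Fin (m + 1) → K) (w : K × K × K) (hf : ∀ i, L.v (f i) ≤ 1)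
    (hw : L.v w.1 ≤ 1 ∧ L.v w.2.1 ≤ 1 ∧ L.v w.2.2 ≤ 1) (hR : L.v (Rs f w) = 1) {x : K} (hx : L.v x ≤ 1) :
    L.v (FQQ.hv f x 1) = 1 ∨ L.v (qv w x 1) = 1 := by
  let f' : Fin (m + 1) → EV1_O L := fun i => ⟨f i, hf i⟩
  let w' : EV1_O L × EV1_O L × EV1_O L := (⟨w.1, hw.1⟩, ⟨w.2.1, hw.2.1⟩, ⟨w.2.2, hw.2.2⟩)
  obtain ⟨a, b, _, _, h⟩ := exists_mul_add_mul_eq_C_resultant (Pf f') (Pq w') (natDegree_Pf f')
    (natDegree_Pq w') (Or.inr two_ne_zero)
  change Pf f' * a + Pq w' * b = C (Rs f' w') at h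
  have h3 := congrArg (Polynomial.eval₂ (EV1_O L).subtype x) h
  have hf3 : (Pf f').eval₂ (EV1_O L).subtype x = FQQ.hv f x 1 := by
    unfold Pf FQQ.hv
    rw [Polynomial.eval₂_finsetSum]
    refine Finset.sum_congr rfl (fun i _ => ?_)
    rw [eval₂_mul, eval₂_pow, eval₂_C, eval₂_X, one_pow, mul_one]
    rfl
  have hq3 : (Pq w').eval₂ (EV1_O L).subtype x = qv w x 1 := by
    unfold Pq qv
    rw [eval₂_add, eval₂_add, eval₂_mul, eval₂_mul, eval₂_pow, eval₂_C, eval₂_C, eval₂_C, eval₂_X,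
      one_pow, mul_one, mul_one]
    rfl
  rw [eval₂_add, eval₂_mul, eval₂_mul, eval₂_C, hf3, hq3] at h3
  have hR1 : (EV1_O L).subtype (Rs f' w') = Rs f w := EV1_Rs_map (EV1_O L).subtype f' w'
  have hone : L.v (1 : K) ≤ 1 := (v_one L).le
  by_contra hcon
  push Not at hcon
  have l1 : L.v (FQQ.hv f x 1) < 1 := lt_of_le_of_ne (EV1_hv_le L f hf hx hone) hcon.1
  have l2 : L.v (qv w x 1) < 1 := lt_of_le_of_ne (EV1_qv_le L w hw hx hone) hcon.2
  have l3 := LV_add_lt L (LV_mul_lt L l1 (EV1_eval_le L a hx)) (LV_mul_lt L l2 (EV1_eval_le L b hx))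
  rw [h3, hR1, hR] at l3
  exact lt_irrefl _ l3

/-- the case of the residue disc of the point at infinity -/
theorem EV1_inf (L : LVal p K) {m : ℕ} (hm : 1 ≤ m) (f : Fin (m + 1) → K) (w : K × K × K) (hf : ∀ i, L.v (f i) ≤ 1)
    (hw : L.v w.1 ≤ 1 ∧ L.v w.2.1 ≤ 1 ∧ L.v w.2.2 ≤ 1) (hR : L.v (Rs f w) = 1) {z : K} (hz : L.v z < 1) :
    L.v (FQQ.hv f 1 z) = 1 ∨ L.v (qv w 1 z) = 1 := by
  have hlead : L.v (f (Fin.last m)) = 1 ∨ L.v w.1 = 1 := by
    by_contra hcon
    push Not at hcon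
    have l1 : L.v (f (Fin.last m)) < 1 := lt_of_le_of_ne (hf _) hcon.1
    have l2 : L.v w.1 < 1 := lt_of_le_of_ne hw.1 hcon.2
    let f' : Fin (m + 1) → EV1_O L := fun i => ⟨f i, hf i⟩
    let w' : EV1_O L × EV1_O L × EV1_O L := (⟨w.1, hw.1⟩, ⟨w.2.1, hw.2.1⟩, ⟨w.2.2, hw.2.2⟩)
    have hR1 : (EV1_O L).subtype (Rs f' w') = Rs f w := EV1_Rs_map (EV1_O L).subtype f' w'
    obtain ⟨k, hk, φ, hφ⟩ := EV1_res L
    have h0 : Rs (fun i => φ (f' i)) (φ w'.1, φ w'.2.1, φ w'.2.2) = 0 := by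
      refine Rs_zero_of_root hm _ _ 1 0 (fun h => one_ne_zero h.1) ?_ ?_
      · rw [hv_inf]
        exact (hφ _).2 l1
      · have h1 : φ w'.1 = 0 := (hφ _).2 l2
        unfold qv
        rw [h1]
        ring
    rw [← EV1_Rs_map] at h0
    have h1 := (hφ _).1 h0
    have h2 : ((Rs f' w' : EV1_O L) : K) = Rs f w := hR1
    rw [h2, hR] at h1
    exact lt_irrefl _ h1
  rcases hlead with h | h
  · left
    have e : FQQ.hv f 1 z = f (Fin.last m) +
        z * ∑ i ∈ (univ : Finset (Fin (m + 1))).erase (Fin.last m), f i * z ^ (m - (i : ℕ) - 1) := by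
      unfold FQQ.hv
      rw [← Finset.add_sum_erase _ _ (Finset.mem_univ (Fin.last m)), Finset.mul_sum]
      congr 1
      · simp
      · refine Finset.sum_congr rfl fun i hi => ?_
        have hi' : (i : ℕ) < m := by
          have h1 : (i : ℕ) ≠ m := fun h => (Finset.mem_erase.1 hi).1 (Fin.ext (by simpa using h))
          omega
        obtain ⟨k, hk⟩ : ∃ k, m - (i : ℕ) = k + 1 := ⟨m - (i : ℕ) - 1, by omega⟩
        rw [hk, Nat.add_sub_cancel, one_pow, mul_one, pow_succ]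
        ring
    rw [e]
    rw [v_eq_of_close L (y := f (Fin.last m)), h]
    rw [add_sub_cancel_left, h]
    refine LV_mul_lt L hz (LV_sum_le L _ _ 1 zero_le_one fun i _ => LV_mul_le L (hf i) (LV_pow_le L hz.le _))
  · right
    rw [v_eq_of_close L (y := w.1), h]
    rw [h]
    have e : qv w 1 z - w.1 = z * (w.2.1 + w.2.2 * z) := by
      unfold qv
      ring
    rw [e]
    exact LV_mul_lt L hz ((L.add _ _).trans (max_le hw.2.1 (LV_mul_le L hw.2.2 hz.le)))

end

/-- **Proof.** (Generalization of `HNF.LV_unit`, file LV.lean of MP_1ad228_ntH, from integers to integral elements of `K`.) Let `O` be the subring of `K` of the elements with `L.v x ≤ 1` (`L.add`, `L.mul`, `v_one`, `v_neg`); `f i`, `w` lie in `O`; let `f'`, `w'` be the vectors over `O`. `Rs f' w'` maps to `Rs f w` (`HNF.Rs_map` for `O.subtype`).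
(1) Affine case, `L.v x ≤ 1`: one of `hv f x 1`, `qv w x 1` has absolute value `1`. As in `LV_aff`: `exists_mul_add_mul_eq_C_resultant` over `O` gives `Pf f' * a + Pq w' * b = C (Rs f' w')`; evaluate (`eval₂ O.subtype x`, or at the element `x` of `O`): `hv f x 1 * a(x) + qv w x 1 * b(x) = Rs f w` of absolute value `1` with `a(x)`, `b(x)` integral; all values are `≤ 1`.
(2) The disc of the point at infinity, `L.v z < 1`: one of `hv f 1 z`, `qv w 1 z` has absolute value `1`. As in `LV_inf`: one of the leading coefficients `f (Fin.last m)`, `w.1` has absolute value `1`: otherwise both are in the ideal `I = {L.v < 1}` of `O`, which is maximal (an element of `O` outside `I` is a unit of `O`); over the residue field `O ⧸ I`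
the images of the two forms have the common zero `(1, 0)` (`Rs_zero_of_root`, `hv_inf`), so the image of `Rs f' w'` vanishes (`HNF.Rs_map` for `Ideal.Quotient.mk I`) and `L.v (Rs f w) < 1`, contradiction. Then the form with the unit leading coefficient has value congruent to it modulo `z` (copy from `LV_inf`).
(3) The scaling as in `LV_unit` (`hv_smul`, `qv_smul`). -/
theorem LVK_unit {p : ℕ} [Fact p.Prime] {K : Type} [Field K] [Algebra ℚ_[p] K] (L : LVal p K) {m : ℕ} (hm : 1 ≤ m)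
    (f : Fin (m + 1) → K) (w : K × K × K) (hf : ∀ i, L.v (f i) ≤ 1) (hw : L.v w.1 ≤ 1 ∧ L.v w.2.1 ≤ 1 ∧ L.v w.2.2 ≤ 1)
    (hR : L.v (Rs f w) = 1) {x z : K} (hne : ¬ (x = 0 ∧ z = 0)) :
    ∃ lam : K, lam ≠ 0 ∧ L.v x ≤ L.v lam ∧ L.v z ≤ L.v lam ∧
      (L.v (hv f x z) = L.v lam ^ m ∨ L.v (qv w x z) = L.v lam ^ 2) := by
  rcases le_or_gt (L.v x) (L.v z) with h | h
  · have hz : z ≠ 0 := by
      intro h0
      rw [h0, (L.zero_iff 0).2 rfl] at h
      exact hne ⟨(L.zero_iff _).1 (le_antisymm h (L.nonneg _)), h0⟩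
    have hz0 : 0 < L.v z := lt_of_le_of_ne (L.nonneg z) fun h => hz ((L.zero_iff z).1 h.symm)
    refine ⟨z, hz, h, le_rfl, ?_⟩
    have hx : L.v (x / z) ≤ 1 := by
      rw [v_div]
      exact (div_le_one hz0).2 h
    have e1 : x = z * (x / z) := by field_simp
    have e2 : z = z * 1 := (mul_one z).symm
    have k1 : FQQ.hv f x z = z ^ m * FQQ.hv f (x / z) 1 := by
      rw [← hv_smul, ← e1, ← e2]
    have k2 : qv w x z = z ^ 2 * qv w (x / z) 1 := by
      rw [← qv_smul, ← e1, ← e2]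
    rcases EV1_aff L f w hf hw hR hx with h1 | h1
    · left
      rw [k1, L.mul, h1, mul_one, v_pow]
    · right
      rw [k2, L.mul, h1, mul_one, v_pow]
  · have hx : x ≠ 0 := by
      intro h0
      rw [h0, (L.zero_iff 0).2 rfl] at h
      exact absurd h (not_lt.2 (L.nonneg z))
    have hx0 : 0 < L.v x := lt_of_le_of_ne (L.nonneg x) fun h => hx ((L.zero_iff x).1 h.symm)
    refine ⟨x, hx, le_rfl, h.le, ?_⟩
    have hz : L.v (z / x) < 1 := by
      rw [v_div]
      exact (div_lt_one hx0).2 h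
    have e1 : z = x * (z / x) := by field_simp
    have e2 : x = x * 1 := (mul_one x).symm
    have k1 : FQQ.hv f x z = x ^ m * FQQ.hv f 1 (z / x) := by
      rw [← hv_smul, ← e1, ← e2]
    have k2 : qv w x z = x ^ 2 * qv w 1 (z / x) := by
      rw [← qv_smul, ← e1, ← e2]
    rcases EV1_inf L hm f w hf hw hR hz with h1 | h1
    · left
      rw [k1, L.mul, h1, mul_one, v_pow]
    · right
      rw [k2, L.mul, h1, mul_one, v_pow]

end HNE
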