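import Pool.Agent.Lib.MP_1ad228_ntE.EI1
import Pool.Agent.Lib.MP_1ad228_ntE.EV1

/-! One of the three values has the absolute value of a square. -/

set_option autoImplicit false

open Classical

namespace HNE

open Finset Polynomial FGO FQQ HNF ZC ZG

/-- the value of a form of a bidegree with integral coefficients at integral arguments is integral -/
theorem EI2_bv_le {p : ℕ} [Fact p.Prime] {K : Type} [Field K] [Algebra ℚ_[p] K] (L : LVal p K) {k l : ℕ}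
    (G : Fin k → Fin l → ℤ) {x z y t : K} (hx : L.v x ≤ 1) (hz : L.v z ≤ 1) (hy : L.v y ≤ 1) (ht : L.v t ≤ 1) :
    L.v (bv (fun i j => (G i j : K)) x z y t) ≤ 1 := by
  unfold bv
  refine LV_sum_le L _ _ 1 zero_le_one fun i _ => LV_sum_le L _ _ 1 zero_le_one fun j _ => ?_
  exact LV_mul_le L (LV_mul_le L (v_int_le L _) (LV_mul_le L (LV_pow_le L hx _) (LV_pow_le L hz _)))
    (LV_mul_le L (LV_pow_le L hy _) (LV_pow_le L ht _))

theorem EI2_row_le {p : ℕ} [Fact p.Prime] {K : Type} [Field K] [Algebra ℚ_[p] K] (L : LVal p K) {k l : ℕ}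
    (G : Fin k → Fin l → ℤ) {x z : K} (hx : L.v x ≤ 1) (hz : L.v z ≤ 1) (j : Fin l) :
    L.v (row (fun i j => (G i j : K)) x z j) ≤ 1 := by
  unfold row
  refine LV_sum_le L _ _ 1 zero_le_one fun i _ => ?_
  exact LV_mul_le L (v_int_le L _) (LV_mul_le L (LV_pow_le L hx _) (LV_pow_le L hz _))

theorem EI2_div_le {p : ℕ} [Fact p.Prime] {K : Type} [Field K] [Algebra ℚ_[p] K] (L : LVal p K) {x c : K} (hc : c ≠ 0)
    (h : L.v x ≤ L.v c) : L.v (x / c) ≤ 1 := by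
  rw [v_div]
  have h0 : 0 < L.v c := lt_of_le_of_ne (L.nonneg c) fun h => hc ((L.zero_iff c).1 h.symm)
  exact (div_le_one h0).2 h

/-- **Proof.** `|t| = L.v t`. `LV_unit` (file LV.lean of H, `m = 4 m`, `f = BE q.2.1 q.1.2`, integers, `hp`) at `(x, z) = (P 0, P 1)`: `lam ≠ 0`, `|x|, |z| ≤ |lam|` and `|hv (BE ..) x z| = |lam|^(4 m)` or `|v(x, z)| = |lam|²`. In the second case `s = lam` and the first alternative.
In the first case put `x' = x/lam`, `z' = z/lam`, integral; `|hv (BE ..) x' z'| = 1` (`hv_smul`); by `hv_BE` over `K` (`map_BE` for `Int.castRingHom K`) `|Rs (row G x' z') w| = 1`. `LVK_unit` (file EV1, `m = 2 n`, `f = row G x' z'`, integral coefficients: `LV_sum_le`, `LV_mul_le`, `v_int_le`) at `(y, t)`: `mu ≠ 0`,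
`|y|, |t| ≤ |mu|`, and `|hv (row G x' z') y t| = |mu|^(2 n)` or `|w(y, t)| = |mu|²`. In the second case `s = mu`, second alternative. In the first case `y' = y/mu`, `t' = t/mu` integral, `|G(x', z'; y', t')| = 1` (`hv_row`, `bv_smul`).
If `|v(x', z')| = 1`: first alternative with `s = lam`. If `|w(y', t')| = 1`: second alternative with `s = mu`. Otherwise both are `< 1` (they are `≤ 1`, `LV_qv_le`); `a' = a/(lam mu)` satisfies `a'² = v(x', z') w(y', t')` (`IsPt.eq`), so `|a'|² < 1`, `|a'| < 1`; `|H(x', z'; y', t')| ≤ 1`, so `D' = G' + a' H'` has `|D'| = 1` (`v_eq_of_close`), and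
`D = lam^(2 m) mu^(2 n) D'` (`bv_smul` for `G`: `lam^(2 m) mu^(2 n)`, for `H`: `lam^(2 m - 1) mu^(2 n - 1)`, `a = lam mu a'`; `m, n ≥ 1`): third alternative with `s = lam^m mu^n`. -/
theorem even_val {m n : ℕ} (hm : 1 ≤ m) (hn : 1 ≤ n) (q : Dt m n) {p : ℕ} [Fact p.Prime] (hp : ¬ (p : ℤ) ∣ Rq q)
    {K : Type} [Field K] [Algebra ℚ_[p] K] (L : LVal p K) (P : Fin 7 → K) (h : IsPt q P) :
    ∃ s : K, s ≠ 0 ∧ (L.v (fV q P) = L.v s ^ 2 ∨ L.v (fW q P) = L.v s ^ 2 ∨ L.v (fD q P) = L.v s ^ 2) := by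
  obtain ⟨lam, hlam, hx0, hz0, h1⟩ := LV_unit L (by omega : 1 ≤ 4 * m) (BE q.2.1 q.1.2) q.1.1 hp h.1
  rcases h1 with h1 | h1
  swap
  · exact ⟨lam, hlam, Or.inl h1⟩
  have hvlam : L.v lam ≠ 0 := fun h0 => hlam ((L.zero_iff lam).1 h0)
  set x' : K := P 0 / lam with hx'
  set z' : K := P 1 / lam with hz'
  have ex : P 0 = lam * x' := by
    rw [hx']
    field_simp
  have ez : P 1 = lam * z' := by
    rw [hz']
    field_simp
  have hx1 : L.v x' ≤ 1 := EI2_div_le L hlam hx0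
  have hz1 : L.v z' ≤ 1 := EI2_div_le L hlam hz0
  have hBE : (fun i => ((BE q.2.1 q.1.2 i : ℤ) : K)) =
      BE (fun a b => ((q.2.1 a b : ℤ) : K)) ((q.1.2.1 : K), (q.1.2.2.1 : K), (q.1.2.2.2 : K)) := by
    funext i
    exact map_BE (Int.castRingHom K) q.2.1 q.1.2 i
  have h2 : L.v (Rs (m := 2 * n) (row (fun a b => ((q.2.1 a b : ℤ) : K)) x' z')
      ((q.1.2.1 : K), (q.1.2.2.1 : K), (q.1.2.2.2 : K))) = 1 := by
    rw [hBE, ex, ez, hv_smul, L.mul, v_pow, hv_BE] at h1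
    have h3 : L.v lam ^ (4 * m) ≠ 0 := pow_ne_zero _ hvlam
    exact mul_left_cancel₀ h3 (by rw [h1, mul_one])
  obtain ⟨mu, hmu, hy0, ht0, h3⟩ := LVK_unit L (by omega : 1 ≤ 2 * n)
    (row (fun a b => ((q.2.1 a b : ℤ) : K)) x' z') ((q.1.2.1 : K), (q.1.2.2.1 : K), (q.1.2.2.2 : K))
    (fun j => EI2_row_le L q.2.1 hx1 hz1 j) ⟨v_int_le L _, v_int_le L _, v_int_le L _⟩ h2 h.2.1
  rcases h3 with h3 | h3
  swap
  · exact ⟨mu, hmu, Or.inr (Or.inl h3)⟩
  have hvmu : L.v mu ≠ 0 := fun h0 => hmu ((L.zero_iff mu).1 h0)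
  set y' : K := P 2 / mu with hy'
  set t' : K := P 3 / mu with ht'
  have ey : P 2 = mu * y' := by
    rw [hy']
    field_simp
  have et : P 3 = mu * t' := by
    rw [ht']
    field_simp
  have hy1 : L.v y' ≤ 1 := EI2_div_le L hmu hy0
  have ht1 : L.v t' ≤ 1 := EI2_div_le L hmu ht0
  have h4 : L.v (bv (fun a b => ((q.2.1 a b : ℤ) : K)) x' z' y' t') = 1 := by
    rw [ey, et, hv_smul, L.mul, v_pow, hv_row] at h3
    have h5 : L.v mu ^ (2 * n) ≠ 0 := pow_ne_zero _ hvmu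
    exact mul_left_cancel₀ h5 (by rw [h3, mul_one])
  have eV : fV q P = lam ^ 2 * qv ((q.1.1.1 : K), (q.1.1.2.1 : K), (q.1.1.2.2 : K)) x' z' := by
    change vV q.1.1 (P 0) (P 1) = _
    rw [vV_eq, ex, ez, qv_smul]
  have eW : fW q P = mu ^ 2 * qv ((q.1.2.1 : K), (q.1.2.2.1 : K), (q.1.2.2.2 : K)) y' t' := by
    change vV q.1.2 (P 2) (P 3) = _
    rw [vV_eq, ey, et, qv_smul]
  have hV1 := LV_qv_le L q.1.1 hx1 hz1
  have hW1 := LV_qv_le L q.1.2 hy1 ht1
  by_cases hV : L.v (qv ((q.1.1.1 : K), (q.1.1.2.1 : K), (q.1.1.2.2 : K)) x' z') = 1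
  · refine ⟨lam, hlam, Or.inl ?_⟩
    rw [eV, L.mul, hV, mul_one, v_pow]
  by_cases hW : L.v (qv ((q.1.2.1 : K), (q.1.2.2.1 : K), (q.1.2.2.2 : K)) y' t') = 1
  · refine ⟨mu, hmu, Or.inr (Or.inl ?_)⟩
    rw [eW, L.mul, hW, mul_one, v_pow]
  have hV2 := lt_of_le_of_ne hV1 hV
  have hW2 := lt_of_le_of_ne hW1 hW
  refine ⟨lam ^ m * mu ^ n, mul_ne_zero (pow_ne_zero _ hlam) (pow_ne_zero _ hmu), Or.inr (Or.inr ?_)⟩
  set a' : K := P 4 / (lam * mu) with ha'
  have ea : P 4 = lam * mu * a' := by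
    rw [ha']
    field_simp
  have ha2 : a' ^ 2 = qv ((q.1.1.1 : K), (q.1.1.2.1 : K), (q.1.1.2.2 : K)) x' z' *
      qv ((q.1.2.1 : K), (q.1.2.2.1 : K), (q.1.2.2.2 : K)) y' t' := by
    have h5 := h.eq.1
    rw [eV, eW, ea] at h5
    have h6 : (lam * mu) ^ 2 ≠ 0 := pow_ne_zero _ (mul_ne_zero hlam hmu)
    apply mul_left_cancel₀ h6
    linear_combination h5
  have ha3 : L.v a' < 1 := by
    have h5 : L.v a' ^ 2 < 1 := by
      rw [← v_pow, ha2]
      exact LV_mul_lt L hV2 hW1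
    by_contra hcon
    push Not at hcon
    have h6 : (1 : ℝ) ≤ L.v a' ^ 2 := one_le_pow₀ hcon
    linarith
  have hH1 := EI2_bv_le L q.2.2 hx1 hz1 hy1 ht1
  have hD1 : L.v (bv (fun a b => ((q.2.1 a b : ℤ) : K)) x' z' y' t' +
      a' * bv (fun a b => ((q.2.2 a b : ℤ) : K)) x' z' y' t') = 1 := by
    rw [← h4]
    refine v_eq_of_close L ?_
    rw [add_sub_cancel_left, h4]
    exact LV_mul_lt L ha3 hH1
  have eD : fD q P = lam ^ (2 * m) * mu ^ (2 * n) * (bv (fun a b => ((q.2.1 a b : ℤ) : K)) x' z' y' t' +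
      a' * bv (fun a b => ((q.2.2 a b : ℤ) : K)) x' z' y' t') := by
    change vB q.2.1 (P 0) (P 1) (P 2) (P 3) + P 4 * vB q.2.2 (P 0) (P 1) (P 2) (P 3) = _
    rw [vB_eq, vB_eq, ex, ez, ey, et, bv_smul, bv_smul, ea]
    have e1 : 2 * m + 1 - 1 = 2 * m := by omega
    have e2 : 2 * n + 1 - 1 = 2 * n := by omega
    have e3 : lam ^ (2 * m) = lam * lam ^ (2 * m - 1) := by
      rw [← pow_succ']
      congr 1
      omega
    have e4 : mu ^ (2 * n) = mu * mu ^ (2 * n - 1) := by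
      rw [← pow_succ']
      congr 1
      omega
    rw [e1, e2, e3, e4]
    ring
  rw [eD, L.mul, hD1, mul_one, L.mul, L.mul, v_pow, v_pow, v_pow, v_pow]
  ring

/-- **Proof.** `L` from `exists_lval p P.K`, `s` from `even_val`. If `V = W = 0` (then the first two alternatives are impossible as `s ≠ 0`) the pair is `(0, D)`: second alternative of `GP.Ev`. Otherwise the pair is `(V, W)`: the first two alternatives of `even_val` give `GP.Ev`; in the third case `D ≠ 0`: if `V ≠ 0`,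
`b² = V D` gives `b ≠ 0` and `|V| = |b / s|²`; if `V = 0`, `W ≠ 0`: `c² = W D`, `|W| = |c / s|²` (`v_div`, `v_pow`). -/
theorem toGP_Ev {m n : ℕ} (hm : 1 ≤ m) (hn : 1 ≤ n) {p : ℕ} [Fact p.Prime] {q : Dt m n} (hR : Rq q ≠ 0)
    (hp : ¬ (p : ℤ) ∣ Rq q) (P : Pt ℚ_[p] q) : (toGP hm hn hR P).Ev := by
  obtain ⟨L⟩ := ZC.exists_lval p P.K
  obtain ⟨s, hs, hc⟩ := even_val hm hn q hp L P.P P.isPt
  have hvs : L.v s ≠ 0 := fun h0 => hs ((L.zero_iff s).1 h0)
  have hvs2 : L.v s ^ 2 ≠ 0 := pow_ne_zero _ hvs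
  have hz0 : L.v (0 : P.K) = 0 := (L.zero_iff 0).2 rfl
  by_cases h : fV q P.P = 0 ∧ fW q P.P = 0
  · have hD : L.v (fD q P.P) = L.v s ^ 2 := by
      rcases hc with hc | hc | hc
      · rw [h.1, hz0] at hc
        exact absurd hc.symm hvs2
      · rw [h.2, hz0] at hc
        exact absurd hc.symm hvs2
      · exact hc
    refine ⟨L, s, hs, Or.inr ?_⟩
    change L.v (if fV q P.P = 0 ∧ fW q P.P = 0 then fD q P.P else fW q P.P) = L.v s ^ 2
    rw [if_pos h]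
    exact hD
  · have key : ∃ s : P.K, s ≠ 0 ∧ (L.v (fV q P.P) = L.v s ^ 2 ∨ L.v (fW q P.P) = L.v s ^ 2) := by
      rcases hc with hc | hc | hc
      · exact ⟨s, hs, Or.inl hc⟩
      · exact ⟨s, hs, Or.inr hc⟩
      · have hD0 : fD q P.P ≠ 0 := by
          intro h0
          rw [h0, hz0] at hc
          exact hvs2 hc.symm
        by_cases hV : fV q P.P = 0
        · have hW : fW q P.P ≠ 0 := fun h0 => h ⟨hV, h0⟩
          have e := P.isPt.eq.2.2.1
          have hc0 : P.P 6 ≠ 0 := by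
            intro h0
            rw [h0] at e
            exact mul_ne_zero hW hD0 (by rw [← e]; exact zero_pow two_ne_zero)
          refine ⟨P.P 6 / s, div_ne_zero hc0 hs, Or.inr ?_⟩
          rw [v_div, div_pow, eq_div_iff hvs2, ← hc, ← L.mul, ← e, v_pow]
        · have e := P.isPt.eq.2.1
          have hc0 : P.P 5 ≠ 0 := by
            intro h0
            rw [h0] at e
            exact mul_ne_zero hV hD0 (by rw [← e]; exact zero_pow two_ne_zero)
          refine ⟨P.P 5 / s, div_ne_zero hc0 hs, Or.inl ?_⟩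
          rw [v_div, div_pow, eq_div_iff hvs2, ← hc, ← L.mul, ← e, v_pow]
    obtain ⟨s', hs', hc'⟩ := key
    refine ⟨L, s', hs', ?_⟩
    change L.v (fV q P.P) = L.v s' ^ 2 ∨
      L.v (if fV q P.P = 0 ∧ fW q P.P = 0 then fD q P.P else fW q P.P) = L.v s' ^ 2
    rw [if_neg h]
    exact hc'

end HNE
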