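import Pool.Agent.Lib.MP_1ad228_ntE.EI2
import Pool.Agent.Lib.MP_10e784_agQ.QI2

/-! From an adelic zero-cycle of odd degree to the conditions on an integer. -/

set_option autoImplicit false

open Classical

namespace HNE

open Finset Polynomial FGO FQQ HNF

/-- the cycle of generic points -/
noncomputable def EI3_cyc {F : Type} [Field F] [CharZero F] {m n : ℕ} (hm : 1 ≤ m) (hn : 1 ≤ n) {q : Dt m n}
    (hR : Rq q ≠ 0) (z : Cyc F q) : GC F := z.map fun s => (s.1, toGP hm hn hR s.2)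

theorem EI3_deg {F : Type} [Field F] [CharZero F] {m n : ℕ} (hm : 1 ≤ m) (hn : 1 ≤ n) {q : Dt m n}
    (hR : Rq q ≠ 0) (z : Cyc F q) : (EI3_cyc hm hn hR z).deg = z.deg := by
  unfold EI3_cyc GC.deg Cyc.deg
  rw [List.map_map]
  rfl

theorem EI3_cls {F : Type} [Field F] [CharZero F] {m n : ℕ} (hm : 1 ≤ m) (hn : 1 ≤ n) {q : Dt m n}
    (hR : Rq q ≠ 0) (z : Cyc F q) : (EI3_cyc hm hn hR z).cls = z.cls := by
  unfold EI3_cyc GC.cls Cyc.cls
  rw [List.map_map]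
  refine congrArg List.prod (List.map_congr_left fun s _ => ?_)
  change (Algebra.norm F (toGP hm hn hR s.2).val) ^ s.1 = (Algebra.norm F s.2.val) ^ s.1
  exact congrArg (fun v : s.2.K => (Algebra.norm F v) ^ s.1) (toGP_val hm hn hR s.2)

theorem EI3_mem {F : Type} [Field F] [CharZero F] {m n : ℕ} (hm : 1 ≤ m) (hn : 1 ≤ n) {q : Dt m n}
    (hR : Rq q ≠ 0) (z : Cyc F q) {s : ℤ × GP F} (hs : s ∈ EI3_cyc hm hn hR z) :
    ∃ P : Pt F q, s.2 = toGP hm hn hR P := by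
  obtain ⟨t, _, rfl⟩ := List.mem_map.1 hs
  exact ⟨t.2, rfl⟩

/-- Proof. Copy QI3.lean of MP_10e784_agQ (`QI3_cyc`, `QI3_deg`, `QI3_cls`, `QI3_mem`, `arith_Q`); `HNQ.arith_odd` is in QI2.lean. -/
theorem arith_E {m n : ℕ} (hm : 1 ≤ m) (hn : 1 ≤ n) (q : Dt m n) (hR : Rq q ≠ 0) (hv : q.1.1.1 ≠ 0) (hw1 : q.1.2.1 ≠ 0)
    (hd : ds (q.1.2 : V) ≠ 0) (h : Adelic q) : ∃ β : ℤ, Squarefree β ∧ Cn (Rq q) q.1.1 q.1.2 β := by
  obtain ⟨z, z₀, hz, hs⟩ := h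
  refine HNQ.arith_odd hR q.1.1 q.1.2 (fun p _ => EI3_cyc hm hn hR (z p)) (EI3_cyc hm hn hR z₀) ?_ ?_ ?_ ?_ ?_
  · intro p _
    rw [EI3_deg]
    exact hz p
  · intro β hβ
    have h1 := hs β hβ
    have e : (fun (p : ℕ) (_ : Fact p.Prime) => (EI3_cyc hm hn hR (z p)).cls) =
        fun (p : ℕ) (_ : Fact p.Prime) => (z p).cls := by
      funext p hp
      exact EI3_cls hm hn hR (z p)
    rw [e, EI3_cls]
    exact h1
  · intro p _ hp s hs
    obtain ⟨P, hP⟩ := EI3_mem hm hn hR (z p) hs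
    rw [hP]
    exact toGP_Ev hm hn hR hp P
  · intro p _ s hs
    obtain ⟨P, hP⟩ := EI3_mem hm hn hR (z p) hs
    rw [hP]
    exact toGP_NfA hm hn hR P hv
  · intro p _ s hs
    obtain ⟨P, hP⟩ := EI3_mem hm hn hR (z p) hs
    rw [hP]
    exact toGP_NfB hm hn hR P hw1 hd

end HNE
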