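import Pool.Agent.Lib.MP_1ad228_ntE.EI1
import Pool.Agent.Lib.MP_1ad228_nt.ZBase
import Pool.Agent.Lib.MP_1ad228_nt.ZRecip

/-! A zero-cycle of odd degree over `ℚ` gives an orthogonal family of local zero-cycles of odd degree. -/

set_option autoImplicit false

open Classical

namespace HNE

open Finset Polynomial FGO FQQ HNF

theorem EJ_vV_map {K L : Type} [Field K] [Field L] (φ : K →+* L) (v : ℤ × ℤ × ℤ) (x z : K) :
    vV v (φ x) (φ z) = φ (vV v x z) := by
  simp only [vV, map_add, map_mul, map_pow, map_intCast]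

theorem EJ_vB_map {K L : Type} [Field K] [Field L] (φ : K →+* L) {k l : ℕ} (G : Fin k → Fin l → ℤ) (x z y t : K) :
    vB G (φ x) (φ z) (φ y) (φ t) = φ (vB G x z y t) := by
  simp only [vB, map_sum, map_mul, map_pow, map_intCast]

theorem EJ_fV_map {K L : Type} [Field K] [Field L] (φ : K →+* L) {m n : ℕ} (q : Dt m n) (P : Fin 7 → K) :
    fV q (fun i => φ (P i)) = φ (fV q P) := EJ_vV_map φ _ _ _

theorem EJ_fW_map {K L : Type} [Field K] [Field L] (φ : K →+* L) {m n : ℕ} (q : Dt m n) (P : Fin 7 → K) :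
    fW q (fun i => φ (P i)) = φ (fW q P) := EJ_vV_map φ _ _ _

theorem EJ_fD_map {K L : Type} [Field K] [Field L] (φ : K →+* L) {m n : ℕ} (q : Dt m n) (P : Fin 7 → K) :
    fD q (fun i => φ (P i)) = φ (fD q P) := by
  simp only [fD, EJ_vB_map, map_add, map_mul]

theorem EJ_isPt {K L : Type} [Field K] [Field L] (φ : K →+* L) {m n : ℕ} {q : Dt m n} {P : Fin 7 → K}
    (h : IsPt q P) : IsPt q (fun i => φ (P i)) := by
  obtain ⟨e0, e1, e2, e3, e4, e5⟩ := h.eq
  refine isPt_of ?_ ?_ ?_ ?_ ?_ ?_ ?_ ?_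
  · rintro ⟨h0, h1⟩
    exact h.1 ⟨(map_eq_zero φ).1 h0, (map_eq_zero φ).1 h1⟩
  · rintro ⟨h0, h1⟩
    exact h.2.1 ⟨(map_eq_zero φ).1 h0, (map_eq_zero φ).1 h1⟩
  · rw [EJ_fV_map, EJ_fW_map, ← map_mul, ← map_pow, e0]
  · rw [EJ_fV_map, EJ_fD_map, ← map_mul, ← map_pow, e1]
  · rw [EJ_fW_map, EJ_fD_map, ← map_mul, ← map_pow, e2]
  · rw [EJ_fV_map, ← map_mul, ← map_mul, e3]
  · rw [EJ_fW_map, ← map_mul, ← map_mul, e4]
  · rw [EJ_fD_map, ← map_mul, ← map_mul, e5]

/-- the image of a point under a homomorphism of its field of definition -/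
def EJ_pt {F F' : Type} [Field F] [Field F'] {m n : ℕ} {q : Dt m n} (P : Pt F q) (E : ZC.FExt P.K F') : Pt F' q where
  K := E.L
  P := fun i => E.φ (P.P i)
  isPt := EJ_isPt E.φ P.isPt

theorem EJ_pt_val {F F' : Type} [Field F] [Field F'] {m n : ℕ} {q : Dt m n} (P : Pt F q) (E : ZC.FExt P.K F') :
    (EJ_pt P E).val = E.φ P.val := by
  change (if fV q (fun i => E.φ (P.P i)) ≠ 0 then fV q (fun i => E.φ (P.P i))
    else if fW q (fun i => E.φ (P.P i)) ≠ 0 then fW q (fun i => E.φ (P.P i)) else fD q (fun i => E.φ (P.P i))) = _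
  rw [EJ_fV_map, EJ_fW_map, EJ_fD_map]
  unfold Pt.val
  by_cases h : fV q P.P = 0
  · rw [if_neg (not_not.2 ((map_eq_zero E.φ).2 h)), if_neg (not_not.2 h)]
    by_cases h' : fW q P.P = 0
    · rw [if_neg (not_not.2 ((map_eq_zero E.φ).2 h')), if_neg (not_not.2 h')]
    · rw [if_pos (fun h1 => h' ((map_eq_zero E.φ).1 h1)), if_pos h']
  · rw [if_pos (fun h1 => h ((map_eq_zero E.φ).1 h1)), if_pos h]

theorem EJ_deg {F F' : Type} [Field F] [Field F'] {m n : ℕ} {q : Dt m n} (P : Pt F q) (k : ℤ)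
    (l : List (ZC.FExt P.K F')) :
    (List.map (fun r : ℤ × Pt F' q => r.1 * (Module.finrank F' r.2.K : ℤ))
      (l.map fun E => (k, EJ_pt P E))).sum = k * ((l.map fun E => Module.finrank F' E.L).sum : ℕ) := by
  induction l with
  | nil => simp
  | cons E l ih =>
    simp only [List.map_cons, List.sum_cons, Nat.cast_add, mul_add]
    rw [ih]
    rfl

theorem EJ_cls {F F' : Type} [Field F] [Field F'] {m n : ℕ} {q : Dt m n} (P : Pt F q) (k : ℤ)
    (l : List (ZC.FExt P.K F')) :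
    (List.map (fun r : ℤ × Pt F' q => (Algebra.norm F' r.2.val) ^ r.1)
      (l.map fun E => (k, EJ_pt P E))).prod = (l.map fun E => Algebra.norm F' (E.φ P.val)).prod ^ k := by
  induction l with
  | nil => simp
  | cons E l ih =>
    simp only [List.map_cons, List.prod_cons, mul_zpow]
    rw [ih, EJ_pt_val]
    rfl

theorem EJ_base (F F' : Type) [Field F] [Field F'] [CharZero F] [Algebra F F'] {m n : ℕ} {q : Dt m n}
    (z : Cyc F q) :
    ∃ z' : Cyc F' q, z'.deg = z.deg ∧ z'.cls = algebraMap F F' z.cls := by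
  induction z with
  | nil =>
    refine ⟨[], ?_, ?_⟩
    · simp [Cyc.deg]
    · simp [Cyc.cls]
  | cons r z ih =>
    obtain ⟨z', hd, hc⟩ := ih
    obtain ⟨k, P⟩ := r
    obtain ⟨l, -, h2, h3⟩ := ZC.base_change F F' P.K
    refine ⟨(l.map fun E => (k, EJ_pt P E)) ++ z', ?_, ?_⟩
    · unfold Cyc.deg at hd ⊢
      rw [List.map_append, List.sum_append, EJ_deg, h2, hd, List.map_cons, List.sum_cons]
    · unfold Cyc.cls at hc ⊢
      rw [List.map_append, List.prod_append, EJ_cls, h3, hc, List.map_cons, List.prod_cons, map_mul, map_zpow₀]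

theorem EJ_val_ne {F : Type} [Field F] [CharZero F] {m n : ℕ} (hm : 1 ≤ m) (hn : 1 ≤ n) {q : Dt m n} (hR : Rq q ≠ 0)
    (P : Pt F q) : P.val ≠ 0 := by
  have : CharZero P.K := charZero_of_injective_algebraMap (algebraMap F P.K).injective
  have h := noz_of_R hm hn q hR P.K P.P P.isPt
  unfold Pt.val
  by_cases h0 : fV q P.P = 0
  · rw [if_neg (not_not.2 h0)]
    by_cases h1 : fW q P.P = 0
    · rw [if_neg (not_not.2 h1)]
      exact fun h2 => h ⟨h0, h1, h2⟩
    · rw [if_pos h1]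
      exact h1
  · rw [if_pos h0]
    exact h0

theorem EJ_cls_ne {F : Type} [Field F] [CharZero F] {m n : ℕ} (hm : 1 ≤ m) (hn : 1 ≤ n) {q : Dt m n} (hR : Rq q ≠ 0)
    (z : Cyc F q) : z.cls ≠ 0 := by
  induction z with
  | nil => simp [Cyc.cls]
  | cons r z ih =>
    unfold Cyc.cls at ih ⊢
    rw [List.map_cons, List.prod_cons]
    exact mul_ne_zero (zpow_ne_zero _ (Algebra.norm_ne_zero_iff.2 (EJ_val_ne hm hn hR r.2))) ih

/-- Proof. Copy QJ.lean of MP_10e784_agQ (everything except `QJ_cyc`), with the present `Pt` (a vector `P : Fin 7 → K`): the image of a point under a homomorphism of fields `φ` is `fun i => φ (P i)`; `fV q (φ ∘ P) = φ (fV q P)` etc. (`map_bv`, `vB_eq`), `IsPt.eq`, `isPt_of` (file EI1). `noz_of_R` gives `val ≠ 0`. -/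
theorem glob_E {m n : ℕ} (hm : 1 ≤ m) (hn : 1 ≤ n) (q : Dt m n) (hR : Rq q ≠ 0) (h : Global q) : Adelic q := by
  obtain ⟨z, hz⟩ := h
  refine ⟨fun p _ => (EJ_base ℚ ℚ_[p] z).choose, (EJ_base ℚ ℝ z).choose, ?_, ?_⟩
  · intro p _
    exact (EJ_base ℚ ℚ_[p] z).choose_spec.1.symm ▸ hz
  · intro β hβ
    have h0 : z.cls ≠ 0 := EJ_cls_ne hm hn hR z
    have h1 : ∀ (p : ℕ) [Fact p.Prime], (EJ_base ℚ ℚ_[p] z).choose.cls = ((z.cls : ℚ) : ℚ_[p]) := by
      intro p _
      rw [(EJ_base ℚ ℚ_[p] z).choose_spec.2, eq_ratCast]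
    have h2 : (EJ_base ℚ ℝ z).choose.cls = ((z.cls : ℚ) : ℝ) := by
      rw [(EJ_base ℚ ℝ z).choose_spec.2, eq_ratCast]
    have h3 := ZC.recip z.cls β h0 hβ
    simp only [h1, h2]
    exact h3

end HNE
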