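import Pool.Agent.Lib.MP_1ad228_ntE.EX1
import Pool.Agent.Lib.MP_1ad228_ntH.HC2
import Pool.Agent.Lib.MP_1ad228_ntH.HC3

/-! The exceptional event at a prime. -/

set_option autoImplicit false

open Classical

namespace HNE

open Finset Polynomial FGO FQQ HNF

/-- the exceptional event at `p` -/
def Xe {F : Type} [CommRing F] {m n : ℕ} (c : Fin (MM m n + 1) → F) (v w : F × F × F) : Prop :=
  (RE (Gm c) v w = 0 ∧ (v.1 = 0 ∨ w.1 = 0 ∨ ds v = 0 ∨ ds w = 0)) ∨ (ds v = 0 ∧ v.1 = 0) ∨ (ds w = 0 ∧ w.1 = 0)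

/-- the exceptional event of a pair of integral data -/
def XeP {m n : ℕ} (p : ℕ) (c : Vn (MM m n)) (u : V × V) : Prop := Xe (cN p c) (cV p u.1) (cV p u.2)

/-- Proof. Copy `Av_Xe` of QX2.lean (MP_10e784_agQ) with `5` replaced by `MM m n`; `mF_RE` (`4/p ≤ 9/p`) holds for all `v, w ≠ 0`. -/
theorem Av_Xe {m n : ℕ} (hm : 1 ≤ m) (hn : 1 ≤ n) (p : ℕ) [Fact p.Prime] (h2 : p ≠ 2) :
    Av (MM m n) p (fun c v w => ind (Xe c v w)) ≤ 41 / (p : ℝ) ^ 2 := by
  have hp0 := BA_pos p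
  have hp1 : (1 : ℝ) ≤ p := by exact_mod_cast (Fact.out : p.Prime).one_le
  have h60 : 0 ≤ 9 / (p : ℝ) := by positivity
  have hmain : ∀ v w : ZMod p × ZMod p × ZMod p, mF (MM m n) p (fun c => ind (Xe c v w)) ≤
      ind (v = 0) + ind (w = 0) + ind (v.1 = 0) * ind (w.1 = 0) +
        (9 / (p : ℝ)) * (ind (v.1 = 0) + ind (w.1 = 0) + ind (ds v = 0) + ind (ds w = 0)) +
        (ind (ds v = 0 ∧ v.1 = 0) + ind (ds w = 0 ∧ w.1 = 0)) := by
    intro v w
    have n1 := ind_nonneg (v = 0)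
    have n2 := ind_nonneg (w = 0)
    have n3 := ind_nonneg (v.1 = 0)
    have n4 := ind_nonneg (w.1 = 0)
    have n5 := ind_nonneg (ds v = 0)
    have n6 := ind_nonneg (ds w = 0)
    have n7 := ind_nonneg (ds v = 0 ∧ v.1 = 0)
    have n8 := ind_nonneg (ds w = 0 ∧ w.1 = 0)
    have n9 : 0 ≤ (9 / (p : ℝ)) * (ind (v.1 = 0) + ind (w.1 = 0) + ind (ds v = 0) + ind (ds w = 0)) :=
      mul_nonneg h60 (by linarith)
    have n10 : 0 ≤ ind (v.1 = 0) * ind (w.1 = 0) := mul_nonneg n3 n4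
    have hone : mF (MM m n) p (fun c => ind (Xe c v w)) ≤ 1 := by
      refine (mF_mono _ p _ (fun _ => 1) fun c => ind_le_one _).trans (le_of_eq (mF_const _ p 1))
    by_cases hv : v = 0
    · have h1 : ind (v = 0) = 1 := by unfold ind; rw [if_pos hv]
      linarith
    by_cases hw : w = 0
    · have h1 : ind (w = 0) = 1 := by unfold ind; rw [if_pos hw]
      linarith
    by_cases hvw : v.1 = 0 ∧ w.1 = 0
    · have h1 : ind (v.1 = 0) = 1 := by unfold ind; rw [if_pos hvw.1]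
      have h1' : ind (w.1 = 0) = 1 := by unfold ind; rw [if_pos hvw.2]
      have h1'' : ind (v.1 = 0) * ind (w.1 = 0) = 1 := by rw [h1, h1', one_mul]
      linarith
    have hle : ∀ c : Fin (MM m n + 1) → ZMod p, ind (Xe c v w) ≤
        (ind (v.1 = 0) + ind (w.1 = 0) + ind (ds v = 0) + ind (ds w = 0)) * ind (RE (Gm c) v w = 0) +
          (ind (ds v = 0 ∧ v.1 = 0) + ind (ds w = 0 ∧ w.1 = 0)) := by
      intro c
      unfold Xe
      refine (HC2_ind_or _ _).trans ?_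
      refine add_le_add ?_ (HC2_ind_or _ _)
      rw [HC2_ind_and, mul_comm]
      refine mul_le_mul_of_nonneg_right ?_ (ind_nonneg _)
      refine (HC2_ind_or _ _).trans ?_
      have h1 := HC2_ind_or (w.1 = 0) (ds v = 0 ∨ ds w = 0)
      have h2 := HC2_ind_or (ds v = 0) (ds w = 0)
      linarith
    have h5 := mF_mono (MM m n) p _ _ hle
    rw [mF_add, mF_const, mF_smul] at h5
    have h3 := (mF_RE hm hn p v w hv hw).trans (div_le_div_of_nonneg_right (by norm_num : (4 : ℝ) ≤ 9) hp0.le)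
    have h4 : (ind (v.1 = 0) + ind (w.1 = 0) + ind (ds v = 0) + ind (ds w = 0)) *
        mF (MM m n) p (fun c => ind (RE (Gm c) v w = 0)) ≤
        (ind (v.1 = 0) + ind (w.1 = 0) + ind (ds v = 0) + ind (ds w = 0)) * (9 / (p : ℝ)) :=
      mul_le_mul_of_nonneg_left h3 (by linarith)
    rw [mul_comm _ (9 / (p : ℝ))] at h4
    linarith
  have e0 : mQ p (fun v => ind (v = 0)) = 1 / (p : ℝ) ^ 3 := mQ_zero p
  have e1 : mQ p (fun v => ind (v.1 = 0)) = 1 / (p : ℝ) := by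
    have h := mQ_lead_root p none
    rw [if_pos rfl] at h
    rw [← h]
    refine congrArg (mQ p) (funext fun v => ?_)
    have hn : qv v (pt (none : Option (ZMod p))).1 (pt (none : Option (ZMod p))).2 = v.1 := by
      unfold qv
      simp [pt]
    rw [hn, and_self_iff]
  have e2 : mQ p (fun v => ind (ds v = 0)) = 1 / (p : ℝ) := mQ_disc p h2
  have e3 : mQ p (fun v => ind (ds v = 0 ∧ v.1 = 0)) = 1 / (p : ℝ) ^ 2 := by
    rw [← mQ_disc_root p h2 none]
    refine congrArg (mQ p) (funext fun v => ?_)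
    have hn : qv v (pt (none : Option (ZMod p))).1 (pt (none : Option (ZMod p))).2 = v.1 := by
      unfold qv
      simp [pt]
    rw [hn]
  have e4 : mQ p (fun v => mQ p (fun w => ind (v.1 = 0) * ind (w.1 = 0))) = 1 / (p : ℝ) * (1 / (p : ℝ)) := by
    have h : (fun v : ZMod p × ZMod p × ZMod p => mQ p (fun w => ind (v.1 = 0) * ind (w.1 = 0))) =
        fun v => 1 / (p : ℝ) * ind (v.1 = 0) := by
      funext v
      rw [mQ_smul, e1, mul_comm]
    rw [h, mQ_smul, e1]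
  have hA : Av (MM m n) p (fun c v w => ind (Xe c v w)) ≤
      mQ p (fun v => mQ p (fun w => ind (v = 0) + ind (w = 0) + ind (v.1 = 0) * ind (w.1 = 0) +
        (9 / (p : ℝ)) * (ind (v.1 = 0) + ind (w.1 = 0) + ind (ds v = 0) + ind (ds w = 0)) +
        (ind (ds v = 0 ∧ v.1 = 0) + ind (ds w = 0 ∧ w.1 = 0)))) := by
    unfold Av
    exact mQ_mono p _ _ fun v => mQ_mono p _ _ fun w => hmain v w
  refine hA.trans ?_
  have e5 : mQ p (fun v => mQ p (fun w => ind (v = 0) + ind (w = 0) + ind (v.1 = 0) * ind (w.1 = 0) +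
        (9 / (p : ℝ)) * (ind (v.1 = 0) + ind (w.1 = 0) + ind (ds v = 0) + ind (ds w = 0)) +
        (ind (ds v = 0 ∧ v.1 = 0) + ind (ds w = 0 ∧ w.1 = 0)))) =
      mQ p (fun v => mQ p (fun w => ind (v = 0) + ind (w = 0) +
        (9 / (p : ℝ)) * (ind (v.1 = 0) + ind (w.1 = 0) + ind (ds v = 0) + ind (ds w = 0)) +
        (ind (ds v = 0 ∧ v.1 = 0) + ind (ds w = 0 ∧ w.1 = 0)))) +
      mQ p (fun v => mQ p (fun w => ind (v.1 = 0) * ind (w.1 = 0))) := by
    rw [← mQ_add]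
    refine congrArg (mQ p) (funext fun v => ?_)
    rw [← mQ_add]
    refine congrArg (mQ p) (funext fun w => ?_)
    ring
  rw [e5, e4]
  simp only [mQ_add, mQ_smul, mQ_const, e0, e1, e2, e3]
  have h3 : 1 / (p : ℝ) ^ 3 ≤ 1 / (p : ℝ) ^ 2 :=
    one_div_le_one_div_of_le (by positivity) (pow_le_pow_right₀ hp1 (by norm_num))
  have h4 : 9 / (p : ℝ) * (1 / (p : ℝ) + 1 / (p : ℝ) + 1 / (p : ℝ) + 1 / (p : ℝ)) = 36 * (1 / (p : ℝ) ^ 2) := by
    field_simp
    ring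
  have h5 : 41 / (p : ℝ) ^ 2 = 41 * (1 / (p : ℝ) ^ 2) := by ring
  have h6 : 1 / (p : ℝ) * (1 / (p : ℝ)) = 1 / (p : ℝ) ^ 2 := by
    field_simp
  rw [h4, h5, h6]
  linarith

/-- Proof. Copy `Xe_card` of QX3.lean (MP_10e784_agQ). -/
theorem Xe_card {m n : ℕ} (hm : 1 ≤ m) (hn : 1 ≤ n) {H N P0 : ℕ} (hN : 0 < N) (hH : N ≤ H) (hP0 : 2 ≤ P0) :
    (((Bx (MM m n) H N).filter fun s => ∃ p ∈ PQ P0 N, XeP p s.1 s.2).card : ℝ) ≤
      (8 * (H : ℝ)) ^ (MM m n + 1) * (8 * (N : ℝ)) ^ 6 * (41 / (P0 : ℝ)) := by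
  refine (TA_union (PQ P0 N) (fun p f u => XeP p f u)).trans ?_
  have h1 : ∀ p ∈ PQ P0 N, ∑ u ∈ box2 N, ∑ f ∈ boxN (MM m n) H, ind (XeP p f u) ≤
      (8 * (H : ℝ)) ^ (MM m n + 1) * (8 * (N : ℝ)) ^ 6 * (41 * (1 / (p : ℝ) ^ 2)) := by
    intro p hp
    unfold PQ at hp
    rw [Finset.mem_filter, Finset.mem_Ioc] at hp
    obtain ⟨⟨hp1, hp2⟩, hp3⟩ := hp
    have : Fact p.Prime := ⟨hp3⟩
    have : NeZero p := ⟨hp3.ne_zero⟩
    have hper : Per3 p (fun (f : Vn (MM m n)) u => ind (XeP p f u)) :=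
      Per3_of (MM m n) p (fun c v w => ind (Xe c v w))
    have hE : E3 (MM m n) p (fun (f : Vn (MM m n)) u => ind (XeP p f u)) =
        Av (MM m n) p (fun c v w => ind (Xe c v w)) :=
      E3_eq_Av (MM m n) p (fun c v w => ind (Xe c v w))
    refine (box3_mean hN hH hp3.pos (by omega) (fun (f : Vn (MM m n)) u => ind (XeP p f u))
      (fun f u => ind_nonneg _) hper).trans ?_
    rw [hE]
    have h2 := Av_Xe hm hn p (by omega)
    rw [mul_one_div]
    exact mul_le_mul_of_nonneg_left h2 (by positivity)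
  refine (Finset.sum_le_sum h1).trans ?_
  rw [← Finset.mul_sum, ← Finset.mul_sum]
  refine mul_le_mul_of_nonneg_left ?_ (by positivity)
  have h2 := HC3_inv_sq P0 N hP0
  rw [← mul_one_div (41 : ℝ)]
  linarith

end HNE
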