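import Pool.Agent.Lib.MP_1ad228_ntE.EA2
import Pool.Agent.Lib.MP_1ad228_ntE.EA3
import Pool.Agent.Lib.MP_1ad228_ntE.EA4
import Pool.Agent.Lib.MP_1ad228_ntE.EI3
import Pool.Agent.Lib.MP_1ad228_ntE.EJ
import Pool.Agent.Lib.MP_1ad228_ntE.EX2
import Pool.Agent.Lib.MP_1ad228_ntE.EX3
import Pool.Agent.Lib.MP_1ad228_ntH.TC
import Pool.Agent.Lib.MP_1ad228_ntH.HL2

/-! A zero-cycle of odd degree gives the conditions `Sel1`. -/

set_option autoImplicit false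

open Classical

namespace HNE

open Finset Polynomial FGO FQQ HNF

/-- Proof. Copy `sel_of` (QL.lean of MP_10e784_agQ) with `c = cG f`, `Rq (toDt f u) = RE (Gm (cG f)) u.1 u.2` (`rfl`), `glob_E`, `arith_E` (`ds w ≠ 0` as it is not a square, `Ty_ns`), `switch_E`, `abs_RE_le` (`δ² ≤ CE H⁴ N^(4m+4n) ≤ (CE H² N^(2m+2n))²`), `RE_cast`, `Ez_of_RE`, `XeP`.
The entries of `Gm (cG f)` are coordinates of `f` (`abs_Gm`, `mem_boxN`). -/
theorem sel_of {m n : ℕ} (hm : 1 ≤ m) (hn : 1 ≤ n) {H N P0 z0 P : ℕ} (f : Vn (TT m n)) (u : V × V) (hf : f ∈ boxN (TT m n) H)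
    (hu : u ∈ box2 N) (hP0 : 4 ≤ P0) (hz : z0 ≤ N) (hT : Ty (eE m n) P0 z0 (cG f) u)
    (hX : ∀ p ∈ PQ P0 N, ¬ XeP p (cG f) u) (hR : RE (Gm (cG f)) u.1 u.2 ≠ 0)
    (hP : CE m n * H ^ 2 * N ^ (2 * m + 2 * n) ≤ P)
    (h : Adelic (toDt f u) ∨ Global (toDt f u)) : Sel1 (eE m n) P0 z0 P (cG f) u := by
  obtain ⟨v, w⟩ := u
  change RE (Gm (cG f)) v w ≠ 0 at hR
  obtain ⟨hvb, hwb⟩ := mem_box2.1 hu
  change v ∈ box N at hvb
  change w ∈ box N at hwb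
  have hcb : ∀ i, |cG f i| ≤ (H : ℤ) := by
    intro i
    have h1 := Fintype.mem_piFinset.1 hf (Fin.natAdd (2 * m * (2 * n)) i)
    rw [Finset.mem_Icc] at h1
    exact abs_le.2 h1
  have hGb : ∀ i j, |(Gm (cG f) : Fin (2 * m + 1) → Fin (2 * n + 1) → ℤ) i j| ≤ (H : ℤ) :=
    fun i j => abs_Gm hcb i j
  -- the resultant
  obtain ⟨n1, n2, n3⟩ := Ty_ns hT
  change ¬ IsSquare (ds v) at n1
  change ¬ IsSquare (ds w) at n2
  change ¬ IsSquare (ds v * ds w) at n3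
  have hv1 : v.1 ≠ 0 := HL2_first n1
  have hw1 : w.1 ≠ 0 := HL2_first n2
  have hdw0 : ds w ≠ 0 := by
    intro h0
    exact n2 (by rw [h0]; exact ⟨0, (mul_zero 0).symm⟩)
  have hR' : Rq (toDt f (v, w)) ≠ 0 := hR
  have hA : Adelic (toDt f (v, w)) := by
    rcases h with h | h
    · exact h
    · exact glob_E hm hn _ hR' h
  obtain ⟨β, hβ, hCn⟩ := arith_E hm hn (toDt f (v, w)) hR' hv1 hw1 hdw0 hA
  change Cn (RE (Gm (cG f)) v w) v w β at hCn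
  obtain ⟨δ, hδ, hδR, k1, k2, k3⟩ := switch_E (Gm (cG f)) v w hR hv1 hw1 β hβ hCn
  have hRabs := abs_RE_le (Gm (cG f)) v w H N hGb hvb hwb
  have hRp : ∀ p : ℕ, ((RE (Gm (cG f)) v w : ℤ) : ZMod p) =
      RE (Gm (cN p (cG f))) (cV p v) (cV p w) := by
    intro p
    exact RE_cast p (cG f) v w
  refine ⟨δ, hδ, ?_, ?_, ?_, ?_⟩
  · -- the bound for `δ`
    obtain ⟨B0, hB0⟩ : ∃ B0 : ℕ, B0 = CE m n := ⟨_, rfl⟩
    have h1 : δ ^ 2 ≤ (B0 : ℤ) * (H : ℤ) ^ 4 * (N : ℤ) ^ (4 * m + 4 * n) := by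
      rw [hB0]
      exact hδR.trans (by exact_mod_cast hRabs)
    have h2 : ((δ.natAbs : ℕ) : ℤ) ^ 2 = δ ^ 2 := Int.natAbs_sq δ
    rw [← h2] at h1
    have h3 : δ.natAbs ^ 2 ≤ B0 * H ^ 4 * N ^ (4 * m + 4 * n) := by exact_mod_cast h1
    have h4 : B0 * H ^ 4 * N ^ (4 * m + 4 * n) ≤ (B0 * H ^ 2 * N ^ (2 * m + 2 * n)) ^ 2 := by
      have h5 : B0 ≤ B0 ^ 2 := Nat.le_self_pow two_ne_zero B0
      calc B0 * H ^ 4 * N ^ (4 * m + 4 * n) ≤ B0 ^ 2 * H ^ 4 * N ^ (4 * m + 4 * n) :=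
            Nat.mul_le_mul_right _ (Nat.mul_le_mul_right _ h5)
        _ = (B0 * H ^ 2 * N ^ (2 * m + 2 * n)) ^ 2 := by
            have h7 : 4 * m + 4 * n = (2 * m + 2 * n) * 2 := by ring
            rw [h7, pow_mul]
            ring
    have h6 : δ.natAbs ^ 2 ≤ (B0 * H ^ 2 * N ^ (2 * m + 2 * n)) ^ 2 := h3.trans h4
    rw [hB0] at h6
    exact ((Nat.pow_le_pow_iff_left two_ne_zero).1 h6).trans hP
  · -- the primes which divide `δ`
    intro p hp hpP hpδ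
    change ¬ (p : ℤ) ∣ v.1 ∧ ¬ (p : ℤ) ∣ w.1 ∧ Ez (eE m n) (cN p (cG f)) (cV p v) (cV p w)
    have : Fact p.Prime := ⟨hp⟩
    have hp2 : p ≠ 2 := by omega
    obtain ⟨j1, j2, j3⟩ := k1 p hp hpδ
    have hRg0 : RE (Gm (cN p (cG f))) (cV p v) (cV p w) = 0 := by
      rw [← hRp]
      exact HL2_zero j1
    have hpv : ¬ (p : ℤ) ∣ v.1 ∧ ¬ (p : ℤ) ∣ w.1 := by
      by_cases hpN : p ≤ N
      · have hmem : p ∈ PQ P0 N := by
          unfold PQ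
          rw [Finset.mem_filter, Finset.mem_Ioc]
          exact ⟨⟨hpP, hpN⟩, hp⟩
        have hx := hX p hmem
        constructor
        · intro hd
          exact hx (Or.inl ⟨hRg0, Or.inl (HL2_zero hd)⟩)
        · intro hd
          exact hx (Or.inl ⟨hRg0, Or.inr (Or.inl (HL2_zero hd))⟩)
      · push Not at hpN
        exact ⟨HL2_small hv1 (mem_box.1 hvb).1 hpN, HL2_small hw1 (mem_box.1 hwb).1 hpN⟩
    refine ⟨hpv.1, hpv.2, ?_⟩
    have h2F : (2 : ZMod p) ≠ 0 := by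
      intro h0
      have h1 : ((2 : ℕ) : ZMod p) = 0 := by exact_mod_cast h0
      rw [ZMod.natCast_eq_zero_iff] at h1
      exact hp2 ((Nat.prime_dvd_prime_iff_eq hp Nat.prime_two).1 h1)
    refine Ez_of_RE h2F (cN p (cG f)) (cV p v) (cV p w) ?_ ?_ ?_ ?_ hRg0
    · intro h0
      exact hpv.1 ((ZMod.intCast_zmod_eq_zero_iff_dvd _ _).1 h0)
    · intro h0
      exact hpv.2 ((ZMod.intCast_zmod_eq_zero_iff_dvd _ _).1 h0)
    · rw [← ds_cast]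
      exact HL2_isSq (j2 hp2 hpv.1)
    · rw [← ds_cast]
      exact HL2_isSq (j3 hp2 hpv.2)
  · intro p hp hd
    change (p : ℤ) ∣ ds v at hd
    have hmem := hp
    unfold PQ at hmem
    rw [Finset.mem_filter, Finset.mem_Ioc] at hmem
    obtain ⟨⟨hpP, hpz⟩, hpp⟩ := hmem
    have : Fact p.Prime := ⟨hpp⟩
    have hx : ¬ XeP p (cG f) (v, w) := by
      refine hX p ?_
      unfold PQ
      rw [Finset.mem_filter, Finset.mem_Ioc]
      exact ⟨⟨hpP, hpz.trans hz⟩, hpp⟩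
    have hdv : ds (cV p v) = 0 := by
      rw [← ds_cast]
      exact HL2_zero hd
    have hnR : ¬ (p : ℤ) ∣ RE (Gm (cG f)) v w := by
      intro h0
      exact hx (Or.inl ⟨by rw [← hRp]; exact HL2_zero h0, Or.inr (Or.inr (Or.inl hdv))⟩)
    have hnv : ¬ (p : ℤ) ∣ v.1 := by
      intro h0
      exact hx (Or.inr (Or.inl ⟨hdv, HL2_zero h0⟩))
    exact HL2_Sq (k2 p hpp (by omega) hnR hd (hT.1 p hp).2.1 hnv)
  · intro p hp hd
    change (p : ℤ) ∣ ds w at hd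
    have hmem := hp
    unfold PQ at hmem
    rw [Finset.mem_filter, Finset.mem_Ioc] at hmem
    obtain ⟨⟨hpP, hpz⟩, hpp⟩ := hmem
    have : Fact p.Prime := ⟨hpp⟩
    have hx : ¬ XeP p (cG f) (v, w) := by
      refine hX p ?_
      unfold PQ
      rw [Finset.mem_filter, Finset.mem_Ioc]
      exact ⟨⟨hpP, hpz.trans hz⟩, hpp⟩
    have hdw : ds (cV p w) = 0 := by
      rw [← ds_cast]
      exact HL2_zero hd
    have hnR : ¬ (p : ℤ) ∣ RE (Gm (cG f)) v w := by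
      intro h0
      exact hx (Or.inl ⟨by rw [← hRp]; exact HL2_zero h0, Or.inr (Or.inr (Or.inr hdw))⟩)
    have hnw : ¬ (p : ℤ) ∣ w.1 := by
      intro h0
      exact hx (Or.inr (Or.inr ⟨hdw, HL2_zero h0⟩))
    exact HL2_Sq (k3 p hpp (by omega) hnR hd (hT.1 p hp).2.2 hnw)

end HNE
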