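import Pool.Agent.Lib.MP_1ad228_ntE.EL
import Pool.Agent.Lib.MP_1ad228_ntE.EA5
import Pool.Agent.Lib.MP_1ad228_ntH.AN

/-! Part (1). -/

set_option autoImplicit false

open Classical

namespace HNE

open Finset Polynomial FGO FQQ HNF

/-- the number of the pairs with vanishing resultant and nonzero leading coefficients. Proof. `RE_zero_card` (file EA5) summed over `u ∈ box2 N`. -/
theorem RE_zero_Bx {m n : ℕ} (hm : 1 ≤ m) (hn : 1 ≤ n) (H N : ℕ) :
    ((Bx (MM m n) H N).filter fun s => RE (Gm s.1) s.2.1 s.2.2 = 0 ∧ s.2.1.1 ≠ 0 ∧ s.2.2.1 ≠ 0).card ≤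
      4 * (2 * H + 1) ^ (MM m n) * (2 * N + 1) ^ 6 := by
  have hb : (box2 N).card = (2 * N + 1) ^ 6 := by
    unfold box2 FGO.box
    rw [Finset.card_product, Finset.card_product, Finset.card_product, Int.card_Icc]
    have h : (((N : ℤ) + 1 - (-(N : ℤ))).toNat) = 2 * N + 1 := by omega
    rw [h]
    ring
  have hmem : ∀ s : Vn (MM m n) × (V × V), s ∈ Bx (MM m n) H N ↔ s.1 ∈ boxN (MM m n) H ∧ s.2 ∈ box2 N := by
    intro s
    unfold Bx
    rw [Finset.mem_product]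
  rw [Finset.card_eq_sum_card_fiberwise (f := fun s : Vn (MM m n) × (V × V) => s.2) (t := box2 N)]
  · have h1 : ∀ u ∈ box2 N, (((Bx (MM m n) H N).filter fun s => RE (Gm s.1) s.2.1 s.2.2 = 0 ∧ s.2.1.1 ≠ 0 ∧
        s.2.2.1 ≠ 0).filter fun s => s.2 = u).card ≤ 4 * (2 * H + 1) ^ (MM m n) := by
      intro u hu
      by_cases h0 : u.1.1 ≠ 0 ∧ u.2.1 ≠ 0
      · refine le_trans ?_ (RE_zero_card hm hn H u.1 u.2 h0.1 h0.2)
        refine Finset.card_le_card_of_injOn (fun s => s.1) ?_ ?_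
        · intro s hs
          have hs' := Finset.mem_filter.1 (Finset.mem_coe.1 hs)
          obtain ⟨hs1, hs2⟩ := hs'
          rw [Finset.mem_filter] at hs1
          have hs3 := ((hmem s).1 hs1.1).1
          refine Finset.mem_coe.2 (Finset.mem_filter.2 ⟨hs3, ?_⟩)
          rw [← hs2]
          exact hs1.2.1
        · intro s hs s' hs' h
          have hs1 := (Finset.mem_filter.1 (Finset.mem_coe.1 hs)).2
          have hs2 := (Finset.mem_filter.1 (Finset.mem_coe.1 hs')).2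
          exact Prod.ext h (hs1.trans hs2.symm)
      · have h2 : (((Bx (MM m n) H N).filter fun s => RE (Gm s.1) s.2.1 s.2.2 = 0 ∧ s.2.1.1 ≠ 0 ∧
            s.2.2.1 ≠ 0).filter fun s => s.2 = u) = ∅ := by
          rw [Finset.filter_eq_empty_iff]
          intro s hs hsu
          rw [Finset.mem_filter] at hs
          apply h0
          rw [← hsu]
          exact hs.2.2
        rw [h2, Finset.card_empty]
        exact Nat.zero_le _
    refine (Finset.sum_le_sum h1).trans (le_of_eq ?_)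
    rw [Finset.sum_const, hb, smul_eq_mul, mul_comm]
  · intro s hs
    have hs1 := (Finset.mem_filter.1 (Finset.mem_coe.1 hs)).1
    exact Finset.mem_coe.2 ((hmem s).1 hs1).2

theorem EM_log {N : ℕ} (hN : 16 ≤ N) : 1 < Real.log N ∧ 0 < Real.log (Real.log N) := by
  have h2 : (16 : ℝ) ≤ N := by exact_mod_cast hN
  have h3 : Real.log 16 ≤ Real.log N := Real.log_le_log (by norm_num) h2
  have h4 : Real.log 16 = 4 * Real.log 2 := by
    rw [show (16 : ℝ) = 2 ^ 4 by norm_num, Real.log_pow]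
    norm_num
  have h5 := Real.log_two_gt_d9
  have h6 : 1 < Real.log N := by
    rw [h4] at h3
    linarith
  exact ⟨h6, Real.log_pos h6⟩

theorem EM_card (m K N : ℕ) (hN : 1 ≤ N) :
    ((Bx m (N ^ K) N).card : ℝ) ≤ 3 ^ (m + 7) * (((N : ℝ) ^ K) ^ (m + 1) * (N : ℝ) ^ 6) := by
  have h0 : ∀ H : ℕ, (Icc (-(H : ℤ)) (H : ℤ)).card = 2 * H + 1 := by
    intro H
    rw [Int.card_Icc]
    omega
  have h1 : (Bx m (N ^ K) N).card = (2 * N ^ K + 1) ^ (m + 1) * (2 * N + 1) ^ 6 := by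
    unfold Bx boxN box2 FGO.box
    rw [Finset.card_product, Fintype.card_piFinset]
    simp only [Finset.card_product, h0, Finset.prod_const, Finset.card_univ, Fintype.card_fin]
    ring
  have h2 : 1 ≤ N ^ K := Nat.one_le_pow _ _ hN
  have h3 : (Bx m (N ^ K) N).card ≤ (3 * N ^ K) ^ (m + 1) * (3 * N) ^ 6 := by
    rw [h1]
    exact Nat.mul_le_mul (Nat.pow_le_pow_left (by omega) _) (Nat.pow_le_pow_left (by omega) _)
  have h4 : ((Bx m (N ^ K) N).card : ℝ) ≤ (((3 * N ^ K) ^ (m + 1) * (3 * N) ^ 6 : ℕ) : ℝ) := by exact_mod_cast h3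
  refine h4.trans (le_of_eq ?_)
  push_cast
  rw [mul_pow, mul_pow]
  ring

/-- the bound for `B0 (N^K)² N^s` -/
theorem EM_P (K B0 N s : ℕ) (hN : 2 * B0 + 2 ≤ N) (hK : s + 6 ≤ 2 * K) :
    B0 * (N ^ K) ^ 2 * N ^ s ≤ N ^ (2 * K + s + B0) ∧
      288 * N ^ 5 * (B0 * (N ^ K) ^ 2 * N ^ s) ≤ 256 * (N ^ K) ^ 4 := by
  have h0 : B0 * (N ^ K) ^ 2 * N ^ s = B0 * N ^ (2 * K + s) := by
    rw [← pow_mul, mul_assoc, ← pow_add]
    congr 2
    ring
  constructor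
  · rw [h0]
    have h1 : B0 ≤ N ^ B0 := (Nat.lt_two_pow_self).le.trans (Nat.pow_le_pow_left (by omega) _)
    calc B0 * N ^ (2 * K + s) ≤ N ^ B0 * N ^ (2 * K + s) := Nat.mul_le_mul_right _ h1
      _ = N ^ (2 * K + s + B0) := by rw [← pow_add, add_comm]
  · rw [h0]
    calc 288 * N ^ 5 * (B0 * N ^ (2 * K + s)) = (288 * B0) * N ^ (2 * K + s + 5) := by
          rw [show 2 * K + s + 5 = 5 + (2 * K + s) by ring, pow_add N 5]
          ring
      _ ≤ (256 * N) * N ^ (2 * K + s + 5) := Nat.mul_le_mul_right _ (by omega)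
      _ = 256 * N ^ (2 * K + s + 6) := by ring
      _ ≤ 256 * N ^ (4 * K) := Nat.mul_le_mul_left _ (Nat.pow_le_pow_right (by omega) (by omega))
      _ = 256 * (N ^ K) ^ 4 := by rw [← pow_mul, mul_comm K 4]

/-- the data with vanishing resultant -/
theorem EM_nz {m n K N : ℕ} (hm : 1 ≤ m) (hn : 1 ≤ n) (hK : 1 ≤ K) (hN : 16 ≤ N) :
    (((Bx (MM m n) (N ^ K) N).filter fun s => RE (Gm s.1) s.2.1 s.2.2 = 0 ∧ s.2.1.1 ≠ 0 ∧ s.2.2.1 ≠ 0).card : ℝ) ≤
      4 * 3 ^ (MM m n + 6) * (((N : ℝ) ^ K) ^ (MM m n + 1) * (N : ℝ) ^ 6) / Real.log (Real.log N) := by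
  obtain ⟨hlog, hLL⟩ := EM_log hN
  have hN0 : (0 : ℝ) < N := by
    have : 0 < N := by omega
    exact_mod_cast this
  obtain ⟨M, hM⟩ : ∃ M : ℕ, M = MM m n := ⟨_, rfl⟩
  have h1 : (((4 * (2 * N ^ K + 1) ^ M * (2 * N + 1) ^ 6 : ℕ)) : ℝ) ≤
      4 * 3 ^ (M + 6) * (((N : ℝ) ^ K) ^ M * (N : ℝ) ^ 6) := by
    have h2 : 1 ≤ N ^ K := Nat.one_le_pow _ _ (by omega)
    have h3 : 4 * (2 * N ^ K + 1) ^ M * (2 * N + 1) ^ 6 ≤ 4 * (3 * N ^ K) ^ M * (3 * N) ^ 6 :=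
      Nat.mul_le_mul (Nat.mul_le_mul_left _ (Nat.pow_le_pow_left (by omega) _)) (Nat.pow_le_pow_left (by omega) _)
    have h4 : (((4 * (2 * N ^ K + 1) ^ M * (2 * N + 1) ^ 6 : ℕ)) : ℝ) ≤
        ((4 * (3 * N ^ K) ^ M * (3 * N) ^ 6 : ℕ) : ℝ) := by exact_mod_cast h3
    refine h4.trans (le_of_eq ?_)
    push_cast
    rw [mul_pow, mul_pow]
    ring
  have h2 : (((Bx (MM m n) (N ^ K) N).filter fun s => RE (Gm s.1) s.2.1 s.2.2 = 0 ∧ s.2.1.1 ≠ 0 ∧
      s.2.2.1 ≠ 0).card : ℝ) ≤ (((4 * (2 * N ^ K + 1) ^ M * (2 * N + 1) ^ 6 : ℕ)) : ℝ) := by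
    rw [hM]
    exact_mod_cast RE_zero_Bx hm hn (N ^ K) N
  refine (h2.trans h1).trans ?_
  rw [← hM, le_div_iff₀ hLL]
  have h3 : Real.log (Real.log N) ≤ (N : ℝ) ^ K := by
    have e1 : Real.log (Real.log N) ≤ Real.log N := by
      have := Real.log_le_sub_one_of_pos (lt_trans one_pos hlog)
      linarith
    have e2 : Real.log N ≤ N := by
      have := Real.log_le_sub_one_of_pos hN0
      linarith
    have e3 : (N : ℝ) ≤ (N : ℝ) ^ K := by
      have e4 : (1 : ℝ) ≤ N := by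
        have : 1 ≤ N := by omega
        exact_mod_cast this
      exact le_self_pow₀ e4 (by omega)
    linarith
  calc 4 * 3 ^ (M + 6) * (((N : ℝ) ^ K) ^ M * (N : ℝ) ^ 6) * Real.log (Real.log N)
      ≤ 4 * 3 ^ (M + 6) * (((N : ℝ) ^ K) ^ M * (N : ℝ) ^ 6) * (N : ℝ) ^ K :=
        mul_le_mul_of_nonneg_left h3 (by positivity)
    _ = 4 * 3 ^ (M + 6) * (((N : ℝ) ^ K) ^ (M + 1) * (N : ℝ) ^ 6) := by
        rw [pow_succ ((N : ℝ) ^ K) M]
        ring

/-- the factor of the dummy variables -/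
theorem EM_dummy {m n : ℕ} {K N : ℕ} (hN : 1 ≤ N) (Q : Vn (MM m n) → V × V → Prop)
    {d1 : DecidablePred fun s : Vn (TT m n) × (V × V) => Q (cG s.1) s.2}
    {d2 : DecidablePred fun s : Vn (MM m n) × (V × V) => Q s.1 s.2} :
    ((@Finset.filter _ (fun s => Q (cG s.1) s.2) d1 (Bx (TT m n) (N ^ K) N)).card : ℝ) ≤
      3 ^ (2 * m * (2 * n)) * ((N : ℝ) ^ K) ^ (2 * m * (2 * n)) *
        ((@Finset.filter _ (fun s => Q s.1 s.2) d2 (Bx (MM m n) (N ^ K) N)).card : ℝ) := by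
  have h := dummy_card (m := m) (n := n) (N ^ K) N Q
  have e1 : @Finset.filter _ (fun s => Q (cG s.1) s.2) d1 (Bx (TT m n) (N ^ K) N) =
      @Finset.filter _ (fun s => Q (cG s.1) s.2) (fun _ => Classical.propDecidable _)
        (Bx (TT m n) (N ^ K) N) := by
    ext s
    simp only [Finset.mem_filter]
  have e2 : @Finset.filter _ (fun s => Q s.1 s.2) d2 (Bx (MM m n) (N ^ K) N) =
      @Finset.filter _ (fun s => Q s.1 s.2) (fun _ => Classical.propDecidable _)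
        (Bx (MM m n) (N ^ K) N) := by
    ext s
    simp only [Finset.mem_filter]
  rw [e1, e2, h]
  have h2 : 1 ≤ N ^ K := Nat.one_le_pow _ _ hN
  have h3 : (2 * N ^ K + 1) ^ (2 * m * (2 * n)) ≤ (3 * N ^ K) ^ (2 * m * (2 * n)) :=
    Nat.pow_le_pow_left (by omega) _
  have h4 : (((2 * N ^ K + 1) ^ (2 * m * (2 * n)) : ℕ) : ℝ) ≤ (((3 * N ^ K) ^ (2 * m * (2 * n)) : ℕ) : ℝ) := by
    exact_mod_cast h3
  rw [Nat.cast_mul]
  refine mul_le_mul_of_nonneg_right (h4.trans (le_of_eq ?_)) (Nat.cast_nonneg _)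
  push_cast
  rw [mul_pow]

/-- (part 1) **Proof.** Copy `part1_Q` (QM.lean of MP_10e784_agQ): `core_card (Mon_eE hm hn) K A .. (P N = CE m n (N^K)² N^(2m+2n))`, `A = 2 K + 2 m + 2 n + CE m n`, `N1 = 2 CE m n + 2`: `288 N⁵ P N = 288 CE N^(2K+2m+2n+5) ≤ 256 N · N^(2K+2m+2n+5) ≤ 256 N^(4K)` as `m + n + 3 ≤ K`.
`card_DtE`; a pair `(f, u)` of `Bx (TT m n)` with `Adelic ∨ Global` is in one of the sets: `¬ Ty (cG f) u`; `∃ p ∈ PQ P0 N, XeP p (cG f) u`; `Ty` and `RE (Gm (cG f)) u.1 u.2 = 0` (then `u.1.1, u.2.1 ≠ 0`: `HL2_first` as the discriminants are not squares, `Ty_ns`): `RE_zero_Bx`; `Sel1 .. (cG f) u` (`sel_of`). All four depend only on `(cG f, u)`: `dummy_card` gives the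
factor `(2 N^K + 1)^(4mn) ≤ 3^(4mn) (N^K)^(4mn)` for the counts of `Bx (MM m n)` (`core_card`, `Xe_card`, `RE_zero_Bx`). -/
theorem part1_E (m n K : ℕ) (hm : 1 ≤ m) (hn : 1 ≤ n) (hK : m + n + 3 ≤ K) : ∃ C : ℝ, 0 < C ∧ ∀ N : ℕ, 16 ≤ N →
    (Nat.card {q : Dt m n // InBox (N ^ K) N q ∧ (Adelic q ∨ Global q)} : ℝ) ≤
      C * (N : ℝ) ^ (K * (TT m n + 1) + 6) / Real.log (Real.log N) := by
  obtain ⟨B0, hB0⟩ : ∃ B0 : ℕ, B0 = CE m n := ⟨_, rfl⟩
  obtain ⟨C, hC, N0, hN0, HP⟩ := core_card (Mon_eE hm hn) K (2 * K + (2 * m + 2 * n) + B0) (by omega)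
    (fun N => B0 * (N ^ K) ^ 2 * N ^ (2 * m + 2 * n)) (2 * B0 + 2)
    (fun N hN => (EM_P K B0 N (2 * m + 2 * n) hN (by omega)).1)
    (fun N hN => (EM_P K B0 N (2 * m + 2 * n) hN (by omega)).2)
  have hLL0 := (EM_log hN0).2
  obtain ⟨D, hD⟩ : ∃ D : ℕ, D = 2 * m * (2 * n) := ⟨_, rfl⟩
  obtain ⟨T, hT⟩ : ∃ T : ℕ, T = TT m n := ⟨_, rfl⟩
  have hTD : T = D + MM m n := by rw [hT, hD]
  have hpos : 0 < 3 ^ (T + 7) * Real.log (Real.log N0) +
      3 ^ D * (8 ^ (MM m n + 7) * 8200 + 4 * 3 ^ (MM m n + 6) + 2 * C) := by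
    positivity
  refine ⟨_, hpos, fun N hN => ?_⟩
  obtain ⟨hlog, hLL⟩ := EM_log hN
  have hN1 : 0 < N := by omega
  have hNR0 : (0 : ℝ) < N := by exact_mod_cast hN1
  obtain ⟨W, hW⟩ : ∃ W : ℝ, W = ((N : ℝ) ^ K) ^ (MM m n + 1) * (N : ℝ) ^ 6 := ⟨_, rfl⟩
  have hW0 : 0 < W := by
    rw [hW]
    positivity
  obtain ⟨Z, hZ⟩ : ∃ Z : ℝ, Z = ((N : ℝ) ^ K) ^ (T + 1) * (N : ℝ) ^ 6 := ⟨_, rfl⟩
  have hZ0 : 0 < Z := by
    rw [hZ]
    positivity
  have hZW : Z = ((N : ℝ) ^ K) ^ D * W := by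
    rw [hZ, hW, hTD, add_assoc, pow_add ((N : ℝ) ^ K) D]
    ring
  have hZ1 : (N : ℝ) ^ (K * (TT m n + 1) + 6) = Z := by
    rw [hZ, pow_add, ← pow_mul, hT]
  obtain ⟨Pr, hPr⟩ : ∃ Pr : Dt m n → Prop, Pr = fun q => Adelic q ∨ Global q := ⟨_, rfl⟩
  have hcount : Nat.card {q : Dt m n // InBox (N ^ K) N q ∧ (Adelic q ∨ Global q)} =
      Nat.card {q : Dt m n // InBox (N ^ K) N q ∧ Pr q} := by
    rw [hPr]
  rw [hZ1, hcount, card_DtE]
  rcases lt_or_ge N N0 with hlt | hge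
  · have h1 : Real.log (Real.log N) ≤ Real.log (Real.log N0) := by
      have hNR : (16 : ℝ) ≤ N := by exact_mod_cast hN
      refine Real.log_le_log (by linarith) (Real.log_le_log (by linarith) ?_)
      exact_mod_cast hlt.le
    have h2 : (((Bx (TT m n) (N ^ K) N).filter fun s => Pr (toDt s.1 s.2)).card : ℝ) ≤ 3 ^ (T + 7) * Z := by
      rw [hZ, hT]
      refine le_trans ?_ (EM_card (TT m n) K N hN1)
      exact_mod_cast Finset.card_filter_le _ _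
    refine h2.trans ?_
    rw [le_div_iff₀ hLL]
    have h3 : 3 ^ (T + 7) * Z * Real.log (Real.log N) ≤ 3 ^ (T + 7) * Z * Real.log (Real.log N0) :=
      mul_le_mul_of_nonneg_left h1 (by positivity)
    refine h3.trans ?_
    have h4 : 0 ≤ 3 ^ D * (8 ^ (MM m n + 7) * 8200 + 4 * 3 ^ (MM m n + 6) + 2 * C) * Z := by
      positivity
    linarith
  · obtain ⟨P0, z0, p1, p2, p3, p4, p5, p6⟩ := HP N hge
    have hz : z0 ≤ N := by
      by_contra h
      have h1 : N < z0 := not_le.1 h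
      have h2 : N * N < z0 ^ 2 := by
        rw [pow_two]
        exact Nat.mul_lt_mul'' h1 h1
      have h3 : 16 * N ≤ N * N := Nat.mul_le_mul_right _ hN
      omega
    have hH : N ≤ N ^ K := Nat.le_self_pow (by omega) N
    have hsub : ((Bx (TT m n) (N ^ K) N).filter fun s => Pr (toDt s.1 s.2)) ⊆
        (((Bx (TT m n) (N ^ K) N).filter fun s => ¬ Ty (eE m n) P0 z0 (cG s.1) s.2) ∪
          ((Bx (TT m n) (N ^ K) N).filter fun s => ∃ p ∈ PQ P0 N, XeP p (cG s.1) s.2)) ∪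
        (((Bx (TT m n) (N ^ K) N).filter fun s => RE (Gm (cG s.1)) s.2.1 s.2.2 = 0 ∧ s.2.1.1 ≠ 0 ∧ s.2.2.1 ≠ 0) ∪
          ((Bx (TT m n) (N ^ K) N).filter fun s =>
            Sel1 (eE m n) P0 z0 (B0 * (N ^ K) ^ 2 * N ^ (2 * m + 2 * n)) (cG s.1) s.2)) := by
      intro s hs
      rw [Finset.mem_filter] at hs
      simp only [Finset.mem_union, Finset.mem_filter]
      by_cases h1 : Ty (eE m n) P0 z0 (cG s.1) s.2
      · by_cases h2 : ∃ p ∈ PQ P0 N, XeP p (cG s.1) s.2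
        · exact Or.inl (Or.inr ⟨hs.1, h2⟩)
        · by_cases h3 : RE (Gm (cG s.1)) s.2.1 s.2.2 = 0
          · exact Or.inr (Or.inl ⟨hs.1, h3, HL2_first (Ty_ns h1).1, HL2_first (Ty_ns h1).2.1⟩)
          · refine Or.inr (Or.inr ⟨hs.1, ?_⟩)
            push Not at h2
            have hs2 := hs.2
            rw [hPr] at hs2
            have hs1 := hs.1
            unfold Bx at hs1
            rw [Finset.mem_product] at hs1
            exact sel_of hm hn s.1 s.2 hs1.1 hs1.2 p1 hz h1 h2 h3 (by rw [← hB0]) hs2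
      · exact Or.inl (Or.inl ⟨hs.1, h1⟩)
    have hc1 : (((Bx (TT m n) (N ^ K) N).filter fun s => Pr (toDt s.1 s.2)).card : ℝ) ≤
        (((Bx (TT m n) (N ^ K) N).filter fun s => ¬ Ty (eE m n) P0 z0 (cG s.1) s.2).card : ℝ) +
          (((Bx (TT m n) (N ^ K) N).filter fun s => ∃ p ∈ PQ P0 N, XeP p (cG s.1) s.2).card : ℝ) +
        ((((Bx (TT m n) (N ^ K) N).filter fun s =>
            RE (Gm (cG s.1)) s.2.1 s.2.2 = 0 ∧ s.2.1.1 ≠ 0 ∧ s.2.2.1 ≠ 0).card : ℝ) +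
          (((Bx (TT m n) (N ^ K) N).filter fun s =>
            Sel1 (eE m n) P0 z0 (B0 * (N ^ K) ^ 2 * N ^ (2 * m + 2 * n)) (cG s.1) s.2).card : ℝ)) := by
      have e1 := (Finset.card_le_card hsub).trans ((Finset.card_union_le _ _).trans
        (Nat.add_le_add (Finset.card_union_le _ _) (Finset.card_union_le _ _)))
      exact_mod_cast e1
    obtain ⟨E, hE⟩ : ∃ E : ℝ, E = 3 ^ D * ((N : ℝ) ^ K) ^ D := ⟨_, rfl⟩
    have hE0 : 0 < E := by
      rw [hE]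
      positivity
    have hEZ : E * W = 3 ^ D * Z := by
      rw [hE, hZW]
      ring
    have hx := Xe_card hm hn (H := N ^ K) (N := N) (P0 := P0) hN1 hH (by omega)
    have hcz := EM_nz (m := m) (n := n) (K := K) (N := N) hm hn (by omega) hN
    rw [← hW] at p5 p6 hcz
    have hx2 : (((Bx (MM m n) (N ^ K) N).filter fun s => ∃ p ∈ PQ P0 N, XeP p s.1 s.2).card : ℝ) ≤
        8 ^ (MM m n + 7) * 8200 * W / Real.log (Real.log N) := by
      refine hx.trans ?_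
      have e1 : (8 * ((N ^ K : ℕ) : ℝ)) ^ (MM m n + 1) * (8 * (N : ℝ)) ^ 6 = 8 ^ (MM m n + 7) * W := by
        rw [hW]
        push_cast
        rw [mul_pow, mul_pow]
        ring
      have e2 : 41 / (P0 : ℝ) ≤ 8200 / Real.log (Real.log N) := by
        calc 41 / (P0 : ℝ) = 41 * (1 / (P0 : ℝ)) := by ring
          _ ≤ 41 * (200 / Real.log (Real.log N)) := mul_le_mul_of_nonneg_left p4 (by norm_num)
          _ = 8200 / Real.log (Real.log N) := by ring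
      rw [e1]
      calc 8 ^ (MM m n + 7) * W * (41 / (P0 : ℝ)) ≤ 8 ^ (MM m n + 7) * W * (8200 / Real.log (Real.log N)) :=
            mul_le_mul_of_nonneg_left e2 (by positivity)
        _ = 8 ^ (MM m n + 7) * 8200 * W / Real.log (Real.log N) := by ring
    have q1 : (((Bx (TT m n) (N ^ K) N).filter fun s => ¬ Ty (eE m n) P0 z0 (cG s.1) s.2).card : ℝ) ≤
        3 ^ (2 * m * (2 * n)) * ((N : ℝ) ^ K) ^ (2 * m * (2 * n)) *
        (((Bx (MM m n) (N ^ K) N).filter fun s => ¬ Ty (eE m n) P0 z0 s.1 s.2).card : ℝ) :=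
      EM_dummy hN1 (fun f u => ¬ Ty (eE m n) P0 z0 f u)
    have q2 : (((Bx (TT m n) (N ^ K) N).filter fun s => ∃ p ∈ PQ P0 N, XeP p (cG s.1) s.2).card : ℝ) ≤
        3 ^ (2 * m * (2 * n)) * ((N : ℝ) ^ K) ^ (2 * m * (2 * n)) *
        (((Bx (MM m n) (N ^ K) N).filter fun s => ∃ p ∈ PQ P0 N, XeP p s.1 s.2).card : ℝ) :=
      EM_dummy hN1 (fun f u => ∃ p ∈ PQ P0 N, XeP p f u)
    have q3 : (((Bx (TT m n) (N ^ K) N).filter fun s =>
        RE (Gm (cG s.1)) s.2.1 s.2.2 = 0 ∧ s.2.1.1 ≠ 0 ∧ s.2.2.1 ≠ 0).card : ℝ) ≤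
        3 ^ (2 * m * (2 * n)) * ((N : ℝ) ^ K) ^ (2 * m * (2 * n)) *
        (((Bx (MM m n) (N ^ K) N).filter fun s => RE (Gm s.1) s.2.1 s.2.2 = 0 ∧ s.2.1.1 ≠ 0 ∧
          s.2.2.1 ≠ 0).card : ℝ) :=
      EM_dummy hN1 (fun f u => RE (Gm f) u.1 u.2 = 0 ∧ u.1.1 ≠ 0 ∧ u.2.1 ≠ 0)
    have q4 : (((Bx (TT m n) (N ^ K) N).filter fun s =>
        Sel1 (eE m n) P0 z0 (B0 * (N ^ K) ^ 2 * N ^ (2 * m + 2 * n)) (cG s.1) s.2).card : ℝ) ≤
        3 ^ (2 * m * (2 * n)) * ((N : ℝ) ^ K) ^ (2 * m * (2 * n)) *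
        (((Bx (MM m n) (N ^ K) N).filter fun s =>
          Sel1 (eE m n) P0 z0 (B0 * (N ^ K) ^ 2 * N ^ (2 * m + 2 * n)) s.1 s.2).card : ℝ) :=
      EM_dummy hN1 (fun f u => Sel1 (eE m n) P0 z0 (B0 * (N ^ K) ^ 2 * N ^ (2 * m + 2 * n)) f u)
    rw [← hD, ← hE] at q1 q2 q3 q4
    have r1 := q1.trans (mul_le_mul_of_nonneg_left p5 hE0.le)
    have r2 := q2.trans (mul_le_mul_of_nonneg_left hx2 hE0.le)
    have r3 := q3.trans (mul_le_mul_of_nonneg_left hcz hE0.le)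
    have r4 := q4.trans (mul_le_mul_of_nonneg_left p6 hE0.le)
    have hfin : E * (C * W / Real.log (Real.log N)) +
        E * (8 ^ (MM m n + 7) * 8200 * W / Real.log (Real.log N)) +
        (E * (4 * 3 ^ (MM m n + 6) * W / Real.log (Real.log N)) + E * (C * W / Real.log (Real.log N))) ≤
        (3 ^ (T + 7) * Real.log (Real.log N0) +
          3 ^ D * (8 ^ (MM m n + 7) * 8200 + 4 * 3 ^ (MM m n + 6) + 2 * C)) * Z / Real.log (Real.log N) := by
      have e0 : E * (C * W / Real.log (Real.log N)) +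
          E * (8 ^ (MM m n + 7) * 8200 * W / Real.log (Real.log N)) +
          (E * (4 * 3 ^ (MM m n + 6) * W / Real.log (Real.log N)) + E * (C * W / Real.log (Real.log N))) =
          (3 ^ D * (8 ^ (MM m n + 7) * 8200 + 4 * 3 ^ (MM m n + 6) + 2 * C)) * Z / Real.log (Real.log N) := by
        calc _ = (8 ^ (MM m n + 7) * 8200 + 4 * 3 ^ (MM m n + 6) + 2 * C) * (E * W) /
              Real.log (Real.log N) := by ring
          _ = _ := by
            rw [hEZ]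
            ring
      rw [e0]
      refine div_le_div_of_nonneg_right ?_ hLL.le
      refine mul_le_mul_of_nonneg_right ?_ hZ0.le
      have h5 : 0 ≤ 3 ^ (T + 7) * Real.log (Real.log N0) := by positivity
      linarith
    refine le_trans ?_ hfin
    linarith

end HNE
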