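import Pool.Agent.Lib.MP_1ad228_ntE.EA1
import Pool.Agent.Lib.MP_1ad228_ntE.EA0
import Pool.Agent.Lib.MP_10e784_agF.RD
import Pool.Agent.Lib.MP_10e784_agF.LD
import Pool.Agent.Lib.MP_10e784_agF.LE

/-! The mean value of `RE = 0` modulo `p`. -/

set_option autoImplicit false

open Classical

namespace HNE

open Finset Polynomial FGO FQQ HNF

/-- the zeros of a nonzero quadratic form on the projective line over a field. Proof. As `XA2_zeros` (XA2.lean of MP_10e784_agF) for a field `K`: if `v.1 = 0` the zeros are `(1, 0)` and at most one `(r, 1)`; otherwise at most two `(r, 1)` (a polynomial `Pq v ≠ 0` of degree `≤ 2`; `Polynomial.card_roots'`). -/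
theorem zeros_two {K : Type} [Field K] (v : K × K × K) (hv0 : v ≠ 0) :
    ∃ S : Finset (K × K), S.card ≤ 2 ∧ (∀ P ∈ S, ¬ (P.1 = 0 ∧ P.2 = 0) ∧ qv v P.1 P.2 = 0) ∧
      ∀ x z : K, ¬ (x = 0 ∧ z = 0) → qv v x z = 0 → ∃ P ∈ S, ∃ t : K, t ≠ 0 ∧ x = t * P.1 ∧ z = t * P.2 := by
  have hne : Pq v ≠ 0 := by
    intro h
    apply hv0
    have h2 : (Pq v).coeff 2 = 0 := by rw [h, coeff_zero]
    have h1 : (Pq v).coeff 1 = 0 := by rw [h, coeff_zero]
    have h0 : (Pq v).coeff 0 = 0 := by rw [h, coeff_zero]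
    unfold Pq at h2 h1 h0
    simp [coeff_X, coeff_C] at h2 h1 h0
    exact Prod.ext h2 (Prod.ext h1 h0)
  have hroot : ∀ r : K, qv v r 1 = 0 ↔ r ∈ (Pq v).roots.toFinset := by
    intro r
    rw [Multiset.mem_toFinset, mem_roots hne, IsRoot.def, eval_Pq]
  have hcard : (Pq v).roots.toFinset.card ≤ (Pq v).natDegree :=
    (Multiset.toFinset_card_le _).trans (card_roots' _)
  have hfin : ∀ x z : K, z ≠ 0 → qv v x z = 0 → x / z ∈ (Pq v).roots.toFinset := by
    intro x z hz h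
    rw [← hroot]
    have e := qv_smul v z⁻¹ x z
    rw [inv_mul_cancel₀ hz, h, mul_zero] at e
    rw [div_eq_inv_mul, e]
  by_cases hv1 : v.1 = 0
  · have hd : (Pq v).natDegree ≤ 1 := by
      unfold Pq
      rw [hv1, C_0, zero_mul, zero_add]
      exact natDegree_linear_le
    refine ⟨insert (1, 0) ((Pq v).roots.toFinset.image fun r => (r, 1)), ?_, ?_, ?_⟩
    · have h1 := card_insert_le ((1 : K), (0 : K)) ((Pq v).roots.toFinset.image fun r => (r, (1 : K)))
      have h2 := card_image_le (s := (Pq v).roots.toFinset) (f := fun r : K => (r, (1 : K)))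
      omega
    · intro P hP
      rcases mem_insert.1 hP with h | h
      · rw [h]
        refine ⟨fun h1 => one_ne_zero h1.1, ?_⟩
        unfold qv
        rw [hv1]
        ring
      · obtain ⟨r, hr, h⟩ := mem_image.1 h
        rw [← h]
        exact ⟨fun h1 => one_ne_zero h1.2, (hroot r).2 hr⟩
    · intro x z hxz h
      by_cases hz : z = 0
      · refine ⟨(1, 0), mem_insert_self _ _, x, fun hx => hxz ⟨hx, hz⟩, (mul_one x).symm, ?_⟩
        rw [hz]
        exact (mul_zero x).symm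
      · exact ⟨(x / z, 1), mem_insert_of_mem (mem_image_of_mem _ (hfin x z hz h)), z, hz,
          (mul_div_cancel₀ x hz).symm, (mul_one z).symm⟩
  · refine ⟨(Pq v).roots.toFinset.image fun r => (r, 1), ?_, ?_, ?_⟩
    · have h2 := card_image_le (s := (Pq v).roots.toFinset) (f := fun r : K => (r, (1 : K)))
      exact h2.trans (hcard.trans (natDegree_Pq v))
    · intro P hP
      obtain ⟨r, hr, h⟩ := mem_image.1 hP
      rw [← h]
      exact ⟨fun h1 => one_ne_zero h1.2, (hroot r).2 hr⟩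
    · intro x z hxz h
      by_cases hz : z = 0
      · exfalso
        have hx : x ≠ 0 := fun hx => hxz ⟨hx, hz⟩
        rw [hz] at h
        unfold qv at h
        have h3 : v.1 * x ^ 2 = 0 := by linear_combination h
        rcases mul_eq_zero.1 h3 with h4 | h4
        · exact hv1 h4
        · exact pow_ne_zero 2 hx h4
      · exact ⟨(x / z, 1), mem_image_of_mem _ (hfin x z hz h), z, hz,
          (mul_div_cancel₀ x hz).symm, (mul_one z).symm⟩

/-- over an algebraically closed field a vanishing resultant gives a common zero. Proof. `FQQ.Rs_zero` (file RD); in the third alternative `Pq v` (of degree two) has a root `r` (`IsAlgClosed`), a common zero `(r, 1)` (`eval_Pf`, `eval_Pq`). -/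
theorem Rs_zero_closed {K : Type} [Field K] [IsAlgClosed K] {m : ℕ} (hm : 1 ≤ m) (f : Fin (m + 1) → K) (v : K × K × K)
    (h0 : v ≠ 0) (h : Rs f v = 0) : ∃ x z : K, ¬ (x = 0 ∧ z = 0) ∧ hv f x z = 0 ∧ qv v x z = 0 := by
  rcases Rs_zero hm f v h with h1 | h1 | ⟨h1, h2⟩
  · exact h1
  · exact absurd h1 h0
  · have hd : (Pq v).natDegree = 2 := RD_Pq_degree v h1
    have hdeg : (Pq v).degree ≠ 0 := by
      intro h3
      have h4 := natDegree_eq_zero_iff_degree_le_zero.2 h3.le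
      omega
    obtain ⟨r, hr⟩ := IsAlgClosed.exists_root (Pq v) hdeg
    refine ⟨r, 1, fun h3 => one_ne_zero h3.2, ?_, ?_⟩
    · rw [← eval_Pf]
      exact eval_eq_zero_of_dvd_of_eval_eq_zero h2 hr
    · rw [← eval_Pq]
      exact hr

/-- Proof. `Rs_zero_closed` for `BE G w` and `v` (`m = 4 m`), `hv_BE`, `Rs_zero_closed` for `row G x z` and `w`, `hv_row`; replace `(x, z)` and `(y, t)` by the representatives of `zeros_two` (`bv_smul`). -/
theorem RE_zero_points {K : Type} [Field K] [IsAlgClosed K] {m n : ℕ} (hm : 1 ≤ m) (hn : 1 ≤ n) (v w : K × K × K)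
    (hv0 : v ≠ 0) (hw0 : w ≠ 0) :
    ∃ S : Finset ((K × K) × (K × K)), S.card ≤ 4 ∧ (∀ P ∈ S, ¬ (P.1.1 = 0 ∧ P.1.2 = 0) ∧ ¬ (P.2.1 = 0 ∧ P.2.2 = 0)) ∧
      ∀ G : Fin (2 * m + 1) → Fin (2 * n + 1) → K, RE G v w = 0 → ∃ P ∈ S, bv G P.1.1 P.1.2 P.2.1 P.2.2 = 0 := by
  obtain ⟨Sv, hSv, hSv1, hSv2⟩ := zeros_two v hv0
  obtain ⟨Sw, hSw, hSw1, hSw2⟩ := zeros_two w hw0
  refine ⟨Sv ×ˢ Sw, ?_, ?_, ?_⟩
  · rw [card_product]
    calc Sv.card * Sw.card ≤ 2 * 2 := Nat.mul_le_mul hSv hSw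
      _ = 4 := rfl
  · intro P hP
    rw [mem_product] at hP
    exact ⟨(hSv1 _ hP.1).1, (hSw1 _ hP.2).1⟩
  · intro G hG
    have h1 : Rs (m := 4 * m) (BE G w) v = 0 := hG
    obtain ⟨x, z, hxz, h2, h3⟩ := Rs_zero_closed (m := 4 * m) (by omega) _ v hv0 h1
    rw [hv_BE] at h2
    obtain ⟨y, t, hyt, h4, h5⟩ := Rs_zero_closed (m := 2 * n) (by omega) _ w hw0 h2
    rw [hv_row] at h4
    obtain ⟨P, hP, a, ha, hx, hz⟩ := hSv2 x z hxz h3
    obtain ⟨Q, hQ, b, hb, hy, ht⟩ := hSw2 y t hyt h5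
    refine ⟨(P, Q), mem_product.2 ⟨hP, hQ⟩, ?_⟩
    rw [hx, hz, hy, ht, bv_smul] at h4
    exact (mul_eq_zero.1 h4).resolve_left (mul_ne_zero (pow_ne_zero _ ha) (pow_ne_zero _ hb))

/-- one linear condition with values in an extension field. Proof. The set is the kernel of the additive map `c ↦ bv (c) x z y t` from `ZMod p ^ (M + 1)` to `K`; it is not the zero map: the coefficient of one of the four corners (`x^(2m)` or `z^(2m)` times `y^(2n)` or `t^(2n)`) is nonzero. For each choice of the other coordinates there is at most one value of the coordinate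
of that corner: at most `p ^ M` vectors. -/
theorem lin_card {m n : ℕ} (p : ℕ) [Fact p.Prime] {K : Type} [Field K] (φ : ZMod p →+* K) (x z y t : K)
    (h1 : ¬ (x = 0 ∧ z = 0)) (h2 : ¬ (y = 0 ∧ t = 0)) :
    ((univ : Finset (Fin (MM m n + 1) → ZMod p)).filter fun c => bv (fun i j => φ (Gm c i j)) x z y t = 0).card ≤
      p ^ (MM m n) := by
  have hcorner : ∀ (r : ℕ) (a b : K), ¬ (a = 0 ∧ b = 0) →
      ∃ i : Fin (r + 1), a ^ (i : ℕ) * b ^ (r + 1 - 1 - (i : ℕ)) ≠ 0 := by
    intro r a b hab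
    by_cases ha : a = 0
    · have hb : b ≠ 0 := fun hb => hab ⟨ha, hb⟩
      refine ⟨0, ?_⟩
      rw [Fin.val_zero, pow_zero, one_mul]
      exact pow_ne_zero _ hb
    · refine ⟨Fin.last r, ?_⟩
      rw [Fin.val_last, Nat.add_sub_cancel, Nat.sub_self, pow_zero, mul_one]
      exact pow_ne_zero _ ha
  obtain ⟨i0, hi0⟩ := hcorner (2 * m) x z h1
  obtain ⟨j0, hj0⟩ := hcorner (2 * n) y t h2
  have hcard : (univ : Finset (Fin (MM m n) → ZMod p)).card = p ^ (MM m n) := by
    rw [card_univ, Fintype.card_fun, ZMod.card, Fintype.card_fin]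
  rw [← hcard]
  refine card_le_card_of_injOn (fun c i => c (((sg m n).symm (i0, j0)).succAbove i))
    (fun _ _ => mem_coe.2 (mem_univ _)) ?_
  intro c hc c' hc' hcc
  have hc1 := (mem_filter.1 (mem_coe.1 hc)).2
  have hc2 := (mem_filter.1 (mem_coe.1 hc')).2
  have hne : ∀ k, k ≠ (sg m n).symm (i0, j0) → c k = c' k := by
    intro k hk
    obtain ⟨i, hi⟩ := Fin.exists_succAbove_eq hk
    rw [← hi]
    exact congrFun hcc i
  have hsum : bv (fun i j => φ (Gm c i j)) x z y t - bv (fun i j => φ (Gm c' i j)) x z y t =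
      (φ (c ((sg m n).symm (i0, j0))) - φ (c' ((sg m n).symm (i0, j0)))) *
        (x ^ (i0 : ℕ) * z ^ (2 * m + 1 - 1 - (i0 : ℕ))) * (y ^ (j0 : ℕ) * t ^ (2 * n + 1 - 1 - (j0 : ℕ))) := by
    unfold bv
    rw [← sum_sub_distrib, sum_eq_single i0]
    · rw [← sum_sub_distrib, sum_eq_single j0]
      · unfold Gm
        ring
      · intro j _ hj
        have h3 : (sg m n).symm (i0, j) ≠ (sg m n).symm (i0, j0) := by
          intro h4
          exact hj (congrArg Prod.snd ((sg m n).symm.injective h4))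
        have h5 := hne _ h3
        unfold Gm
        dsimp only
        rw [h5, sub_self]
      · intro h3
        exact absurd (mem_univ _) h3
    · intro i _ hi
      rw [← sum_sub_distrib]
      refine sum_eq_zero fun j _ => ?_
      have h3 : (sg m n).symm (i, j) ≠ (sg m n).symm (i0, j0) := by
        intro h4
        exact hi (congrArg Prod.fst ((sg m n).symm.injective h4))
      have h5 := hne _ h3
      unfold Gm
      dsimp only
      rw [h5, sub_self]
    · intro h3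
      exact absurd (mem_univ _) h3
  rw [hc1, hc2, sub_zero] at hsum
  have h3 : φ (c ((sg m n).symm (i0, j0))) - φ (c' ((sg m n).symm (i0, j0))) = 0 := by
    by_contra h4
    exact mul_ne_zero (mul_ne_zero h4 hi0) hj0 hsum.symm
  have h4 : c ((sg m n).symm (i0, j0)) = c' ((sg m n).symm (i0, j0)) := φ.injective (sub_eq_zero.1 h3)
  funext k
  by_cases hk : k = (sg m n).symm (i0, j0)
  · rw [hk, h4]
  · exact hne k hk

/-- **Proof.** `K` = an algebraic closure of `ZMod p`, `S` of `RE_zero_points` (`RE_map`), `lin_card` for each of the at most four elements. -/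
theorem mF_RE {m n : ℕ} (hm : 1 ≤ m) (hn : 1 ≤ n) (p : ℕ) [Fact p.Prime] (v w : ZMod p × ZMod p × ZMod p)
    (hv0 : v ≠ 0) (hw0 : w ≠ 0) : mF (MM m n) p (fun c => ind (RE (Gm c) v w = 0)) ≤ 4 / (p : ℝ) := by
  obtain ⟨φ, hφ⟩ : ∃ φ : ZMod p →+* AlgebraicClosure (ZMod p), φ = algebraMap _ _ := ⟨_, rfl⟩
  have hinj : Function.Injective φ := φ.injective
  have hne : ∀ u : ZMod p × ZMod p × ZMod p, u ≠ 0 → (φ u.1, φ u.2.1, φ u.2.2) ≠ 0 := by
    intro u hu h
    apply hu
    have h1 := congrArg Prod.fst h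
    have h2 := congrArg (fun a => a.2.1) h
    have h3 := congrArg (fun a => a.2.2) h
    simp only [Prod.fst_zero, Prod.snd_zero] at h1 h2 h3
    exact Prod.ext ((map_eq_zero φ).1 h1) (Prod.ext ((map_eq_zero φ).1 h2) ((map_eq_zero φ).1 h3))
  obtain ⟨S, hS, hS1, hS2⟩ := RE_zero_points hm hn _ _ (hne v hv0) (hne w hw0)
  obtain ⟨T, hT⟩ : ∃ T : (Fin (MM m n + 1) → ZMod p) → Prop, T = fun c => RE (Gm c) v w = 0 := ⟨_, rfl⟩
  have hsub : ((univ : Finset (Fin (MM m n + 1) → ZMod p)).filter T) ⊆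
      S.biUnion fun P => (univ : Finset (Fin (MM m n + 1) → ZMod p)).filter
        fun c => bv (fun i j => φ (Gm c i j)) P.1.1 P.1.2 P.2.1 P.2.2 = 0 := by
    intro c hc
    have h1 : RE (Gm c) v w = 0 := by
      have h0 := (mem_filter.1 hc).2
      rw [hT] at h0
      exact h0
    have h2 := RE_map φ (Gm c) v w
    rw [h1, map_zero] at h2
    obtain ⟨P, hP, h3⟩ := hS2 _ h2.symm
    exact mem_biUnion.2 ⟨P, hP, mem_filter.2 ⟨mem_univ _, h3⟩⟩
  have hcard : ((univ : Finset (Fin (MM m n + 1) → ZMod p)).filter T).card ≤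
      4 * p ^ (MM m n) := by
    calc _ ≤ _ := card_le_card hsub
      _ ≤ ∑ P ∈ S, ((univ : Finset (Fin (MM m n + 1) → ZMod p)).filter
        fun c => bv (fun i j => φ (Gm c i j)) P.1.1 P.1.2 P.2.1 P.2.2 = 0).card := card_biUnion_le
      _ ≤ ∑ _P ∈ S, p ^ (MM m n) := sum_le_sum fun P hP => lin_card p φ _ _ _ _ (hS1 P hP).1 (hS1 P hP).2
      _ = S.card * p ^ (MM m n) := by rw [sum_const, smul_eq_mul]
      _ ≤ 4 * p ^ (MM m n) := Nat.mul_le_mul_right _ hS
  have hp : (0 : ℝ) < p := by exact_mod_cast (Fact.out : p.Prime).pos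
  have hs : ∑ c : Fin (MM m n + 1) → ZMod p, ind (RE (Gm c) v w = 0) =
      (((univ : Finset (Fin (MM m n + 1) → ZMod p)).filter T).card : ℝ) := by
    have h1 : ∑ c : Fin (MM m n + 1) → ZMod p, ind (RE (Gm c) v w = 0) =
        ∑ c : Fin (MM m n + 1) → ZMod p, ind (T c) := by rw [hT]
    rw [h1]
    unfold ind
    rw [sum_boole]
  unfold mF
  rw [hs, div_le_div_iff₀ (pow_pos hp _) hp, pow_succ]
  have h1 : (((univ : Finset (Fin (MM m n + 1) → ZMod p)).filter T).card : ℝ) ≤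
      4 * (p : ℝ) ^ (MM m n) := by exact_mod_cast hcard
  calc _ ≤ 4 * (p : ℝ) ^ (MM m n) * p := mul_le_mul_of_nonneg_right h1 hp.le
    _ = 4 * ((p : ℝ) ^ (MM m n) * p) := by ring

end HNE
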