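import Pool.Agent.Lib.MP_1ad228_ntE.PDefs
import Pool.Agent.Lib.MP_1ad228_ntH.PB1

/-! Stepanov's theorem with excluded values; homogenization. -/

set_option autoImplicit false

open Classical

namespace HNE

open Finset Polynomial FGO FQQ HNF

/-- Proof. Copy the proof of `HNF.gen_sq` (PB1.lean of MP_1ad228_ntH): `stepanov_many` with `T` = the roots of `G` together with the excluded set (`natDegree + 2` elements at most; use `stepanov_many k (n + 2)`). -/
theorem gen_sqT (n : ℕ) : ∃ w1 : ℕ, 3 ≤ w1 ∧ ∀ (p : ℕ) [Fact p.Prime], w1 ≤ p → ∀ P : (ZMod p)[X], P.natDegree ≤ n →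
    (∀ (c : ZMod p) (G : (ZMod p)[X]), P ≠ C c * G ^ 2) → ∀ T : Finset (ZMod p), T.card ≤ 2 →
    ∃ x : ZMod p, x ∉ T ∧ Sq (P.eval x) := by
  have hst : ∀ k : ℕ, ∃ P0 : ℕ, 1 ≤ k → ∀ (p : ℕ) [Fact p.Prime], P0 ≤ p → ∀ f : (ZMod p)[X],
      Squarefree f → f.natDegree = k → ∀ u : ZMod p, u ≠ 0 → ∀ T : Finset (ZMod p), T.card ≤ n + 2 →
      ∃ x : ZMod p, x ∉ T ∧ f.eval x ≠ 0 ∧ IsSquare (u * f.eval x) := by
    intro k
    by_cases hk : 1 ≤ k
    · obtain ⟨P0, h⟩ := stepanov_many k (n + 2) hk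
      exact ⟨P0, fun _ => h⟩
    · exact ⟨0, fun h => absurd h hk⟩
  choose P0 hP0 using hst
  refine ⟨3 + ∑ k ∈ Finset.range (n + 1), P0 k, by omega, ?_⟩
  intro p hpf hp P hdP hns T hT
  have hPne : P ≠ 0 := by
    intro h
    apply hns 0 0
    rw [h, Polynomial.C_0, zero_mul]
  obtain ⟨s, G, hs, hPG⟩ := sq_decomp P hPne
  have hs0 : s ≠ 0 := hs.ne_zero
  have hG0 : G ≠ 0 := by
    rintro rfl
    apply hPne
    rw [hPG]
    ring
  have hdeg : P.natDegree = s.natDegree + 2 * G.natDegree := by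
    rw [hPG, Polynomial.natDegree_mul hs0 (pow_ne_zero 2 hG0), Polynomial.natDegree_pow]
  have hs1 : 1 ≤ s.natDegree := by
    rcases Nat.eq_zero_or_pos s.natDegree with h0 | h0
    · exfalso
      apply hns (s.coeff 0) G
      rw [hPG]
      congr 1
      exact Polynomial.eq_C_of_natDegree_eq_zero h0
    · exact h0
  have hPp : P0 s.natDegree ≤ p := by
    have h1 : P0 s.natDegree ≤ ∑ k ∈ Finset.range (n + 1), P0 k := by
      apply Finset.single_le_sum (f := P0) (fun i _ => Nat.zero_le _)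
      rw [Finset.mem_range]
      omega
    omega
  have hT2 : (G.roots.toFinset ∪ T).card ≤ n + 2 := by
    have h0 := Finset.card_union_le G.roots.toFinset T
    have h1 : G.roots.toFinset.card ≤ Multiset.card G.roots := Multiset.toFinset_card_le _
    have h2 : Multiset.card G.roots ≤ G.natDegree := Polynomial.card_roots' G
    omega
  obtain ⟨x, hxT, hx0, hxsq⟩ := hP0 s.natDegree hs1 p hPp s hs rfl 1 one_ne_zero _ hT2
  rw [Finset.mem_union, not_or] at hxT
  have hGx : G.eval x ≠ 0 := by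
    intro h
    apply hxT.1
    rw [Multiset.mem_toFinset, Polynomial.mem_roots hG0]
    exact h
  have hev : P.eval x = s.eval x * (G.eval x) ^ 2 := by
    rw [hPG, Polynomial.eval_mul, Polynomial.eval_pow]
  refine ⟨x, hxT.2, ?_, ?_⟩
  · rw [hev]
    exact mul_ne_zero hx0 (pow_ne_zero 2 hGx)
  · rw [hev]
    rw [one_mul] at hxsq
    exact hxsq.mul ⟨G.eval x, sq (G.eval x)⟩

theorem PA1_term {F : Type} [Field F] (n i : ℕ) (hn : 1 ≤ n) (hi : i ≤ n) (c r : F) (y t : F[X]) (u : F)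
    (h : y.eval u = r * t.eval u) :
    (derivative (C c * (y ^ i * t ^ (n - i)))).eval u =
      (t.eval u) ^ (n - 1) * ((derivative y).eval u - r * (derivative t).eval u) * (c * (i * r ^ (i - 1))) +
      (t.eval u) ^ (n - 1) * n * (derivative t).eval u * (c * r ^ i) := by
  rw [derivative_C_mul, derivative_mul, derivative_pow, derivative_pow]
  simp only [eval_mul, eval_add, eval_C, eval_pow, h]
  rcases i with _ | a
  · simp only [Nat.cast_zero, zero_mul, pow_zero, Nat.sub_zero, zero_add, mul_one, one_mul, mul_zero]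
    ring
  · obtain ⟨b, rfl⟩ : ∃ b, n = a + 1 + b := ⟨n - (a + 1), by omega⟩
    have e1 : a + 1 + b - (a + 1) = b := by omega
    have e2 : a + 1 + b - 1 = a + b := by omega
    rw [e1, e2, Nat.add_sub_cancel]
    rcases b with _ | b
    · simp only [Nat.cast_zero, zero_mul, pow_zero, Nat.cast_add, Nat.cast_one, mul_one, mul_zero, add_zero]
      ring
    · rw [Nat.add_sub_cancel]
      push_cast
      ring

/-- Proof. `derivative` of the sum: `∑ N_i (i y^(i-1) y' t^(n-i) + (n-i) y^i t^(n-i-1) t')`; at `u` with `y = r t`: `t^(n-1) ∑ N_i (i r^(i-1) y' + (n-i) r^i t')` (for `i = 0` and `i = n` one of the terms vanishes; natural subtraction: treat `i = 0`, `i = n` with the zero factors, `t` may be zero: `0^0 = 1` only matters for `n = 1`)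
`= t^(n-1) (N'(r) y' + (n N(r) - r N'(r)) t')` and `N(r) = 0`. -/
theorem der_hN {F : Type} [Field F] (n : ℕ) (hn : 1 ≤ n) (N : F[X]) (hd : N.natDegree ≤ n) (r : F) (hr : N.eval r = 0)
    (y t : F[X]) (u : F) (h : y.eval u = r * t.eval u) :
    (derivative (∑ i ∈ range (n + 1), C (N.coeff i) * (y ^ i * t ^ (n - i)))).eval u =
      (t.eval u) ^ (n - 1) * (derivative N).eval r * ((derivative y).eval u - r * (derivative t).eval u) := by
  have hN := eval_eq_sum_range' (Nat.lt_succ_of_le hd) r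
  rw [hr] at hN
  have hD : (derivative N).eval r = ∑ i ∈ range (n + 1), N.coeff i * (i * r ^ (i - 1)) := by
    conv_lhs => rw [N.as_sum_range_C_mul_X_pow' (Nat.lt_succ_of_le hd)]
    rw [derivative_sum, eval_finsetSum]
    refine Finset.sum_congr rfl fun i _ => ?_
    rw [derivative_C_mul_X_pow, eval_mul, eval_C, eval_pow, eval_X, mul_assoc]
  rw [derivative_sum, eval_finsetSum, hD, Finset.sum_congr rfl fun i hi =>
    PA1_term n i hn (Nat.lt_succ_iff.1 (Finset.mem_range.1 hi)) (N.coeff i) r y t u h,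
    Finset.sum_add_distrib, ← Finset.mul_sum, ← Finset.mul_sum, ← hN]
  ring

theorem natDegree_Pg {F : Type} [CommRing F] {l : ℕ} (g : Fin l → F) : (Pg g).natDegree ≤ l - 1 := by
  unfold Pg
  refine Polynomial.natDegree_sum_le_of_forall_le _ _ (fun i _ => ?_)
  refine (Polynomial.natDegree_C_mul_X_pow_le _ _).trans ?_
  omega

/-- Proof. `natDegree (Pg g ^ 2) ≤ 4 k`, `natDegree (Pq w * Pg h ^ 2) ≤ 2 + 2 (2 k - 1) = 4 k` (`1 ≤ k`). -/
theorem natDegree_Nn {F : Type} [CommRing F] {k : ℕ} (hk : 1 ≤ k) (g : Fin (2 * k + 1) → F) (h : Fin (2 * k) → F) (d : F)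
    (w : F × F × F) : (Nn g h d w).natDegree ≤ 4 * k := by
  unfold Nn
  refine (Polynomial.natDegree_sub_le _ _).trans (max_le ?_ ?_)
  · refine Polynomial.natDegree_pow_le.trans ?_
    have h1 := natDegree_Pg g
    omega
  · refine Polynomial.natDegree_mul_le.trans ?_
    have h1 : (C d * Pq w).natDegree ≤ 2 := (Polynomial.natDegree_C_mul_le _ _).trans (natDegree_Pq w)
    have h2 : (Pg h ^ 2).natDegree ≤ 2 * (2 * k - 1) :=
      Polynomial.natDegree_pow_le.trans (Nat.mul_le_mul_left 2 (natDegree_Pg h))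
    omega

theorem PA1_hN {F : Type} [Field F] (n : ℕ) (N : F[X]) (hd : N.natDegree ≤ n) (y t : F) (ht : t ≠ 0) :
    hN n N y t = t ^ n * N.eval (y / t) := by
  unfold hN
  rw [eval_eq_sum_range' (Nat.lt_succ_of_le hd), Finset.mul_sum]
  refine Finset.sum_congr rfl fun i hi => ?_
  have hi' : i ≤ n := Nat.lt_succ_iff.1 (Finset.mem_range.1 hi)
  have e1 : t ^ n = t ^ (n - i) * t ^ i := by rw [← pow_add, Nat.sub_add_cancel hi']
  have e2 : (y / t) ^ i * t ^ i = y ^ i := by rw [← mul_pow, div_mul_cancel₀ _ ht]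
  rw [e1, ← e2]
  ring

theorem PA1_hg {F : Type} [Field F] {l : ℕ} (g : Fin l → F) (y t : F) (ht : t ≠ 0) :
    hg g y t = t ^ (l - 1) * (Pg g).eval (y / t) := by
  unfold hg Pg
  rw [eval_finsetSum, Finset.mul_sum]
  refine Finset.sum_congr rfl fun i _ => ?_
  have hi' : (i : ℕ) ≤ l - 1 := by omega
  have e1 : t ^ (l - 1) = t ^ (l - 1 - (i : ℕ)) * t ^ (i : ℕ) := by rw [← pow_add, Nat.sub_add_cancel hi']
  have e2 : (y / t) ^ (i : ℕ) * t ^ (i : ℕ) = y ^ (i : ℕ) := by rw [← mul_pow, div_mul_cancel₀ _ ht]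
  rw [eval_mul, eval_C, eval_pow, eval_X, e1, ← e2]
  ring

theorem PA1_qv {F : Type} [Field F] (w : F × F × F) (y t : F) (ht : t ≠ 0) :
    qv w y t = t ^ 2 * (Pq w).eval (y / t) := by
  rw [eval_Pq]
  unfold qv
  field_simp

/-- the homogeneous form of the polynomial `Nn`. Proof. Over a field, `t ≠ 0`: `hN n N y t = t ^ n * N.eval (y / t)` for `natDegree N ≤ n` (`Polynomial.eval_eq_sum_range'`), `hg g y t = t ^ (l - 1) * (Pg g).eval (y / t)`, `qv w y t = t ^ 2 * (Pq w).eval (y / t)`; `2 (2 k - 1) + 2 = 4 k`. -/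
theorem hN_Nn {F : Type} [Field F] {k : ℕ} (hk : 1 ≤ k) (g : Fin (2 * k + 1) → F) (h : Fin (2 * k) → F) (d : F)
    (w : F × F × F) (y t : F) (ht : t ≠ 0) :
    hN (4 * k) (Nn g h d w) y t = hg g y t ^ 2 - d * qv w y t * hg h y t ^ 2 := by
  have e1 : (2 * k + 1 - 1) = 2 * k := by omega
  rw [PA1_hN _ _ (natDegree_Nn hk g h d w) y t ht, PA1_hg g y t ht, PA1_hg h y t ht, PA1_qv w y t ht, e1]
  have e2 : t ^ (4 * k) = (t ^ (2 * k)) ^ 2 := by
    rw [← pow_mul]
    congr 1
    ring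
  have e3 : t ^ (2 * k) = t * t ^ (2 * k - 1) := by
    rw [← pow_succ']
    congr 1
    omega
  unfold Nn
  rw [eval_sub, eval_mul, eval_mul, eval_C, eval_pow, eval_pow, e2, e3]
  ring

theorem PA1_Pg_map {F L : Type} [CommRing F] [CommRing L] (f : F →+* L) {l : ℕ} (g : Fin l → F) :
    (Pg g).map f = Pg (fun i => f (g i)) := by
  unfold Pg
  rw [Polynomial.map_sum]
  refine Finset.sum_congr rfl fun i _ => ?_
  rw [Polynomial.map_mul, map_C, Polynomial.map_pow, map_X]

theorem PA1_Pq_map {F L : Type} [CommRing F] [CommRing L] (f : F →+* L) (w : F × F × F) :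
    (Pq w).map f = Pq (f w.1, f w.2.1, f w.2.2) := by
  unfold Pq
  simp

theorem PA1_Nn_map {F L : Type} [CommRing F] [CommRing L] (f : F →+* L) {k : ℕ} (g : Fin (2 * k + 1) → F)
    (h : Fin (2 * k) → F) (d : F) (w : F × F × F) :
    (Nn g h d w).map f = Nn (fun i => f (g i)) (fun i => f (h i)) (f d) (f w.1, f w.2.1, f w.2.2) := by
  unfold Nn
  rw [Polynomial.map_sub, Polynomial.map_mul, Polynomial.map_mul, Polynomial.map_pow, Polynomial.map_pow,
    map_C, PA1_Pg_map, PA1_Pg_map, PA1_Pq_map]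

/-- the same identity for polynomials `y`, `t`. Proof. `hN_Nn` over the field of fractions `L` of `F[X]` (the coefficients of `Nn` map to those of `Nn` over `L`: `Polynomial.map` of `Pg`, `Pq`), and `F[X] → L` is injective. -/
theorem hN_Nn_poly {F : Type} [Field F] {k : ℕ} (hk : 1 ≤ k) (g : Fin (2 * k + 1) → F) (h : Fin (2 * k) → F) (d : F)
    (w : F × F × F) (y t : F[X]) (ht : t ≠ 0) :
    ∑ i ∈ range (4 * k + 1), C ((Nn g h d w).coeff i) * (y ^ i * t ^ (4 * k - i)) =
      hg (fun i => C (g i)) y t ^ 2 - C d * qv (C w.1, C w.2.1, C w.2.2) y t * hg (fun i => C (h i)) y t ^ 2 := by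
  let L := FractionRing F[X]
  let f : F[X] →+* L := algebraMap F[X] L
  have hf : Function.Injective f := IsFractionRing.injective F[X] L
  apply hf
  have ht' : f t ≠ 0 := by
    intro h0
    apply ht
    apply hf
    rw [h0, map_zero]
  have h1 := hN_Nn hk (fun i => (f.comp C) (g i)) (fun i => (f.comp C) (h i)) ((f.comp C) d)
    ((f.comp C) w.1, (f.comp C) w.2.1, (f.comp C) w.2.2) (f y) (f t) ht'
  rw [← PA1_Nn_map] at h1
  unfold hN hg qv at h1
  unfold hg qv
  simp only [coeff_map, RingHom.comp_apply] at h1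
  simp only [map_sum, map_mul, map_pow, map_sub, map_add]
  exact h1

end HNE
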