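import Pool.Agent.Lib.MP_1ad228_ntE.PA1
import Pool.Agent.Lib.MP_10e784_agQ.QT1

/-! Good points of the fibres. -/

set_option autoImplicit false

open Classical

namespace HNE

open Finset Polynomial FGO FQQ HNF

/-- the three polynomials of the parametrization of the conic `a² = q(y, t)` with the point `(y1 : 1 : a1)` -/
noncomputable def tP {F : Type} [CommRing F] (q : F × F × F) : F[X] := C q.1 - X ^ 2

noncomputable def yP {F : Type} [CommRing F] (q : F × F × F) (y1 a1 : F) : F[X] :=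
  C y1 * (C q.1 - X ^ 2) + (C (2 * a1) * X - C (2 * q.1 * y1 + q.2.1))

noncomputable def aP {F : Type} [CommRing F] (q : F × F × F) (y1 a1 : F) : F[X] :=
  C (a1 * q.1) + C a1 * X ^ 2 - C (2 * q.1 * y1 + q.2.1) * X

/-- Proof. `C` of the hypothesis, `linear_combination`. (With `Y = tP`, `T = 2 a1 u - β`, `β = 2 q1 y1 + q2`: `q(y1 Y + T, Y) = a1² Y² + β Y T + q1 T²` and `aP = a1 Y + u T`, the difference is `(β - 2 a1 u) Y T + (q1 - u²) T² = 0`.) -/
theorem conic_id {F : Type} [CommRing F] (q : F × F × F) (y1 a1 : F) (h : a1 ^ 2 = q.1 * y1 ^ 2 + q.2.1 * y1 + q.2.2) :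
    aP q y1 a1 ^ 2 = qv (C q.1, C q.2.1, C q.2.2) (yP q y1 a1) (tP q) := by
  have hC : (C a1 : F[X]) ^ 2 = C q.1 * C y1 ^ 2 + C q.2.1 * C y1 + C q.2.2 := by
    simp only [← C_pow, ← C_mul, ← C_add]
    rw [h]
  unfold aP yP tP qv
  simp only [C_mul, C_add, C_ofNat]
  linear_combination (C q.1 - X ^ 2) ^ 2 * hC

/-- the parameter of a point of the conic. Proof. `τ = y - y1`, `u = (a - a1) / τ`: `τ u + a1 = a`; `(τ u + a1)² = q(y, 1) = a1² + β τ + q1 τ²` gives `τ (τ u² + 2 a1 u - β - q1 τ) = 0`, i.e. `2 a1 u - β = τ (q1 - u²)`. So `yP(u) = (y1 + τ) tP(u)`, `aP(u) = a1 tP(u) + u (2 a1 u - β) = a tP(u)`.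
`tP(u) = 0` would give `u² = q1`, `2 a1 u = β`, `β² = 4 a1² q1`, but `β² - 4 a1² q1 = ds q` (as `a1² = q(y1, 1)`). Derivatives: `yP' - y tP' = 2 a1 - 2 u y1 + 2 u y = 2 (a1 + u τ) = 2 a`. -/
theorem param {F : Type} [Field F] (q : F × F × F) (y1 a1 y a : F) (h : a1 ^ 2 = q.1 * y1 ^ 2 + q.2.1 * y1 + q.2.2)
    (h' : a ^ 2 = q.1 * y ^ 2 + q.2.1 * y + q.2.2) (hne : y ≠ y1) (hd : ds q ≠ 0) :
    ∃ u : F, (tP q).eval u ≠ 0 ∧ (yP q y1 a1).eval u = y * (tP q).eval u ∧ (aP q y1 a1).eval u = a * (tP q).eval u ∧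
      (derivative (yP q y1 a1)).eval u - y * (derivative (tP q)).eval u = 2 * a := by
  have hτ : y - y1 ≠ 0 := sub_ne_zero.mpr hne
  obtain ⟨u, hu⟩ : ∃ u : F, (y - y1) * u = a - a1 := ⟨(a - a1) / (y - y1), by field_simp⟩
  have ht : (tP q).eval u = q.1 - u ^ 2 := by
    unfold tP
    simp
  have hy : (yP q y1 a1).eval u = y1 * (q.1 - u ^ 2) + (2 * a1 * u - (2 * q.1 * y1 + q.2.1)) := by
    unfold yP
    simp
  have ha : (aP q y1 a1).eval u = a1 * q.1 + a1 * u ^ 2 - (2 * q.1 * y1 + q.2.1) * u := by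
    unfold aP
    simp
  have ea : a = a1 + (y - y1) * u := by rw [hu]; ring
  have key : 2 * a1 * u - (2 * q.1 * y1 + q.2.1) = (y - y1) * (q.1 - u ^ 2) := by
    apply mul_left_cancel₀ hτ
    have e : (a1 + (y - y1) * u) ^ 2 = q.1 * y ^ 2 + q.2.1 * y + q.2.2 := by rw [← ea]; exact h'
    linear_combination e - h
  refine ⟨u, ?_, ?_, ?_, ?_⟩
  · rw [ht]
    intro h0
    apply hd
    have h1 : 2 * a1 * u = 2 * q.1 * y1 + q.2.1 := by
      have := key
      rw [h0, mul_zero] at this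
      exact sub_eq_zero.mp this
    have h2 : u ^ 2 = q.1 := (sub_eq_zero.mp h0).symm
    unfold ds
    linear_combination (2 * q.1 * y1 + q.2.1 + 2 * a1 * u) * (-h1) + 4 * a1 ^ 2 * h2 + 4 * q.1 * h
  · rw [ht, hy]
    linear_combination key
  · rw [ht, ha, ea]
    linear_combination u * key
  · have e1 : (derivative (yP q y1 a1)).eval u = y1 * (-(2 * u)) + 2 * a1 := by
      unfold yP
      simp
      left
      left
      norm_num
    have e2 : (derivative (tP q)).eval u = -(2 * u) := by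
      unfold tP
      simp
      left
      norm_num
    rw [e1, e2, ea]
    ring

theorem PA2_Pq {K : Type} [Field K] (w : K × K × K) (hw0 : w ≠ 0) : Pq w ≠ 0 := by
  intro h0
  apply hw0
  have c0 := congrArg (fun p => coeff p 0) h0
  have c1 := congrArg (fun p => coeff p 1) h0
  have c2 := congrArg (fun p => coeff p 2) h0
  simp only [Pq, coeff_add, coeff_C_mul, coeff_X_pow, coeff_X, coeff_C, coeff_zero] at c0 c1 c2
  norm_num at c0 c1 c2
  exact Prod.ext c2 (Prod.ext c1 c0)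

theorem PA2_Pq_deg {K : Type} [Field K] (w : K × K × K) : (Pq w).natDegree ≤ 2 := natDegree_quadratic_le

theorem PA2_Pq_eval {K : Type} [Field K] (w : K × K × K) (y : K) : (Pq w).eval y = qv w y 1 := by
  unfold Pq qv
  simp

/-- **Proof.** (Over an algebraically closed field `K`.) `Dn ≠ 0`: `N = Nn g h d w` has degree exactly `4 k` and is separable: `Dn = resultant N N' (4 k) (4 k - 1)`; if `natDegree N < 4 k` then `natDegree N' < 4 k - 1` (or `N' = 0`; `k ≥ 1`) and the resultant vanishes (`resultant_eq_zero_of_lt_lt`; natDegree `N' ≤ natDegree N - 1`; `natDegree N ≤ 4 k - 1`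
gives `natDegree N' ≤ 4 k - 2 < 4 k - 1`); a common root of `N` and `N'` makes it vanish (`exists_mul_add_mul_eq_C_resultant`, evaluate). So `N` has `4 k ≥ 4` different roots (`IsAlgClosed`: `N.roots.card = 4 k`, `Nodup` as no root is a root of `N'`). At most two of them are roots of `Pq w` (`w ≠ 0`), at most one equals `y1`: there is a root `y` with
`y ≠ y1`, `w(y, 1) ≠ 0`. -/
theorem exists_root {K : Type} [Field K] [IsAlgClosed K] {k : ℕ} (hk : 1 ≤ k) (g : Fin (2 * k + 1) → K) (h : Fin (2 * k) → K)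
    (d : K) (w : K × K × K) (hw0 : w ≠ 0) (hD : Dn g h d w ≠ 0) (y1 : K) :
    ∃ y : K, y ≠ y1 ∧ qv w y 1 ≠ 0 ∧ (Nn g h d w).eval y = 0 ∧ (derivative (Nn g h d w)).eval y ≠ 0 := by
  have hdeg : (Nn g h d w).natDegree ≤ 4 * k := natDegree_Nn hk g h d w
  have hdeg' : (derivative (Nn g h d w)).natDegree ≤ (Nn g h d w).natDegree - 1 := natDegree_derivative_le _
  have hfull : (Nn g h d w).natDegree = 4 * k := by
    by_contra hne
    apply hD
    unfold Dn
    exact resultant_eq_zero_of_lt_lt _ _ _ _ (by omega) (by omega)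
  have hcom : ∀ y : K, (Nn g h d w).eval y = 0 → (derivative (Nn g h d w)).eval y ≠ 0 := by
    intro y h1 h2
    apply hD
    obtain ⟨p, q, -, -, hpq⟩ := exists_mul_add_mul_eq_C_resultant (m := 4 * k) (n := 4 * k - 1)
      (Nn g h d w) (derivative (Nn g h d w)) hdeg (by omega) (Or.inl (by omega))
    have h3 := congrArg (eval y) hpq
    rw [eval_add, eval_mul, eval_mul, h1, h2, zero_mul, zero_mul, add_zero, eval_C] at h3
    unfold Dn
    exact h3.symm
  have hN0 : Nn g h d w ≠ 0 := by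
    intro h0
    rw [h0, natDegree_zero] at hfull
    omega
  have hnod : (Nn g h d w).roots.Nodup := by
    rw [Multiset.nodup_iff_count_le_one]
    intro y
    rw [count_roots]
    by_contra hlt
    push Not at hlt
    rw [one_lt_rootMultiplicity_iff_isRoot hN0] at hlt
    exact hcom y hlt.1 hlt.2
  have hcard : (Nn g h d w).roots.toFinset.card = 4 * k := by
    rw [Multiset.toFinset_card_of_nodup hnod, IsAlgClosed.card_roots_eq_natDegree, hfull]
  have hbad : (insert y1 (Pq w).roots.toFinset).card ≤ 3 := by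
    refine (Finset.card_insert_le _ _).trans ?_
    have h1 : (Pq w).roots.toFinset.card ≤ 2 :=
      (Multiset.toFinset_card_le _).trans ((card_roots' _).trans (PA2_Pq_deg w))
    omega
  obtain ⟨y, hy1, hy2⟩ := Finset.exists_mem_notMem_of_card_lt_card
    (s := insert y1 (Pq w).roots.toFinset) (t := (Nn g h d w).roots.toFinset) (by omega)
  rw [Finset.mem_insert, not_or, Multiset.mem_toFinset, mem_roots (PA2_Pq w hw0)] at hy2
  rw [Multiset.mem_toFinset, mem_roots hN0] at hy1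
  refine ⟨y, hy2.1, ?_, hy1, hcom y hy1⟩
  intro h0
  apply hy2.2
  rw [IsRoot, PA2_Pq_eval, h0]

theorem PA2_hg_one {F : Type} [CommRing F] {l : ℕ} (g : Fin l → F) (y : F) : (Pg g).eval y = hg g y 1 := by
  unfold Pg hg
  rw [eval_finsetSum]
  refine Finset.sum_congr rfl fun i _ => ?_
  simp

theorem PA2_hg_hom {F : Type} [CommRing F] {l : ℕ} (g : Fin l → F) (y t : F) : hg g (y * t) t = t ^ (l - 1) * hg g y 1 := by
  unfold hg
  rw [Finset.mul_sum]
  refine Finset.sum_congr rfl fun i _ => ?_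
  have h : t ^ (l - 1) = t ^ (i : ℕ) * t ^ (l - 1 - (i : ℕ)) := by
    rw [← pow_add]
    congr 1
    have := i.2
    omega
  rw [h, mul_pow, one_pow]
  ring

theorem PA2_hg_eval {F : Type} [CommRing F] {l : ℕ} (g : Fin l → F) (y t : F[X]) (u : F) :
    (hg (fun i => C (g i)) y t).eval u = hg g (y.eval u) (t.eval u) := by
  unfold hg
  rw [eval_finsetSum]
  refine Finset.sum_congr rfl fun i _ => ?_
  simp

theorem PA2_map_Dn {F F' : Type} [CommRing F] [CommRing F'] (φ : F →+* F') {k : ℕ} (g : Fin (2 * k + 1) → F) (h : Fin (2 * k) → F)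
    (d : F) (w : F × F × F) :
    φ (Dn g h d w) = Dn (fun i => φ (g i)) (fun i => φ (h i)) (φ d) (φ w.1, φ w.2.1, φ w.2.2) := by
  have hN : (Nn g h d w).map φ =
      Nn (fun i => φ (g i)) (fun i => φ (h i)) (φ d) (φ w.1, φ w.2.1, φ w.2.2) := by
    simp only [Nn, Pg, Pq, Polynomial.map_sub, Polynomial.map_mul, Polynomial.map_pow, Polynomial.map_add,
      Polynomial.map_sum, Polynomial.map_C, Polynomial.map_X]
  unfold Dn
  rw [← resultant_map_map, ← derivative_map, hN]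

theorem PA2_closed {K : Type} [Field K] [IsAlgClosed K] (h2 : (2 : K) ≠ 0) {k : ℕ} (hk : 1 ≤ k) (g : Fin (2 * k + 1) → K)
    (h : Fin (2 * k) → K) (d : K) (w : K × K × K) (hd0 : d ≠ 0) (hdw : ds w ≠ 0) (hD : Dn g h d w ≠ 0) (y1 a1 : K)
    (h1 : a1 ^ 2 = d * w.1 * y1 ^ 2 + d * w.2.1 * y1 + d * w.2.2) (c : K) (G : K[X]) :
    C d * (hg (fun i => C (g i)) (yP (d * w.1, d * w.2.1, d * w.2.2) y1 a1) (tP (d * w.1, d * w.2.1, d * w.2.2)) +
      aP (d * w.1, d * w.2.1, d * w.2.2) y1 a1 *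
        hg (fun i => C (h i)) (yP (d * w.1, d * w.2.1, d * w.2.2) y1 a1) (tP (d * w.1, d * w.2.1, d * w.2.2))) ≠ C c * G ^ 2 := by
  intro hP
  have hw0 : w ≠ 0 := by
    intro h0
    apply hdw
    rw [h0]
    unfold ds
    simp
  have hdq : ds (d * w.1, d * w.2.1, d * w.2.2) ≠ 0 := by
    have e : ds (d * w.1, d * w.2.1, d * w.2.2) = d ^ 2 * ds w := by
      unfold ds
      ring
    rw [e]
    exact mul_ne_zero (pow_ne_zero _ hd0) hdw
  obtain ⟨y, hy1, hwy, hN, hN'⟩ := exists_root hk g h d w hw0 hD y1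
  obtain ⟨b, hb⟩ := IsAlgClosed.exists_pow_nat_eq (d * qv w y 1) (n := 2) two_pos
  have hb0 : b ≠ 0 := by
    intro h0
    rw [h0, zero_pow (by norm_num)] at hb
    exact mul_ne_zero hd0 hwy hb.symm
  have hNe : hg g y 1 ^ 2 - d * qv w y 1 * hg h y 1 ^ 2 = 0 := by
    rw [← hN]
    unfold Nn
    rw [eval_sub, eval_mul, eval_mul, eval_pow, eval_pow, eval_C, PA2_hg_one, PA2_hg_one, PA2_Pq_eval]
  obtain ⟨a, ha2, ha0, hga⟩ : ∃ a : K, a ^ 2 = d * qv w y 1 ∧ a ≠ 0 ∧ hg g y 1 + a * hg h y 1 = 0 := by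
    have e : (hg g y 1 + b * hg h y 1) * (hg g y 1 + -b * hg h y 1) = 0 := by
      linear_combination hNe - hg h y 1 ^ 2 * hb
    rcases mul_eq_zero.mp e with h3 | h3
    · exact ⟨b, hb, hb0, h3⟩
    · exact ⟨-b, by rw [neg_sq]; exact hb, neg_ne_zero.mpr hb0, h3⟩
  have ha' : a ^ 2 = (d * w.1) * y ^ 2 + (d * w.2.1) * y + (d * w.2.2) := by
    rw [ha2]
    unfold qv
    ring
  obtain ⟨u, ht, hyu, hau, hder⟩ := param (d * w.1, d * w.2.1, d * w.2.2) y1 a1 y a h1 ha' hy1 hdq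
  have hconic := conic_id (d * w.1, d * w.2.1, d * w.2.2) y1 a1 h1
  have htne : tP (d * w.1, d * w.2.1, d * w.2.2) ≠ 0 := by
    intro h0
    apply ht
    rw [h0, eval_zero]
  have hsum := hN_Nn_poly hk g h d w (yP (d * w.1, d * w.2.1, d * w.2.2) y1 a1) (tP (d * w.1, d * w.2.1, d * w.2.2)) htne
  have hdN : (Nn g h d w).natDegree ≤ 4 * k := natDegree_Nn hk g h d w
  have hdd := der_hN (4 * k) (by omega) (Nn g h d w) hdN y hN (yP (d * w.1, d * w.2.1, d * w.2.2) y1 a1)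
    (tP (d * w.1, d * w.2.1, d * w.2.2)) u hyu
  set Y := yP (d * w.1, d * w.2.1, d * w.2.2) y1 a1 with hY
  set T := tP (d * w.1, d * w.2.1, d * w.2.2) with hT
  set A := aP (d * w.1, d * w.2.1, d * w.2.2) y1 a1 with hA
  set GG := hg (fun i => C (g i)) Y T with hGG
  set HH := hg (fun i => C (h i)) Y T with hHH
  have hPu : (C d * (GG + A * HH)).eval u = 0 := by
    rw [eval_mul, eval_add, eval_mul, eval_C, hGG, hHH, PA2_hg_eval, PA2_hg_eval, hyu, hau, PA2_hg_hom, PA2_hg_hom]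
    have e : (T.eval u) ^ (2 * k + 1 - 1) = T.eval u * (T.eval u) ^ (2 * k - 1) := by
      rw [← pow_succ']
      congr 1
      omega
    rw [e]
    linear_combination d * (T.eval u * (T.eval u) ^ (2 * k - 1)) * hga
  have hPd : (derivative (C d * (GG + A * HH))).eval u = 0 := by
    rw [hP] at hPu ⊢
    rw [eval_mul, eval_pow, eval_C] at hPu
    rw [derivative_C_mul, derivative_pow, eval_mul, eval_mul, eval_mul, eval_C, eval_C, eval_pow]
    rcases mul_eq_zero.mp hPu with h3 | h3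
    · rw [h3, zero_mul]
    · have h4 : G.eval u = 0 := eq_zero_of_pow_eq_zero h3
      rw [h4]
      simp
  have hprod : (C d * (GG + A * HH)) * (C d * (GG - A * HH)) =
      C (d ^ 2) * ∑ i ∈ range (4 * k + 1), C ((Nn g h d w).coeff i) * (Y ^ i * T ^ (4 * k - i)) := by
    rw [hsum]
    have e : qv (C (d * w.1), C (d * w.2.1), C (d * w.2.2)) Y T = C d * qv (C w.1, C w.2.1, C w.2.2) Y T := by
      unfold qv
      simp only [C_mul]
      ring
    rw [e] at hconic
    rw [C_pow]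
    linear_combination -(C d ^ 2 * HH ^ 2) * hconic
  have hfin := congrArg (fun p : K[X] => (derivative p).eval u) hprod
  simp only [derivative_mul, eval_add, eval_mul, derivative_C, zero_mul, zero_add, eval_C] at hfin
  rw [hdd, hder] at hfin
  simp only [derivative_mul, eval_add, eval_mul, derivative_C, zero_mul, zero_add, eval_C] at hPd hPu
  rw [hPd, hPu, zero_mul, zero_mul, add_zero] at hfin
  have hne : d ^ 2 * (T.eval u ^ (4 * k - 1) * (derivative (Nn g h d w)).eval y * (2 * a)) ≠ 0 :=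
    mul_ne_zero (pow_ne_zero _ hd0) (mul_ne_zero (mul_ne_zero (pow_ne_zero _ ht) hN') (mul_ne_zero h2 ha0))
  exact hne hfin.symm

theorem PA2_map_tP {F K : Type} [CommRing F] [CommRing K] (φ : F →+* K) (q1 q2 q3 : F) :
    (tP (q1, q2, q3)).map φ = tP (φ q1, φ q2, φ q3) := by
  unfold tP
  simp only [Polynomial.map_sub, Polynomial.map_pow, Polynomial.map_C, Polynomial.map_X]

theorem PA2_map_yP {F K : Type} [CommRing F] [CommRing K] (φ : F →+* K) (q1 q2 q3 y1 a1 : F) :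
    (yP (q1, q2, q3) y1 a1).map φ = yP (φ q1, φ q2, φ q3) (φ y1) (φ a1) := by
  unfold yP
  simp only [Polynomial.map_add, Polynomial.map_sub, Polynomial.map_mul, Polynomial.map_pow, Polynomial.map_C,
    Polynomial.map_X, map_add, map_mul, map_ofNat, Polynomial.map_ofNat]

theorem PA2_map_aP {F K : Type} [CommRing F] [CommRing K] (φ : F →+* K) (q1 q2 q3 y1 a1 : F) :
    (aP (q1, q2, q3) y1 a1).map φ = aP (φ q1, φ q2, φ q3) (φ y1) (φ a1) := by
  unfold aP
  simp only [Polynomial.map_add, Polynomial.map_sub, Polynomial.map_mul, Polynomial.map_pow, Polynomial.map_C,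
    Polynomial.map_X, map_add, map_mul, map_ofNat, Polynomial.map_ofNat]

theorem PA2_map_hg {F K : Type} [CommRing F] [CommRing K] (φ : F →+* K) {l : ℕ} (g : Fin l → F) (y t : F[X]) :
    (hg (fun i => C (g i)) y t).map φ = hg (fun i => C (φ (g i))) (y.map φ) (t.map φ) := by
  unfold hg
  simp only [Polynomial.map_sum, Polynomial.map_mul, Polynomial.map_pow, Polynomial.map_C]

theorem PA2_push {F K : Type} [Field F] [Field K] [IsAlgClosed K] (φ : F →+* K) (h2 : (2 : F) ≠ 0) {k : ℕ} (hk : 1 ≤ k)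
    (g : Fin (2 * k + 1) → F) (h : Fin (2 * k) → F)
    (d : F) (w : F × F × F) (hd0 : d ≠ 0) (hdw : ds w ≠ 0) (hD : Dn g h d w ≠ 0) (y1 a1 : F)
    (h1 : a1 ^ 2 = d * w.1 * y1 ^ 2 + d * w.2.1 * y1 + d * w.2.2) (c : F) (G : F[X]) :
    C d * (hg (fun i => C (g i)) (yP (d * w.1, d * w.2.1, d * w.2.2) y1 a1) (tP (d * w.1, d * w.2.1, d * w.2.2)) +
      aP (d * w.1, d * w.2.1, d * w.2.2) y1 a1 *
        hg (fun i => C (h i)) (yP (d * w.1, d * w.2.1, d * w.2.2) y1 a1) (tP (d * w.1, d * w.2.1, d * w.2.2))) ≠ C c * G ^ 2 := by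
  intro hP
  have hne : ∀ x : F, x ≠ 0 → φ x ≠ 0 := by
    intro x hx h0
    exact hx ((map_eq_zero _).mp h0)
  have h2' : (2 : K) ≠ 0 := by
    have e := hne 2 h2
    rwa [map_ofNat] at e
  have hdw' : ds (φ w.1, φ w.2.1, φ w.2.2) ≠ 0 := by
    have e : ds (φ w.1, φ w.2.1, φ w.2.2) = φ (ds w) := by
      unfold ds
      simp only [map_sub, map_mul, map_pow, map_ofNat]
    rw [e]
    exact hne _ hdw
  have hD' := hne _ hD
  rw [PA2_map_Dn] at hD'
  have h1' : (φ a1) ^ 2 = φ d * φ w.1 * (φ y1) ^ 2 + φ d * φ w.2.1 * φ y1 + φ d * φ w.2.2 := by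
    rw [← map_pow, h1]
    simp only [map_add, map_mul, map_pow]
  have hcl := PA2_closed h2' hk (fun i => φ (g i)) (fun i => φ (h i)) (φ d) (φ w.1, φ w.2.1, φ w.2.2) (hne _ hd0) hdw' hD' (φ y1)
    (φ a1) h1' (φ c) (G.map φ)
  apply hcl
  have hm := congrArg (Polynomial.map φ) hP
  rw [Polynomial.map_mul, Polynomial.map_add, Polynomial.map_mul, PA2_map_hg, PA2_map_hg, PA2_map_tP, PA2_map_yP, PA2_map_aP,
    Polynomial.map_mul, Polynomial.map_pow, Polynomial.map_C, Polynomial.map_C, map_mul, map_mul, map_mul] at hm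
  exact hm

/-- **Proof.** (`q = (d w.1, d w.2.1, d w.2.2)`.) Map everything to an algebraic closure `K` of `F` (`Dn` maps to `Dn`; `P = C c * G ^ 2` maps to an equation of the same kind; write `P` again). `exists_root`: `y`; choose `a ∈ K` with `a² = d w(y, 1)`, `a ≠ 0`. `N(y) = g(y,1)² - a² h(y,1)² = 0` (`hN_Nn` with `t = 1`, or `Nn` evaluated), so `g(y,1) + a h(y,1) = 0` after
replacing `a` by `-a` if necessary. `param`: `u`. `P(u) = d t^(2k) (g(y,1) + a h(y,1)) = 0` with `t = tP(u)` (homogeneity of `hg`; `aP(u) = a t`, `hg h (y t) t = t^(2k-1) hg h y 1`). As `P = c G²` and `P(u) = 0`: `c = 0` or `G(u) = 0`, in both cases `P'(u) = 0`. Put `Q = d (g(yP, tP) - aP h(yP, tP))`: `P Q = d² ∑ C (N.coeff i) yP^i tP^(4k-i)`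
(`hN_Nn_poly`, `conic_id`; `C d * qv (C w..) = qv (C q..)`). The derivative of `P Q` at `u` is `P'(u) Q(u) + P(u) Q'(u) = 0`, but by `der_hN` it is `d² t^(4k-1) N'(y) 2 a ≠ 0`. Contradiction. -/
theorem not_square {F : Type} [Field F] (h2 : (2 : F) ≠ 0) {k : ℕ} (hk : 1 ≤ k) (g : Fin (2 * k + 1) → F) (h : Fin (2 * k) → F)
    (d : F) (w : F × F × F) (hd0 : d ≠ 0) (hdw : ds w ≠ 0) (hD : Dn g h d w ≠ 0) (y1 a1 : F)
    (h1 : a1 ^ 2 = d * w.1 * y1 ^ 2 + d * w.2.1 * y1 + d * w.2.2) (c : F) (G : F[X]) :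
    C d * (hg (fun i => C (g i)) (yP (d * w.1, d * w.2.1, d * w.2.2) y1 a1) (tP (d * w.1, d * w.2.1, d * w.2.2)) +
      aP (d * w.1, d * w.2.1, d * w.2.2) y1 a1 *
        hg (fun i => C (h i)) (yP (d * w.1, d * w.2.1, d * w.2.2) y1 a1) (tP (d * w.1, d * w.2.1, d * w.2.2))) ≠ C c * G ^ 2 :=
  PA2_push (algebraMap F (AlgebraicClosure F)) h2 hk g h d w hd0 hdw hD y1 a1 h1 c G

end HNE
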