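import Pool.Agent.Lib.MP_1ad228_ntE.PA2

/-! Good points of the fibres: the criterion. -/

set_option autoImplicit false

open Classical

namespace HNE

open Finset Polynomial FGO FQQ HNF

theorem PA3_eval {F : Type} [CommRing F] {l : ℕ} (g : Fin l → F) (Y T : F[X]) (x : F) :
    (hg (fun i => C (g i)) Y T).eval x = hg g (Y.eval x) (T.eval x) := by
  unfold hg
  rw [Polynomial.eval_finsetSum]
  refine Finset.sum_congr rfl fun j _ => ?_
  rw [eval_mul, eval_mul, eval_pow, eval_pow, eval_C]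

theorem PA3_deg {F : Type} [CommRing F] {l : ℕ} (g : Fin l → F) (Y T : F[X]) (hY : Y.natDegree ≤ 2)
    (hT : T.natDegree ≤ 2) : (hg (fun i => C (g i)) Y T).natDegree ≤ 2 * (l - 1) := by
  unfold hg
  refine natDegree_sum_le_of_forall_le _ _ fun j _ => ?_
  have hj := j.isLt
  have h1 : (Y ^ (j : ℕ)).natDegree ≤ (j : ℕ) * 2 := natDegree_pow_le_of_le (j : ℕ) hY
  have h2 : (T ^ (l - 1 - (j : ℕ))).natDegree ≤ (l - 1 - (j : ℕ)) * 2 := natDegree_pow_le_of_le _ hT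
  have h3 : (Y ^ (j : ℕ) * T ^ (l - 1 - (j : ℕ))).natDegree ≤ (j : ℕ) * 2 + (l - 1 - (j : ℕ)) * 2 :=
    natDegree_mul_le_of_le h1 h2
  have h4 : (C (g j) * (Y ^ (j : ℕ) * T ^ (l - 1 - (j : ℕ)))).natDegree ≤
      0 + ((j : ℕ) * 2 + (l - 1 - (j : ℕ)) * 2) := natDegree_mul_le_of_le (natDegree_C _).le h3
  refine h4.trans ?_
  omega

theorem PA3_tP {F : Type} [CommRing F] (q : F × F × F) : (tP q).natDegree ≤ 2 := by
  unfold tP
  compute_degree

theorem PA3_yP {F : Type} [CommRing F] (q : F × F × F) (y1 a1 : F) : (yP q y1 a1).natDegree ≤ 2 := by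
  unfold yP
  compute_degree

theorem PA3_aP {F : Type} [CommRing F] (q : F × F × F) (y1 a1 : F) : (aP q y1 a1).natDegree ≤ 2 := by
  unfold aP
  compute_degree

theorem PA3_aP_coeff {F : Type} [CommRing F] (q : F × F × F) (y1 a1 : F) : (aP q y1 a1).coeff 2 = a1 := by
  unfold aP
  simp only [coeff_sub, coeff_add, coeff_C_mul, coeff_X_pow, coeff_C, coeff_X]
  norm_num

theorem PA3_two (p : ℕ) [Fact p.Prime] (hp : 3 ≤ p) : (2 : ZMod p) ≠ 0 := by
  have h1 : ((2 : ℕ) : ZMod p) ≠ 0 := by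
    intro h
    rw [ZMod.natCast_eq_zero_iff] at h
    have := Nat.le_of_dvd (by norm_num) h
    omega
  exact_mod_cast h1

/-- **Proof.** `w1 = max 17 (the number of gen_sqT (4 k))`. `HNQ.sq_x` (QT1.lean of MP_10e784_agQ, `ds w ≠ 0`, `κ = d`): there is `y1` with `d w(y1, 1)` a nonzero square `a1²`. `P = C d * (hg (C g) yP tP + aP * hg (C h) yP tP)` (`q = (d w.1, d w.2.1, d w.2.2)`) has degree `≤ 4 k` (`yP`, `tP`, `aP` of degree `≤ 2`; `2 (2 k)`, `2 + 2 (2 k - 1)`), and is not `C c * G ^ 2` (`not_square`).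
`T` = the roots of `aP` (`aP ≠ 0` of degree `≤ 2`: its coefficient of `X²` is `a1 ≠ 0`). `gen_sqT`: `u ∉ T` with `P(u)` a nonzero square; `y = yP(u)`, `t = tP(u)`, `a = aP(u) ≠ 0`; `a² = d w(y, t)` by `conic_id`. -/
theorem good_point {k : ℕ} (hk : 1 ≤ k) : ∃ w1 : ℕ, 3 ≤ w1 ∧ ∀ (p : ℕ) [Fact p.Prime], w1 ≤ p →
    ∀ (g : Fin (2 * k + 1) → ZMod p) (h : Fin (2 * k) → ZMod p) (d : ZMod p) (w : ZMod p × ZMod p × ZMod p),
    d ≠ 0 → ds w ≠ 0 → Dn g h d w ≠ 0 →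
    ∃ y t a : ZMod p, a ≠ 0 ∧ a ^ 2 = d * qv w y t ∧ Sq (d * (hg g y t + a * hg h y t)) := by
  obtain ⟨w1, h3, hw⟩ := gen_sqT (4 * k)
  refine ⟨max 17 w1, le_trans (by norm_num) (le_max_left _ _), ?_⟩
  intro p _ hp g h d w hd hdw hD
  have hp17 : 17 ≤ p := le_trans (le_max_left _ _) hp
  have hpw : w1 ≤ p := le_trans (le_max_right _ _) hp
  have h2 : (2 : ZMod p) ≠ 0 := PA3_two p (by omega)
  -- a point of the conic
  obtain ⟨y1, a1, ha1, h1'⟩ : ∃ y1 a1 : ZMod p, a1 ≠ 0 ∧ a1 ^ 2 = d * qv w y1 1 := by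
    have e1 := HNQ.sq_x p (by omega) w hdw d hd
    have e2 : (17 : ℝ) ≤ (p : ℝ) := by exact_mod_cast hp17
    have e3 : (0 : ℝ) < ((univ.filter fun x : ZMod p => ∃ s : ZMod p, s ≠ 0 ∧ s ^ 2 = d * qv w x 1).card : ℝ) := by
      linarith
    have e4 : 0 < (univ.filter fun x : ZMod p => ∃ s : ZMod p, s ≠ 0 ∧ s ^ 2 = d * qv w x 1).card := by
      exact_mod_cast e3
    obtain ⟨y1, hy1⟩ := Finset.card_pos.mp e4
    obtain ⟨a1, h5, h6⟩ := (Finset.mem_filter.mp hy1).2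
    exact ⟨y1, a1, h5, h6⟩
  have h1 : a1 ^ 2 = d * w.1 * y1 ^ 2 + d * w.2.1 * y1 + d * w.2.2 := by
    unfold qv at h1'
    linear_combination h1'
  obtain ⟨q, hq⟩ : ∃ q : ZMod p × ZMod p × ZMod p, q = (d * w.1, d * w.2.1, d * w.2.2) := ⟨_, rfl⟩
  have hq1 : a1 ^ 2 = q.1 * y1 ^ 2 + q.2.1 * y1 + q.2.2 := by
    rw [hq]
    exact h1
  obtain ⟨P, hP⟩ : ∃ P : (ZMod p)[X], P = C d * (hg (fun i => C (g i)) (yP q y1 a1) (tP q) +
      aP q y1 a1 * hg (fun i => C (h i)) (yP q y1 a1) (tP q)) := ⟨_, rfl⟩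
  have hPd : P.natDegree ≤ 4 * k := by
    rw [hP]
    have e1 := PA3_deg g (yP q y1 a1) (tP q) (PA3_yP q y1 a1) (PA3_tP q)
    have e2 := PA3_deg h (yP q y1 a1) (tP q) (PA3_yP q y1 a1) (PA3_tP q)
    have e3 : (aP q y1 a1 * hg (fun i => C (h i)) (yP q y1 a1) (tP q)).natDegree ≤ 2 + 2 * (2 * k - 1) :=
      natDegree_mul_le_of_le (PA3_aP q y1 a1) e2
    have e4 : (hg (fun i => C (g i)) (yP q y1 a1) (tP q) +
      aP q y1 a1 * hg (fun i => C (h i)) (yP q y1 a1) (tP q)).natDegree ≤ 4 * k := by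
      refine natDegree_add_le_of_degree_le (e1.trans ?_) (e3.trans ?_)
      · omega
      · omega
    have e5 := natDegree_mul_le_of_le (natDegree_C d).le e4
    omega
  have hPs : ∀ (c : ZMod p) (G : (ZMod p)[X]), P ≠ C c * G ^ 2 := by
    intro c G
    rw [hP, hq]
    exact not_square h2 hk g h d w hd hdw hD y1 a1 h1 c G
  have ha0 : aP q y1 a1 ≠ 0 := by
    intro h0
    have e1 := PA3_aP_coeff q y1 a1
    rw [h0, coeff_zero] at e1
    exact ha1 e1.symm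
  have hT : (aP q y1 a1).roots.toFinset.card ≤ 2 :=
    (Multiset.toFinset_card_le _).trans ((card_roots' _).trans (PA3_aP q y1 a1))
  obtain ⟨x, hx, hS⟩ := hw p hpw P hPd hPs _ hT
  refine ⟨(yP q y1 a1).eval x, (tP q).eval x, (aP q y1 a1).eval x, ?_, ?_, ?_⟩
  · intro h0
    apply hx
    rw [Multiset.mem_toFinset, mem_roots ha0]
    exact h0
  · have e1 := congrArg (Polynomial.eval x) (conic_id q y1 a1 hq1)
    unfold qv at e1 ⊢
    simp only [eval_pow, eval_add, eval_mul, eval_C] at e1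
    rw [e1, hq]
    ring
  · have e1 : P.eval x = d * (hg g ((yP q y1 a1).eval x) ((tP q).eval x) +
        (aP q y1 a1).eval x * hg h ((yP q y1 a1).eval x) ((tP q).eval x)) := by
      rw [hP, eval_mul, eval_add, eval_mul, PA3_eval, PA3_eval, eval_C]
    rw [← e1]
    exact hS

end HNE
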