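import Pool.Agent.Lib.MP_1ad228_ntE.PA1

/-! The criterion is not empty: the number of the pairs with `Dn = 0`. -/

set_option autoImplicit false

open Classical

namespace HNE

open Finset Polynomial FGO FQQ HNF

/-- Proof. `Polynomial.resultant_map_map`, `Polynomial.map_sub`, `derivative_map`, `Pg`, `Pq`. -/
theorem map_Dn {F F' : Type} [CommRing F] [CommRing F'] (φ : F →+* F') {k : ℕ} (g : Fin (2 * k + 1) → F) (h : Fin (2 * k) → F)
    (d : F) (w : F × F × F) :
    φ (Dn g h d w) = Dn (fun i => φ (g i)) (fun i => φ (h i)) (φ d) (φ w.1, φ w.2.1, φ w.2.2) := by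
  have hN : (Nn g h d w).map φ =
      Nn (fun i => φ (g i)) (fun i => φ (h i)) (φ d) (φ w.1, φ w.2.1, φ w.2.2) := by
    simp only [Nn, Pg, Pq, Polynomial.map_sub, Polynomial.map_mul, Polynomial.map_pow, Polynomial.map_add,
      Polynomial.map_sum, Polynomial.map_C, Polynomial.map_X]
  unfold Dn
  rw [← resultant_map_map, ← derivative_map, hN]

/-- **Proof.** `K` infinite (algebraically closed). `κ ∈ {0, 1, -1}` with `w(κ, 1) ≠ 0` (`w ≠ 0` has at most two roots, `2 ≠ 0`). For `λ ∈ K` let `g` be the form with `Pg g = C λ * (X - C κ) ^ (2 k)` (coefficients of this polynomial) and `h` the form with `Pg h = 1` (`h 0 = 1`, the others `0`): `N = C (λ²) * (X - C κ) ^ (4 k) - C d * Pq w`.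
Suppose `N(y) = 0 = N'(y)`. `y = κ` gives `d w(κ) = 0`, impossible. Otherwise `λ² (y - κ)^(4k) = d w(y)` and `4 k λ² (y - κ)^(4k-1) = d w'(y)`, so `4 k w(y) = (y - κ) w'(y)`: the polynomial `C (4 k) * Pq w - (X - C κ) * derivative (Pq w)` is not zero (its value at `κ` is `4 k w(κ) ≠ 0`) of degree `≤ 2`: a finite set `Z` of values `y`, and
`λ² = d w(y) / (y - κ)^(4k)` for one of them: finitely many `λ`. Choose `λ` outside this finite set, `λ ≠ 0`, and such that the degree of `N` is `4 k` (`4 k > 2`, leading coefficient `λ²`). Then `N`, `N'` have no common root, the leading coefficient of `N'` is `4 k λ² ≠ 0`, the degrees are exactly `4 k`, `4 k - 1`, so the resultant is `≠ 0`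
(`Polynomial.resultant_eq_zero_iff`; a common factor would have a root in `K`). -/
theorem Dn_ne {K : Type} [Field K] [IsAlgClosed K] {k : ℕ} (hk : 1 ≤ k) (h2 : (2 : K) ≠ 0) (h4 : ((4 * k : ℕ) : K) ≠ 0)
    (d : K) (w : K × K × K) (hd0 : d ≠ 0) (hw0 : w ≠ 0) :
    ∃ (g : Fin (2 * k + 1) → K) (h : Fin (2 * k) → K), Dn g h d w ≠ 0 := by
  have hinf : Infinite K := IsAlgClosed.instInfinite
  -- a value `κ` which is not a root of `w`
  obtain ⟨κ, hκ⟩ : ∃ κ, (Pq w).eval κ ≠ 0 := by
    by_contra hno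
    push Not at hno
    have h0 : Pq w = 0 := Polynomial.funext fun r => by rw [hno r, eval_zero]
    apply hw0
    have c0 := congrArg (fun p => coeff p 0) h0
    have c1 := congrArg (fun p => coeff p 1) h0
    have c2 := congrArg (fun p => coeff p 2) h0
    simp only [Pq, coeff_add, coeff_C_mul, coeff_X_pow, coeff_X, coeff_C, coeff_zero] at c0 c1 c2
    norm_num at c0 c1 c2
    exact Prod.ext c2 (Prod.ext c1 c0)
  have hkne : ((4 * k : ℕ) : K) ≠ 0 := h4
  -- the polynomial with the finite set of roots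
  set u : K[X] := Pq w with hu
  have hZ : C ((4 * k : ℕ) : K) * u - (X - C κ) * derivative u ≠ 0 := by
    intro h
    have h1 := congrArg (eval κ) h
    simp only [eval_sub, eval_mul, eval_C, eval_X, sub_self, zero_mul, sub_zero, eval_zero] at h1
    exact (mul_ne_zero hkne hκ) h1
  set Z : K[X] := C ((4 * k : ℕ) : K) * u - (X - C κ) * derivative u with hZdef
  obtain ⟨μ, hμ⟩ := Set.Infinite.nonempty
    ((insert (0 : K) (Z.roots.toFinset.image fun y => d * u.eval y / (y - κ) ^ (4 * k))).finite_toSet.infinite_compl)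
  rw [Set.mem_compl_iff, Finset.mem_coe, Finset.mem_insert, not_or, Finset.mem_image] at hμ
  obtain ⟨hμ0, hμ1⟩ := hμ
  obtain ⟨lam, hlam⟩ := IsAlgClosed.exists_pow_nat_eq μ (n := 2) two_pos
  have hlam0 : lam ≠ 0 := by
    intro h
    rw [h] at hlam
    exact hμ0 (by rw [← hlam]; ring)
  set P : K[X] := C lam * (X - C κ) ^ (2 * k) with hP
  have hPd : P.natDegree < 2 * k + 1 := by
    refine Nat.lt_succ_of_le ?_
    rw [hP, natDegree_C_mul hlam0, natDegree_pow, natDegree_X_sub_C, mul_one]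
  have hPg : Pg (fun i : Fin (2 * k + 1) => P.coeff i) = P := by
    unfold Pg
    rw [Fin.sum_univ_eq_sum_range (fun i => C (P.coeff i) * X ^ i) (2 * k + 1)]
    exact (as_sum_range_C_mul_X_pow' P hPd).symm
  have hPh : Pg (fun i : Fin (2 * k) => if (i : ℕ) = 0 then (1 : K) else 0) = 1 := by
    unfold Pg
    rw [Finset.sum_eq_single (⟨0, by omega⟩ : Fin (2 * k))]
    · simp
    · intro i _ hi
      have : (i : ℕ) ≠ 0 := fun h => hi (Fin.ext h)
      simp [this]
    · intro h
      exact absurd (Finset.mem_univ _) h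
  refine ⟨fun i => P.coeff i, fun i => if (i : ℕ) = 0 then 1 else 0, ?_⟩
  set N : K[X] := Nn (fun i : Fin (2 * k + 1) => P.coeff i)
    (fun i : Fin (2 * k) => if (i : ℕ) = 0 then (1 : K) else 0) d w with hN
  have hN1 : N = C μ * (X - C κ) ^ (4 * k) - C d * u := by
    rw [hN]
    unfold Nn
    rw [hPg, hPh, hP, mul_pow, ← pow_mul, ← C_pow, hlam, one_pow, mul_one, show 2 * k * 2 = 4 * k by ring]
  have hdu : (C d * u).natDegree ≤ 2 := by
    refine (natDegree_C_mul_le _ _).trans ?_
    rw [hu]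
    unfold Pq
    compute_degree
  have hd1 : (C μ * (X - C κ) ^ (4 * k)).natDegree = 4 * k := by
    rw [natDegree_C_mul hμ0, natDegree_pow, natDegree_X_sub_C, mul_one]
  have hNd : N.natDegree = 4 * k := by
    rw [hN1, natDegree_sub_eq_left_of_natDegree_lt (by rw [hd1]; omega), hd1]
  have hN0 : N ≠ 0 := by
    intro h
    rw [h, natDegree_zero] at hNd
    omega
  unfold Dn
  have hres := resultant_eq_prod_eval N (derivative N) (4 * k - 1)
    (by rw [← hNd]; exact natDegree_derivative_le N) (IsAlgClosed.splits N)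
  rw [hNd] at hres
  rw [hres]
  refine mul_ne_zero (pow_ne_zero _ (leadingCoeff_ne_zero.2 hN0)) (Multiset.prod_ne_zero ?_)
  rw [Multiset.mem_map]
  rintro ⟨y, hy, hy'⟩
  rw [mem_roots hN0, IsRoot.def, hN1] at hy
  rw [hN1] at hy'
  simp only [eval_sub, eval_mul, eval_C, eval_pow, eval_X, derivative_sub, derivative_mul, derivative_C, zero_mul,
    zero_add, derivative_pow, derivative_X, sub_zero, mul_one] at hy hy'
  have hyκ : y - κ ≠ 0 := by
    intro h
    rw [h, zero_pow (by omega), mul_zero, zero_sub, neg_eq_zero] at hy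
    have : y = κ := sub_eq_zero.1 h
    rw [this] at hy
    exact mul_ne_zero hd0 hκ hy
  have hpow : (y - κ) ^ (4 * k) = (y - κ) ^ (4 * k - 1) * (y - κ) := by
    rw [← pow_succ]
    congr 1
    omega
  have hZy : Z.eval y = 0 := by
    have h1 : μ * (y - κ) ^ (4 * k) = d * eval y u := sub_eq_zero.1 hy
    have h2 : μ * (((4 * k : ℕ) : K) * (y - κ) ^ (4 * k - 1)) = d * eval y (derivative u) := sub_eq_zero.1 hy'
    have h3 : d * (((4 * k : ℕ) : K) * eval y u) = d * ((y - κ) * eval y (derivative u)) := by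
      calc d * (((4 * k : ℕ) : K) * eval y u) = ((4 * k : ℕ) : K) * (d * eval y u) := by ring
        _ = ((4 * k : ℕ) : K) * (μ * (y - κ) ^ (4 * k)) := by rw [h1]
        _ = (μ * (((4 * k : ℕ) : K) * (y - κ) ^ (4 * k - 1))) * (y - κ) := by rw [hpow]; ring
        _ = d * ((y - κ) * eval y (derivative u)) := by rw [h2]; ring
    rw [hZdef]
    simp only [eval_sub, eval_mul, eval_C, eval_X]
    rw [mul_left_cancel₀ hd0 h3, sub_self]
  refine hμ1 ⟨y, ?_, ?_⟩
  · rw [Multiset.mem_toFinset, mem_roots hZ, IsRoot.def]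
    exact hZy
  · rw [div_eq_iff (pow_ne_zero _ hyκ)]
    exact (sub_eq_zero.1 hy).symm

/-- all coefficients have total degree at most `t` -/
def PA4_td {F : Type} [Field F] {n : ℕ} (t : ℕ) (p : Polynomial (MvPolynomial (Fin n) F)) : Prop :=
  ∀ i, (p.coeff i).totalDegree ≤ t

theorem PA4_td_mul {F : Type} [Field F] {n s t : ℕ} {p q : Polynomial (MvPolynomial (Fin n) F)}
    (hp : PA4_td s p) (hq : PA4_td t q) : PA4_td (s + t) (p * q) := by
  intro i
  rw [coeff_mul]
  refine MvPolynomial.totalDegree_finsetSum_le fun x _ => ?_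
  exact (MvPolynomial.totalDegree_mul _ _).trans (Nat.add_le_add (hp _) (hq _))

theorem PA4_td_sub {F : Type} [Field F] {n t : ℕ} {p q : Polynomial (MvPolynomial (Fin n) F)}
    (hp : PA4_td t p) (hq : PA4_td t q) : PA4_td t (p - q) := by
  intro i
  rw [coeff_sub]
  exact (MvPolynomial.totalDegree_sub _ _).trans (max_le (hp _) (hq _))

theorem PA4_td_add {F : Type} [Field F] {n t : ℕ} {p q : Polynomial (MvPolynomial (Fin n) F)}
    (hp : PA4_td t p) (hq : PA4_td t q) : PA4_td t (p + q) := by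
  intro i
  rw [coeff_add]
  exact (MvPolynomial.totalDegree_add _ _).trans (max_le (hp _) (hq _))

theorem PA4_td_C {F : Type} [Field F] {n t : ℕ} {c : MvPolynomial (Fin n) F} (hc : c.totalDegree ≤ t) :
    PA4_td t (C c) := by
  intro i
  rw [coeff_C]
  split_ifs
  · exact hc
  · rw [MvPolynomial.totalDegree_zero]
    exact Nat.zero_le _

theorem PA4_td_X {F : Type} [Field F] {n t : ℕ} (j : ℕ) :
    PA4_td t (X ^ j : Polynomial (MvPolynomial (Fin n) F)) := by
  intro i
  rw [coeff_X_pow]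
  split_ifs
  · rw [MvPolynomial.totalDegree_one]
    exact Nat.zero_le _
  · rw [MvPolynomial.totalDegree_zero]
    exact Nat.zero_le _

theorem PA4_td_der {F : Type} [Field F] {n t : ℕ} {p : Polynomial (MvPolynomial (Fin n) F)}
    (hp : PA4_td t p) : PA4_td t (derivative p) := by
  intro i
  rw [coeff_derivative]
  refine (MvPolynomial.totalDegree_mul _ _).trans ?_
  have h : ((i : MvPolynomial (Fin n) F) + 1).totalDegree = 0 := by
    have h1 : ((i : MvPolynomial (Fin n) F) + 1) = MvPolynomial.C ((i : F) + 1) := by simp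
    rw [h1, MvPolynomial.totalDegree_C]
  rw [h, add_zero]
  exact hp _

theorem PA4_td_Pg {F : Type} [Field F] {n t l : ℕ} {g : Fin l → MvPolynomial (Fin n) F}
    (hg : ∀ i, (g i).totalDegree ≤ t) : PA4_td t (Pg g) := by
  intro j
  unfold Pg
  rw [finsetSum_coeff]
  refine MvPolynomial.totalDegree_finsetSum_le fun i _ => ?_
  have h := PA4_td_mul (PA4_td_C (n := n) (hg i)) (PA4_td_X (F := F) (n := n) (t := 0) (i : ℕ)) j
  exact h

theorem PA4_res {F : Type} [Field F] {n t a b : ℕ} {p q : Polynomial (MvPolynomial (Fin n) F)}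
    (hp : PA4_td t p) (hq : PA4_td t q) : (resultant p q a b).totalDegree ≤ (a + b) * t := by
  unfold resultant
  rw [Matrix.det_apply]
  refine MvPolynomial.totalDegree_finsetSum_le fun σ _ => ?_
  have hent : ∀ i j, (sylvester p q a b i j).totalDegree ≤ t := by
    intro i j
    unfold sylvester
    rw [Matrix.of_apply]
    refine Fin.addCases (fun j => ?_) (fun j => ?_) j
    · rw [Fin.addCases_left]
      split_ifs
      · exact hq _
      · rw [MvPolynomial.totalDegree_zero]
        exact Nat.zero_le _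
    · rw [Fin.addCases_right]
      split_ifs
      · exact hp _
      · rw [MvPolynomial.totalDegree_zero]
        exact Nat.zero_le _
  have hprod : (∏ i, sylvester p q a b (σ i) i).totalDegree ≤ (a + b) * t := by
    refine (MvPolynomial.totalDegree_finsetProd _ _).trans ?_
    refine (Finset.sum_le_card_nsmul _ _ t fun i _ => hent _ _).trans ?_
    rw [Finset.card_univ, Fintype.card_fin, smul_eq_mul]
  rcases Int.units_eq_one_or (Equiv.Perm.sign σ) with h | h
  · rw [h, one_smul]
    exact hprod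
  · rw [h, Units.neg_smul, one_smul, MvPolynomial.totalDegree_neg]
    exact hprod

/-- **Proof.** (Schwartz-Zippel.) `R = MvPolynomial (Fin (2 k + 1 + 2 k)) F`, `D = Dn (fun i => X (Fin.castAdd (2 k) i)) (fun i => X (Fin.natAdd (2 k + 1) i)) (C d) (C w.1, ..) ∈ R`; its evaluation at `(g, h)` is `Dn g h d w` (`map_Dn`). `D ≠ 0`: evaluate in an algebraic closure at the pair of `Dn_ne` (`map_Dn` for `eval₂Hom`). Total degree `≤ 16 k`: the coefficients of `Nn` have total degree
`≤ 2` and `D` is a Sylvester determinant of size `8 k - 1` (`Matrix.det_apply`, `MvPolynomial.totalDegree_finset_sum`, `totalDegree_finset_prod`), `2 (8 k - 1) ≤ 16 k`. `MvPolynomial.schwartz_zippel_totalDegree` for the set `S` (if `S` is empty both sides vanish, `4 k ≥ 1`); the functions `Fin (2 k + 1 + 2 k) → S` are the pairs (`Fin.append`). -/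
theorem Dn_card {F : Type} [Field F] {k : ℕ} (hk : 1 ≤ k) (h2 : (2 : F) ≠ 0) (h4 : ((4 * k : ℕ) : F) ≠ 0)
    (d : F) (w : F × F × F) (hd0 : d ≠ 0) (hw0 : w ≠ 0) (S : Finset F) :
    (((Fintype.piFinset fun _ : Fin (2 * k + 1) => S) ×ˢ (Fintype.piFinset fun _ : Fin (2 * k) => S)).filter
      fun gh => Dn gh.1 gh.2 d w = 0).card ≤ 16 * k * S.card ^ (4 * k) := by
  set D : MvPolynomial (Fin (2 * k + 1 + 2 * k)) F :=
    Dn (fun i => MvPolynomial.X (Fin.castAdd (2 * k) i)) (fun i => MvPolynomial.X (Fin.natAdd (2 * k + 1) i))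
      (MvPolynomial.C d) (MvPolynomial.C w.1, MvPolynomial.C w.2.1, MvPolynomial.C w.2.2) with hD
  have hev : ∀ (g : Fin (2 * k + 1) → F) (h : Fin (2 * k) → F),
      MvPolynomial.eval (Fin.append g h) D = Dn g h d w := by
    intro g h
    rw [hD, map_Dn]
    simp only [MvPolynomial.eval_X, MvPolynomial.eval_C, Fin.append_left, Fin.append_right]
  have hD0 : D ≠ 0 := by
    intro h0
    have hal : Function.Injective (algebraMap F (AlgebraicClosure F)) := (algebraMap F (AlgebraicClosure F)).injective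
    have h2' : (2 : AlgebraicClosure F) ≠ 0 := by
      intro h
      apply h2
      apply hal
      rw [map_ofNat, map_zero, h]
    have h4' : ((4 * k : ℕ) : AlgebraicClosure F) ≠ 0 := by
      intro h
      apply h4
      apply hal
      rw [map_natCast, map_zero, h]
    obtain ⟨g, h, hgh⟩ := Dn_ne (K := AlgebraicClosure F) hk h2' h4' (algebraMap F _ d)
      (algebraMap F _ w.1, algebraMap F _ w.2.1, algebraMap F _ w.2.2)
      (by
        intro h
        apply hd0
        apply hal
        rw [h, map_zero])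
      (by
        intro h
        apply hw0
        rw [Prod.ext_iff, Prod.ext_iff] at h
        refine Prod.ext (hal ?_) (Prod.ext (hal ?_) (hal ?_))
        · exact h.1.trans (map_zero _).symm
        · exact h.2.1.trans (map_zero _).symm
        · exact h.2.2.trans (map_zero _).symm)
    apply hgh
    have h5 := congrArg (MvPolynomial.eval₂Hom (algebraMap F (AlgebraicClosure F)) (Fin.append g h)) h0
    rw [map_zero, hD, map_Dn] at h5
    simp only [MvPolynomial.eval₂Hom_X', MvPolynomial.eval₂Hom_C, Fin.append_left, Fin.append_right] at h5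
    exact h5
  have htd : D.totalDegree ≤ 16 * k := by
    have hX : ∀ i, (MvPolynomial.X i : MvPolynomial (Fin (2 * k + 1 + 2 * k)) F).totalDegree ≤ 1 := fun i =>
      (MvPolynomial.totalDegree_X i).le
    have hPg := PA4_td_Pg (g := fun i => (MvPolynomial.X (Fin.castAdd (2 * k) i) :
      MvPolynomial (Fin (2 * k + 1 + 2 * k)) F)) (t := 1) fun i => hX _
    have hPh := PA4_td_Pg (g := fun i => (MvPolynomial.X (Fin.natAdd (2 * k + 1) i) :
      MvPolynomial (Fin (2 * k + 1 + 2 * k)) F)) (t := 1) fun i => hX _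
    have hC : ∀ c : F, PA4_td 0 (C (MvPolynomial.C c) : Polynomial (MvPolynomial (Fin (2 * k + 1 + 2 * k)) F)) :=
      fun c => PA4_td_C (MvPolynomial.totalDegree_C c).le
    have hPq : PA4_td 0 (Pq ((MvPolynomial.C w.1, MvPolynomial.C w.2.1, MvPolynomial.C w.2.2) :
        MvPolynomial (Fin (2 * k + 1 + 2 * k)) F × MvPolynomial (Fin (2 * k + 1 + 2 * k)) F ×
          MvPolynomial (Fin (2 * k + 1 + 2 * k)) F)) := by
      unfold Pq
      refine PA4_td_add (PA4_td_add ?_ ?_) (hC _)
      · exact PA4_td_mul (hC _) (PA4_td_X (t := 0) 2)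
      · have h := PA4_td_mul (hC w.2.1) (PA4_td_X (F := F) (n := 2 * k + 1 + 2 * k) (t := 0) 1)
        rw [pow_one] at h
        exact h
    have hNN : PA4_td 2 (Nn (fun i => (MvPolynomial.X (Fin.castAdd (2 * k) i) :
        MvPolynomial (Fin (2 * k + 1 + 2 * k)) F)) (fun i => MvPolynomial.X (Fin.natAdd (2 * k + 1) i))
        (MvPolynomial.C d) (MvPolynomial.C w.1, MvPolynomial.C w.2.1, MvPolynomial.C w.2.2)) := by
      unfold Nn
      refine PA4_td_sub ?_ ?_
      · rw [pow_two]
        exact PA4_td_mul hPg hPg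
      · rw [pow_two]
        exact PA4_td_mul (s := 0) (PA4_td_mul (s := 0) (t := 0) (hC d) hPq) (PA4_td_mul hPh hPh)
    have h := PA4_res (a := 4 * k) (b := 4 * k - 1) hNN (PA4_td_der hNN)
    refine h.trans ?_
    have : (4 * k + (4 * k - 1)) * 2 ≤ 16 * k := by omega
    exact this
  -- the injection
  have hcard : (((Fintype.piFinset fun _ : Fin (2 * k + 1) => S) ×ˢ (Fintype.piFinset fun _ : Fin (2 * k) => S)).filter
      fun gh => Dn gh.1 gh.2 d w = 0).card ≤
      ((Fintype.piFinset fun _ : Fin (2 * k + 1 + 2 * k) => S).filter fun f => MvPolynomial.eval f D = 0).card := by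
    refine Finset.card_le_card_of_injOn (fun gh => Fin.append gh.1 gh.2) ?_ ?_
    · rintro ⟨g, h⟩ hgh
      rw [Finset.mem_coe, Finset.mem_filter, Finset.mem_product, Fintype.mem_piFinset, Fintype.mem_piFinset] at hgh
      rw [Finset.mem_coe, Finset.mem_filter, Fintype.mem_piFinset, hev]
      refine ⟨fun i => ?_, hgh.2⟩
      refine Fin.addCases (fun i => ?_) (fun i => ?_) i
      · show Fin.append g h (Fin.castAdd _ i) ∈ S
        rw [Fin.append_left]
        exact hgh.1.1 i
      · show Fin.append g h (Fin.natAdd _ i) ∈ S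
        rw [Fin.append_right]
        exact hgh.1.2 i
    · rintro ⟨g, h⟩ _ ⟨g', h'⟩ _ he
      have he' : Fin.append g h = Fin.append g' h' := he
      refine Prod.ext (funext fun i => ?_) (funext fun i => ?_)
      · have := congrFun he' (Fin.castAdd _ i)
        rwa [Fin.append_left, Fin.append_left] at this
      · have := congrFun he' (Fin.natAdd _ i)
        rwa [Fin.append_right, Fin.append_right] at this
  refine hcard.trans ?_
  rcases S.eq_empty_or_nonempty with hS | hS
  · rw [hS]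
    have h0 : (Fintype.piFinset fun _ : Fin (2 * k + 1 + 2 * k) => (∅ : Finset F)) = ∅ := by
      rw [Finset.eq_empty_iff_forall_notMem]
      intro f hf
      rw [Fintype.mem_piFinset] at hf
      exact Finset.notMem_empty _ (hf ⟨0, by omega⟩)
    rw [h0, Finset.filter_empty, Finset.card_empty]
    exact Nat.zero_le _
  · have hsz := MvPolynomial.schwartz_zippel_totalDegree hD0 S
    have hS0 : (0 : ℚ≥0) < S.card := by
      rw [Nat.cast_pos]
      exact hS.card_pos
    rw [div_le_div_iff₀ (by positivity) hS0] at hsz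
    have h6 : ((Fintype.piFinset fun _ : Fin (2 * k + 1 + 2 * k) => S).filter
        fun f => MvPolynomial.eval f D = 0).card * S.card ≤ D.totalDegree * S.card ^ (2 * k + 1 + 2 * k) := by
      exact_mod_cast hsz
    have h7 : S.card ^ (2 * k + 1 + 2 * k) = S.card ^ (4 * k) * S.card := by
      rw [← pow_succ]
      congr 1
      omega
    rw [h7, ← mul_assoc] at h6
    exact (Nat.le_of_mul_le_mul_right h6 hS.card_pos).trans (Nat.mul_le_mul_right _ htd)

/-- the transfer from the integers to a field -/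
theorem PA4_transfer {F : Type} [Field F] {k : ℕ} (hk : 1 ≤ k) (h2 : (2 : F) ≠ 0) (h4 : ((4 * k : ℕ) : F) ≠ 0)
    (d : ℤ) (w : V) (hd0 : (d : F) ≠ 0) (hw0 : (((w.1 : F), (w.2.1 : F), (w.2.2 : F)) : F × F × F) ≠ 0) (H : ℕ)
    (hinj : Set.InjOn (fun z : ℤ => (z : F)) (Icc (-(H : ℤ)) H)) (Pr : ℤ → Prop) (hPr : ∀ z, Pr z → (z : F) = 0)
    (inst : DecidablePred fun gh : (Fin (2 * k + 1) → ℤ) × (Fin (2 * k) → ℤ) => Pr (Dn gh.1 gh.2 d w)) :
    (@Finset.filter _ (fun gh : (Fin (2 * k + 1) → ℤ) × (Fin (2 * k) → ℤ) => Pr (Dn gh.1 gh.2 d w)) inst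
      ((Fintype.piFinset fun _ : Fin (2 * k + 1) => Icc (-(H : ℤ)) H) ×ˢ
      (Fintype.piFinset fun _ : Fin (2 * k) => Icc (-(H : ℤ)) H))).card ≤
        16 * k * (2 * H + 1) ^ (4 * k) := by
  set S : Finset F := (Icc (-(H : ℤ)) H).image fun z : ℤ => (z : F) with hS
  have hScard : S.card = 2 * H + 1 := by
    rw [hS, Finset.card_image_of_injOn hinj, Int.card_Icc]
    omega
  have h := Dn_card hk h2 h4 (d : F) ((w.1 : F), (w.2.1 : F), (w.2.2 : F)) hd0 hw0 S
  rw [hScard] at h
  refine le_trans ?_ h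
  refine Finset.card_le_card_of_injOn (fun gh => (fun i => ((gh.1 i : ℤ) : F), fun i => ((gh.2 i : ℤ) : F))) ?_ ?_
  · rintro ⟨g, h⟩ hgh
    rw [Finset.mem_coe, Finset.mem_filter, Finset.mem_product, Fintype.mem_piFinset, Fintype.mem_piFinset] at hgh
    rw [Finset.mem_coe, Finset.mem_filter, Finset.mem_product, Fintype.mem_piFinset, Fintype.mem_piFinset]
    refine ⟨⟨fun i => Finset.mem_image_of_mem _ (hgh.1.1 i), fun i => Finset.mem_image_of_mem _ (hgh.1.2 i)⟩, ?_⟩
    have h5 := hPr _ hgh.2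
    have h6 := map_Dn (Int.castRingHom F) g h d w
    simp only [eq_intCast] at h6
    rw [h5] at h6
    exact h6.symm
  · rintro ⟨g, h⟩ hgh ⟨g', h'⟩ hgh' he
    rw [Finset.mem_coe, Finset.mem_filter, Finset.mem_product, Fintype.mem_piFinset, Fintype.mem_piFinset] at hgh hgh'
    have e1 := congrArg Prod.fst he
    have e2 := congrArg Prod.snd he
    exact Prod.ext (funext fun i => hinj (hgh.1.1 i) (hgh'.1.1 i) (congrFun e1 i))
      (funext fun i => hinj (hgh.1.2 i) (hgh'.1.2 i) (congrFun e2 i))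

/-- the same for integers. Proof. `Dn_card` for `F = ℚ` and the image of the interval (`map_Dn` for `Int.castRingHom ℚ`, injective). -/
theorem Dn_card_int {k : ℕ} (hk : 1 ≤ k) (d : ℤ) (w : V) (hd0 : d ≠ 0) (hw0 : w ≠ 0) (H : ℕ) :
    (((Fintype.piFinset fun _ : Fin (2 * k + 1) => Icc (-(H : ℤ)) H) ×ˢ
      (Fintype.piFinset fun _ : Fin (2 * k) => Icc (-(H : ℤ)) H)).filter fun gh => Dn gh.1 gh.2 d w = 0).card ≤
        16 * k * (2 * H + 1) ^ (4 * k) := by
  refine PA4_transfer (F := ℚ) hk (by norm_num) ?_ d w ?_ ?_ H ?_ (fun z => z = 0) ?_ _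
  · rw [Nat.cast_ne_zero]
    omega
  · rw [Int.cast_ne_zero]
    exact hd0
  · intro h
    apply hw0
    rw [Prod.ext_iff, Prod.ext_iff] at h
    exact Prod.ext (Int.cast_eq_zero.1 h.1) (Prod.ext (Int.cast_eq_zero.1 h.2.1) (Int.cast_eq_zero.1 h.2.2))
  · intro a _ b _ hab
    exact Int.cast_injective hab
  · intro z hz
    rw [hz, Int.cast_zero]

/-- the same modulo a large prime. Proof. `p > 4 H`: the interval `[-H, H]` injects into `ZMod p`; `Dn_card` for `F = ZMod p` and its image `S`, `|S| = 2 H + 1` (`map_Dn` for `Int.castRingHom (ZMod p)`); `p > 4 k`, `p ≠ 2`. -/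
theorem Dn_card_mod {k : ℕ} (hk : 1 ≤ k) (p : ℕ) [Fact p.Prime] (hp : 4 * k < p) (h2 : p ≠ 2) (d : ℤ) (w : V)
    (hd0 : ¬ (p : ℤ) ∣ d) (hw0 : cV p w ≠ 0) (H : ℕ) (hH : 4 * H < p) :
    (((Fintype.piFinset fun _ : Fin (2 * k + 1) => Icc (-(H : ℤ)) H) ×ˢ
      (Fintype.piFinset fun _ : Fin (2 * k) => Icc (-(H : ℤ)) H)).filter fun gh => (p : ℤ) ∣ Dn gh.1 gh.2 d w).card ≤
        16 * k * (2 * H + 1) ^ (4 * k) := by
  have hpp : p.Prime := Fact.out
  refine PA4_transfer (F := ZMod p) hk ?_ ?_ d w ?_ hw0 H ?_ (fun z => (p : ℤ) ∣ z) ?_ _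
  · intro h
    have h' : ((2 : ℕ) : ZMod p) = 0 := by exact_mod_cast h
    rw [ZMod.natCast_eq_zero_iff] at h'
    exact h2 ((Nat.prime_dvd_prime_iff_eq hpp Nat.prime_two).1 h')
  · intro h
    rw [ZMod.natCast_eq_zero_iff] at h
    have := Nat.le_of_dvd (by omega) h
    omega
  · intro h
    rw [ZMod.intCast_zmod_eq_zero_iff_dvd] at h
    exact hd0 h
  · intro a ha b hb hab
    rw [Finset.coe_Icc, Set.mem_Icc] at ha hb
    have hab' : (a : ZMod p) = (b : ZMod p) := hab
    rw [ZMod.intCast_eq_intCast_iff_dvd_sub] at hab'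
    have h1 : |b - a| < p := by
      rw [abs_lt]
      constructor <;> omega
    have h3 := Int.eq_zero_of_abs_lt_dvd hab' h1
    omega
  · intro z hz
    rw [ZMod.intCast_zmod_eq_zero_iff_dvd]
    exact hz

end HNE
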