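import Pool.Agent.Lib.MP_1ad228_ntE.PA3

/-! Points over `ℚ_p` from good points of the fibres. -/

set_option autoImplicit false

open Classical

namespace HNE

open Finset Polynomial FGO FQQ HNF

theorem PB1_toZMod (p : ℕ) [Fact p.Prime] (x : ℤ_[p]) : PadicInt.toZMod x = 0 ↔ ‖x‖ < 1 := by
  rw [← RingHom.mem_ker, PadicInt.ker_toZMod, IsLocalRing.mem_maximalIdeal, PadicInt.mem_nonunits]

/-- Proof. Hensel's lemma (`hensels_lemma` or `HenselianLocalRing`) for `T² - x` at a lift of `s`: the value is in `p ℤ_p`, the derivative `2 s` is a unit. -/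
theorem lift_sq (p : ℕ) [Fact p.Prime] (h2 : p ≠ 2) (x : ℤ_[p]) (s : ZMod p) (hs : s ≠ 0) (h : PadicInt.toZMod x = s ^ 2) :
    ∃ z : ℤ_[p], z ^ 2 = x ∧ PadicInt.toZMod z = s := by
  obtain ⟨a, ha⟩ := ZMod.ringHom_surjective (PadicInt.toZMod (p := p)) s
  have h20 : (2 : ZMod p) ≠ 0 := by
    intro h0
    have h1 : ((2 : ℕ) : ZMod p) = 0 := by exact_mod_cast h0
    rw [ZMod.natCast_eq_zero_iff] at h1
    exact h2 ((Nat.prime_dvd_prime_iff_eq Fact.out Nat.prime_two).mp h1)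
  have e1 : aeval a (X ^ 2 - C x : ℤ_[p][X]) = a ^ 2 - x := by
    simp
  have e2 : aeval a (derivative (X ^ 2 - C x : ℤ_[p][X])) = 2 * a := by
    rw [derivative_sub, derivative_C, sub_zero, derivative_X_pow]
    simp
  have n1 : ‖a ^ 2 - x‖ < 1 := by
    rw [← PB1_toZMod, map_sub, map_pow, ha, h, sub_self]
  have n2 : ‖2 * a‖ = 1 := by
    rcases (PadicInt.norm_le_one (2 * a)).lt_or_eq with h3 | h3
    · rw [← PB1_toZMod, map_mul, ha, map_ofNat] at h3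
      exact absurd h3 (mul_ne_zero h20 hs)
    · exact h3
  obtain ⟨z, hz, hza, -, -⟩ := hensels_lemma (F := (X ^ 2 - C x : ℤ_[p][X])) (a := a) (by
    rw [e1, e2, n2, one_pow]
    exact n1)
  refine ⟨z, ?_, ?_⟩
  · have e3 : aeval z (X ^ 2 - C x : ℤ_[p][X]) = z ^ 2 - x := by
      simp
    rw [e3] at hz
    exact sub_eq_zero.1 hz
  · rw [e2, n2, ← PB1_toZMod, map_sub, sub_eq_zero, ha] at hza
    exact hza

/-- the point of the surface belonging to a point of the double cover, over a field. Proof. `isPt_of` with `a = s s'`, `b = s r`, `c = s' r`: all six equations by `ring` from the three hypotheses. -/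
theorem isPt_cover {F : Type} [Field F] {m n : ℕ} (q : Dt m n) (x z y t s s' r : F) (h1 : ¬ (x = 0 ∧ z = 0))
    (h2 : ¬ (y = 0 ∧ t = 0)) (hs : s ^ 2 = vV q.1.1 x z) (hs' : s' ^ 2 = vV q.1.2 y t)
    (hr : r ^ 2 = vB q.2.1 x z y t + s * s' * vB q.2.2 x z y t) : IsPt q ![x, z, y, t, s * s', s * r, s' * r] := by
  refine isPt_of h1 h2 ?_ ?_ ?_ ?_ ?_ ?_
  · show (s * s') ^ 2 = vV q.1.1 x z * vV q.1.2 y t
    rw [← hs, ← hs']
    ring
  · show (s * r) ^ 2 = vV q.1.1 x z * (vB q.2.1 x z y t + s * s' * vB q.2.2 x z y t)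
    rw [← hs, ← hr]
    ring
  · show (s' * r) ^ 2 = vV q.1.2 y t * (vB q.2.1 x z y t + s * s' * vB q.2.2 x z y t)
    rw [← hs', ← hr]
    ring
  · show s * s' * (s * r) = vV q.1.1 x z * (s' * r)
    rw [← hs]
    ring
  · show s * s' * (s' * r) = vV q.1.2 y t * (s * r)
    rw [← hs']
    ring
  · show s * r * (s' * r) = (vB q.2.1 x z y t + s * s' * vB q.2.2 x z y t) * (s * s')
    rw [← hr]
    ring

/-- the same for a twist of the double cover. Proof. `isPt_of` with `a`, `b` and `c = a b / d`, `d = v(x, z) ≠ 0`. -/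
theorem isPt_fibre {F : Type} [Field F] {m n : ℕ} (q : Dt m n) (x z y t a b : F) (h1 : ¬ (x = 0 ∧ z = 0))
    (h2 : ¬ (y = 0 ∧ t = 0)) (hd : vV q.1.1 x z ≠ 0) (ha : a ^ 2 = vV q.1.1 x z * vV q.1.2 y t)
    (hb : b ^ 2 = vV q.1.1 x z * (vB q.2.1 x z y t + a * vB q.2.2 x z y t)) :
    IsPt q ![x, z, y, t, a, b, a * b / vV q.1.1 x z] := by
  refine isPt_of h1 h2 ?_ ?_ ?_ ?_ ?_ ?_
  · exact ha
  · exact hb
  · show (a * b / vV q.1.1 x z) ^ 2 = vV q.1.2 y t * (vB q.2.1 x z y t + a * vB q.2.2 x z y t)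
    rw [div_pow, div_eq_iff (pow_ne_zero 2 hd), mul_pow, ha, hb]
    ring
  · show a * b = vV q.1.1 x z * (a * b / vV q.1.1 x z)
    rw [mul_div_cancel₀ _ hd]
  · show a * (a * b / vV q.1.1 x z) = vV q.1.2 y t * b
    rw [← mul_div_assoc, div_eq_iff hd]
    linear_combination b * ha
  · show b * (a * b / vV q.1.1 x z) = (vB q.2.1 x z y t + a * vB q.2.2 x z y t) * a
    rw [← mul_div_assoc, div_eq_iff hd]
    linear_combination a * hb

theorem PB1_map_vV {F F' : Type} [CommRing F] [CommRing F'] (φ : F →+* F') (v : ℤ × ℤ × ℤ) (x z : F) :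
    φ (vV v x z) = vV v (φ x) (φ z) := by
  unfold vV
  simp only [map_add, map_mul, map_pow, map_intCast]

theorem PB1_map_vB {F F' : Type} [CommRing F] [CommRing F'] (φ : F →+* F') {k l : ℕ} (G : Fin k → Fin l → ℤ)
    (x z y t : F) : φ (vB G x z y t) = vB G (φ x) (φ z) (φ y) (φ t) := by
  unfold vB
  simp only [map_sum, map_mul, map_pow, map_intCast]

/-- **Proof.** Lift `y`, `t` to integers `y'`, `t'`; `d = v(x0, z0) ∈ ℤ`, `p ∤ d`. `d w(y', t')` reduces to `a²`, `a ≠ 0`: `lift_sq` gives `a' ∈ ℤ_p` with `a'² = d w(y', t')`, reduction `a`. `d (G + a' H)(x0, z0; y', t') ∈ ℤ_p` reduces to a nonzero square: `lift_sq` gives `b'`. `isPt_fibre` over `ℚ_p` (`(y', t') ≠ (0, 0)`, as `a ≠ 0`). -/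
theorem hasPoint_A {m n : ℕ} (q : Dt m n) (p : ℕ) [Fact p.Prime] (h2 : p ≠ 2) (x0 z0 : ℤ) (h0 : ¬ (x0 = 0 ∧ z0 = 0)) (y t a : ZMod p)
    (ha : a ≠ 0) (hd : vV q.1.1 (x0 : ZMod p) (z0 : ZMod p) ≠ 0)
    (e1 : a ^ 2 = vV q.1.1 (x0 : ZMod p) (z0 : ZMod p) * vV q.1.2 y t)
    (e2 : Sq (vV q.1.1 (x0 : ZMod p) (z0 : ZMod p) *
      (vB q.2.1 (x0 : ZMod p) (z0 : ZMod p) y t + a * vB q.2.2 (x0 : ZMod p) (z0 : ZMod p) y t))) : HasPoint ℚ_[p] q := by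
  obtain ⟨y', rfl⟩ := ZMod.intCast_surjective y
  obtain ⟨t', rfl⟩ := ZMod.intCast_surjective t
  have hm : ∀ i : ℤ, PadicInt.toZMod (p := p) (i : ℤ_[p]) = (i : ZMod p) := fun i => map_intCast _ i
  have hq : ∀ i : ℤ, PadicInt.Coe.ringHom (p := p) (i : ℤ_[p]) = (i : ℚ_[p]) := fun i => map_intCast _ i
  obtain ⟨a', ha', ra⟩ := lift_sq p h2 (vV q.1.1 (x0 : ℤ_[p]) (z0 : ℤ_[p]) * vV q.1.2 (y' : ℤ_[p]) (t' : ℤ_[p])) a ha (by
    rw [map_mul, PB1_map_vV, PB1_map_vV, hm, hm, hm, hm, e1])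
  obtain ⟨hne, s, hs⟩ := e2
  have hs0 : s ≠ 0 := by
    intro h
    rw [h, mul_zero] at hs
    exact hne hs
  obtain ⟨b', hb', -⟩ := lift_sq p h2 (vV q.1.1 (x0 : ℤ_[p]) (z0 : ℤ_[p]) *
    (vB q.2.1 (x0 : ℤ_[p]) (z0 : ℤ_[p]) (y' : ℤ_[p]) (t' : ℤ_[p]) +
      a' * vB q.2.2 (x0 : ℤ_[p]) (z0 : ℤ_[p]) (y' : ℤ_[p]) (t' : ℤ_[p]))) s hs0 (by
    rw [map_mul, map_add, map_mul, PB1_map_vV, PB1_map_vB, PB1_map_vB, hm, hm, hm, hm, ra, hs, sq])
  have ha2 := congrArg (PadicInt.Coe.ringHom (p := p)) ha'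
  have hb2 := congrArg (PadicInt.Coe.ringHom (p := p)) hb'
  rw [map_pow, map_mul, PB1_map_vV, PB1_map_vV, hq, hq, hq, hq] at ha2
  rw [map_pow, map_mul, map_add, map_mul, PB1_map_vV, PB1_map_vB, PB1_map_vB, hq, hq, hq, hq] at hb2
  refine ⟨_, isPt_fibre q (x0 : ℚ_[p]) (z0 : ℚ_[p]) (y' : ℚ_[p]) (t' : ℚ_[p]) (PadicInt.Coe.ringHom a')
    (PadicInt.Coe.ringHom b') ?_ ?_ ?_ ha2 hb2⟩
  · rintro ⟨h3, h4⟩
    exact h0 ⟨by exact_mod_cast h3, by exact_mod_cast h4⟩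
  · rintro ⟨h3, h4⟩
    have h5 : y' = 0 := by exact_mod_cast h3
    have h6 : t' = 0 := by exact_mod_cast h4
    apply ha
    have h7 : a ^ 2 = 0 := by
      rw [e1, h5, h6]
      unfold vV
      push_cast
      ring
    exact pow_eq_zero_iff two_ne_zero |>.1 h7
  · intro h3
    rw [← hq x0, ← hq z0, ← PB1_map_vV] at h3
    have h4 : vV q.1.1 (x0 : ℤ_[p]) (z0 : ℤ_[p]) = 0 := Subtype.ext h3
    apply hd
    rw [← hm x0, ← hm z0, ← PB1_map_vV, h4, map_zero]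

/-- the exchange of the two rulings -/
def tr {m n : ℕ} (q : Dt m n) : Dt n m := ((q.1.2, q.1.1), (fun i j => q.2.1 j i, fun i j => q.2.2 j i))

theorem PB1_vB_tr {F : Type} [CommRing F] {k l : ℕ} (G : Fin k → Fin l → ℤ) (x z y t : F) :
    vB (fun i j => G j i) x z y t = vB G y t x z := by
  unfold vB
  rw [Finset.sum_comm]
  refine Finset.sum_congr rfl fun i _ => Finset.sum_congr rfl fun j _ => ?_
  ring

/-- Proof. `P ↦ (P 2, P 3, P 0, P 1, P 4, P 6, P 5)`; `vB` of the transposed array (`Finset.sum_comm`). -/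
theorem hasPoint_tr {m n : ℕ} (q : Dt m n) (F : Type) [Field F] (h : HasPoint F (tr q)) : HasPoint F q := by
  obtain ⟨P, hP⟩ := h
  obtain ⟨e0, e1, e2, e3, e4, e5⟩ := hP.eq
  have hD : fD (tr q) P = vB q.2.1 (P 2) (P 3) (P 0) (P 1) + P 4 * vB q.2.2 (P 2) (P 3) (P 0) (P 1) := by
    show vB (fun i j => q.2.1 j i) (P 0) (P 1) (P 2) (P 3) + P 4 * vB (fun i j => q.2.2 j i) (P 0) (P 1) (P 2) (P 3) = _
    rw [PB1_vB_tr q.2.1, PB1_vB_tr q.2.2]
  have hV : fV (tr q) P = vV q.1.2 (P 0) (P 1) := rfl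
  have hW : fW (tr q) P = vV q.1.1 (P 2) (P 3) := rfl
  rw [hV, hW] at e0
  rw [hV, hD] at e1
  rw [hW, hD] at e2
  rw [hV] at e3
  rw [hW] at e4
  rw [hD] at e5
  refine ⟨![P 2, P 3, P 0, P 1, P 4, P 6, P 5], isPt_of hP.2.1 hP.1 ?_ ?_ ?_ ?_ ?_ ?_⟩
  · show P 4 ^ 2 = vV q.1.1 (P 2) (P 3) * vV q.1.2 (P 0) (P 1)
    rw [e0, mul_comm]
  · exact e2
  · exact e1
  · exact e4
  · exact e3
  · show P 6 * P 5 = _
    rw [mul_comm]
    exact e5

theorem PB1_hg_row {F : Type} [CommRing F] {k l : ℕ} (G : Fin k → Fin l → F) (x z y t : F) :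
    hg (row G x z) y t = bv G x z y t := by
  unfold hg row bv
  rw [Finset.sum_comm]
  refine Finset.sum_congr rfl fun j _ => ?_
  rw [Finset.sum_mul]

theorem PB1_hg_col {F : Type} [CommRing F] {k l : ℕ} (G : Fin k → Fin l → F) (x z y t : F) :
    hg (col G x z) y t = bv (fun i j => G j i) x z y t := by
  unfold hg col bv
  rw [Finset.sum_comm]
  refine Finset.sum_congr rfl fun j _ => ?_
  rw [Finset.sum_mul]

/-- the fibre over `(x0 : z0)` is good -/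
theorem PB1_A {m n : ℕ} (w1 : ℕ)
    (hw1 : ∀ (p : ℕ) [Fact p.Prime], w1 ≤ p →
    ∀ (g : Fin (2 * n + 1) → ZMod p) (h : Fin (2 * n) → ZMod p) (d : ZMod p) (w : ZMod p × ZMod p × ZMod p),
    d ≠ 0 → ds w ≠ 0 → Dn g h d w ≠ 0 →
    ∃ y t a : ZMod p, a ≠ 0 ∧ a ^ 2 = d * qv w y t ∧ Sq (d * (hg g y t + a * hg h y t)))
    (p : ℕ) [Fact p.Prime] (h2 : p ≠ 2) (hp : w1 ≤ p) (q : Dt m n) (x0 z0 : ℤ) (h0 : ¬ (x0 = 0 ∧ z0 = 0))
    (hds : ds (cV p q.1.2) ≠ 0) (hd : qv (cV p q.1.1) (x0 : ZMod p) (z0 : ZMod p) ≠ 0)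
    (hD : Dn (row (fun i j => ((q.2.1 i j : ℤ) : ZMod p)) (x0 : ZMod p) (z0 : ZMod p))
      (row (fun i j => ((q.2.2 i j : ℤ) : ZMod p)) (x0 : ZMod p) (z0 : ZMod p))
      (qv (cV p q.1.1) (x0 : ZMod p) (z0 : ZMod p)) (cV p q.1.2) ≠ 0) : HasPoint ℚ_[p] q := by
  obtain ⟨y, t, a, ha, e1, e2⟩ := hw1 p hp _ _ _ _ hd hds hD
  rw [PB1_hg_row, PB1_hg_row] at e2
  exact hasPoint_A q p h2 x0 z0 h0 y t a ha hd e1 e2

/-- **Proof.** `w1` = the maximum of the numbers of `good_point` for `k = n` and `k = m`, and `3`. `¬ BdP`: not both discriminants vanish modulo `p`. If `ds w = 0 ≠ ds v`: `¬ DB 1 0`, i.e. `w(1, 0) ≠ 0` and `Dn (col G 1 0) (col H 1 0) (w(1,0)) v ≠ 0`: `good_point` (`k = m`) for the data of `tr q`, `hasPoint_A` for `tr q` at `(1, 0)`, `hasPoint_tr`. If `ds v = 0 ≠ ds w`: `¬ DA 1 0`: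
`good_point` (`k = n`), `hasPoint_A` at `(1, 0)`. If both are `≠ 0`: `¬ DA 1 0` or `¬ DA 0 1`: `hasPoint_A` at `(1, 0)` or `(0, 1)`. (`hg (row G x z) y t = bv G x z y t`, `hg (col G y t) x z = bv G x z y t` by exchanging sums; casts `(cN p f)`, `(cV p u)`: `rfl` or `simp`.) -/
theorem loc_E {m n : ℕ} (hm : 1 ≤ m) (hn : 1 ≤ n) : ∃ w1 : ℕ, 3 ≤ w1 ∧ ∀ (p : ℕ) [Fact p.Prime], w1 ≤ p →
    ∀ (f : Vn (TT m n)) (u : V × V), ¬ BdP p f u → HasPoint ℚ_[p] (toDt f u) := by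
  obtain ⟨wn, hwn3, hwn⟩ := good_point hn
  obtain ⟨wm, hwm3, hwm⟩ := good_point hm
  refine ⟨max wn wm, hwn3.trans (le_max_left _ _), fun p _ hp f u hB => ?_⟩
  have hpn : wn ≤ p := (le_max_left _ _).trans hp
  have hpm : wm ≤ p := (le_max_right _ _).trans hp
  have hp2 : p ≠ 2 := by omega
  have h10 : ¬ ((1 : ℤ) = 0 ∧ (0 : ℤ) = 0) := fun h => one_ne_zero h.1
  have h01 : ¬ ((0 : ℤ) = 0 ∧ (1 : ℤ) = 0) := fun h => one_ne_zero h.2
  unfold BdP BdF at hB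
  have key : ∀ x0 z0 : ℤ, ¬ (x0 = 0 ∧ z0 = 0) → ds (cV p u.2) ≠ 0 →
      ¬ DA (m := m) (n := n) (x0 : ZMod p) (z0 : ZMod p) (cN p f) (cV p u.1) (cV p u.2) → HasPoint ℚ_[p] (toDt f u) := by
    intro x0 z0 h0 hds hA
    unfold DA at hA
    rw [not_or] at hA
    exact PB1_A wn hwn p hp2 hpn (toDt f u) x0 z0 h0 hds hA.1 hA.2
  by_cases hw : ds (cV p u.2) = 0
  · by_cases hv : ds (cV p u.1) = 0
    · exact absurd (Or.inl ⟨hv, hw⟩) hB
    · have hDB : ¬ DB (m := m) (n := n) 1 0 (cN p f) (cV p u.1) (cV p u.2) := fun h => hB (Or.inr (Or.inl ⟨hw, hv, h⟩))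
      unfold DB at hDB
      rw [not_or] at hDB
      apply hasPoint_tr
      refine PB1_A wm hwm p hp2 hpm (tr (toDt f u)) 1 0 h10 hv ?_ ?_
      · rw [Int.cast_one, Int.cast_zero]
        exact hDB.1
      · rw [Int.cast_one, Int.cast_zero]
        exact hDB.2
  · by_cases hv : ds (cV p u.1) = 0
    · have hDA : ¬ DA (m := m) (n := n) 1 0 (cN p f) (cV p u.1) (cV p u.2) :=
        fun h => hB (Or.inr (Or.inr (Or.inl ⟨hv, hw, h⟩)))
      refine key 1 0 h10 hw ?_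
      rw [Int.cast_one, Int.cast_zero]
      exact hDA
    · by_cases h1 : DA (m := m) (n := n) 1 0 (cN p f) (cV p u.1) (cV p u.2)
      · refine key 0 1 h01 hw ?_
        rw [Int.cast_one, Int.cast_zero]
        exact fun h => hB (Or.inr (Or.inr (Or.inr ⟨hv, hw, h1, h⟩)))
      · refine key 1 0 h10 hw ?_
        rw [Int.cast_one, Int.cast_zero]
        exact h1

end HNE
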