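import Pool.Agent.Lib.MP_1ad228_ntE.PDefs

/-! The Jacobian matrix of the reduced surface `v = x² - z²`, `w = y² - t²`, `G = G0`, `H = 0`. -/

set_option autoImplicit false

open Classical

namespace HNE

open Finset Polynomial FGO FQQ HNF

/-- the reduced surface -/
noncomputable def q0 (m n : ℕ) : Dt m n := toDt (f0 m n) ((1, 0, -1), (1, 0, -1))

theorem PC1_G0 (m n : ℕ) : Gm (cG (f0 m n)) = G0 m n := by
  funext i j
  have h : Gm (cG (f0 m n)) i j = (Fin.addCases (fun _ => 0) (fun j => G0 m n (sg m n j).1 (sg m n j).2) :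
      Fin (2 * m * (2 * n) + (MM m n + 1)) → ℤ) (Fin.natAdd (2 * m * (2 * n)) ((sg m n).symm (i, j))) := rfl
  rw [h]
  beta_reduce
  rw [Fin.addCases_right, Equiv.apply_symm_apply]

theorem PC1_H0 (m n : ℕ) : cH (f0 m n) = fun _ _ => 0 := by
  funext i j
  have h : cH (f0 m n) i j = (Fin.addCases (fun _ => 0) (fun j => G0 m n (sg m n j).1 (sg m n j).2) :
      Fin (2 * m * (2 * n) + (MM m n + 1)) → ℤ) (Fin.castAdd (MM m n + 1) (finProdFinEquiv (i, j))) := rfl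
  rw [h]
  beta_reduce
  rw [Fin.addCases_left]

theorem PC1_ind {m n : ℕ} (hm : 1 ≤ m) (hn : 1 ≤ n) (i : Fin (2 * m + 1)) (j : Fin (2 * n + 1)) :
    G0 m n i j = (if i = Fin.last (2 * m) then 1 else 0) * (if j = Fin.last (2 * n) then 1 else 0) +
      (if i = Fin.last (2 * m) then 1 else 0) * (if j = 0 then 1 else 0) +
      (if i = 0 then 1 else 0) * (if j = Fin.last (2 * n) then 1 else 0) -
      2 * ((if i = 0 then 1 else 0) * (if j = 0 then 1 else 0)) := by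
  have hi : ((i : ℕ) = 2 * m) ↔ (i = Fin.last (2 * m)) := by
    rw [Fin.ext_iff, Fin.val_last]
  have hi0 : ((i : ℕ) = 0) ↔ (i = 0) := by
    rw [Fin.ext_iff, Fin.val_zero]
  have hj : ((j : ℕ) = 2 * n) ↔ (j = Fin.last (2 * n)) := by
    rw [Fin.ext_iff, Fin.val_last]
  have hj0 : ((j : ℕ) = 0) ↔ (j = 0) := by
    rw [Fin.ext_iff, Fin.val_zero]
  have hd : ∀ k : ℕ, 1 ≤ k → (0 : Fin (2 * k + 1)) ≠ Fin.last (2 * k) := by
    intro k hk h
    rw [Fin.ext_iff, Fin.val_zero, Fin.val_last] at h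
    omega
  unfold G0
  simp only [hi, hi0, hj, hj0]
  have h1 := hd m hm
  have h2 := hd n hn
  by_cases a1 : i = Fin.last (2 * m)
  · have a2 : i ≠ 0 := by rw [a1]; exact fun h => h1 h.symm
    by_cases b1 : j = Fin.last (2 * n)
    · have b2 : j ≠ 0 := by rw [b1]; exact fun h => h2 h.symm
      simp [a1, b1, h1.symm, h2.symm]
    · by_cases b2 : j = 0
      · simp [a1, b2, h1.symm, h2]
      · simp [a1, b1, b2, h1.symm]
  · by_cases a2 : i = 0
    · by_cases b1 : j = Fin.last (2 * n)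
      · simp [a2, b1, h1, h2.symm]
      · by_cases b2 : j = 0
        · simp [a2, b2, h1, h2]
        · simp [a2, b1, b2, h1]
    · simp [a1, a2]

theorem PC1_fac {F : Type} [CommRing F] {k l : ℕ} (a : Fin k → F) (b : Fin l → F) (X : Fin k → F) (Y : Fin l → F) :
    ∑ i, ∑ j, a i * b j * X i * Y j = (∑ i, a i * X i) * ∑ j, b j * Y j := by
  rw [Finset.sum_mul_sum]
  refine Finset.sum_congr rfl fun i _ => Finset.sum_congr rfl fun j _ => ?_
  ring

/-- Proof. Four nonzero coefficients (`2 m ≠ 0`, `2 n ≠ 0`). -/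
theorem vB_G0 {F : Type} [CommRing F] {m n : ℕ} (hm : 1 ≤ m) (hn : 1 ≤ n) (x z y t : F) :
    vB (G0 m n) x z y t = x ^ (2 * m) * y ^ (2 * n) + x ^ (2 * m) * t ^ (2 * n) + z ^ (2 * m) * y ^ (2 * n) -
      2 * (z ^ (2 * m) * t ^ (2 * n)) := by
  have key : vB (G0 m n) x z y t =
      (∑ i : Fin (2 * m + 1), ∑ j : Fin (2 * n + 1), (if i = Fin.last (2 * m) then (1 : F) else 0) *
        (if j = Fin.last (2 * n) then 1 else 0) * (x ^ (i : ℕ) * z ^ (2 * m + 1 - 1 - (i : ℕ))) *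
        (y ^ (j : ℕ) * t ^ (2 * n + 1 - 1 - (j : ℕ)))) +
      (∑ i : Fin (2 * m + 1), ∑ j : Fin (2 * n + 1), (if i = Fin.last (2 * m) then (1 : F) else 0) *
        (if j = 0 then 1 else 0) * (x ^ (i : ℕ) * z ^ (2 * m + 1 - 1 - (i : ℕ))) *
        (y ^ (j : ℕ) * t ^ (2 * n + 1 - 1 - (j : ℕ)))) +
      (∑ i : Fin (2 * m + 1), ∑ j : Fin (2 * n + 1), (if i = 0 then (1 : F) else 0) *
        (if j = Fin.last (2 * n) then 1 else 0) * (x ^ (i : ℕ) * z ^ (2 * m + 1 - 1 - (i : ℕ))) *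
        (y ^ (j : ℕ) * t ^ (2 * n + 1 - 1 - (j : ℕ)))) -
      2 * (∑ i : Fin (2 * m + 1), ∑ j : Fin (2 * n + 1), (if i = 0 then (1 : F) else 0) *
        (if j = 0 then 1 else 0) * (x ^ (i : ℕ) * z ^ (2 * m + 1 - 1 - (i : ℕ))) *
        (y ^ (j : ℕ) * t ^ (2 * n + 1 - 1 - (j : ℕ)))) := by
    rw [Finset.mul_sum, ← Finset.sum_add_distrib, ← Finset.sum_add_distrib, ← Finset.sum_sub_distrib]
    unfold vB
    refine Finset.sum_congr rfl fun i _ => ?_
    rw [Finset.mul_sum, ← Finset.sum_add_distrib, ← Finset.sum_add_distrib, ← Finset.sum_sub_distrib]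
    refine Finset.sum_congr rfl fun j _ => ?_
    rw [PC1_ind hm hn i j]
    push_cast
    ring
  rw [key]
  rw [PC1_fac, PC1_fac, PC1_fac, PC1_fac]
  simp only [ite_mul, one_mul, zero_mul, Finset.sum_ite_eq', Finset.mem_univ, if_true, Fin.val_last, Fin.val_zero]
  simp only [Nat.add_sub_cancel, Nat.sub_self, Nat.sub_zero, pow_zero, mul_one, one_mul]

theorem fV_q0 {F : Type} [CommRing F] (m n : ℕ) (P : Fin 7 → F) : fV (q0 m n) P = P 0 ^ 2 - P 1 ^ 2 := by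
  show vV (1, 0, -1) (P 0) (P 1) = _
  unfold vV
  push_cast
  ring

theorem fW_q0 {F : Type} [CommRing F] (m n : ℕ) (P : Fin 7 → F) : fW (q0 m n) P = P 2 ^ 2 - P 3 ^ 2 := by
  show vV (1, 0, -1) (P 2) (P 3) = _
  unfold vV
  push_cast
  ring

/-- Proof. `Gm (cG (f0 m n)) = G0 m n` (`Fin.addCases_right`), `cH (f0 m n) = 0` (`Fin.addCases_left`), `vB_G0`. -/
theorem fD_q0 {F : Type} [CommRing F] {m n : ℕ} (hm : 1 ≤ m) (hn : 1 ≤ n) (P : Fin 7 → F) :
    fD (q0 m n) P = P 0 ^ (2 * m) * P 2 ^ (2 * n) + P 0 ^ (2 * m) * P 3 ^ (2 * n) + P 1 ^ (2 * m) * P 2 ^ (2 * n) -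
      2 * (P 1 ^ (2 * m) * P 3 ^ (2 * n)) := by
  have h : fD (q0 m n) P = vB (Gm (cG (f0 m n))) (P 0) (P 1) (P 2) (P 3) + P 4 * vB (cH (f0 m n)) (P 0) (P 1) (P 2) (P 3) := rfl
  rw [h, PC1_G0, PC1_H0, vB_G0 hm hn]
  unfold vB
  simp

/-- the partial derivatives of `G0` at `P` (with respect to `x, z, y, t`) -/
def gE {F : Type} [CommRing F] (m n : ℕ) (P : Fin 7 → F) : Fin 4 → F :=
  ![2 * m * P 0 ^ (2 * m - 1) * (P 2 ^ (2 * n) + P 3 ^ (2 * n)), 2 * m * P 1 ^ (2 * m - 1) * (P 2 ^ (2 * n) - 2 * P 3 ^ (2 * n)),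
    2 * n * P 2 ^ (2 * n - 1) * (P 0 ^ (2 * m) + P 1 ^ (2 * m)), 2 * n * P 3 ^ (2 * n - 1) * (P 0 ^ (2 * m) - 2 * P 1 ^ (2 * m))]

/-- the derivation `aeval P ∘ pderiv j` -/
theorem PC1_X {F : Type} [CommRing F] (P : Fin 7 → F) (i j : Fin 7) :
    MvPolynomial.aeval P (MvPolynomial.pderiv j (MvPolynomial.X i : MvPolynomial (Fin 7) ℤ)) = if i = j then 1 else 0 := by
  rw [MvPolynomial.pderiv_X]
  by_cases h : i = j
  · subst h
    simp
  · rw [if_neg h, Pi.single_apply, if_neg h, map_zero]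

theorem PC1_mul {F : Type} [CommRing F] (P : Fin 7 → F) (j : Fin 7) (f g : MvPolynomial (Fin 7) ℤ) :
    MvPolynomial.aeval P (MvPolynomial.pderiv j (f * g)) =
      MvPolynomial.aeval P f * MvPolynomial.aeval P (MvPolynomial.pderiv j g) +
      MvPolynomial.aeval P g * MvPolynomial.aeval P (MvPolynomial.pderiv j f) := by
  rw [Derivation.leibniz]
  simp only [smul_eq_mul, map_add, map_mul]

theorem PC1_pow {F : Type} [CommRing F] (P : Fin 7 → F) (j : Fin 7) (f : MvPolynomial (Fin 7) ℤ) (k : ℕ) :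
    MvPolynomial.aeval P (MvPolynomial.pderiv j (f ^ k)) =
      k * MvPolynomial.aeval P f ^ (k - 1) * MvPolynomial.aeval P (MvPolynomial.pderiv j f) := by
  rw [Derivation.leibniz_pow]
  simp only [smul_eq_mul, nsmul_eq_mul, map_mul, map_pow, map_natCast]
  ring

theorem PC1_two {F : Type} [CommRing F] (P : Fin 7 → F) (j : Fin 7) (f : MvPolynomial (Fin 7) ℤ) :
    MvPolynomial.aeval P (MvPolynomial.pderiv j (2 * f)) = 2 * MvPolynomial.aeval P (MvPolynomial.pderiv j f) := by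
  have h : (2 * f) = f + f := by ring
  rw [h, map_add, map_add]
  ring

theorem PC1_dV {F : Type} [CommRing F] (m n : ℕ) (P : Fin 7 → F) (j : Fin 7) :
    MvPolynomial.aeval P (MvPolynomial.pderiv j (fV (q0 m n) (MvPolynomial.X : Fin 7 → MvPolynomial (Fin 7) ℤ))) =
      (![2 * P 0, -(2 * P 1), 0, 0, 0, 0, 0] : Fin 7 → F) j := by
  rw [fV_q0, map_sub, map_sub, PC1_pow, PC1_pow, PC1_X, PC1_X, MvPolynomial.aeval_X, MvPolynomial.aeval_X]
  fin_cases j <;> simp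

theorem PC1_dW {F : Type} [CommRing F] (m n : ℕ) (P : Fin 7 → F) (j : Fin 7) :
    MvPolynomial.aeval P (MvPolynomial.pderiv j (fW (q0 m n) (MvPolynomial.X : Fin 7 → MvPolynomial (Fin 7) ℤ))) =
      (![0, 0, 2 * P 2, -(2 * P 3), 0, 0, 0] : Fin 7 → F) j := by
  rw [fW_q0, map_sub, map_sub, PC1_pow, PC1_pow, PC1_X, PC1_X, MvPolynomial.aeval_X, MvPolynomial.aeval_X]
  fin_cases j <;> simp

theorem PC1_dD {F : Type} [CommRing F] {m n : ℕ} (hm : 1 ≤ m) (hn : 1 ≤ n) (P : Fin 7 → F) (j : Fin 7) :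
    MvPolynomial.aeval P (MvPolynomial.pderiv j (fD (q0 m n) (MvPolynomial.X : Fin 7 → MvPolynomial (Fin 7) ℤ))) =
      (![gE m n P 0, gE m n P 1, gE m n P 2, gE m n P 3, 0, 0, 0] : Fin 7 → F) j := by
  rw [fD_q0 hm hn, map_sub, map_sub, PC1_two]
  simp only [map_add, PC1_mul, PC1_pow, PC1_X, MvPolynomial.aeval_X, map_pow]
  fin_cases j <;> simp [gE] <;> ring

theorem PC1_aV {F : Type} [CommRing F] (m n : ℕ) (P : Fin 7 → F) :
    MvPolynomial.aeval P (fV (q0 m n) (MvPolynomial.X : Fin 7 → MvPolynomial (Fin 7) ℤ)) = fV (q0 m n) P := by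
  rw [fV_q0, fV_q0, map_sub, map_pow, map_pow, MvPolynomial.aeval_X, MvPolynomial.aeval_X]

theorem PC1_aW {F : Type} [CommRing F] (m n : ℕ) (P : Fin 7 → F) :
    MvPolynomial.aeval P (fW (q0 m n) (MvPolynomial.X : Fin 7 → MvPolynomial (Fin 7) ℤ)) = fW (q0 m n) P := by
  rw [fW_q0, fW_q0, map_sub, map_pow, map_pow, MvPolynomial.aeval_X, MvPolynomial.aeval_X]

theorem PC1_aD {F : Type} [CommRing F] {m n : ℕ} (hm : 1 ≤ m) (hn : 1 ≤ n) (P : Fin 7 → F) :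
    MvPolynomial.aeval P (fD (q0 m n) (MvPolynomial.X : Fin 7 → MvPolynomial (Fin 7) ℤ)) = fD (q0 m n) P := by
  rw [fD_q0 hm hn, fD_q0 hm hn]
  simp only [map_sub, map_add, map_mul, map_pow, MvPolynomial.aeval_X, map_ofNat]

/-- the Jacobian matrix of the reduced surface. Proof. Entry by entry (`fin_cases`): `eqs` at `X` with `fV_q0`, `fW_q0`, `fD_q0` over the ring `MvPolynomial (Fin 7) ℤ`, then `simp` with the rules for `pderiv` (`Derivation.leibniz`, `Derivation.leibniz_pow`, `MvPolynomial.pderiv_X`), `map_...`, `ring`.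
It may be convenient to prove first the partial derivatives of `fV`, `fW`, `fD` at `X`. -/
theorem JE_q0 {F : Type} [CommRing F] {m n : ℕ} (hm : 1 ≤ m) (hn : 1 ≤ n) (P : Fin 7 → F) :
    JE (q0 m n) P =
      !![-(2 * P 0 * fW (q0 m n) P), 2 * P 1 * fW (q0 m n) P, -(2 * P 2 * fV (q0 m n) P), 2 * P 3 * fV (q0 m n) P, 2 * P 4, 0, 0;
        -(2 * P 0 * fD (q0 m n) P + fV (q0 m n) P * gE m n P 0), 2 * P 1 * fD (q0 m n) P - fV (q0 m n) P * gE m n P 1,
          -(fV (q0 m n) P * gE m n P 2), -(fV (q0 m n) P * gE m n P 3), 0, 2 * P 5, 0;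
        -(fW (q0 m n) P * gE m n P 0), -(fW (q0 m n) P * gE m n P 1),
          -(2 * P 2 * fD (q0 m n) P + fW (q0 m n) P * gE m n P 2), 2 * P 3 * fD (q0 m n) P - fW (q0 m n) P * gE m n P 3, 0, 0, 2 * P 6;
        -(2 * P 0 * P 6), 2 * P 1 * P 6, 0, 0, P 5, P 4, -fV (q0 m n) P;
        0, 0, -(2 * P 2 * P 5), 2 * P 3 * P 5, P 6, -fW (q0 m n) P, P 4;
        -(gE m n P 0 * P 4), -(gE m n P 1 * P 4), -(gE m n P 2 * P 4), -(gE m n P 3 * P 4), -fD (q0 m n) P, P 6, P 5] := by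
  have e : ∀ i j, JE (q0 m n) P i j =
      MvPolynomial.aeval P (MvPolynomial.pderiv j (eqs (q0 m n) (MvPolynomial.X : Fin 7 → MvPolynomial (Fin 7) ℤ) i)) :=
    fun _ _ => rfl
  have r0 : ∀ j, JE (q0 m n) P 0 j = 2 * P 4 * (if (4 : Fin 7) = j then 1 else 0) -
      (fV (q0 m n) P * (![0, 0, 2 * P 2, -(2 * P 3), 0, 0, 0] : Fin 7 → F) j +
        fW (q0 m n) P * (![2 * P 0, -(2 * P 1), 0, 0, 0, 0, 0] : Fin 7 → F) j) := by
    intro j
    rw [e]
    have h : eqs (q0 m n) (MvPolynomial.X : Fin 7 → MvPolynomial (Fin 7) ℤ) 0 =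
        MvPolynomial.X 4 ^ 2 - fV (q0 m n) MvPolynomial.X * fW (q0 m n) MvPolynomial.X := rfl
    rw [h, map_sub, map_sub, PC1_pow, PC1_mul, PC1_X, PC1_dV, PC1_dW, PC1_aV, PC1_aW, MvPolynomial.aeval_X]
    push_cast
    ring
  have r1 : ∀ j, JE (q0 m n) P 1 j = 2 * P 5 * (if (5 : Fin 7) = j then 1 else 0) -
      (fV (q0 m n) P * (![gE m n P 0, gE m n P 1, gE m n P 2, gE m n P 3, 0, 0, 0] : Fin 7 → F) j +
        fD (q0 m n) P * (![2 * P 0, -(2 * P 1), 0, 0, 0, 0, 0] : Fin 7 → F) j) := by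
    intro j
    rw [e]
    have h : eqs (q0 m n) (MvPolynomial.X : Fin 7 → MvPolynomial (Fin 7) ℤ) 1 =
        MvPolynomial.X 5 ^ 2 - fV (q0 m n) MvPolynomial.X * fD (q0 m n) MvPolynomial.X := rfl
    rw [h, map_sub, map_sub, PC1_pow, PC1_mul, PC1_X, PC1_dV, PC1_dD hm hn, PC1_aV, PC1_aD hm hn, MvPolynomial.aeval_X]
    push_cast
    ring
  have r2 : ∀ j, JE (q0 m n) P 2 j = 2 * P 6 * (if (6 : Fin 7) = j then 1 else 0) -
      (fW (q0 m n) P * (![gE m n P 0, gE m n P 1, gE m n P 2, gE m n P 3, 0, 0, 0] : Fin 7 → F) j +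
        fD (q0 m n) P * (![0, 0, 2 * P 2, -(2 * P 3), 0, 0, 0] : Fin 7 → F) j) := by
    intro j
    rw [e]
    have h : eqs (q0 m n) (MvPolynomial.X : Fin 7 → MvPolynomial (Fin 7) ℤ) 2 =
        MvPolynomial.X 6 ^ 2 - fW (q0 m n) MvPolynomial.X * fD (q0 m n) MvPolynomial.X := rfl
    rw [h, map_sub, map_sub, PC1_pow, PC1_mul, PC1_X, PC1_dW, PC1_dD hm hn, PC1_aW, PC1_aD hm hn, MvPolynomial.aeval_X]
    push_cast
    ring
  have r3 : ∀ j, JE (q0 m n) P 3 j = P 4 * (if (5 : Fin 7) = j then 1 else 0) + P 5 * (if (4 : Fin 7) = j then 1 else 0) -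
      (fV (q0 m n) P * (if (6 : Fin 7) = j then 1 else 0) + P 6 * (![2 * P 0, -(2 * P 1), 0, 0, 0, 0, 0] : Fin 7 → F) j) := by
    intro j
    rw [e]
    have h : eqs (q0 m n) (MvPolynomial.X : Fin 7 → MvPolynomial (Fin 7) ℤ) 3 =
        MvPolynomial.X 4 * MvPolynomial.X 5 - fV (q0 m n) MvPolynomial.X * MvPolynomial.X 6 := rfl
    rw [h, map_sub, map_sub, PC1_mul, PC1_mul, PC1_X, PC1_X, PC1_X, PC1_dV, PC1_aV, MvPolynomial.aeval_X,
      MvPolynomial.aeval_X, MvPolynomial.aeval_X]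
  have r4 : ∀ j, JE (q0 m n) P 4 j = P 4 * (if (6 : Fin 7) = j then 1 else 0) + P 6 * (if (4 : Fin 7) = j then 1 else 0) -
      (fW (q0 m n) P * (if (5 : Fin 7) = j then 1 else 0) + P 5 * (![0, 0, 2 * P 2, -(2 * P 3), 0, 0, 0] : Fin 7 → F) j) := by
    intro j
    rw [e]
    have h : eqs (q0 m n) (MvPolynomial.X : Fin 7 → MvPolynomial (Fin 7) ℤ) 4 =
        MvPolynomial.X 4 * MvPolynomial.X 6 - fW (q0 m n) MvPolynomial.X * MvPolynomial.X 5 := rfl
    rw [h, map_sub, map_sub, PC1_mul, PC1_mul, PC1_X, PC1_X, PC1_X, PC1_dW, PC1_aW, MvPolynomial.aeval_X,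
      MvPolynomial.aeval_X, MvPolynomial.aeval_X]
  have r5 : ∀ j, JE (q0 m n) P 5 j = P 5 * (if (6 : Fin 7) = j then 1 else 0) + P 6 * (if (5 : Fin 7) = j then 1 else 0) -
      (fD (q0 m n) P * (if (4 : Fin 7) = j then 1 else 0) +
        P 4 * (![gE m n P 0, gE m n P 1, gE m n P 2, gE m n P 3, 0, 0, 0] : Fin 7 → F) j) := by
    intro j
    rw [e]
    have h : eqs (q0 m n) (MvPolynomial.X : Fin 7 → MvPolynomial (Fin 7) ℤ) 5 =
        MvPolynomial.X 5 * MvPolynomial.X 6 - fD (q0 m n) MvPolynomial.X * MvPolynomial.X 4 := rfl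
    rw [h, map_sub, map_sub, PC1_mul, PC1_mul, PC1_X, PC1_X, PC1_X, PC1_dD hm hn, PC1_aD hm hn, MvPolynomial.aeval_X,
      MvPolynomial.aeval_X, MvPolynomial.aeval_X]
  ext i j
  fin_cases i
  · show JE (q0 m n) P 0 j = _
    rw [r0]
    fin_cases j <;> simp <;> ring
  · show JE (q0 m n) P 1 j = _
    rw [r1]
    fin_cases j <;> simp <;> ring
  · show JE (q0 m n) P 2 j = _
    rw [r2]
    fin_cases j <;> simp <;> ring
  · show JE (q0 m n) P 3 j = _
    rw [r3]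
    fin_cases j <;> simp <;> ring
  · show JE (q0 m n) P 4 j = _
    rw [r4]
    fin_cases j <;> simp <;> ring
  · show JE (q0 m n) P 5 j = _
    rw [r5]
    fin_cases j <;> simp <;> ring

theorem PC1_nz {k : Type} [Field k] {m n : ℕ} (h6 : ((6 * m * n : ℕ) : k) ≠ 0) :
    (2 : k) ≠ 0 ∧ (3 : k) ≠ 0 ∧ (m : k) ≠ 0 ∧ (n : k) ≠ 0 := by
  refine ⟨?_, ?_, ?_, ?_⟩
  · intro h
    apply h6
    have e : ((6 * m * n : ℕ) : k) = 2 * (3 * m * n) := by push_cast; ring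
    rw [e, h, zero_mul]
  · intro h
    apply h6
    have e : ((6 * m * n : ℕ) : k) = 3 * (2 * m * n) := by push_cast; ring
    rw [e, h, zero_mul]
  · intro h
    apply h6
    have e : ((6 * m * n : ℕ) : k) = m * (6 * n) := by push_cast; ring
    rw [e, h, zero_mul]
  · intro h
    apply h6
    have e : ((6 * m * n : ℕ) : k) = n * (6 * m) := by push_cast; ring
    rw [e, h, zero_mul]

theorem PC1_or {k : Type} [Field k] {a b x y : k} {e : ℕ} (ha : a ≠ 0) (hb : b ≠ 0) (h : a * b * x ^ e * y = 0) :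
    x = 0 ∨ y = 0 := by
  rcases mul_eq_zero.mp h with h1 | h1
  · rcases mul_eq_zero.mp h1 with h2 | h2
    · exact absurd h2 (mul_ne_zero ha hb)
    · exact Or.inl (eq_zero_of_pow_eq_zero h2)
  · exact Or.inr h1

/-- Proof. `6 m n ≠ 0` in `k`. If all four vanish: `x = 0` or `y^2n + t^2n = 0`; `z = 0` or `y^2n = 2 t^2n`; `y = 0` or `x^2m + z^2m = 0`; `t = 0` or `x^2m = 2 z^2m`. `x = 0` (so `z ≠ 0`): `y^2n = 2 t^2n`, and `z^2m ≠ 0` gives `y = 0`, so `2 t^2n = 0`, `t = 0`. `z = 0` (so `x ≠ 0`): `y^2n + t^2n = 0`, `y = 0`, `t = 0`. Both nonzero: `3 t^2n = 0`, `t = 0`, `y = 0`. -/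
theorem gE_ne {k : Type} [Field k] {m n : ℕ} (hm : 1 ≤ m) (hn : 1 ≤ n) (h6 : ((6 * m * n : ℕ) : k) ≠ 0) (P : Fin 7 → k)
    (h1 : ¬ (P 0 = 0 ∧ P 1 = 0)) (h2 : ¬ (P 2 = 0 ∧ P 3 = 0)) : ∃ i, gE m n P i ≠ 0 := by
  obtain ⟨n2, n3, nm, nn⟩ := PC1_nz h6
  by_contra hcon
  push Not at hcon
  have a0 : P 0 = 0 ∨ P 2 ^ (2 * n) + P 3 ^ (2 * n) = 0 := PC1_or n2 nm (hcon 0)
  have a1 : P 1 = 0 ∨ P 2 ^ (2 * n) - 2 * P 3 ^ (2 * n) = 0 := PC1_or n2 nm (hcon 1)
  have a2 : P 2 = 0 ∨ P 0 ^ (2 * m) + P 1 ^ (2 * m) = 0 := PC1_or n2 nn (hcon 2)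
  have hm' : 2 * m ≠ 0 := by omega
  have hn' : 2 * n ≠ 0 := by omega
  rcases a0 with b0 | b0
  · have c1 : P 1 ≠ 0 := fun h => h1 ⟨b0, h⟩
    have c2 := a1.resolve_left c1
    have c3 : P 2 = 0 := by
      rcases a2 with h | h
      · exact h
      · exfalso
        rw [b0, zero_pow hm', zero_add] at h
        exact c1 (eq_zero_of_pow_eq_zero h)
    rw [c3, zero_pow hn', zero_sub, neg_eq_zero] at c2
    have c4 := eq_zero_of_pow_eq_zero ((mul_eq_zero.mp c2).resolve_left n2)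
    exact h2 ⟨c3, c4⟩
  · rcases a1 with b1 | b1
    · have c0 : P 0 ≠ 0 := fun h => h1 ⟨h, b1⟩
      have c3 : P 2 = 0 := by
        rcases a2 with h | h
        · exact h
        · exfalso
          rw [b1, zero_pow hm', add_zero] at h
          exact c0 (eq_zero_of_pow_eq_zero h)
      rw [c3, zero_pow hn', zero_add] at b0
      exact h2 ⟨c3, eq_zero_of_pow_eq_zero b0⟩
    · have c : 3 * P 3 ^ (2 * n) = 0 := by linear_combination b0 - b1
      have c4 := (mul_eq_zero.mp c).resolve_left n3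
      rw [c4, add_zero] at b0
      exact h2 ⟨eq_zero_of_pow_eq_zero b0, eq_zero_of_pow_eq_zero c4⟩

/-- Proof. `y² = t²`, so `y^2n = t^2n`, `t ≠ 0`: `gE 0 = 2 m x^(2m-1) 2 t^2n`, `gE 1 = - 2 m z^(2m-1) t^2n`, and `x` or `z` is not `0`. -/
theorem gE_ne1 {k : Type} [Field k] {m n : ℕ} (hm : 1 ≤ m) (hn : 1 ≤ n) (h6 : ((6 * m * n : ℕ) : k) ≠ 0) (P : Fin 7 → k)
    (h1 : ¬ (P 0 = 0 ∧ P 1 = 0)) (h2 : ¬ (P 2 = 0 ∧ P 3 = 0)) (hW : P 2 ^ 2 - P 3 ^ 2 = 0) : gE m n P 0 ≠ 0 ∨ gE m n P 1 ≠ 0 := by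
  obtain ⟨n2, n3, nm, nn⟩ := PC1_nz h6
  have e : P 2 ^ (2 * n) = P 3 ^ (2 * n) := by rw [pow_mul, pow_mul, sub_eq_zero.mp hW]
  have ht : P 3 ^ (2 * n) ≠ 0 := by
    intro h
    have h3 := eq_zero_of_pow_eq_zero h
    rw [h3, zero_pow (by norm_num), sub_zero] at hW
    exact h2 ⟨eq_zero_of_pow_eq_zero hW, h3⟩
  by_contra hcon
  push Not at hcon
  have a0 : P 0 = 0 ∨ P 2 ^ (2 * n) + P 3 ^ (2 * n) = 0 := PC1_or n2 nm hcon.1
  have a1 : P 1 = 0 ∨ P 2 ^ (2 * n) - 2 * P 3 ^ (2 * n) = 0 := PC1_or n2 nm hcon.2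
  rw [e] at a0 a1
  apply h1
  constructor
  · rcases a0 with h | h
    · exact h
    · exfalso
      have h' : 2 * P 3 ^ (2 * n) = 0 := by linear_combination h
      exact ht ((mul_eq_zero.mp h').resolve_left n2)
  · rcases a1 with h | h
    · exact h
    · exfalso
      exact ht (by linear_combination -h)

theorem gE_ne2 {k : Type} [Field k] {m n : ℕ} (hm : 1 ≤ m) (hn : 1 ≤ n) (h6 : ((6 * m * n : ℕ) : k) ≠ 0) (P : Fin 7 → k)
    (h1 : ¬ (P 0 = 0 ∧ P 1 = 0)) (h2 : ¬ (P 2 = 0 ∧ P 3 = 0)) (hV : P 0 ^ 2 - P 1 ^ 2 = 0) : gE m n P 2 ≠ 0 ∨ gE m n P 3 ≠ 0 := by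
  obtain ⟨n2, n3, nm, nn⟩ := PC1_nz h6
  have e : P 0 ^ (2 * m) = P 1 ^ (2 * m) := by rw [pow_mul, pow_mul, sub_eq_zero.mp hV]
  have ht : P 1 ^ (2 * m) ≠ 0 := by
    intro h
    have h3 := eq_zero_of_pow_eq_zero h
    rw [h3, zero_pow (by norm_num), sub_zero] at hV
    exact h1 ⟨eq_zero_of_pow_eq_zero hV, h3⟩
  by_contra hcon
  push Not at hcon
  have a0 : P 2 = 0 ∨ P 0 ^ (2 * m) + P 1 ^ (2 * m) = 0 := PC1_or n2 nn hcon.1
  have a1 : P 3 = 0 ∨ P 0 ^ (2 * m) - 2 * P 1 ^ (2 * m) = 0 := PC1_or n2 nn hcon.2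
  rw [e] at a0 a1
  apply h2
  constructor
  · rcases a0 with h | h
    · exact h
    · exfalso
      have h' : 2 * P 1 ^ (2 * m) = 0 := by linear_combination h
      exact ht ((mul_eq_zero.mp h').resolve_left n2)
  · rcases a1 with h | h
    · exact h
    · exfalso
      exact ht (by linear_combination -h)

theorem PC1_sq {k : Type} [Field k] {x y : k} (h : ¬ (x = 0 ∧ y = 0)) (hxy : x ^ 2 - y ^ 2 = 0) : x ≠ 0 := by
  intro hx
  apply h
  refine ⟨hx, ?_⟩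
  rw [hx, zero_pow (by norm_num), zero_sub, neg_eq_zero] at hxy
  exact eq_zero_of_pow_eq_zero hxy

/-- **Proof.** `V = fV`, `W = fW`, `D = fD`, `(x, z, y, t, a, b, c) = P`; `a² = V W`, `b² = V D`, `c² = W D`.
`V ≠ 0`: rows `0, 1, 3` (the column `c` is `(0, 0, -V)`). `a, b ≠ 0`: columns `a, b, c`, determinant `-4 a b V`. `a ≠ 0 = b` (`D = 0`): columns `j, a, c` with `gE j ≠ 0`, determinant `± 2 a V² gE_j`. `a = 0 ≠ b` (`W = 0`): columns `y, b, c` or `t, b, c`, determinant `± 4 b V² y`, `± 4 b V² t`.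
`a = b = 0` (`W = D = 0`): columns `i, j, c` with `i ∈ {x, z}`, `gE i ≠ 0` (`gE_ne1`), `j ∈ {y, t}` not zero: determinant `± V³ (2 y or 2 t) gE_i`.
`V = 0 ≠ W`: `a = b = 0`; rows `0, 2, 4`. `c ≠ 0`: columns `i, b, c` (`i ∈ {x, z}` not zero), determinant `± 4 x W² c`. `c = 0` (`D = 0`): columns `i, j, b`, `i ∈ {x, z}` not zero, `j ∈ {y, t}` with `gE j ≠ 0` (`gE_ne2`): `± 2 x W³ gE_j`.
`V = W = 0`: `a = b = c = 0`, `x² = z²`, `y² = t²`, `D = z^2m t^2n ≠ 0`: rows `1, 2, 5`, columns `i, j, a`, `i ∈ {x, z}`, `j ∈ {y, t}` not zero: `± 4 x y D³`. (`Matrix.det_fin_three` with `JE_q0`; `2 ≠ 0`.) -/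
theorem jac_q0 {k : Type} [Field k] {m n : ℕ} (hm : 1 ≤ m) (hn : 1 ≤ n) (h6 : ((6 * m * n : ℕ) : k) ≠ 0) (P : Fin 7 → k)
    (hP : IsPt (q0 m n) P) : ∃ (r : Fin 3 → Fin 6) (c : Fin 3 → Fin 7), ((JE (q0 m n) P).submatrix r c).det ≠ 0 := by
  obtain ⟨n2, n3, nm, nn⟩ := PC1_nz h6
  obtain ⟨h1, h2, h3⟩ := hP
  have ea : P 4 ^ 2 - fV (q0 m n) P * fW (q0 m n) P = 0 := congrFun h3 0
  have eb : P 5 ^ 2 - fV (q0 m n) P * fD (q0 m n) P = 0 := congrFun h3 1
  have ec : P 6 ^ 2 - fW (q0 m n) P * fD (q0 m n) P = 0 := congrFun h3 2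
  by_cases hV : fV (q0 m n) P = 0
  · have hV' : P 0 ^ 2 - P 1 ^ 2 = 0 := by rw [← fV_q0 m n P, hV]
    have hx : P 0 ≠ 0 := PC1_sq h1 hV'
    have a0 : P 4 = 0 := eq_zero_of_pow_eq_zero (n := 2) (by rw [hV, zero_mul, sub_zero] at ea; exact ea)
    have b0 : P 5 = 0 := eq_zero_of_pow_eq_zero (n := 2) (by rw [hV, zero_mul, sub_zero] at eb; exact eb)
    by_cases hW : fW (q0 m n) P = 0
    · have hW' : P 2 ^ 2 - P 3 ^ 2 = 0 := by rw [← fW_q0 m n P, hW]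
      have hy : P 2 ≠ 0 := PC1_sq h2 hW'
      have hD : fD (q0 m n) P ≠ 0 := by
        have e1 : P 1 ^ (2 * m) = P 0 ^ (2 * m) := by rw [pow_mul, pow_mul, ← sub_eq_zero.mp hV']
        have e2 : P 3 ^ (2 * n) = P 2 ^ (2 * n) := by rw [pow_mul, pow_mul, ← sub_eq_zero.mp hW']
        have e3 : fD (q0 m n) P = P 0 ^ (2 * m) * P 2 ^ (2 * n) := by
          rw [fD_q0 hm hn, e1, e2]
          ring
        rw [e3]
        exact mul_ne_zero (pow_ne_zero _ hx) (pow_ne_zero _ hy)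
      refine ⟨![1, 2, 5], ![0, 2, 4], ?_⟩
      have hd : ((JE (q0 m n) P).submatrix (![1, 2, 5] : Fin 3 → Fin 6) (![0, 2, 4] : Fin 3 → Fin 7)).det = -(4 * P 0 * P 2 * fD (q0 m n) P ^ 3) := by
        rw [Matrix.det_fin_three, JE_q0 hm hn P]
        simp [Matrix.submatrix_apply, hV, hW, a0, b0]
        ring
      rw [hd]
      have n4 : (4 : k) ≠ 0 := by
        have e : (4 : k) = 2 * 2 := by norm_num
        rw [e]; exact mul_ne_zero n2 n2
      exact neg_ne_zero.mpr (mul_ne_zero (mul_ne_zero (mul_ne_zero n4 hx) hy) (pow_ne_zero _ hD))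
    · by_cases hc : P 6 = 0
      · have hD : fD (q0 m n) P = 0 := by
          rw [hc, zero_pow (by norm_num), zero_sub, neg_eq_zero] at ec
          exact (mul_eq_zero.mp ec).resolve_left hW
        rcases gE_ne2 hm hn h6 P h1 h2 hV' with g | g
        · refine ⟨![0, 2, 4], ![0, 2, 5], ?_⟩
          have hd : ((JE (q0 m n) P).submatrix (![0, 2, 4] : Fin 3 → Fin 6) (![0, 2, 5] : Fin 3 → Fin 7)).det = -(2 * P 0 * fW (q0 m n) P ^ 3 * gE m n P 2) := by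
            rw [Matrix.det_fin_three, JE_q0 hm hn P]
            simp [Matrix.submatrix_apply, hV, hD, a0, b0, hc]
            ring
          rw [hd]
          exact neg_ne_zero.mpr (mul_ne_zero (mul_ne_zero (mul_ne_zero n2 hx) (pow_ne_zero _ hW)) g)
        · refine ⟨![0, 2, 4], ![0, 3, 5], ?_⟩
          have hd : ((JE (q0 m n) P).submatrix (![0, 2, 4] : Fin 3 → Fin 6) (![0, 3, 5] : Fin 3 → Fin 7)).det = -(2 * P 0 * fW (q0 m n) P ^ 3 * gE m n P 3) := by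
            rw [Matrix.det_fin_three, JE_q0 hm hn P]
            simp [Matrix.submatrix_apply, hV, hD, a0, b0, hc]
            ring
          rw [hd]
          exact neg_ne_zero.mpr (mul_ne_zero (mul_ne_zero (mul_ne_zero n2 hx) (pow_ne_zero _ hW)) g)
      · refine ⟨![0, 2, 4], ![0, 5, 6], ?_⟩
        have hd : ((JE (q0 m n) P).submatrix (![0, 2, 4] : Fin 3 → Fin 6) (![0, 5, 6] : Fin 3 → Fin 7)).det = -(2 * 2 * P 0 * P 6 * fW (q0 m n) P ^ 2) := by
          rw [Matrix.det_fin_three, JE_q0 hm hn P]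
          simp [Matrix.submatrix_apply, hV, a0, b0]
          ring
        rw [hd]
        exact neg_ne_zero.mpr (mul_ne_zero (mul_ne_zero (mul_ne_zero (mul_ne_zero n2 n2) hx) hc) (pow_ne_zero _ hW))
  · by_cases ha : P 4 = 0
    · have hW : fW (q0 m n) P = 0 := by
        rw [ha, zero_pow (by norm_num), zero_sub, neg_eq_zero] at ea
        exact (mul_eq_zero.mp ea).resolve_left hV
      have hW' : P 2 ^ 2 - P 3 ^ 2 = 0 := by rw [← fW_q0 m n P, hW]
      have hy : P 2 ≠ 0 := PC1_sq h2 hW'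
      by_cases hb : P 5 = 0
      · have hD : fD (q0 m n) P = 0 := by
          rw [hb, zero_pow (by norm_num), zero_sub, neg_eq_zero] at eb
          exact (mul_eq_zero.mp eb).resolve_left hV
        rcases gE_ne1 hm hn h6 P h1 h2 hW' with g | g
        · refine ⟨![0, 1, 3], ![0, 2, 6], ?_⟩
          have hd : ((JE (q0 m n) P).submatrix (![0, 1, 3] : Fin 3 → Fin 6) (![0, 2, 6] : Fin 3 → Fin 7)).det = 2 * P 2 * fV (q0 m n) P ^ 3 * gE m n P 0 := by
            rw [Matrix.det_fin_three, JE_q0 hm hn P]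
            simp [Matrix.submatrix_apply, hW, hD, ha, hb]
            ring
          rw [hd]
          exact mul_ne_zero (mul_ne_zero (mul_ne_zero n2 hy) (pow_ne_zero _ hV)) g
        · refine ⟨![0, 1, 3], ![1, 2, 6], ?_⟩
          have hd : ((JE (q0 m n) P).submatrix (![0, 1, 3] : Fin 3 → Fin 6) (![1, 2, 6] : Fin 3 → Fin 7)).det = 2 * P 2 * fV (q0 m n) P ^ 3 * gE m n P 1 := by
            rw [Matrix.det_fin_three, JE_q0 hm hn P]
            simp [Matrix.submatrix_apply, hW, hD, ha, hb]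
            ring
          rw [hd]
          exact mul_ne_zero (mul_ne_zero (mul_ne_zero n2 hy) (pow_ne_zero _ hV)) g
      · refine ⟨![0, 1, 3], ![2, 5, 6], ?_⟩
        have hd : ((JE (q0 m n) P).submatrix (![0, 1, 3] : Fin 3 → Fin 6) (![2, 5, 6] : Fin 3 → Fin 7)).det = 2 * 2 * P 2 * P 5 * fV (q0 m n) P ^ 2 := by
          rw [Matrix.det_fin_three, JE_q0 hm hn P]
          simp [Matrix.submatrix_apply, hW, ha]
          ring
        rw [hd]
        exact mul_ne_zero (mul_ne_zero (mul_ne_zero (mul_ne_zero n2 n2) hy) hb) (pow_ne_zero _ hV)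
    · by_cases hb : P 5 = 0
      · have hD : fD (q0 m n) P = 0 := by
          rw [hb, zero_pow (by norm_num), zero_sub, neg_eq_zero] at eb
          exact (mul_eq_zero.mp eb).resolve_left hV
        obtain ⟨i, hi⟩ := gE_ne hm hn h6 P h1 h2
        fin_cases i
        · refine ⟨![0, 1, 3], ![0, 4, 6], ?_⟩
          have hd : ((JE (q0 m n) P).submatrix (![0, 1, 3] : Fin 3 → Fin 6) (![0, 4, 6] : Fin 3 → Fin 7)).det = -(2 * P 4 * fV (q0 m n) P ^ 2 * gE m n P 0) := by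
            rw [Matrix.det_fin_three, JE_q0 hm hn P]
            simp [Matrix.submatrix_apply, hD, hb]
            ring
          rw [hd]
          exact neg_ne_zero.mpr (mul_ne_zero (mul_ne_zero (mul_ne_zero n2 ha) (pow_ne_zero _ hV)) hi)
        · refine ⟨![0, 1, 3], ![1, 4, 6], ?_⟩
          have hd : ((JE (q0 m n) P).submatrix (![0, 1, 3] : Fin 3 → Fin 6) (![1, 4, 6] : Fin 3 → Fin 7)).det = -(2 * P 4 * fV (q0 m n) P ^ 2 * gE m n P 1) := by
            rw [Matrix.det_fin_three, JE_q0 hm hn P]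
            simp [Matrix.submatrix_apply, hD, hb]
            ring
          rw [hd]
          exact neg_ne_zero.mpr (mul_ne_zero (mul_ne_zero (mul_ne_zero n2 ha) (pow_ne_zero _ hV)) hi)
        · refine ⟨![0, 1, 3], ![2, 4, 6], ?_⟩
          have hd : ((JE (q0 m n) P).submatrix (![0, 1, 3] : Fin 3 → Fin 6) (![2, 4, 6] : Fin 3 → Fin 7)).det = -(2 * P 4 * fV (q0 m n) P ^ 2 * gE m n P 2) := by
            rw [Matrix.det_fin_three, JE_q0 hm hn P]
            simp [Matrix.submatrix_apply, hD, hb]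
            ring
          rw [hd]
          exact neg_ne_zero.mpr (mul_ne_zero (mul_ne_zero (mul_ne_zero n2 ha) (pow_ne_zero _ hV)) hi)
        · refine ⟨![0, 1, 3], ![3, 4, 6], ?_⟩
          have hd : ((JE (q0 m n) P).submatrix (![0, 1, 3] : Fin 3 → Fin 6) (![3, 4, 6] : Fin 3 → Fin 7)).det = -(2 * P 4 * fV (q0 m n) P ^ 2 * gE m n P 3) := by
            rw [Matrix.det_fin_three, JE_q0 hm hn P]
            simp [Matrix.submatrix_apply, hD, hb]
            ring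
          rw [hd]
          exact neg_ne_zero.mpr (mul_ne_zero (mul_ne_zero (mul_ne_zero n2 ha) (pow_ne_zero _ hV)) hi)
      · refine ⟨![0, 1, 3], ![4, 5, 6], ?_⟩
        have hd : ((JE (q0 m n) P).submatrix (![0, 1, 3] : Fin 3 → Fin 6) (![4, 5, 6] : Fin 3 → Fin 7)).det = -(2 * 2 * P 4 * P 5 * fV (q0 m n) P) := by
          rw [Matrix.det_fin_three, JE_q0 hm hn P]
          simp [Matrix.submatrix_apply]
          left
          ring
        rw [hd]
        exact neg_ne_zero.mpr (mul_ne_zero (mul_ne_zero (mul_ne_zero (mul_ne_zero n2 n2) ha) hb) hV)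

end HNE
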