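import Pool.Agent.Lib.MP_1ad228_ntE.PC1

/-! The Jacobian matrix: functoriality, scaling, reduction. -/

set_option autoImplicit false

open Classical

namespace HNE

open Finset Polynomial FGO FQQ HNF

theorem PC2_vV {F F' : Type} [CommRing F] [CommRing F'] (φ : F →+* F') (v : ℤ × ℤ × ℤ) (x z : F) :
    φ (vV v x z) = vV v (φ x) (φ z) := by
  unfold vV
  rw [map_add, map_add, map_mul, map_mul, map_mul, map_mul, map_pow, map_pow, map_intCast, map_intCast, map_intCast]

theorem PC2_vB {F F' : Type} [CommRing F] [CommRing F'] (φ : F →+* F') {k l : ℕ} (G : Fin k → Fin l → ℤ) (x z y t : F) :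
    φ (vB G x z y t) = vB G (φ x) (φ z) (φ y) (φ t) := by
  unfold vB
  rw [map_sum]
  refine Finset.sum_congr rfl fun i _ => ?_
  rw [map_sum]
  refine Finset.sum_congr rfl fun j _ => ?_
  rw [map_mul, map_mul, map_mul, map_mul, map_pow, map_pow, map_pow, map_pow, map_intCast]

theorem PC2_fV {F F' : Type} [CommRing F] [CommRing F'] (φ : F →+* F') {m n : ℕ} (q : Dt m n) (P : Fin 7 → F) :
    φ (fV q P) = fV q (fun j => φ (P j)) := PC2_vV φ _ _ _

theorem PC2_fW {F F' : Type} [CommRing F] [CommRing F'] (φ : F →+* F') {m n : ℕ} (q : Dt m n) (P : Fin 7 → F) :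
    φ (fW q P) = fW q (fun j => φ (P j)) := PC2_vV φ _ _ _

theorem PC2_fD {F F' : Type} [CommRing F] [CommRing F'] (φ : F →+* F') {m n : ℕ} (q : Dt m n) (P : Fin 7 → F) :
    φ (fD q P) = fD q (fun j => φ (P j)) := by
  unfold fD
  rw [map_add, map_mul, PC2_vB, PC2_vB]

theorem map_eqs {F F' : Type} [CommRing F] [CommRing F'] (φ : F →+* F') {m n : ℕ} (q : Dt m n) (P : Fin 7 → F) (i : Fin 6) :
    φ (eqs q P i) = eqs q (fun j => φ (P j)) i := by
  unfold eqs
  rw [← PC2_fV, ← PC2_fW, ← PC2_fD]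
  fin_cases i
  · show φ (P 4 ^ 2 - fV q P * fW q P) = φ (P 4) ^ 2 - φ (fV q P) * φ (fW q P)
    rw [map_sub, map_mul, map_pow]
  · show φ (P 5 ^ 2 - fV q P * fD q P) = φ (P 5) ^ 2 - φ (fV q P) * φ (fD q P)
    rw [map_sub, map_mul, map_pow]
  · show φ (P 6 ^ 2 - fW q P * fD q P) = φ (P 6) ^ 2 - φ (fW q P) * φ (fD q P)
    rw [map_sub, map_mul, map_pow]
  · show φ (P 4 * P 5 - fV q P * P 6) = φ (P 4) * φ (P 5) - φ (fV q P) * φ (P 6)
    rw [map_sub, map_mul, map_mul]
  · show φ (P 4 * P 6 - fW q P * P 5) = φ (P 4) * φ (P 6) - φ (fW q P) * φ (P 5)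
    rw [map_sub, map_mul, map_mul]
  · show φ (P 5 * P 6 - fD q P * P 4) = φ (P 5) * φ (P 6) - φ (fD q P) * φ (P 4)
    rw [map_sub, map_mul, map_mul]

theorem PC2_map_aeval {F F' : Type} [CommRing F] [CommRing F'] (φ : F →+* F') (P : Fin 7 → F) (p : MvPolynomial (Fin 7) ℤ) :
    φ (MvPolynomial.aeval P p) = MvPolynomial.aeval (fun j => φ (P j)) p := by
  induction p using MvPolynomial.induction_on with
  | C a => rw [MvPolynomial.aeval_C, MvPolynomial.aeval_C, eq_intCast (algebraMap ℤ F), eq_intCast (algebraMap ℤ F'), map_intCast]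
  | add p q hp hq => rw [map_add, map_add, hp, hq, map_add]
  | mul_X p j hp => rw [map_mul, map_mul, hp, map_mul, MvPolynomial.aeval_X, MvPolynomial.aeval_X]

/-- the equations at a point are the values of the polynomials. -/
theorem PC2_eqs_aeval {F : Type} [CommRing F] {m n : ℕ} (q : Dt m n) (P : Fin 7 → F) (i : Fin 6) :
    MvPolynomial.aeval P (eqs q (MvPolynomial.X : Fin 7 → MvPolynomial (Fin 7) ℤ) i) = eqs q P i := by
  have h := map_eqs ((MvPolynomial.aeval P : MvPolynomial (Fin 7) ℤ →ₐ[ℤ] F) : MvPolynomial (Fin 7) ℤ →+* F) q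
    (MvPolynomial.X : Fin 7 → MvPolynomial (Fin 7) ℤ) i
  refine h.trans ?_
  congr 1
  funext j
  exact MvPolynomial.aeval_X P j

/-- The coefficient of `ε` of the value at `P + c ε e_j`. -/
theorem PC2_aeval_eps {F S : Type} [CommRing F] [CommRing S] (φ : F →+* S) {e : S} (he : e * e = 0) (P : Fin 7 → F) (j : Fin 7)
    (c : F) (p : MvPolynomial (Fin 7) ℤ) :
    MvPolynomial.aeval (fun l => φ (P l) + (if l = j then φ c * e else 0)) p =
      φ (MvPolynomial.aeval P p) + φ (c * MvPolynomial.aeval P (MvPolynomial.pderiv j p)) * e := by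
  induction p using MvPolynomial.induction_on with
  | C a =>
    rw [MvPolynomial.aeval_C, MvPolynomial.aeval_C, MvPolynomial.pderiv_C, map_zero, mul_zero, map_zero, zero_mul, add_zero,
      eq_intCast (algebraMap ℤ F), eq_intCast (algebraMap ℤ S), map_intCast]
  | add p q hp hq =>
    rw [map_add, hp, hq, map_add, map_add, map_add, map_add, mul_add, map_add, add_mul]
    ring
  | mul_X p l hp =>
    have e1 : MvPolynomial.aeval P (p * MvPolynomial.X l) = MvPolynomial.aeval P p * P l := by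
      rw [map_mul, MvPolynomial.aeval_X]
    have e2 : MvPolynomial.aeval P (MvPolynomial.pderiv j (p * MvPolynomial.X l)) =
        MvPolynomial.aeval P (MvPolynomial.pderiv j p) * P l + MvPolynomial.aeval P p * (if l = j then 1 else 0) := by
      rw [MvPolynomial.pderiv_mul, map_add, map_mul, map_mul, MvPolynomial.aeval_X, MvPolynomial.pderiv_X]
      by_cases hl : l = j
      · subst hl
        rw [if_pos rfl, Pi.single_eq_same, map_one]
      · rw [if_neg hl, Pi.single_eq_of_ne hl, map_zero]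
    rw [e1, e2, map_mul, hp, MvPolynomial.aeval_X]
    by_cases hl : l = j
    · rw [if_pos hl, if_pos hl]
      simp only [map_add, map_mul, mul_one]
      linear_combination (φ c * φ (MvPolynomial.aeval P (MvPolynomial.pderiv j p)) * φ c) * he
    · rw [if_neg hl, if_neg hl]
      simp only [map_mul, mul_zero, add_zero]
      ring

/-- `eqs_eps` with `c ε` in place of `ε`. -/
theorem PC2_eqs_eps0 {F S : Type} [CommRing F] [CommRing S] (φ : F →+* S) {e : S} (he : e * e = 0) {m n : ℕ} (q : Dt m n)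
    (P : Fin 7 → F) (i : Fin 6) (j : Fin 7) (c : F) :
    eqs q (fun l => φ (P l) + (if l = j then φ c * e else 0)) i = φ (eqs q P i) + φ (c * JE q P i j) * e := by
  have h1 := PC2_eqs_aeval q (fun l => φ (P l) + (if l = j then φ c * e else 0)) i
  have h2 := PC2_eqs_aeval q P i
  have h3 := PC2_aeval_eps φ he P j c (eqs q (MvPolynomial.X : Fin 7 → MvPolynomial (Fin 7) ℤ) i)
  rw [h1, h2] at h3
  exact h3

theorem PC2_eqs_eps {F : Type} [CommRing F] {m n : ℕ} (q : Dt m n) (P : Fin 7 → F) (i : Fin 6) (j : Fin 7) (c : F) :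
    eqs q (fun l => (algebraMap F (DualNumber F) (P l) +
        (if l = j then algebraMap F (DualNumber F) c * DualNumber.eps else 0) : DualNumber F)) i =
      algebraMap F (DualNumber F) (eqs q P i) + algebraMap F (DualNumber F) (c * JE q P i j) * DualNumber.eps :=
  PC2_eqs_eps0 (algebraMap F (DualNumber F)) DualNumber.eps_mul_eps q P i j c

theorem PC2_ext {F : Type} [CommRing F] {a b a' b' : F}
    (h : algebraMap F (DualNumber F) a + algebraMap F (DualNumber F) b * DualNumber.eps =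
      algebraMap F (DualNumber F) a' + algebraMap F (DualNumber F) b' * DualNumber.eps) : a = a' ∧ b = b' := by
  have h1 := congrArg TrivSqZeroExt.fst h
  have h2 := congrArg TrivSqZeroExt.snd h
  constructor
  · simpa [TrivSqZeroExt.algebraMap_eq_inl] using h1
  · simpa [TrivSqZeroExt.algebraMap_eq_inl] using h2

theorem PC2_vV_scale {F : Type} [CommRing F] (v : ℤ × ℤ × ℤ) (lam x z : F) : vV v (lam * x) (lam * z) = lam ^ 2 * vV v x z := by
  unfold vV
  ring

theorem PC2_vB_scale {F : Type} [CommRing F] {k l : ℕ} (G : Fin k → Fin l → ℤ) (lam mu x z y t : F) :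
    vB G (lam * x) (lam * z) (mu * y) (mu * t) = lam ^ (k - 1) * mu ^ (l - 1) * vB G x z y t := by
  unfold vB
  rw [Finset.mul_sum]
  refine Finset.sum_congr rfl fun i _ => ?_
  rw [Finset.mul_sum]
  refine Finset.sum_congr rfl fun j _ => ?_
  have h1 : lam ^ (i : ℕ) * lam ^ (k - 1 - (i : ℕ)) = lam ^ (k - 1) := by
    rw [← pow_add]
    congr 1
    have := i.2
    omega
  have h2 : mu ^ (j : ℕ) * mu ^ (l - 1 - (j : ℕ)) = mu ^ (l - 1) := by
    rw [← pow_add]
    congr 1
    have := j.2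
    omega
  rw [← h1, ← h2, mul_pow, mul_pow, mul_pow, mul_pow]
  ring

theorem PC2_fV_scale {F : Type} [CommRing F] {m n : ℕ} (q : Dt m n) (P : Fin 7 → F) (lam mu : F) :
    fV q (fun j => scl m n lam mu j * P j) = lam ^ 2 * fV q P := PC2_vV_scale _ _ _ _

theorem PC2_fW_scale {F : Type} [CommRing F] {m n : ℕ} (q : Dt m n) (P : Fin 7 → F) (lam mu : F) :
    fW q (fun j => scl m n lam mu j * P j) = mu ^ 2 * fW q P := PC2_vV_scale _ _ _ _

theorem PC2_fD_scale {F : Type} [CommRing F] {m n : ℕ} (hm : 1 ≤ m) (hn : 1 ≤ n) (q : Dt m n) (P : Fin 7 → F) (lam mu : F) :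
    fD q (fun j => scl m n lam mu j * P j) = lam ^ (2 * m) * mu ^ (2 * n) * fD q P := by
  have h1 := PC2_vB_scale q.2.1 lam mu (P 0) (P 1) (P 2) (P 3)
  have h2 := PC2_vB_scale q.2.2 lam mu (P 0) (P 1) (P 2) (P 3)
  show vB q.2.1 (lam * P 0) (lam * P 1) (mu * P 2) (mu * P 3) +
    lam * mu * P 4 * vB q.2.2 (lam * P 0) (lam * P 1) (mu * P 2) (mu * P 3) = _
  rw [h1, h2]
  unfold fD
  have h3 : lam ^ (2 * m) = lam ^ (2 * m - 1) * lam := by
    rw [← pow_succ]
    congr 1
    omega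
  have h4 : mu ^ (2 * n) = mu ^ (2 * n - 1) * mu := by
    rw [← pow_succ]
    congr 1
    omega
  rw [Nat.add_sub_cancel, Nat.add_sub_cancel, mul_add, h3, h4]
  ring
/-- Proof. `MvPolynomial.aeval` over `ℤ` is `eval₂ (Int.castRingHom _)`; `MvPolynomial.hom_eval₂` or `MvPolynomial.induction_on`. -/
theorem map_JE {F F' : Type} [CommRing F] [CommRing F'] (φ : F →+* F') {m n : ℕ} (q : Dt m n) (P : Fin 7 → F) (i : Fin 6)
    (j : Fin 7) : φ (JE q P i j) = JE q (fun j => φ (P j)) i j :=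
  PC2_map_aeval φ P _

/-- Proof. `fV`, `fW`, `fD` are multiplied by `lam²`, `mu²`, `lam^(2m) mu^(2n)` (homogeneity; `H` of bidegree `(2m-1, 2n-1)` and `a ↦ lam mu a`, `m, n ≥ 1`); then each equation by `ring` (exponents: `pow_succ`, `pow_mul`). -/
theorem eqs_scale {F : Type} [CommRing F] {m n : ℕ} (hm : 1 ≤ m) (hn : 1 ≤ n) (q : Dt m n) (P : Fin 7 → F) (lam mu : F) (i : Fin 6) :
    eqs q (fun j => scl m n lam mu j * P j) i = sce m n lam mu i * eqs q P i := by
  unfold eqs
  rw [PC2_fV_scale, PC2_fW_scale, PC2_fD_scale hm hn]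
  generalize fV q P = v
  generalize fW q P = w
  generalize fD q P = d
  fin_cases i
  · show (lam * mu * P 4) ^ 2 - lam ^ 2 * v * (mu ^ 2 * w) = lam ^ 2 * mu ^ 2 * (P 4 ^ 2 - v * w)
    ring
  · show (lam ^ (m + 1) * mu ^ n * P 5) ^ 2 - lam ^ 2 * v * (lam ^ (2 * m) * mu ^ (2 * n) * d) =
      lam ^ (2 * m + 2) * mu ^ (2 * n) * (P 5 ^ 2 - v * d)
    ring
  · show (lam ^ m * mu ^ (n + 1) * P 6) ^ 2 - mu ^ 2 * w * (lam ^ (2 * m) * mu ^ (2 * n) * d) =
      lam ^ (2 * m) * mu ^ (2 * n + 2) * (P 6 ^ 2 - w * d)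
    ring
  · show lam * mu * P 4 * (lam ^ (m + 1) * mu ^ n * P 5) - lam ^ 2 * v * (lam ^ m * mu ^ (n + 1) * P 6) =
      lam ^ (m + 2) * mu ^ (n + 1) * (P 4 * P 5 - v * P 6)
    ring
  · show lam * mu * P 4 * (lam ^ m * mu ^ (n + 1) * P 6) - mu ^ 2 * w * (lam ^ (m + 1) * mu ^ n * P 5) =
      lam ^ (m + 1) * mu ^ (n + 2) * (P 4 * P 6 - w * P 5)
    ring
  · show lam ^ (m + 1) * mu ^ n * P 5 * (lam ^ m * mu ^ (n + 1) * P 6) - lam ^ (2 * m) * mu ^ (2 * n) * d * (lam * mu * P 4) =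
      lam ^ (2 * m + 1) * mu ^ (2 * n + 1) * (P 5 * P 6 - d * P 4)
    ring

/-- the derivative as the coefficient of `ε` in `F[ε]`. Proof. `MvPolynomial.induction_on` for `MvPolynomial.aeval (fun l => inl (P l) + (if l = j then ε else 0))` of any polynomial over `ℤ` (`DualNumber F`), applied to `eqs q X i` (`map_eqs` for the ring homomorphism `aeval _`). -/
theorem eqs_eps {F : Type} [CommRing F] {m n : ℕ} (q : Dt m n) (P : Fin 7 → F) (i : Fin 6) (j : Fin 7) :
    eqs q (fun l => (algebraMap F (DualNumber F) (P l) + (if l = j then DualNumber.eps else 0) : DualNumber F)) i =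
      algebraMap F (DualNumber F) (eqs q P i) + algebraMap F (DualNumber F) (JE q P i j) * DualNumber.eps := by
  have h := PC2_eqs_eps q P i j 1
  simp only [map_one, one_mul] at h
  exact h

theorem PC2_scl_map {F F' : Type} [CommRing F] [CommRing F'] (φ : F →+* F') (m n : ℕ) (lam mu : F) (j : Fin 7) :
    scl m n (φ lam) (φ mu) j = φ (scl m n lam mu j) := by
  fin_cases j
  · rfl
  · rfl
  · rfl
  · rfl
  · show φ lam * φ mu = φ (lam * mu)
    rw [map_mul]
  · show φ lam ^ (m + 1) * φ mu ^ n = φ (lam ^ (m + 1) * mu ^ n)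
    rw [map_mul, map_pow, map_pow]
  · show φ lam ^ m * φ mu ^ (n + 1) = φ (lam ^ m * mu ^ (n + 1))
    rw [map_mul, map_pow, map_pow]

theorem PC2_sce_map {F F' : Type} [CommRing F] [CommRing F'] (φ : F →+* F') (m n : ℕ) (lam mu : F) (i : Fin 6) :
    sce m n (φ lam) (φ mu) i = φ (sce m n lam mu i) := by
  fin_cases i
  · show φ lam ^ 2 * φ mu ^ 2 = φ (lam ^ 2 * mu ^ 2)
    rw [map_mul, map_pow, map_pow]
  · show φ lam ^ (2 * m + 2) * φ mu ^ (2 * n) = φ (lam ^ (2 * m + 2) * mu ^ (2 * n))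
    rw [map_mul, map_pow, map_pow]
  · show φ lam ^ (2 * m) * φ mu ^ (2 * n + 2) = φ (lam ^ (2 * m) * mu ^ (2 * n + 2))
    rw [map_mul, map_pow, map_pow]
  · show φ lam ^ (m + 2) * φ mu ^ (n + 1) = φ (lam ^ (m + 2) * mu ^ (n + 1))
    rw [map_mul, map_pow, map_pow]
  · show φ lam ^ (m + 1) * φ mu ^ (n + 2) = φ (lam ^ (m + 1) * mu ^ (n + 2))
    rw [map_mul, map_pow, map_pow]
  · show φ lam ^ (2 * m + 1) * φ mu ^ (2 * n + 1) = φ (lam ^ (2 * m + 1) * mu ^ (2 * n + 1))
    rw [map_mul, map_pow, map_pow]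

/-- **Proof.** `eqs_scale` over `DualNumber F` for the point `P + ε e_j` and `lam`, `mu ∈ F`: `scl · (P + ε e_j) = scl · P + ε scl_j e_j`. With `eqs_eps` for `sP = scl · P` in the direction `e_j` multiplied by `scl_j` (the analogue of `eqs_eps` with `c * ε` instead of `ε`: the coefficient of `ε` is `c * JE`; prove this version first), compare the coefficients of `ε`. -/
theorem JE_scale {F : Type} [CommRing F] {m n : ℕ} (hm : 1 ≤ m) (hn : 1 ≤ n) (q : Dt m n) (P : Fin 7 → F) (lam mu : F) (i : Fin 6)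
    (j : Fin 7) : JE q (fun j => scl m n lam mu j * P j) i j * scl m n lam mu j = sce m n lam mu i * JE q P i j := by
  have h1 := eqs_scale hm hn q (fun l => (algebraMap F (DualNumber F) (P l) + (if l = j then DualNumber.eps else 0) : DualNumber F))
    (algebraMap F (DualNumber F) lam) (algebraMap F (DualNumber F) mu) i
  rw [eqs_eps, PC2_sce_map] at h1
  have h2 : (fun l => scl m n (algebraMap F (DualNumber F) lam) (algebraMap F (DualNumber F) mu) l *
      (algebraMap F (DualNumber F) (P l) + (if l = j then DualNumber.eps else 0) : DualNumber F)) =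
      fun l => (algebraMap F (DualNumber F) (scl m n lam mu l * P l) +
        (if l = j then algebraMap F (DualNumber F) (scl m n lam mu j) * DualNumber.eps else 0) : DualNumber F) := by
    funext l
    rw [PC2_scl_map, map_mul, mul_add]
    by_cases hl : l = j
    · subst hl
      rw [if_pos rfl, if_pos rfl]
    · rw [if_neg hl, if_neg hl, mul_zero]
  rw [h2] at h1
  have h3 := PC2_eqs_eps q (fun l => scl m n lam mu l * P l) i j (scl m n lam mu j)
  rw [h3, mul_add, ← mul_assoc, ← map_mul, ← map_mul] at h1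
  have h4 := (PC2_ext h1).2
  rw [← h4, mul_comm]

theorem PC2_cast {F : Type} [CommRing F] {M : ℕ} (hM : (M : F) = 0) {a b : ℤ} (h : (M : ℤ) ∣ a - b) : (a : F) = (b : F) := by
  obtain ⟨c, hc⟩ := h
  have h1 : ((a - b : ℤ) : F) = 0 := by
    rw [hc]
    push_cast
    rw [hM, zero_mul]
  rw [Int.cast_sub] at h1
  exact sub_eq_zero.1 h1

theorem PC2_vV_congr {F : Type} [CommRing F] {M : ℕ} (hM : (M : F) = 0) {v w : V} (h : Cg M v w) (x z : F) :
    vV v x z = vV w x z := by
  unfold vV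
  rw [PC2_cast hM h.1, PC2_cast hM h.2.1, PC2_cast hM h.2.2]

theorem PC2_vB_congr {F : Type} [CommRing F] {M : ℕ} (hM : (M : F) = 0) {k l : ℕ} {G G' : Fin k → Fin l → ℤ}
    (h : ∀ i j, (M : ℤ) ∣ G i j - G' i j) (x z y t : F) : vB G x z y t = vB G' x z y t := by
  unfold vB
  refine Finset.sum_congr rfl fun i _ => Finset.sum_congr rfl fun j _ => ?_
  rw [PC2_cast hM (h i j)]

/-- **Proof.** All coefficients of `toDt f u` and of `q0 m n` are congruent modulo `M`, so in every commutative ring with `(M : F) = 0` their casts are equal, and `fV`, `fW`, `fD` are the same functions. -/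
theorem eqs_congr {F : Type} [CommRing F] {m n M : ℕ} (hM : (M : F) = 0) (f : Vn (TT m n)) (u : V × V) (h : ClE M f u)
    (P : Fin 7 → F) (i : Fin 6) : eqs (toDt f u) P i = eqs (q0 m n) P i := by
  have h1 : fV (toDt f u) P = fV (q0 m n) P := PC2_vV_congr hM h.2.1 _ _
  have h2 : fW (toDt f u) P = fW (q0 m n) P := PC2_vV_congr hM h.2.2 _ _
  have h3 : fD (toDt f u) P = fD (q0 m n) P := by
    have h4 := PC2_vB_congr hM (G := Gm (cG f)) (G' := Gm (cG (f0 m n))) (fun i j => h.1 _) (P 0) (P 1) (P 2) (P 3)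
    have h5 := PC2_vB_congr hM (G := cH f) (G' := cH (f0 m n)) (fun i j => h.1 _) (P 0) (P 1) (P 2) (P 3)
    show vB (Gm (cG f)) (P 0) (P 1) (P 2) (P 3) + P 4 * vB (cH f) (P 0) (P 1) (P 2) (P 3) =
      vB (Gm (cG (f0 m n))) (P 0) (P 1) (P 2) (P 3) + P 4 * vB (cH (f0 m n)) (P 0) (P 1) (P 2) (P 3)
    rw [h4, h5]
  unfold eqs
  rw [h1, h2, h3]

/-- Proof. `eqs_congr` over `DualNumber F` (`(M : DualNumber F) = 0`) and `eqs_eps`. -/
theorem JE_congr {F : Type} [CommRing F] {m n M : ℕ} (hM : (M : F) = 0) (f : Vn (TT m n)) (u : V × V) (h : ClE M f u)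
    (P : Fin 7 → F) : JE (toDt f u) P = JE (q0 m n) P := by
  ext i j
  have hM' : (M : DualNumber F) = 0 := by
    rw [← map_natCast (algebraMap F (DualNumber F)), hM, map_zero]
  have h1 := eqs_congr hM' f u h (fun l => (algebraMap F (DualNumber F) (P l) + (if l = j then DualNumber.eps else 0) : DualNumber F)) i
  rw [eqs_eps, eqs_eps] at h1
  exact (PC2_ext h1).2

theorem jac_field {k : Type} [Field k] {m n M : ℕ} (hm : 1 ≤ m) (hn : 1 ≤ n) (hM : (M : k) = 0) (h6 : ((6 * m * n : ℕ) : k) ≠ 0)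
    (f : Vn (TT m n)) (u : V × V) (h : ClE M f u) (P : Fin 7 → k) (hP : IsPt (toDt f u) P) :
    ∃ (r : Fin 3 → Fin 6) (c : Fin 3 → Fin 7), ((JE (toDt f u) P).submatrix r c).det ≠ 0 := by
  rw [JE_congr hM f u h P]
  refine jac_q0 hm hn h6 P ⟨hP.1, hP.2.1, ?_⟩
  funext i
  rw [← eqs_congr hM f u h P i, hP.2.2]

end HNE
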