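import Pool.Agent.Lib.MP_1ad228_ntE.EI1
import Pool.Agent.Lib.MP_1ad228_ntE.EA0
import Pool.Agent.Lib.MP_10e784_agF.LD
import Pool.Agent.Lib.MP_10e784_agF.D2

/-!
# MP_1ad228_nt, Enriques surfaces: definitions of part (2)
-/

set_option autoImplicit false

open Classical

namespace HNE

open Finset Polynomial FGO FQQ HNF

section ring

variable {F : Type} [CommRing F]

/-- the polynomial `g(X, 1)` -/
noncomputable def Pg {l : ℕ} (g : Fin l → F) : F[X] := ∑ i : Fin l, C (g i) * X ^ (i : ℕ)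

/-- the value at `(y, t)` of the form `g` of degree `l - 1` -/
def hg {l : ℕ} (g : Fin l → F) (y t : F) : F := ∑ j : Fin l, g j * (y ^ (j : ℕ) * t ^ (l - 1 - (j : ℕ)))

/-- the value at `(y, t)` of the form of degree `n` belonging to the polynomial `N` -/
noncomputable def hN (n : ℕ) (N : F[X]) (y t : F) : F := ∑ i ∈ range (n + 1), N.coeff i * (y ^ i * t ^ (n - i))

/-- the polynomial `g² - d w h²` -/
noncomputable def Nn {k : ℕ} (g : Fin (2 * k + 1) → F) (h : Fin (2 * k) → F) (d : F) (w : F × F × F) : F[X] :=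
  Pg g ^ 2 - C d * Pq w * Pg h ^ 2

/-- the resultant of `g² - d w h²` (of degree `4 k`) and its derivative -/
noncomputable def Dn {k : ℕ} (g : Fin (2 * k + 1) → F) (h : Fin (2 * k) → F) (d : F) (w : F × F × F) : F :=
  (Nn g h d w).resultant (derivative (Nn g h d w)) (4 * k) (4 * k - 1)

/-- the fibre over `(x : z)` is not good -/
def DA {m n : ℕ} (x z : F) (f : Fin (TT m n + 1) → F) (v w : F × F × F) : Prop :=
  qv v x z = 0 ∨ Dn (row (Gm (cG f)) x z) (row (cH f) x z) (qv v x z) w = 0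

/-- the fibre over `(y : t)` is not good -/
def DB {m n : ℕ} (y t : F) (f : Fin (TT m n + 1) → F) (v w : F × F × F) : Prop :=
  qv w y t = 0 ∨ Dn (col (Gm (cG f)) y t) (col (cH f) y t) (qv w y t) v = 0

/-- the bad event -/
def BdF {m n : ℕ} (f : Fin (TT m n + 1) → F) (v w : F × F × F) : Prop :=
  (ds v = 0 ∧ ds w = 0) ∨ (ds w = 0 ∧ ds v ≠ 0 ∧ DB 1 0 f v w) ∨ (ds v = 0 ∧ ds w ≠ 0 ∧ DA 1 0 f v w) ∨
    (ds v ≠ 0 ∧ ds w ≠ 0 ∧ DA 1 0 f v w ∧ DA 0 1 f v w)

end ring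

/-- the bad event at `p` -/
def BdP {m n : ℕ} (p : ℕ) (f : Vn (TT m n)) (u : V × V) : Prop := BdF (cN p f) (cV p u.1) (cV p u.2)

/-- the coefficients of `x^(2m) y^(2n) + x^(2m) t^(2n) + z^(2m) y^(2n) - 2 z^(2m) t^(2n)` -/
def G0 (m n : ℕ) (i : Fin (2 * m + 1)) (j : Fin (2 * n + 1)) : ℤ :=
  if (i : ℕ) = 2 * m ∧ (j : ℕ) = 2 * n then 1 else if (i : ℕ) = 2 * m ∧ (j : ℕ) = 0 then 1
  else if (i : ℕ) = 0 ∧ (j : ℕ) = 2 * n then 1 else if (i : ℕ) = 0 ∧ (j : ℕ) = 0 then -2 else 0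

/-- the vector of the coefficients of `G0` and `H = 0` -/
noncomputable def f0 (m n : ℕ) : Vn (TT m n) :=
  fun i => (Fin.addCases (fun _ => 0) (fun j => G0 m n (sg m n j).1 (sg m n j).2) : Fin (2 * m * (2 * n) + (MM m n + 1)) → ℤ) i

/-- the residue class modulo `M` of `v = x² - z²`, `w = y² - t²`, `G = G0`, `H = 0` -/
def ClE {m n : ℕ} (M : ℕ) (f : Vn (TT m n)) (u : V × V) : Prop :=
  CgN M f (f0 m n) ∧ Cg M u.1 (1, 0, -1) ∧ Cg M u.2 (1, 0, -1)

/-- signs -/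
def PosE {m n : ℕ} (f : Vn (TT m n)) (u : V × V) : Prop :=
  0 < Gm (cG f) (Fin.last (2 * m)) (Fin.last (2 * n)) ∧ 0 < u.1.1 ∧ 0 < u.2.1

/-- the constant of the mean value of the bad event -/
def CB (m n : ℕ) : ℕ := 4 + 16 * m + 48 * n + 256 * n ^ 2

/-- the primes must be larger than this number -/
def W0 (m n : ℕ) : ℕ := 4 * (m + n) + 5

section jac

variable {F : Type} [CommRing F] {m n : ℕ}

/-- the matrix of the partial derivatives of the six equations at the point `P` -/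
noncomputable def JE (q : Dt m n) (P : Fin 7 → F) : Matrix (Fin 6) (Fin 7) F :=
  Matrix.of fun (i : Fin 6) (j : Fin 7) =>
    MvPolynomial.aeval P (MvPolynomial.pderiv j (eqs q (MvPolynomial.X : Fin 7 → MvPolynomial (Fin 7) ℤ) i))

/-- the action of the torus on the coordinates -/
def scl (m n : ℕ) (lam mu : F) : Fin 7 → F :=
  ![lam, lam, mu, mu, lam * mu, lam ^ (m + 1) * mu ^ n, lam ^ m * mu ^ (n + 1)]

/-- the action of the torus on the equations -/
def sce (m n : ℕ) (lam mu : F) : Fin 6 → F :=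
  ![lam ^ 2 * mu ^ 2, lam ^ (2 * m + 2) * mu ^ (2 * n), lam ^ (2 * m) * mu ^ (2 * n + 2),
    lam ^ (m + 2) * mu ^ (n + 1), lam ^ (m + 1) * mu ^ (n + 2), lam ^ (2 * m + 1) * mu ^ (2 * n + 1)]

end jac

end HNE
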