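import Pool.Agent.Lib.MP_1ad228_ntE.PA4

/-! The size of the number `Dn` and its large prime divisors. -/

set_option autoImplicit false

open Classical

namespace HNE

open Finset Polynomial FGO FQQ HNF

/-- the coefficients of a product. Proof. `Polynomial.coeff_mul`: at most `i + 1` terms; those with an index above `d` or `e` vanish: at most `d + 1` terms are not zero. -/
theorem coeff_mul_le (P Q : ℤ[X]) (d : ℕ) (hP : P.natDegree ≤ d) (A B : ℤ) (hA : 0 ≤ A) (hB : 0 ≤ B)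
    (h1 : ∀ i, |P.coeff i| ≤ A) (h2 : ∀ i, |Q.coeff i| ≤ B) (i : ℕ) : |(P * Q).coeff i| ≤ (d + 1) * (A * B) := by
  have hAB : 0 ≤ A * B := mul_nonneg hA hB
  rw [Polynomial.coeff_mul, Finset.Nat.sum_antidiagonal_eq_sum_range_succ_mk]
  refine le_trans (Finset.abs_sum_le_sum_abs _ _) ?_
  have h3 : ∀ k ∈ range i.succ, |P.coeff k * Q.coeff (i - k)| ≤ if k ∈ range (d + 1) then A * B else 0 := by
    intro k _
    split_ifs with hk
    · rw [abs_mul]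
      exact mul_le_mul (h1 k) (h2 _) (abs_nonneg _) hA
    · have h4 : P.coeff k = 0 := by
        refine Polynomial.coeff_eq_zero_of_natDegree_lt ?_
        rw [Finset.mem_range] at hk
        omega
      rw [h4, zero_mul, abs_zero]
  refine le_trans (Finset.sum_le_sum h3) ?_
  rw [← Finset.sum_filter]
  rw [Finset.sum_const, nsmul_eq_mul]
  refine mul_le_mul_of_nonneg_right ?_ hAB
  have h5 : ((range i.succ).filter fun k => k ∈ range (d + 1)).card ≤ d + 1 := by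
    have h6 : ((range i.succ).filter fun k => k ∈ range (d + 1)) ⊆ range (d + 1) := by
      intro k hk
      exact (Finset.mem_filter.1 hk).2
    have h7 := Finset.card_le_card h6
    rwa [Finset.card_range] at h7
  exact_mod_cast h5

theorem PF0_Pg_coeff {l : ℕ} (g : Fin l → ℤ) (i : ℕ) : (Pg g).coeff i = if h : i < l then g ⟨i, h⟩ else 0 := by
  unfold Pg
  rw [Polynomial.finsetSum_coeff]
  by_cases h : i < l
  · rw [dif_pos h, Finset.sum_eq_single (⟨i, h⟩ : Fin l)]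
    · rw [Polynomial.coeff_C_mul, Polynomial.coeff_X_pow, if_pos rfl, mul_one]
    · intro b _ hb
      rw [Polynomial.coeff_C_mul, Polynomial.coeff_X_pow, if_neg, mul_zero]
      intro he
      exact hb (Fin.ext he.symm)
    · intro hb
      exact absurd (Finset.mem_univ _) hb
  · rw [dif_neg h]
    refine Finset.sum_eq_zero ?_
    intro b _
    rw [Polynomial.coeff_C_mul, Polynomial.coeff_X_pow, if_neg, mul_zero]
    intro he
    exact h (he ▸ b.2)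

theorem PF0_Pg_le {l : ℕ} (H : ℕ) (g : Fin l → ℤ) (hg : ∀ i, |g i| ≤ (H : ℤ)) (i : ℕ) : |(Pg g).coeff i| ≤ (H : ℤ) := by
  rw [PF0_Pg_coeff]
  split_ifs with h
  · exact hg _
  · rw [abs_zero]
    positivity

theorem PF0_sq {l : ℕ} (H : ℕ) (g : Fin l → ℤ) (hg : ∀ i, |g i| ≤ (H : ℤ)) (i : ℕ) :
    |(Pg g ^ 2).coeff i| ≤ (l : ℤ) * ((H : ℤ) * (H : ℤ)) := by
  rcases Nat.eq_zero_or_pos l with h0 | h0
  · subst h0
    have h1 : Pg g = 0 := by
      unfold Pg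
      simp
    rw [h1]
    simp
  · have hd : (Pg g).natDegree ≤ l - 1 := by
      rw [Polynomial.natDegree_le_iff_coeff_eq_zero]
      intro N hN
      rw [PF0_Pg_coeff, dif_neg]
      omega
    have h1 := coeff_mul_le (Pg g) (Pg g) (l - 1) hd H H (by positivity) (by positivity)
      (PF0_Pg_le H g hg) (PF0_Pg_le H g hg) i
    rw [sq]
    have h2 : (((l - 1 : ℕ) : ℤ) + 1) = (l : ℤ) := by omega
    rw [h2] at h1
    exact h1

theorem PF0_Pq_le (N : ℕ) (w : V) (hw : |w.1| ≤ (N : ℤ) ∧ |w.2.1| ≤ (N : ℤ) ∧ |w.2.2| ≤ (N : ℤ)) (i : ℕ) :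
    |(Pq w).coeff i| ≤ (N : ℤ) := by
  have hN : (0 : ℤ) ≤ N := by positivity
  unfold Pq
  simp only [coeff_add, coeff_C_mul, coeff_X_pow, coeff_X, coeff_C]
  rcases Nat.lt_or_ge i 3 with h | h
  · interval_cases i
    · simp
      exact hw.2.2
    · simp
      exact hw.2.1
    · simp
      exact hw.1
  · rw [if_neg (by omega), if_neg (by omega), if_neg (by omega)]
    simp

/-- Proof. `Pg g` has coefficients `≤ H`, degree `≤ 2 k`; `Pq w` coefficients `≤ N`, degree `≤ 2`; `coeff_mul_le` several times: `(2 k + 1) H² + N · 3 · N · 2 k H² ≤ (8 k + 1) H² N²` (`N ≥ 1`). -/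
theorem Nn_coeff_le {k : ℕ} {H N : ℕ} (hN : 1 ≤ N) (g : Fin (2 * k + 1) → ℤ) (h : Fin (2 * k) → ℤ) (d : ℤ) (w : V)
    (hg : ∀ i, |g i| ≤ (H : ℤ)) (hh : ∀ i, |h i| ≤ (H : ℤ)) (hd : |d| ≤ (N : ℤ)) (hw : |w.1| ≤ (N : ℤ) ∧ |w.2.1| ≤ (N : ℤ) ∧ |w.2.2| ≤ (N : ℤ))
    (i : ℕ) : |(Nn g h d w).coeff i| ≤ (8 * k + 1) * ((H : ℤ) ^ 2 * (N : ℤ) ^ 2) := by
  have hN1 : (1 : ℤ) ≤ N := by exact_mod_cast hN
  have hH0 : (0 : ℤ) ≤ H := by positivity
  have hk0 : (0 : ℤ) ≤ k := by positivity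
  have a1 := PF0_sq H g hg i
  have a2 : ∀ j, |(Pg h ^ 2).coeff j| ≤ ((2 * k : ℕ) : ℤ) * ((H : ℤ) * (H : ℤ)) := fun j => PF0_sq H h hh j
  have hd2 : (Pq w).natDegree ≤ 2 := by
    unfold Pq
    compute_degree
  have a3 := coeff_mul_le (Pq w) (Pg h ^ 2) 2 hd2 (N : ℤ) (((2 * k : ℕ) : ℤ) * ((H : ℤ) * (H : ℤ)))
    (by positivity) (by positivity) (PF0_Pq_le N w hw) a2 i
  unfold Nn
  rw [Polynomial.coeff_sub, mul_assoc, Polynomial.coeff_C_mul]
  refine le_trans (abs_sub _ _) ?_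
  rw [abs_mul]
  have a4 : |d| * |(Pq w * Pg h ^ 2).coeff i| ≤ (N : ℤ) * (((2 : ℕ) + 1) * ((N : ℤ) * (((2 * k : ℕ) : ℤ) * ((H : ℤ) * (H : ℤ))))) :=
    mul_le_mul hd a3 (abs_nonneg _) (by positivity)
  have a5 : (((2 * k + 1 : ℕ) : ℤ)) * ((H : ℤ) * (H : ℤ)) ≤ (2 * k + 1) * ((H : ℤ) ^ 2 * (N : ℤ) ^ 2) := by
    push_cast
    have h1 : (1 : ℤ) ≤ (N : ℤ) ^ 2 := by nlinarith
    have h2 : (H : ℤ) * H ≤ (H : ℤ) ^ 2 * (N : ℤ) ^ 2 := by nlinarith [mul_nonneg hH0 hH0]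
    exact mul_le_mul_of_nonneg_left h2 (by positivity)
  have a6 : (N : ℤ) * (((2 : ℕ) + 1) * ((N : ℤ) * (((2 * k : ℕ) : ℤ) * ((H : ℤ) * (H : ℤ))))) = (6 * k) * ((H : ℤ) ^ 2 * (N : ℤ) ^ 2) := by
    push_cast
    ring
  rw [a6] at a4
  calc |(Pg g ^ 2).coeff i| + |d| * |(Pq w * Pg h ^ 2).coeff i| ≤
      (2 * k + 1) * ((H : ℤ) ^ 2 * (N : ℤ) ^ 2) + (6 * k) * ((H : ℤ) ^ 2 * (N : ℤ) ^ 2) := add_le_add (le_trans a1 a5) a4
    _ = (8 * k + 1) * ((H : ℤ) ^ 2 * (N : ℤ) ^ 2) := by ring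

/-- **Proof.** `Dn` is a determinant of size `4 k + (4 k - 1) ≤ 8 k` whose entries are `0` or coefficients of `N`, `N'`, so at most `4 k (8 k + 1) H² N²`: `|Dn| ≤ (8 k - 1)! (4 k (8 k + 1) H² N²) ^ (8 k - 1)` (`Matrix.det_apply`, or `Matrix.det_le`), at most `BD (H⁴)^(8 k)` (`1 ≤ N ≤ H`), `BD = (8 k)! (4 k (8 k + 1)) ^ (8 k)`. -/
theorem Dn_bound (k : ℕ) (hk : 1 ≤ k) : ∃ BD : ℕ, 1 ≤ BD ∧ ∀ (H N : ℕ), 1 ≤ N → N ≤ H → ∀ (g : Fin (2 * k + 1) → ℤ) (h : Fin (2 * k) → ℤ)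
    (d : ℤ) (w : V), (∀ i, |g i| ≤ (H : ℤ)) → (∀ i, |h i| ≤ (H : ℤ)) → |d| ≤ (N : ℤ) →
    |w.1| ≤ (N : ℤ) ∧ |w.2.1| ≤ (N : ℤ) ∧ |w.2.2| ≤ (N : ℤ) → |Dn g h d w| ≤ BD * (H : ℤ) ^ (32 * k) := by
  refine ⟨(8 * k).factorial * (4 * k * (8 * k + 1)) ^ (8 * k), ?_, ?_⟩
  · have h1 : 0 < (8 * k).factorial := Nat.factorial_pos _
    have h2 : 0 < (4 * k * (8 * k + 1)) ^ (8 * k) := by positivity
    exact Nat.mul_pos h1 h2
  · intro H N hN hNH g h d w hg hh hd hw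
    have hN1 : (1 : ℤ) ≤ N := by exact_mod_cast hN
    have hNH1 : (N : ℤ) ≤ H := by exact_mod_cast hNH
    have hH1 : (1 : ℤ) ≤ H := le_trans hN1 hNH1
    have hk1 : (1 : ℤ) ≤ k := by exact_mod_cast hk
    have hc := Nn_coeff_le hN g h d w hg hh hd hw
    set Z : ℤ := (8 * k + 1) * ((H : ℤ) ^ 2 * (N : ℤ) ^ 2) with hZ
    have hZ0 : 0 ≤ Z := by positivity
    have hZH : Z ≤ (8 * k + 1) * (H : ℤ) ^ 4 := by
      have h1 : (N : ℤ) ^ 2 ≤ (H : ℤ) ^ 2 := pow_le_pow_left₀ (by positivity) hNH1 2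
      have h2 : (H : ℤ) ^ 2 * (N : ℤ) ^ 2 ≤ (H : ℤ) ^ 4 := by
        calc (H : ℤ) ^ 2 * (N : ℤ) ^ 2 ≤ (H : ℤ) ^ 2 * (H : ℤ) ^ 2 := mul_le_mul_of_nonneg_left h1 (by positivity)
          _ = (H : ℤ) ^ 4 := by ring
      exact mul_le_mul_of_nonneg_left h2 (by positivity)
    have hent : ∀ i j, |sylvester (Nn g h d w) (derivative (Nn g h d w)) (4 * k) (4 * k - 1) i j| ≤ 4 * k * Z := by
      intro i j
      unfold sylvester
      rw [Matrix.of_apply]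
      refine Fin.addCases (fun j1 => ?_) (fun j1 => ?_) j
      · rw [Fin.addCases_left]
        split_ifs with hi
        · rw [Polynomial.coeff_derivative, abs_mul]
          have h1 := hc ((i : ℕ) - (j1 : ℕ) + 1)
          have h2 : |(((i : ℕ) - (j1 : ℕ) : ℕ) : ℤ) + 1| ≤ 4 * k := by
            rw [abs_of_nonneg (by positivity)]
            have := hi.2
            omega
          calc _ ≤ Z * (4 * k) := mul_le_mul h1 h2 (abs_nonneg _) hZ0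
            _ = 4 * k * Z := by ring
        · rw [abs_zero]
          positivity
      · rw [Fin.addCases_right]
        split_ifs with hi
        · have h1 := hc ((i : ℕ) - (j1 : ℕ))
          nlinarith
        · rw [abs_zero]
          positivity
    have hdet := Matrix.det_le (abv := AbsoluteValue.abs) (x := 4 * k * Z) (A := sylvester (Nn g h d w) (derivative (Nn g h d w)) (4 * k) (4 * k - 1)) hent
    rw [Fintype.card_fin] at hdet
    have e1 : (AbsoluteValue.abs (sylvester (Nn g h d w) (derivative (Nn g h d w)) (4 * k) (4 * k - 1)).det : ℤ) = |Dn g h d w| := rfl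
    rw [e1] at hdet
    refine le_trans hdet ?_
    rw [nsmul_eq_mul]
    have b1 : 4 * (k : ℤ) * Z ≤ (4 * k * (8 * k + 1)) * (H : ℤ) ^ 4 := by nlinarith
    have b2 : (1 : ℤ) ≤ (4 * k * (8 * k + 1)) * (H : ℤ) ^ 4 := by
      have h1 : (1 : ℤ) ≤ (H : ℤ) ^ 4 := one_le_pow₀ hH1
      have h2 : (1 : ℤ) ≤ 4 * k * (8 * k + 1) := by nlinarith
      nlinarith
    have b3 : (4 * (k : ℤ) * Z) ^ (4 * k + (4 * k - 1)) ≤ ((4 * k * (8 * k + 1)) * (H : ℤ) ^ 4) ^ (8 * k) := by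
      calc (4 * (k : ℤ) * Z) ^ (4 * k + (4 * k - 1)) ≤ ((4 * k * (8 * k + 1)) * (H : ℤ) ^ 4) ^ (4 * k + (4 * k - 1)) :=
            pow_le_pow_left₀ (by positivity) b1 _
        _ ≤ _ := pow_le_pow_right₀ b2 (by omega)
    have b4 : (((4 * k + (4 * k - 1)).factorial : ℕ) : ℤ) ≤ (((8 * k).factorial : ℕ) : ℤ) := by
      exact_mod_cast Nat.factorial_le (by omega)
    calc (((4 * k + (4 * k - 1)).factorial : ℕ) : ℤ) * (4 * (k : ℤ) * Z) ^ (4 * k + (4 * k - 1)) ≤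
        (((8 * k).factorial : ℕ) : ℤ) * ((4 * k * (8 * k + 1)) * (H : ℤ) ^ 4) ^ (8 * k) :=
          mul_le_mul b4 b3 (by positivity) (by positivity)
      _ = _ := by
        rw [mul_pow, ← pow_mul]
        push_cast
        have : 4 * (8 * k) = 32 * k := by ring
        rw [this]
        ring

/-- **Proof.** `r` different primes `> 4 H` have a product `≥ (4 H)^r`; if `r ≥ 32 k + 2` this is larger than `BD H^(32 k)` (`H ≥ BD`). Model `QV2_primes` (QV2.lean of MP_10e784_agQ). -/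
theorem Dn_primes (k : ℕ) (hk : 1 ≤ k) : ∃ BD : ℕ, 1 ≤ BD ∧ ∀ (H N : ℕ), 1 ≤ N → N ≤ H → BD ≤ H → ∀ (g : Fin (2 * k + 1) → ℤ)
    (h : Fin (2 * k) → ℤ) (d : ℤ) (w : V), (∀ i, |g i| ≤ (H : ℤ)) → (∀ i, |h i| ≤ (H : ℤ)) → |d| ≤ (N : ℤ) →
    |w.1| ≤ (N : ℤ) ∧ |w.2.1| ≤ (N : ℤ) ∧ |w.2.2| ≤ (N : ℤ) → Dn g h d w ≠ 0 →
    ((Dn g h d w).natAbs.primeFactors.filter fun p => 4 * H < p).card ≤ 32 * k + 1 := by
  obtain ⟨BD, hBD, hb⟩ := Dn_bound k hk
  refine ⟨BD, hBD, ?_⟩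
  intro H N hN hNH hBH g h d w hg hh hd hw hD
  have hP2 := hb H N hN hNH g h d w hg hh hd hw
  set P := Dn g h d w with hPdef
  by_contra hcon
  push Not at hcon
  set Q := P.natAbs.primeFactors.filter fun p => 4 * H < p with hQ
  have hH0 : 0 < H := by omega
  have h1 : (4 * H) ^ Q.card ≤ ∏ p ∈ Q, p := by
    refine Finset.pow_card_le_prod Q (fun p => p) (4 * H) ?_
    intro p hp
    rw [hQ, Finset.mem_filter] at hp
    exact hp.2.le
  have h2 : ∏ p ∈ Q, p ≤ P.natAbs := by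
    have h3 : (∏ p ∈ Q, p) ∣ ∏ p ∈ P.natAbs.primeFactors, p :=
      Finset.prod_dvd_prod_of_subset _ _ _ (Finset.filter_subset _ _)
    have h4 := Nat.prod_primeFactors_dvd P.natAbs
    exact Nat.le_of_dvd (Int.natAbs_pos.2 hD) (h3.trans h4)
  have h3 : (4 * H) ^ (32 * k + 2) ≤ (4 * H) ^ Q.card := Nat.pow_le_pow_right (by omega) hcon
  have h4 : P.natAbs ≤ BD * H ^ (32 * k) := by
    have : ((P.natAbs : ℕ) : ℤ) ≤ ((BD * H ^ (32 * k) : ℕ) : ℤ) := by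
      push_cast
      exact hP2
    exact_mod_cast this
  have h5 : BD * H ^ (32 * k) ≤ H ^ (32 * k + 1) := by
    rw [pow_succ, mul_comm]
    exact Nat.mul_le_mul_left _ hBH
  have h6 : H ^ (32 * k + 1) ≤ (4 * H) ^ (32 * k + 1) := Nat.pow_le_pow_left (by omega) _
  have h7 : (4 * H) ^ (32 * k + 1) < (4 * H) ^ (32 * k + 2) := Nat.pow_lt_pow_right (by omega) (by omega)
  omega

end HNE
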