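import Pool.Agent.Lib.MP_1ad228_ntE.PA4
import Pool.Agent.Lib.MP_10e784_agF.LE

/-! Counting vectors of coefficients with conditions on some of the coordinates. -/

set_option autoImplicit false

open Classical

namespace HNE

open Finset Polynomial FGO FQQ HNF

theorem PP1_fib {α κ : Type} [Fintype κ] {T : ℕ} (ι : κ → Fin T) (hι : Function.Injective ι) (S : Finset α) (g : κ → α)
    (hg : ∀ i, g i ∈ S) :
    ((Fintype.piFinset fun _ : Fin T => S).filter fun f => (fun i => f (ι i)) = g).card = S.card ^ (T - Fintype.card κ) := by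
  have h1 : ((Fintype.piFinset fun _ : Fin T => S).filter fun f => (fun i => f (ι i)) = g) =
      Fintype.piFinset (fun t : Fin T => if h : ∃ i, ι i = t then {g h.choose} else S) := by
    ext f
    rw [Finset.mem_filter, Fintype.mem_piFinset, Fintype.mem_piFinset]
    constructor
    · rintro ⟨h2, h3⟩ t
      by_cases h : ∃ i, ι i = t
      · rw [dif_pos h, Finset.mem_singleton]
        have h4 := congrFun h3 h.choose
        rw [← h4, h.choose_spec]
      · rw [dif_neg h]
        exact h2 t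
    · intro h2
      have h5 : ∀ i, f (ι i) = g i := by
        intro i
        have h6 := h2 (ι i)
        have h7 : ∃ j, ι j = ι i := ⟨i, rfl⟩
        rw [dif_pos h7, Finset.mem_singleton] at h6
        rw [h6, hι h7.choose_spec]
      refine ⟨fun t => ?_, funext h5⟩
      by_cases h : ∃ i, ι i = t
      · obtain ⟨i, rfl⟩ := h
        rw [h5 i]
        exact hg i
      · have h6 := h2 t
        rwa [dif_neg h] at h6
  rw [h1, Fintype.card_piFinset]
  have h2 : ∀ t : Fin T, (if h : ∃ i, ι i = t then {g h.choose} else S : Finset α).card = if t ∈ Finset.univ.image ι then 1 else S.card := by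
    intro t
    by_cases h : ∃ i, ι i = t
    · rw [dif_pos h, Finset.card_singleton, if_pos]
      obtain ⟨i, hi⟩ := h
      exact Finset.mem_image.2 ⟨i, Finset.mem_univ i, hi⟩
    · rw [dif_neg h, if_neg]
      intro h3
      obtain ⟨i, -, hi⟩ := Finset.mem_image.1 h3
      exact h ⟨i, hi⟩
  rw [Finset.prod_congr rfl fun t _ => h2 t, Finset.prod_ite, Finset.prod_const_one, one_mul, Finset.prod_const]
  congr 1
  have h3 : (Finset.univ.filter fun t : Fin T => ¬ t ∈ Finset.univ.image ι) = (Finset.univ.image ι)ᶜ := by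
    ext t
    simp
  rw [h3, Finset.card_compl, Finset.card_image_of_injective _ hι, Fintype.card_fin, Finset.card_univ]

theorem PP1_gen {α κ : Type} [Fintype κ] [DecidableEq κ] {T : ℕ} (ι : κ → Fin T) (hι : Function.Injective ι) (S : Finset α) (Q : (κ → α) → Prop) :
    ((Fintype.piFinset fun _ : Fin T => S).filter fun f => Q fun i => f (ι i)).card =
      ((Fintype.piFinset fun _ : κ => S).filter Q).card * S.card ^ (T - Fintype.card κ) := by
  rw [Finset.card_eq_sum_card_fiberwise (f := fun (f : Fin T → α) => fun i => f (ι i))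
    (t := (Fintype.piFinset fun _ : κ => S).filter Q)]
  · rw [Finset.sum_congr rfl (g := fun _ => S.card ^ (T - Fintype.card κ)), Finset.sum_const, smul_eq_mul]
    intro g hg
    rw [Finset.mem_filter, Fintype.mem_piFinset] at hg
    rw [← PP1_fib ι hι S g hg.1, Finset.filter_filter]
    congr 1
    ext f
    rw [Finset.mem_filter, Finset.mem_filter]
    constructor
    · rintro ⟨h1, h2, h3⟩
      exact ⟨h1, h3⟩
    · rintro ⟨h1, h3⟩
      refine ⟨h1, ?_, h3⟩
      rw [h3]
      exact hg.2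
  · intro f hf
    rw [Finset.mem_coe, Finset.mem_filter, Fintype.mem_piFinset] at hf
    rw [Finset.mem_coe, Finset.mem_filter, Fintype.mem_piFinset]
    exact ⟨fun i => hf.1 _, hf.2⟩

/-- Proof. The map `f ↦ (f ∘ ι, f restricted to the complement of the image of ι)` is a bijection of `S ^ T` onto `S ^ a × S ^ (T - a)` (e.g. `Equiv.piEquivPiSubtypeProd` for the predicate `i ∈ Set.range ι`, and `Equiv.ofInjective`). -/
theorem proj_card {α : Type} {T a : ℕ} (ι : Fin a → Fin T) (hι : Function.Injective ι) (S : Finset α) (Q : (Fin a → α) → Prop) :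
    ((Fintype.piFinset fun _ : Fin T => S).filter fun f => Q fun i => f (ι i)).card =
      ((Fintype.piFinset fun _ : Fin a => S).filter Q).card * S.card ^ (T - a) := by
  have h1 := PP1_gen ι hι S Q
  rw [Fintype.card_fin] at h1
  exact h1

/-- the pairs of vectors with coordinates in `S` -/
def PS {α : Type} (S : Finset α) (n : ℕ) : Finset ((Fin (2 * n + 1) → α) × (Fin (2 * n) → α)) :=
  (Fintype.piFinset fun _ : Fin (2 * n + 1) => S) ×ˢ (Fintype.piFinset fun _ : Fin (2 * n) => S)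

theorem PS_card {α : Type} (S : Finset α) (n : ℕ) : (PS S n).card = S.card ^ (4 * n + 1) := by
  rw [PS, Finset.card_product, Fintype.card_piFinset_const, Fintype.card_piFinset_const, ← pow_add]
  congr 1
  omega

theorem PP1_mem {α : Type} (S : Finset α) (n : ℕ) (x : (Fin (2 * n + 1) → α) × (Fin (2 * n) → α)) :
    x ∈ PS S n ↔ (∀ i, x.1 i ∈ S) ∧ ∀ i, x.2 i ∈ S := by
  rw [PS, Finset.mem_product, Fintype.mem_piFinset, Fintype.mem_piFinset]

theorem PP1_pair {α : Type} {T n : ℕ} (ι : Fin (2 * n + 1) ⊕ Fin (2 * n) → Fin T) (hι : Function.Injective ι) (S : Finset α)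
    (Q : (Fin (2 * n + 1) → α) × (Fin (2 * n) → α) → Prop) :
    ((Fintype.piFinset fun _ : Fin T => S).filter fun f => Q (fun i => f (ι (Sum.inl i)), fun i => f (ι (Sum.inr i)))).card =
      ((PS S n).filter Q).card * S.card ^ (T - (4 * n + 1)) := by
  have h1 := PP1_gen ι hι S fun g => Q (fun i => g (Sum.inl i), fun i => g (Sum.inr i))
  rw [h1]
  have h2 : Fintype.card (Fin (2 * n + 1) ⊕ Fin (2 * n)) = 4 * n + 1 := by
    rw [Fintype.card_sum, Fintype.card_fin, Fintype.card_fin]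
    omega
  rw [h2]
  congr 1
  refine Finset.card_nbij' (fun g => (fun i => g (Sum.inl i), fun i => g (Sum.inr i))) (fun x => Sum.elim x.1 x.2) ?_ ?_ ?_ ?_
  · intro g hg
    rw [Finset.mem_coe, Finset.mem_filter, Fintype.mem_piFinset] at hg
    rw [Finset.mem_coe, Finset.mem_filter, PP1_mem]
    exact ⟨⟨fun i => hg.1 _, fun i => hg.1 _⟩, hg.2⟩
  · intro x hx
    rw [Finset.mem_coe, Finset.mem_filter, PP1_mem] at hx
    rw [Finset.mem_coe, Finset.mem_filter, Fintype.mem_piFinset]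
    refine ⟨fun i => ?_, hx.2⟩
    rcases i with i | i
    · exact hx.1.1 i
    · exact hx.1.2 i
  · intro g _
    funext i
    rcases i with i | i <;> rfl
  · intro x _
    rfl

theorem PP1_pair2 {α : Type} {T n : ℕ} (ι : (Fin (2 * n + 1) ⊕ Fin (2 * n)) ⊕ (Fin (2 * n + 1) ⊕ Fin (2 * n)) → Fin T)
    (hι : Function.Injective ι) (S : Finset α)
    (Q : (Fin (2 * n + 1) → α) × (Fin (2 * n) → α) → (Fin (2 * n + 1) → α) × (Fin (2 * n) → α) → Prop) :
    ((Fintype.piFinset fun _ : Fin T => S).filter fun f =>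
      Q (fun i => f (ι (Sum.inl (Sum.inl i))), fun i => f (ι (Sum.inl (Sum.inr i))))
        (fun i => f (ι (Sum.inr (Sum.inl i))), fun i => f (ι (Sum.inr (Sum.inr i))))).card =
      ((PS S n ×ˢ PS S n).filter fun z => Q z.1 z.2).card * S.card ^ (T - 2 * (4 * n + 1)) := by
  have h1 := PP1_gen ι hι S fun g => Q (fun i => g (Sum.inl (Sum.inl i)), fun i => g (Sum.inl (Sum.inr i)))
        (fun i => g (Sum.inr (Sum.inl i)), fun i => g (Sum.inr (Sum.inr i)))
  rw [h1]
  have h2 : Fintype.card ((Fin (2 * n + 1) ⊕ Fin (2 * n)) ⊕ (Fin (2 * n + 1) ⊕ Fin (2 * n))) = 2 * (4 * n + 1) := by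
    rw [Fintype.card_sum, Fintype.card_sum, Fintype.card_fin, Fintype.card_fin]
    omega
  rw [h2]
  congr 1
  refine Finset.card_nbij' (fun g => ((fun i => g (Sum.inl (Sum.inl i)), fun i => g (Sum.inl (Sum.inr i))),
        (fun i => g (Sum.inr (Sum.inl i)), fun i => g (Sum.inr (Sum.inr i)))))
    (fun x => Sum.elim (Sum.elim x.1.1 x.1.2) (Sum.elim x.2.1 x.2.2)) ?_ ?_ ?_ ?_
  · intro g hg
    rw [Finset.mem_coe, Finset.mem_filter, Fintype.mem_piFinset] at hg
    rw [Finset.mem_coe, Finset.mem_filter, Finset.mem_product, PP1_mem, PP1_mem]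
    exact ⟨⟨⟨fun i => hg.1 _, fun i => hg.1 _⟩, ⟨fun i => hg.1 _, fun i => hg.1 _⟩⟩, hg.2⟩
  · intro x hx
    rw [Finset.mem_coe, Finset.mem_filter, Finset.mem_product, PP1_mem, PP1_mem] at hx
    rw [Finset.mem_coe, Finset.mem_filter, Fintype.mem_piFinset]
    refine ⟨fun i => ?_, hx.2⟩
    rcases i with (i | i) | (i | i)
    · exact hx.1.1.1 i
    · exact hx.1.1.2 i
    · exact hx.1.2.1 i
    · exact hx.1.2.2 i
  · intro g _
    funext i
    rcases i with (i | i) | (i | i) <;> rfl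
  · intro x _
    rfl

/-- the two forms over the point `(1 : 0)` or `(0 : 1)` of the first line, or over `(1 : 0)` of the second line -/
noncomputable def rA {F : Type} [CommRing F] {m n : ℕ} (f : Fin (TT m n + 1) → F) : (Fin (2 * n + 1) → F) × (Fin (2 * n) → F) :=
  (row (Gm (cG f)) 1 0, row (cH f) 1 0)

noncomputable def rA' {F : Type} [CommRing F] {m n : ℕ} (f : Fin (TT m n + 1) → F) : (Fin (2 * n + 1) → F) × (Fin (2 * n) → F) :=
  (row (Gm (cG f)) 0 1, row (cH f) 0 1)

noncomputable def rB {F : Type} [CommRing F] {m n : ℕ} (f : Fin (TT m n + 1) → F) : (Fin (2 * m + 1) → F) × (Fin (2 * m) → F) :=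
  (col (Gm (cG f)) 1 0, col (cH f) 1 0)

/-- evaluation of a row at `(1 : 0)` -/
theorem PP1_row10 {F : Type} [CommRing F] {k l : ℕ} (G : Fin k → Fin l → F) (i₀ : Fin k) (h0 : (i₀ : ℕ) = k - 1) (j : Fin l) :
    row G 1 0 j = G i₀ j := by
  rw [row, Finset.sum_eq_single i₀]
  · rw [h0, Nat.sub_self, pow_zero, one_pow, mul_one, mul_one]
  · intro i _ hi
    have h1 : k - 1 - (i : ℕ) ≠ 0 := by
      intro h2
      apply hi
      apply Fin.ext
      have := i.isLt
      omega
    rw [zero_pow h1, mul_zero, mul_zero]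
  · intro h
    exact absurd (Finset.mem_univ i₀) h

theorem PP1_row01 {F : Type} [CommRing F] {k l : ℕ} (G : Fin k → Fin l → F) (i₀ : Fin k) (h0 : (i₀ : ℕ) = 0) (j : Fin l) :
    row G 0 1 j = G i₀ j := by
  rw [row, Finset.sum_eq_single i₀]
  · rw [h0, pow_zero, one_pow, mul_one, mul_one]
  · intro i _ hi
    have h1 : (i : ℕ) ≠ 0 := by
      intro h2
      apply hi
      apply Fin.ext
      omega
    rw [zero_pow h1, zero_mul, mul_zero]
  · intro h
    exact absurd (Finset.mem_univ i₀) h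

theorem PP1_col10 {F : Type} [CommRing F] {k l : ℕ} (G : Fin k → Fin l → F) (j₀ : Fin l) (h0 : (j₀ : ℕ) = l - 1) (i : Fin k) :
    col G 1 0 i = G i j₀ := by
  rw [col, Finset.sum_eq_single j₀]
  · rw [h0, Nat.sub_self, pow_zero, one_pow, mul_one, mul_one]
  · intro j _ hj
    have h1 : l - 1 - (j : ℕ) ≠ 0 := by
      intro h2
      apply hj
      apply Fin.ext
      have := j.isLt
      omega
    rw [zero_pow h1, mul_zero, mul_zero]
  · intro h
    exact absurd (Finset.mem_univ j₀) h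

/-- the coordinate of the coefficient `G i j` -/
noncomputable def PP1_g (m n : ℕ) (i : Fin (2 * m + 1)) (j : Fin (2 * n + 1)) : Fin (TT m n + 1) :=
  Fin.natAdd (2 * m * (2 * n)) ((sg m n).symm (i, j))

/-- the coordinate of the coefficient `H i j` -/
def PP1_h (m n : ℕ) (i : Fin (2 * m)) (j : Fin (2 * n)) : Fin (TT m n + 1) :=
  Fin.castAdd (MM m n + 1) (finProdFinEquiv (i, j))

theorem PP1_g_inj {m n : ℕ} {i i' : Fin (2 * m + 1)} {j j' : Fin (2 * n + 1)} (h : PP1_g m n i j = PP1_g m n i' j') : i = i' ∧ j = j' := by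
  have h1 := congrArg Fin.val h
  rw [PP1_g, PP1_g, Fin.val_natAdd, Fin.val_natAdd] at h1
  have h2 : (sg m n).symm (i, j) = (sg m n).symm (i', j') := by
    apply Fin.ext
    omega
  have h3 := (sg m n).symm.injective h2
  exact ⟨congrArg Prod.fst h3, congrArg Prod.snd h3⟩

theorem PP1_h_inj {m n : ℕ} {i i' : Fin (2 * m)} {j j' : Fin (2 * n)} (h : PP1_h m n i j = PP1_h m n i' j') : i = i' ∧ j = j' := by
  have h1 := congrArg Fin.val h
  rw [PP1_h, PP1_h, Fin.val_castAdd, Fin.val_castAdd] at h1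
  have h2 : finProdFinEquiv (i, j) = finProdFinEquiv (i', j') := Fin.ext h1
  have h3 := finProdFinEquiv.injective h2
  exact ⟨congrArg Prod.fst h3, congrArg Prod.snd h3⟩

theorem PP1_gh {m n : ℕ} (i : Fin (2 * m + 1)) (j : Fin (2 * n + 1)) (i' : Fin (2 * m)) (j' : Fin (2 * n)) : PP1_g m n i j ≠ PP1_h m n i' j' := by
  intro h
  have h1 := congrArg Fin.val h
  rw [PP1_g, PP1_h, Fin.val_natAdd, Fin.val_castAdd] at h1
  have h2 := (finProdFinEquiv (i', j')).isLt
  omega

/-- the coordinates of a row -/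
noncomputable def PP1_io (m n : ℕ) (i : Fin (2 * m + 1)) (i' : Fin (2 * m)) : Fin (2 * n + 1) ⊕ Fin (2 * n) → Fin (TT m n + 1) :=
  Sum.elim (fun j => PP1_g m n i j) (fun j => PP1_h m n i' j)

theorem PP1_io_inj (m n : ℕ) (i : Fin (2 * m + 1)) (i' : Fin (2 * m)) : Function.Injective (PP1_io m n i i') := by
  rintro (j | j) (k | k) h
  · rw [(PP1_g_inj h).2]
  · exact absurd h (PP1_gh _ _ _ _)
  · exact absurd h.symm (PP1_gh _ _ _ _)
  · rw [(PP1_h_inj h).2]

theorem PP1_io_dis (m n : ℕ) {i k : Fin (2 * m + 1)} {i' k' : Fin (2 * m)} (h1 : i ≠ k) (h2 : i' ≠ k') (x y : Fin (2 * n + 1) ⊕ Fin (2 * n)) :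
    PP1_io m n i i' x ≠ PP1_io m n k k' y := by
  rcases x with j | j <;> rcases y with l | l <;> intro h
  · exact h1 (PP1_g_inj h).1
  · exact absurd h (PP1_gh _ _ _ _)
  · exact absurd h.symm (PP1_gh _ _ _ _)
  · exact h2 (PP1_h_inj h).1

/-- the coordinates of a column -/
noncomputable def PP1_jo (m n : ℕ) (j : Fin (2 * n + 1)) (j' : Fin (2 * n)) : Fin (2 * m + 1) ⊕ Fin (2 * m) → Fin (TT m n + 1) :=
  Sum.elim (fun i => PP1_g m n i j) (fun i => PP1_h m n i j')

theorem PP1_jo_inj (m n : ℕ) (j : Fin (2 * n + 1)) (j' : Fin (2 * n)) : Function.Injective (PP1_jo m n j j') := by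
  rintro (i | i) (k | k) h
  · rw [(PP1_g_inj h).1]
  · exact absurd h (PP1_gh _ _ _ _)
  · exact absurd h.symm (PP1_gh _ _ _ _)
  · rw [(PP1_h_inj h).1]

theorem PP1_rA {F : Type} [CommRing F] {m n : ℕ} (hm : 1 ≤ m) (f : Fin (TT m n + 1) → F) :
    rA (m := m) f = (fun j => f (PP1_io m n (Fin.last (2 * m)) ⟨2 * m - 1, by omega⟩ (Sum.inl j)),
      fun j => f (PP1_io m n (Fin.last (2 * m)) ⟨2 * m - 1, by omega⟩ (Sum.inr j))) := by
  rw [rA]
  refine Prod.ext ?_ ?_
  · funext j
    exact PP1_row10 _ (Fin.last (2 * m)) (by rw [Fin.val_last]; omega) j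
  · funext j
    exact PP1_row10 _ (⟨2 * m - 1, by omega⟩ : Fin (2 * m)) rfl j

theorem PP1_rA' {F : Type} [CommRing F] {m n : ℕ} (hm : 1 ≤ m) (f : Fin (TT m n + 1) → F) :
    rA' (m := m) f = (fun j => f (PP1_io m n ⟨0, by omega⟩ ⟨0, by omega⟩ (Sum.inl j)),
      fun j => f (PP1_io m n ⟨0, by omega⟩ ⟨0, by omega⟩ (Sum.inr j))) := by
  rw [rA']
  refine Prod.ext ?_ ?_
  · funext j
    exact PP1_row01 _ (⟨0, by omega⟩ : Fin (2 * m + 1)) rfl j
  · funext j
    exact PP1_row01 _ (⟨0, by omega⟩ : Fin (2 * m)) rfl j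

theorem PP1_rB {F : Type} [CommRing F] {m n : ℕ} (hn : 1 ≤ n) (f : Fin (TT m n + 1) → F) :
    rB (n := n) f = (fun i => f (PP1_jo m n (Fin.last (2 * n)) ⟨2 * n - 1, by omega⟩ (Sum.inl i)),
      fun i => f (PP1_jo m n (Fin.last (2 * n)) ⟨2 * n - 1, by omega⟩ (Sum.inr i))) := by
  rw [rB]
  refine Prod.ext ?_ ?_
  · funext j
    exact PP1_col10 _ (Fin.last (2 * n)) (by rw [Fin.val_last]; omega) j
  · funext j
    exact PP1_col10 _ (⟨2 * n - 1, by omega⟩ : Fin (2 * n)) rfl j

/-- **Proof.** `row (Gm (cG f)) 1 0 j = f (natAdd _ ((sg m n).symm (last, j)))`, `row (cH f) 1 0 j = f (castAdd _ (finProdFinEquiv (2 m - 1, j)))` (only the term with exponent `0` of `0` is left), so `rA f` consists of `4 n + 1` different coordinates of `f`: `proj_card` with `a = 2 n + 1 + 2 n` and `Fin.addCases`/`Fin.appendEquiv` for the pairs. `TT m n + 1 - (4 n + 1) = TT m n - 4 n`. -/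
theorem card_rA {F : Type} [CommRing F] {m n : ℕ} (hm : 1 ≤ m) (S : Finset F) (Q : (Fin (2 * n + 1) → F) × (Fin (2 * n) → F) → Prop) :
    ((Fintype.piFinset fun _ : Fin (TT m n + 1) => S).filter fun f => Q (rA (m := m) f)).card =
      ((PS S n).filter Q).card * S.card ^ (TT m n - 4 * n) := by
  have h1 := PP1_pair (PP1_io m n (Fin.last (2 * m)) ⟨2 * m - 1, by omega⟩) (PP1_io_inj m n _ _) S Q
  have h2 : TT m n + 1 - (4 * n + 1) = TT m n - 4 * n := by omega
  rw [h2] at h1
  rw [← h1]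
  congr 1
  apply Finset.filter_congr
  intro f _
  rw [PP1_rA hm f]

theorem card_rA' {F : Type} [CommRing F] {m n : ℕ} (hm : 1 ≤ m) (S : Finset F) (Q : (Fin (2 * n + 1) → F) × (Fin (2 * n) → F) → Prop) :
    ((Fintype.piFinset fun _ : Fin (TT m n + 1) => S).filter fun f => Q (rA' (m := m) f)).card =
      ((PS S n).filter Q).card * S.card ^ (TT m n - 4 * n) := by
  have h1 := PP1_pair (PP1_io m n ⟨0, by omega⟩ ⟨0, by omega⟩) (PP1_io_inj m n _ _) S Q
  have h2 : TT m n + 1 - (4 * n + 1) = TT m n - 4 * n := by omega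
  rw [h2] at h1
  rw [← h1]
  congr 1
  apply Finset.filter_congr
  intro f _
  rw [PP1_rA' hm f]

theorem card_rB {F : Type} [CommRing F] {m n : ℕ} (hn : 1 ≤ n) (S : Finset F) (Q : (Fin (2 * m + 1) → F) × (Fin (2 * m) → F) → Prop) :
    ((Fintype.piFinset fun _ : Fin (TT m n + 1) => S).filter fun f => Q (rB (n := n) f)).card =
      ((PS S m).filter Q).card * S.card ^ (TT m n - 4 * m) := by
  have h1 := PP1_pair (PP1_jo m n (Fin.last (2 * n)) ⟨2 * n - 1, by omega⟩) (PP1_jo_inj m n _ _) S Q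
  have h2 : TT m n + 1 - (4 * m + 1) = TT m n - 4 * m := by omega
  rw [h2] at h1
  rw [← h1]
  congr 1
  apply Finset.filter_congr
  intro f _
  rw [PP1_rB hn f]

theorem PP1_filt {β : Type} (P : Finset β) (p q : β → Prop) (i : DecidablePred p) (j : DecidablePred q) (h : ∀ x, p x ↔ q x) :
    @Finset.filter β p i P = @Finset.filter β q j P := by
  have h1 : p = q := funext fun x => propext (h x)
  subst h1
  have h2 : i = j := Subsingleton.elim _ _
  subst h2
  rfl

theorem PP1_bound {β : Type} (P : Finset β) (A : β → Prop) (Q : β → β → Prop) (b : ℕ) (hb : ∀ x ∈ P, A x → (P.filter (Q x)).card ≤ b) :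
    ((P ×ˢ P).filter fun z => A z.1 ∧ Q z.1 z.2).card ≤ (P.filter A).card * b := by
  have h1 : ((P ×ˢ P).filter fun z => A z.1 ∧ Q z.1 z.2) ⊆ (P.filter A).biUnion fun x => (P.filter (Q x)).image fun y => (x, y) := by
    rintro ⟨x, y⟩ hz
    rw [Finset.mem_filter, Finset.mem_product] at hz
    rw [Finset.mem_biUnion]
    exact ⟨x, Finset.mem_filter.2 ⟨hz.1.1, hz.2.1⟩, Finset.mem_image.2 ⟨y, Finset.mem_filter.2 ⟨hz.1.2, hz.2.2⟩, rfl⟩⟩
  refine (Finset.card_le_card h1).trans (Finset.card_biUnion_le_card_mul _ _ _ ?_)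
  intro x hx
  rw [Finset.mem_filter] at hx
  exact Finset.card_image_le.trans (hb x hx.1 hx.2)

/-- **Proof.** `rA f` and `rA' f` consist of `2 (4 n + 1)` different coordinates of `f` (`2 m ≠ 0`; `2 m - 1 ≠ 0`): `proj_card` with `a = (2 n + 1 + 2 n) + (2 n + 1 + 2 n)`; the number of the pairs `(x, y)` with `A x ∧ Q x y` is at most `|A| b`. `TT m n + 1 - 2 (4 n + 1) = TT m n - 8 n - 1`. -/
theorem card_rAA {F : Type} [CommRing F] {m n : ℕ} (hm : 1 ≤ m) (S : Finset F)
    (A : (Fin (2 * n + 1) → F) × (Fin (2 * n) → F) → Prop)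
    (Q : (Fin (2 * n + 1) → F) × (Fin (2 * n) → F) → (Fin (2 * n + 1) → F) × (Fin (2 * n) → F) → Prop) (b : ℕ)
    (hb : ∀ x ∈ PS S n, A x → ((PS S n).filter (Q x)).card ≤ b) :
    ((Fintype.piFinset fun _ : Fin (TT m n + 1) => S).filter fun f => A (rA (m := m) f) ∧ Q (rA (m := m) f) (rA' (m := m) f)).card ≤
      ((PS S n).filter A).card * b * S.card ^ (TT m n - 8 * n - 1) := by
  have hinj : Function.Injective (Sum.elim (PP1_io m n (Fin.last (2 * m)) ⟨2 * m - 1, by omega⟩)
      (PP1_io m n ⟨0, by omega⟩ ⟨0, by omega⟩)) := by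
    have hd1 : (Fin.last (2 * m) : Fin (2 * m + 1)) ≠ ⟨0, by omega⟩ := by
      intro h
      have := congrArg Fin.val h
      rw [Fin.val_last] at this
      simp only [] at this
      omega
    have hd2 : (⟨2 * m - 1, by omega⟩ : Fin (2 * m)) ≠ ⟨0, by omega⟩ := by
      intro h
      have := congrArg Fin.val h
      simp only [] at this
      omega
    rintro (x | x) (y | y) h
    · rw [PP1_io_inj m n _ _ h]
    · exact absurd h (PP1_io_dis m n hd1 hd2 x y)
    · exact absurd h (PP1_io_dis m n hd1.symm hd2.symm x y)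
    · rw [PP1_io_inj m n _ _ h]
  have h1 := PP1_pair2 _ hinj S fun x y => A x ∧ Q x y
  have h2 : TT m n + 1 - 2 * (4 * n + 1) = TT m n - 8 * n - 1 := by omega
  rw [h2] at h1
  have h3 : ((Fintype.piFinset fun _ : Fin (TT m n + 1) => S).filter fun f => A (rA (m := m) f) ∧ Q (rA (m := m) f) (rA' (m := m) f)).card =
      ((PS S n ×ˢ PS S n).filter fun z => A z.1 ∧ Q z.1 z.2).card * S.card ^ (TT m n - 8 * n - 1) := by
    refine Eq.trans (congrArg Finset.card (PP1_filt _ _ _ _ _ fun f => ?_)) (h1.trans ?_)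
    · rw [PP1_rA hm f, PP1_rA' hm f]
      rfl
    · exact congrArg (fun k => Finset.card k * S.card ^ (TT m n - 8 * n - 1)) (PP1_filt _ _ _ _ _ fun f => Iff.rfl)
  rw [h3]
  exact Nat.mul_le_mul_right _ (PP1_bound _ A Q b hb)

end HNE
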