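import Pool.Agent.Lib.MP_1ad228_ntE.PF0
import Pool.Agent.Lib.MP_1ad228_ntE.PP1

/-! Primes `p > 4 H`. -/

set_option autoImplicit false

open Classical

namespace HNE

open Finset Polynomial FGO FQQ HNF

theorem PF1_box {N : ℕ} {v : V} (hv : v ∈ FGO.box N) :
    |v.1| ≤ (N : ℤ) ∧ |v.2.1| ≤ (N : ℤ) ∧ |v.2.2| ≤ (N : ℤ) := by
  unfold FGO.box at hv
  rw [Finset.mem_product, Finset.mem_product, Finset.mem_Icc, Finset.mem_Icc, Finset.mem_Icc] at hv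
  exact ⟨abs_le.mpr hv.1, abs_le.mpr hv.2.1, abs_le.mpr hv.2.2⟩

theorem PF1_dvd {p : ℕ} {N : ℕ} {a : ℤ} (ha : |a| ≤ (N : ℤ)) (h0 : a ≠ 0) (hp : N < p) :
    ¬ (p : ℤ) ∣ a := by
  intro h
  have h1 := Int.le_of_dvd (abs_pos.mpr h0) ((dvd_abs _ _).mpr h)
  omega

theorem PF1_fiber {n : ℕ} (hn : 1 ≤ n) (H N : ℕ)
    (hBD : ∀ (g : Fin (2 * n + 1) → ℤ)
    (h : Fin (2 * n) → ℤ) (d : ℤ) (w : V), (∀ i, |g i| ≤ (H : ℤ)) → (∀ i, |h i| ≤ (H : ℤ)) → |d| ≤ (N : ℤ) →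
    |w.1| ≤ (N : ℤ) ∧ |w.2.1| ≤ (N : ℤ) ∧ |w.2.2| ≤ (N : ℤ) → Dn g h d w ≠ 0 →
    ((Dn g h d w).natAbs.primeFactors.filter fun p => 4 * H < p).card ≤ 32 * n + 1)
    (hN1 : 1 ≤ N) (hNH : N ≤ H) (hnH : n ≤ H) (v1 v3 : ℤ) (w : V)
    (hv1 : |v1| ≤ (N : ℤ)) (hv3 : |v3| ≤ (N : ℤ)) (h3 : v3 ≠ 0) (hw : w.1 ≠ 0)
    (hwb : |w.1| ≤ (N : ℤ) ∧ |w.2.1| ≤ (N : ℤ) ∧ |w.2.2| ≤ (N : ℤ))
    (x : (Fin (2 * n + 1) → ℤ) × (Fin (2 * n) → ℤ)) (hx : x ∈ PS (Icc (-(H : ℤ)) (H : ℤ)) n)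
    (hA : Dn x.1 x.2 v1 w ≠ 0) :
    ((PS (Icc (-(H : ℤ)) (H : ℤ)) n).filter fun y => ∃ p : ℕ, p.Prime ∧ 4 * H < p ∧
      (p : ℤ) ∣ Dn x.1 x.2 v1 w ∧ (p : ℤ) ∣ Dn y.1 y.2 v3 w).card ≤
      (32 * n + 1) * (16 * n * (2 * H + 1) ^ (4 * n)) := by
  set P := (Dn x.1 x.2 v1 w).natAbs.primeFactors.filter fun p => 4 * H < p with hP
  have hxb : (∀ i, |x.1 i| ≤ (H : ℤ)) ∧ (∀ i, |x.2 i| ≤ (H : ℤ)) := by
    unfold PS at hx
    rw [Finset.mem_product, Fintype.mem_piFinset, Fintype.mem_piFinset] at hx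
    exact ⟨fun i => abs_le.mpr (Finset.mem_Icc.mp (hx.1 i)),
      fun i => abs_le.mpr (Finset.mem_Icc.mp (hx.2 i))⟩
  have hPc : P.card ≤ 32 * n + 1 := hBD x.1 x.2 v1 w hxb.1 hxb.2 hv1 hwb hA
  have hsub : ((PS (Icc (-(H : ℤ)) (H : ℤ)) n).filter fun y => ∃ p : ℕ, p.Prime ∧ 4 * H < p ∧
      (p : ℤ) ∣ Dn x.1 x.2 v1 w ∧ (p : ℤ) ∣ Dn y.1 y.2 v3 w) ⊆
      P.biUnion fun p => (PS (Icc (-(H : ℤ)) (H : ℤ)) n).filter fun y =>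
        (p : ℤ) ∣ Dn y.1 y.2 v3 w := by
    intro y hy
    rw [Finset.mem_filter] at hy
    obtain ⟨hy1, p, hp, hp4, hpx, hpy⟩ := hy
    rw [Finset.mem_biUnion]
    refine ⟨p, ?_, Finset.mem_filter.mpr ⟨hy1, hpy⟩⟩
    rw [hP, Finset.mem_filter, Nat.mem_primeFactors]
    refine ⟨⟨hp, ?_, ?_⟩, hp4⟩
    · exact Int.natCast_dvd.mp hpx
    · exact Int.natAbs_ne_zero.mpr hA
  have hone : ∀ p ∈ P, ((PS (Icc (-(H : ℤ)) (H : ℤ)) n).filter fun y =>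
        (p : ℤ) ∣ Dn y.1 y.2 v3 w).card ≤ 16 * n * (2 * H + 1) ^ (4 * n) := by
    intro p hp
    rw [hP, Finset.mem_filter, Nat.mem_primeFactors] at hp
    obtain ⟨⟨hpp, -, -⟩, hp4⟩ := hp
    have : Fact p.Prime := ⟨hpp⟩
    have h4 : 4 * n < p := by omega
    have h2 : p ≠ 2 := by omega
    have hd0 : ¬ (p : ℤ) ∣ v3 := PF1_dvd hv3 h3 (by omega)
    have hw0 : cV p w ≠ 0 := by
      intro h
      have h5 : ((w.1 : ℤ) : ZMod p) = 0 := congrArg Prod.fst h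
      rw [ZMod.intCast_zmod_eq_zero_iff_dvd] at h5
      exact PF1_dvd hwb.1 hw (by omega) h5
    refine le_trans (Finset.card_le_card ?_) (Dn_card_mod hn p h4 h2 v3 w hd0 hw0 H hp4)
    intro y hy
    rw [Finset.mem_filter] at hy
    rw [Finset.mem_filter]
    exact hy
  calc _ ≤ (P.biUnion fun p => (PS (Icc (-(H : ℤ)) (H : ℤ)) n).filter fun y =>
        (p : ℤ) ∣ Dn y.1 y.2 v3 w).card := Finset.card_le_card hsub
    _ ≤ ∑ p ∈ P, ((PS (Icc (-(H : ℤ)) (H : ℤ)) n).filter fun y =>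
        (p : ℤ) ∣ Dn y.1 y.2 v3 w).card := Finset.card_biUnion_le
    _ ≤ P.card • (16 * n * (2 * H + 1) ^ (4 * n)) := Finset.sum_le_card_nsmul _ _ _ hone
    _ = P.card * (16 * n * (2 * H + 1) ^ (4 * n)) := by rw [smul_eq_mul]
    _ ≤ (32 * n + 1) * (16 * n * (2 * H + 1) ^ (4 * n)) := Nat.mul_le_mul_right _ hPc

/-- **Proof.** `BD` = the maximum of that of `Dn_primes` (`k = n`) and `n`. `S = [-H, H]`, `|S| = 2 H + 1`. Let `x = rA f`, `y = rA' f`.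
Either `Dn x.1 x.2 v1 w = 0`: at most `16 n (2H+1)^(4n) (2H+1)^(TT - 4n)` vectors (`card_rA`, `Dn_card_int`). Or it is not `0`: `card_rAA` with `A x = (Dn x.1 x.2 v1 w ≠ 0)` (at most `(2H+1)^(4n+1)` of them, `PS_card`) and `Q x y = (∃ p prime, 4 H < p, p ∣ Dn x.1 x.2 v1 w, p ∣ Dn y.1 y.2 v3 w)`: for given `x` there are at most `32 n + 1` such primes (`Dn_primes`), for each of them
at most `16 n (2H+1)^(4n)` of the `y` (`Dn_card_mod`: `4 n ≤ 4 H < p`, `p ≠ 2`, `p` does not divide `v3 ≠ 0`, `|v3| ≤ N ≤ H < p`, `w ≠ 0` modulo `p`): `b = (32 n + 1) 16 n (2H+1)^(4n)`. Exponents: `(4 n + 1) + 4 n + (TT - 8 n - 1) = TT` (`TT ≥ 8 n + 1` as `m, n ≥ 1`). -/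
theorem large_A {m n : ℕ} (hm : 1 ≤ m) (hn : 1 ≤ n) : ∃ BD : ℕ, 1 ≤ BD ∧ ∀ (H N : ℕ), 1 ≤ N → N ≤ H → BD ≤ H → ∀ u ∈ box2 N,
    u.1.1 ≠ 0 → u.1.2.2 ≠ 0 → u.2.1 ≠ 0 →
    ((boxN (TT m n) H).filter fun f => ∃ p : ℕ, p.Prime ∧ 4 * H < p ∧
      (p : ℤ) ∣ Dn (rA (m := m) f).1 (rA (m := m) f).2 u.1.1 u.2 ∧
      (p : ℤ) ∣ Dn (rA' (m := m) f).1 (rA' (m := m) f).2 u.1.2.2 u.2).card ≤ 16 * n * (32 * n + 2) * (2 * H + 1) ^ (TT m n) := by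
  obtain ⟨BD0, hBD1, hBD⟩ := Dn_primes n hn
  refine ⟨max BD0 n, le_trans hBD1 (le_max_left _ _), ?_⟩
  intro H N hN1 hNH hBDH u hu h1 h3 hw
  have hB0 : BD0 ≤ H := le_trans (le_max_left _ _) hBDH
  have hnH : n ≤ H := le_trans (le_max_right _ _) hBDH
  have hu' := hu
  unfold box2 at hu'
  rw [Finset.mem_product] at hu'
  have hv := PF1_box hu'.1
  have hwb := PF1_box hu'.2
  have hSc : (Icc (-(H : ℤ)) (H : ℤ)).card = 2 * H + 1 := by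
    rw [Int.card_Icc]
    omega
  have hT : TT m n = 4 * n + (TT m n - 4 * n) ∧ TT m n = (4 * n + 1) + 4 * n + (TT m n - 8 * n - 1) := by
    have : n ≤ m * n := Nat.le_mul_of_pos_left n hm
    have e1 : TT m n = 8 * (m * n) + 2 * m + 2 * n := by
      simp only [TT, MM]
      ring
    omega
  obtain ⟨Q0, hQ0⟩ : ∃ Q0 : (Fin (2 * n + 1) → ℤ) × (Fin (2 * n) → ℤ) → Prop,
      ∀ x, Q0 x ↔ Dn x.1 x.2 u.1.1 u.2 = 0 := ⟨fun x => Dn x.1 x.2 u.1.1 u.2 = 0, fun x => Iff.rfl⟩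
  obtain ⟨A, hA⟩ : ∃ A : (Fin (2 * n + 1) → ℤ) × (Fin (2 * n) → ℤ) → Prop,
      ∀ x, A x ↔ Dn x.1 x.2 u.1.1 u.2 ≠ 0 := ⟨fun x => Dn x.1 x.2 u.1.1 u.2 ≠ 0, fun x => Iff.rfl⟩
  obtain ⟨Q, hQ⟩ : ∃ Q : (Fin (2 * n + 1) → ℤ) × (Fin (2 * n) → ℤ) →
      (Fin (2 * n + 1) → ℤ) × (Fin (2 * n) → ℤ) → Prop,
      ∀ x y, Q x y ↔ ∃ p : ℕ, p.Prime ∧ 4 * H < p ∧
      (p : ℤ) ∣ Dn x.1 x.2 u.1.1 u.2 ∧ (p : ℤ) ∣ Dn y.1 y.2 u.1.2.2 u.2 :=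
    ⟨fun x y => ∃ p : ℕ, p.Prime ∧ 4 * H < p ∧
      (p : ℤ) ∣ Dn x.1 x.2 u.1.1 u.2 ∧ (p : ℤ) ∣ Dn y.1 y.2 u.1.2.2 u.2, fun x y => Iff.rfl⟩
  have hsub : ((boxN (TT m n) H).filter fun f => ∃ p : ℕ, p.Prime ∧ 4 * H < p ∧
      (p : ℤ) ∣ Dn (rA (m := m) f).1 (rA (m := m) f).2 u.1.1 u.2 ∧
      (p : ℤ) ∣ Dn (rA' (m := m) f).1 (rA' (m := m) f).2 u.1.2.2 u.2) ⊆
      ((Fintype.piFinset fun _ : Fin (TT m n + 1) => Icc (-(H : ℤ)) (H : ℤ)).filter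
        fun f => Q0 (rA (m := m) f)) ∪
      ((Fintype.piFinset fun _ : Fin (TT m n + 1) => Icc (-(H : ℤ)) (H : ℤ)).filter
        fun f => A (rA (m := m) f) ∧ Q (rA (m := m) f) (rA' (m := m) f)) := by
    intro f hf
    rw [Finset.mem_filter] at hf
    rw [Finset.mem_union, Finset.mem_filter, Finset.mem_filter]
    by_cases h : Dn (rA (m := m) f).1 (rA (m := m) f).2 u.1.1 u.2 = 0
    · exact Or.inl ⟨hf.1, (hQ0 _).mpr h⟩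
    · exact Or.inr ⟨hf.1, (hA _).mpr h, (hQ _ _).mpr hf.2⟩
  have hc0 : ((Fintype.piFinset fun _ : Fin (TT m n + 1) => Icc (-(H : ℤ)) (H : ℤ)).filter
        fun f => Q0 (rA (m := m) f)).card ≤ 16 * n * (2 * H + 1) ^ (TT m n) := by
    rw [card_rA hm, hSc]
    have h5 : ((PS (Icc (-(H : ℤ)) (H : ℤ)) n).filter Q0).card ≤
        16 * n * (2 * H + 1) ^ (4 * n) := by
      have hw0 : u.2 ≠ 0 := by
        intro h
        exact hw (congrArg Prod.fst h)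
      refine le_trans (Finset.card_le_card ?_) (Dn_card_int hn u.1.1 u.2 h1 hw0 H)
      intro y hy
      rw [Finset.mem_filter] at hy
      rw [Finset.mem_filter]
      exact ⟨hy.1, (hQ0 _).mp hy.2⟩
    calc _ ≤ 16 * n * (2 * H + 1) ^ (4 * n) * (2 * H + 1) ^ (TT m n - 4 * n) :=
          Nat.mul_le_mul_right _ h5
      _ = 16 * n * (2 * H + 1) ^ (4 * n + (TT m n - 4 * n)) := by rw [pow_add, mul_assoc]
      _ = _ := by rw [← hT.1]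
  have hc1 : ((Fintype.piFinset fun _ : Fin (TT m n + 1) => Icc (-(H : ℤ)) (H : ℤ)).filter
        fun f => A (rA (m := m) f) ∧ Q (rA (m := m) f) (rA' (m := m) f)).card ≤
        16 * n * (32 * n + 1) * (2 * H + 1) ^ (TT m n) := by
    have h6 := card_rAA (F := ℤ) (n := n) hm (Icc (-(H : ℤ)) (H : ℤ)) A Q
      ((32 * n + 1) * (16 * n * (2 * H + 1) ^ (4 * n)))
      (fun x hx hAx => by
        refine le_trans (Finset.card_le_card ?_) (PF1_fiber hn H N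
          (fun g h d w a1 a2 a3 a4 a5 => hBD H N hN1 hNH hB0 g h d w a1 a2 a3 a4 a5)
          hN1 hNH hnH u.1.1 u.1.2.2 u.2 hv.1 hv.2.2 h3 hw hwb x hx ((hA _).mp hAx))
        intro y hy
        rw [Finset.mem_filter] at hy
        rw [Finset.mem_filter]
        exact ⟨hy.1, (hQ _ _).mp hy.2⟩)
    refine le_trans h6 ?_
    rw [hSc]
    have h7 : ((PS (Icc (-(H : ℤ)) (H : ℤ)) n).filter A).card ≤ (2 * H + 1) ^ (4 * n + 1) := by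
      refine le_trans (Finset.card_filter_le _ _) ?_
      rw [PS_card, hSc]
    calc _ ≤ (2 * H + 1) ^ (4 * n + 1) * ((32 * n + 1) * (16 * n * (2 * H + 1) ^ (4 * n))) *
          (2 * H + 1) ^ (TT m n - 8 * n - 1) :=
          Nat.mul_le_mul_right _ (Nat.mul_le_mul_right _ h7)
      _ = 16 * n * (32 * n + 1) *
          (2 * H + 1) ^ ((4 * n + 1) + 4 * n + (TT m n - 8 * n - 1)) := by
          rw [pow_add, pow_add]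
          ring
      _ = _ := by rw [← hT.2]
  calc _ ≤ _ := Finset.card_le_card hsub
    _ ≤ _ := Finset.card_union_le _ _
    _ ≤ 16 * n * (2 * H + 1) ^ (TT m n) + 16 * n * (32 * n + 1) * (2 * H + 1) ^ (TT m n) :=
      Nat.add_le_add hc0 hc1
    _ = _ := by ring

end HNE
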