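import Pool.Agent.Lib.MP_1ad228_ntE.PP1
import Pool.Agent.Lib.MP_1ad228_ntH.HC2
import Pool.Agent.Lib.MP_10e784_agF.LP2
import Pool.Agent.Lib.MP_10e784_agF.LM
import Pool.Agent.Lib.MP_10e784_agQ.QX2

/-! The mean value of the bad event. -/

set_option autoImplicit false

open Classical

namespace HNE

open Finset Polynomial FGO FQQ HNF

theorem PP2_mF_ind (T p : ℕ) [Fact p.Prime] (P : (Fin (T + 1) → ZMod p) → Prop) :
    mF T p (fun f => ind (P f)) =
      (((Fintype.piFinset fun _ : Fin (T + 1) => (univ : Finset (ZMod p))).filter P).card : ℝ) /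
        (p : ℝ) ^ (T + 1) := by
  unfold mF ind
  rw [Finset.sum_boole, Fintype.piFinset_univ]

theorem PP2_two {m n : ℕ} (p : ℕ) [Fact p.Prime] (hp : W0 m n ≤ p) : (2 : ZMod p) ≠ 0 := by
  intro h
  have h3 : ((2 : ℕ) : ZMod p) = 0 := by exact_mod_cast h
  rw [ZMod.natCast_eq_zero_iff] at h3
  have := Nat.le_of_dvd (by norm_num) h3
  unfold W0 at hp
  omega

theorem PP2_four {m n k : ℕ} (hk : 1 ≤ k) (hkm : k ≤ m + n) (p : ℕ) [Fact p.Prime]
    (hp : W0 m n ≤ p) : ((4 * k : ℕ) : ZMod p) ≠ 0 := by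
  intro h3
  rw [ZMod.natCast_eq_zero_iff] at h3
  have := Nat.le_of_dvd (by omega) h3
  unfold W0 at hp
  omega

theorem PP2_bound {k : ℕ} (hk : 1 ≤ k) (p : ℕ) [Fact p.Prime] (h2 : (2 : ZMod p) ≠ 0)
    (h4 : ((4 * k : ℕ) : ZMod p) ≠ 0) (d : ZMod p) (w : ZMod p × ZMod p × ZMod p) (hd : d ≠ 0)
    (hw : w ≠ 0) (Q : (Fin (2 * k + 1) → ZMod p) × (Fin (2 * k) → ZMod p) → Prop)
    (hQ : Q = fun x => Dn x.1 x.2 d w = 0) :
    ((PS (univ : Finset (ZMod p)) k).filter Q).card ≤ 16 * k * p ^ (4 * k) := by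
  subst hQ
  have h := Dn_card hk h2 h4 d w hd hw (univ : Finset (ZMod p))
  rw [card_univ, ZMod.card] at h
  exact h

theorem PP2_div {T k c b : ℕ} (p : ℕ) [Fact p.Prime] (hk : k ≤ T) (hb : b ≤ c * p ^ k * p ^ (T - k)) :
    (b : ℝ) / (p : ℝ) ^ (T + 1) ≤ (c : ℝ) / (p : ℝ) := by
  have hp0 := BA_pos p
  have h1 : c * p ^ k * p ^ (T - k) = c * p ^ T := by
    rw [mul_assoc, ← pow_add, Nat.add_sub_cancel' hk]
  rw [h1] at hb
  have h2 : (b : ℝ) ≤ (c : ℝ) * (p : ℝ) ^ T := by exact_mod_cast hb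
  rw [div_le_div_iff₀ (by positivity) hp0, pow_succ]
  calc (b : ℝ) * (p : ℝ) ≤ (c : ℝ) * (p : ℝ) ^ T * (p : ℝ) :=
        mul_le_mul_of_nonneg_right h2 hp0.le
    _ = (c : ℝ) * ((p : ℝ) ^ T * (p : ℝ)) := by ring

/-- **Proof.** `card_rA` for `F = ZMod p`, `S = univ` (`|S| = p`) and `Dn_card` (`k = n`): at most `16 n p^(4n) p^(TT - 4n)` of the `p^(TT + 1)` vectors. `p > 4 n`, `p ≠ 2`. -/
theorem mF_DA {m n : ℕ} (hm : 1 ≤ m) (hn : 1 ≤ n) (p : ℕ) [Fact p.Prime] (hp : W0 m n ≤ p) (d : ZMod p)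
    (w : ZMod p × ZMod p × ZMod p) (hd : d ≠ 0) (hw : w ≠ 0) :
    mF (TT m n) p (fun f => ind (Dn (rA (m := m) f).1 (rA (m := m) f).2 d w = 0)) ≤ 16 * n / (p : ℝ) := by
  rw [PP2_mF_ind]
  obtain ⟨Q, hQ⟩ : ∃ Q : (Fin (2 * n + 1) → ZMod p) × (Fin (2 * n) → ZMod p) → Prop,
      Q = fun x => Dn x.1 x.2 d w = 0 := ⟨_, rfl⟩
  have h0 := card_rA (n := n) hm (univ : Finset (ZMod p)) Q
  have h := PP2_bound hn p (PP2_two (m := m) (n := n) p hp)
    (PP2_four (m := m) hn (by omega) p hp) d w hd hw Q hQ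
  have h5 : 4 * n ≤ TT m n := by
    have : 2 * n ≤ 2 * m * (2 * n) := by nlinarith
    unfold TT MM
    omega
  have h6 := PP2_div (c := 16 * n) p h5 (Nat.mul_le_mul_right (p ^ (TT m n - 4 * n)) h)
  rw [card_univ, ZMod.card] at h0
  rw [← h0] at h6
  subst hQ
  refine le_trans (le_of_eq rfl) (h6.trans (le_of_eq ?_))
  push_cast
  ring

theorem mF_DA' {m n : ℕ} (hm : 1 ≤ m) (hn : 1 ≤ n) (p : ℕ) [Fact p.Prime] (hp : W0 m n ≤ p) (d : ZMod p)
    (w : ZMod p × ZMod p × ZMod p) (hd : d ≠ 0) (hw : w ≠ 0) :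
    mF (TT m n) p (fun f => ind (Dn (rA' (m := m) f).1 (rA' (m := m) f).2 d w = 0)) ≤ 16 * n / (p : ℝ) := by
  rw [PP2_mF_ind]
  obtain ⟨Q, hQ⟩ : ∃ Q : (Fin (2 * n + 1) → ZMod p) × (Fin (2 * n) → ZMod p) → Prop,
      Q = fun x => Dn x.1 x.2 d w = 0 := ⟨_, rfl⟩
  have h0 := card_rA' (n := n) hm (univ : Finset (ZMod p)) Q
  have h := PP2_bound hn p (PP2_two (m := m) (n := n) p hp)
    (PP2_four (m := m) hn (by omega) p hp) d w hd hw Q hQ
  have h5 : 4 * n ≤ TT m n := by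
    have : 2 * n ≤ 2 * m * (2 * n) := by nlinarith
    unfold TT MM
    omega
  have h6 := PP2_div (c := 16 * n) p h5 (Nat.mul_le_mul_right (p ^ (TT m n - 4 * n)) h)
  rw [card_univ, ZMod.card] at h0
  rw [← h0] at h6
  subst hQ
  refine le_trans (le_of_eq rfl) (h6.trans (le_of_eq ?_))
  push_cast
  ring

theorem mF_DB {m n : ℕ} (hm : 1 ≤ m) (hn : 1 ≤ n) (p : ℕ) [Fact p.Prime] (hp : W0 m n ≤ p) (d : ZMod p)
    (v : ZMod p × ZMod p × ZMod p) (hd : d ≠ 0) (hv : v ≠ 0) :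
    mF (TT m n) p (fun f => ind (Dn (rB (n := n) f).1 (rB (n := n) f).2 d v = 0)) ≤ 16 * m / (p : ℝ) := by
  rw [PP2_mF_ind]
  obtain ⟨Q, hQ⟩ : ∃ Q : (Fin (2 * m + 1) → ZMod p) × (Fin (2 * m) → ZMod p) → Prop,
      Q = fun x => Dn x.1 x.2 d v = 0 := ⟨_, rfl⟩
  have h0 := card_rB (m := m) hn (univ : Finset (ZMod p)) Q
  have h := PP2_bound hm p (PP2_two (m := m) (n := n) p hp)
    (PP2_four (n := n) hm (by omega) p hp) d v hd hv Q hQ
  have h5 : 4 * m ≤ TT m n := by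
    have : 2 * m ≤ 2 * m * (2 * n) := by nlinarith
    unfold TT MM
    omega
  have h6 := PP2_div (c := 16 * m) p h5 (Nat.mul_le_mul_right (p ^ (TT m n - 4 * m)) h)
  rw [card_univ, ZMod.card] at h0
  rw [← h0] at h6
  subst hQ
  refine le_trans (le_of_eq rfl) (h6.trans (le_of_eq ?_))
  push_cast
  ring

/-- **Proof.** `card_rAA` with `A x = (Dn x.1 x.2 d w = 0)`, `Q x y = (Dn y.1 y.2 d' w = 0)`, `b = 16 n p^(4n)`. -/
theorem mF_DAA {m n : ℕ} (hm : 1 ≤ m) (hn : 1 ≤ n) (p : ℕ) [Fact p.Prime] (hp : W0 m n ≤ p) (d d' : ZMod p)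
    (w : ZMod p × ZMod p × ZMod p) (hd : d ≠ 0) (hd' : d' ≠ 0) (hw : w ≠ 0) :
    mF (TT m n) p (fun f => ind (Dn (rA (m := m) f).1 (rA (m := m) f).2 d w = 0 ∧ Dn (rA' (m := m) f).1 (rA' (m := m) f).2 d' w = 0)) ≤
      256 * n ^ 2 / (p : ℝ) ^ 2 := by
  have hp0 := BA_pos p
  have h2 := PP2_two (m := m) (n := n) p hp
  have h4 := PP2_four (m := m) hn (by omega) p hp
  obtain ⟨Q, hQ⟩ : ∃ Q : (Fin (2 * n + 1) → ZMod p) × (Fin (2 * n) → ZMod p) → Prop,
      Q = fun x => Dn x.1 x.2 d w = 0 := ⟨_, rfl⟩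
  obtain ⟨Q', hQ'⟩ : ∃ Q' : (Fin (2 * n + 1) → ZMod p) × (Fin (2 * n) → ZMod p) → Prop,
      Q' = fun x => Dn x.1 x.2 d' w = 0 := ⟨_, rfl⟩
  have h := card_rAA hm (univ : Finset (ZMod p)) Q (fun _ => Q') (16 * n * p ^ (4 * n))
    (fun _ _ _ => PP2_bound hn p h2 h4 d' w hd' hw Q' hQ')
  have h1 := PP2_bound hn p h2 h4 d w hd hw Q hQ
  obtain ⟨P, hP⟩ : ∃ P : (Fin (TT m n + 1) → ZMod p) → Prop,
      P = fun f => Dn (rA (m := m) f).1 (rA (m := m) f).2 d w = 0 ∧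
        Dn (rA' (m := m) f).1 (rA' (m := m) f).2 d' w = 0 := ⟨_, rfl⟩
  have hE : (Fintype.piFinset fun _ : Fin (TT m n + 1) => (univ : Finset (ZMod p))).filter P =
      (Fintype.piFinset fun _ : Fin (TT m n + 1) => (univ : Finset (ZMod p))).filter
        fun f => Q (rA (m := m) f) ∧ Q' (rA' (m := m) f) := by
    ext f
    simp only [mem_filter, hP, hQ, hQ']
  have hG : mF (TT m n) p (fun f => ind (Dn (rA (m := m) f).1 (rA (m := m) f).2 d w = 0 ∧
      Dn (rA' (m := m) f).1 (rA' (m := m) f).2 d' w = 0)) = mF (TT m n) p (fun f => ind (P f)) := by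
    rw [hP]
  rw [hG, PP2_mF_ind, hE]
  have h5 : 8 * n + 1 ≤ TT m n := by
    have : 2 * 1 * (2 * n) ≤ 2 * m * (2 * n) :=
      Nat.mul_le_mul_right _ (Nat.mul_le_mul_left 2 hm)
    unfold TT MM
    omega
  rw [card_univ, ZMod.card] at h
  have h6 := h.trans (Nat.mul_le_mul_right _ (Nat.mul_le_mul_right _ h1))
  have h7 : 16 * n * p ^ (4 * n) * (16 * n * p ^ (4 * n)) * p ^ (TT m n - 8 * n - 1) =
      256 * n ^ 2 * p ^ (TT m n - 1) := by
    have e : TT m n - 1 = 4 * n + 4 * n + (TT m n - 8 * n - 1) := by omega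
    rw [e, pow_add, pow_add]
    ring
  rw [h7] at h6
  have h8 : ((((Fintype.piFinset fun _ : Fin (TT m n + 1) => (univ : Finset (ZMod p))).filter
      fun f => Q (rA (m := m) f) ∧ Q' (rA' (m := m) f)).card : ℕ) : ℝ) ≤
      256 * (n : ℝ) ^ 2 * (p : ℝ) ^ (TT m n - 1) := by
    exact_mod_cast h6
  rw [div_le_div_iff₀ (by positivity) (by positivity)]
  have e2 : TT m n + 1 = TT m n - 1 + 2 := by omega
  have h9 := mul_le_mul_of_nonneg_right h8 (by positivity : (0 : ℝ) ≤ (p : ℝ) ^ 2)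
  refine h9.trans (le_of_eq ?_)
  have e3 : (p : ℝ) ^ (TT m n + 1) = (p : ℝ) ^ (TT m n - 1) * (p : ℝ) ^ 2 := by
    rw [← pow_add, ← e2]
  rw [e3]
  ring

theorem PP2_card (p : ℕ) [Fact p.Prime] {ι : Type} [Fintype ι] (ψ : ι → ZMod p × ZMod p × ZMod p)
    (hψ : Function.Injective ψ) (P : ZMod p × ZMod p × ZMod p → Prop) (h : ∀ v, P v ↔ ∃ x, ψ x = v) :
    mQ p (fun v => ind (P v)) = (Fintype.card ι : ℝ) / (p : ℝ) ^ 3 := by
  unfold mQ ind
  rw [Finset.sum_boole]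
  congr 2
  have e : univ.filter (fun v => P v) = (univ : Finset ι).map ⟨ψ, hψ⟩ := by
    ext v
    simp only [mem_filter, mem_univ, true_and, mem_map, Function.Embedding.coeFn_mk]
    exact h v
  rw [e, card_map, card_univ]

theorem PP2_mQ_last (p : ℕ) [Fact p.Prime] : mQ p (fun v => ind (v.2.2 = 0)) = 1 / (p : ℝ) := by
  have hp0 := (BA_pos p).ne'
  have h := PP2_card p (fun x : ZMod p × ZMod p => (x.1, x.2, (0 : ZMod p))) ?_
    (fun v => v.2.2 = 0) ?_
  · rw [h, Fintype.card_prod, ZMod.card]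
    push_cast
    field_simp
  · rintro ⟨x, x'⟩ ⟨y, y'⟩ hxy
    simp only [Prod.mk.injEq] at hxy
    rw [hxy.1, hxy.2.1]
  · rintro ⟨a, b, c⟩
    constructor
    · intro h3
      exact ⟨(a, b), by rw [show c = 0 from h3]⟩
    · rintro ⟨x, hx⟩
      rw [Prod.mk.injEq, Prod.mk.injEq] at hx
      exact hx.2.2.symm

theorem PP2_mQ_ends (p : ℕ) [Fact p.Prime] :
    mQ p (fun v => ind (v.1 = 0 ∧ v.2.2 = 0)) = 1 / (p : ℝ) ^ 2 := by
  have hp0 := (BA_pos p).ne'
  have h := PP2_card p (fun x : ZMod p => ((0 : ZMod p), x, (0 : ZMod p))) ?_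
    (fun v => v.1 = 0 ∧ v.2.2 = 0) ?_
  · rw [h, ZMod.card]
    field_simp
  · intro x y hxy
    exact (Prod.mk.inj (Prod.mk.inj hxy).2).1
  · rintro ⟨a, b, c⟩
    constructor
    · rintro ⟨h3, h4⟩
      exact ⟨b, by rw [show a = 0 from h3, show c = 0 from h4]⟩
    · rintro ⟨x, hx⟩
      rw [Prod.mk.injEq, Prod.mk.injEq] at hx
      exact ⟨hx.1.symm, hx.2.2.symm⟩

theorem PP2_ne {p : ℕ} [Fact p.Prime] {v : ZMod p × ZMod p × ZMod p} (h : ds v ≠ 0) : v ≠ 0 := by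
  rintro rfl
  apply h
  unfold ds
  simp

theorem PP2_qv10 {p : ℕ} (v : ZMod p × ZMod p × ZMod p) : qv v 1 0 = v.1 := by
  unfold qv
  ring

theorem PP2_qv01 {p : ℕ} (v : ZMod p × ZMod p × ZMod p) : qv v 0 1 = v.2.2 := by
  unfold qv
  ring

theorem PP2_main {m n : ℕ} (hm : 1 ≤ m) (hn : 1 ≤ n) (p : ℕ) [Fact p.Prime] (hp : W0 m n ≤ p)
    (v w : ZMod p × ZMod p × ZMod p) :
    mF (TT m n) p (fun f => ind (BdF f v w)) ≤ ind (ds v = 0) * ind (ds w = 0) +
      (ind (ds w = 0 ∧ w.1 = 0) + (16 * m / (p : ℝ)) * ind (ds w = 0) + ind (ds v = 0 ∧ v.1 = 0) +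
        (16 * n / (p : ℝ)) * ind (ds v = 0) + ind (v.1 = 0 ∧ v.2.2 = 0) +
        (16 * n / (p : ℝ)) * ind (v.1 = 0) + (16 * n / (p : ℝ)) * ind (v.2.2 = 0) +
        256 * n ^ 2 / (p : ℝ) ^ 2) := by
  have hp0 := BA_pos p
  have hone : mF (TT m n) p (fun f => ind (BdF f v w)) ≤ 1 :=
    (mF_mono _ p _ (fun _ => 1) fun c => ind_le_one _).trans (le_of_eq (mF_const _ p 1))
  have hM : 0 ≤ 16 * (m : ℝ) / (p : ℝ) := by positivity
  have hN : 0 ≤ 16 * (n : ℝ) / (p : ℝ) := by positivity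
  have n0 : 0 ≤ ind (ds v = 0) * ind (ds w = 0) := mul_nonneg (ind_nonneg _) (ind_nonneg _)
  have n1 := ind_nonneg (ds w = 0 ∧ w.1 = 0)
  have n2 := mul_nonneg hM (ind_nonneg (ds w = 0))
  have n3 := ind_nonneg (ds v = 0 ∧ v.1 = 0)
  have n4 := mul_nonneg hN (ind_nonneg (ds v = 0))
  have n5 := ind_nonneg (v.1 = 0 ∧ v.2.2 = 0)
  have n6 := mul_nonneg hN (ind_nonneg (v.1 = 0))
  have n7 := mul_nonneg hN (ind_nonneg (v.2.2 = 0))
  have n8 : 0 ≤ 256 * (n : ℝ) ^ 2 / (p : ℝ) ^ 2 := by positivity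
  by_cases a1 : ds v = 0
  · by_cases a2 : ds w = 0
    · have e1 : ind (ds v = 0) = 1 := by unfold ind; rw [if_pos a1]
      have e2 : ind (ds w = 0) = 1 := by unfold ind; rw [if_pos a2]
      have e3 : ind (ds v = 0) * ind (ds w = 0) = 1 := by rw [e1, e2, one_mul]
      linarith
    · by_cases a3 : v.1 = 0
      · have e1 : ind (ds v = 0 ∧ v.1 = 0) = 1 := by unfold ind; rw [if_pos ⟨a1, a3⟩]
        linarith
      · have e1 : ind (ds v = 0) = 1 := by unfold ind; rw [if_pos a1]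
        have h1 : mF (TT m n) p (fun f => ind (BdF f v w)) ≤ 16 * n / (p : ℝ) := by
          refine (mF_mono _ p _ _ fun f => ?_).trans (mF_DA hm hn p hp v.1 w a3 (PP2_ne a2))
          refine ind_mono fun hB => ?_
          rcases hB with ⟨_, h⟩ | ⟨h, _⟩ | ⟨_, _, h⟩ | ⟨h, _⟩
          · exact absurd h a2
          · exact absurd h a2
          · rcases h with h | h
            · rw [PP2_qv10] at h
              exact absurd h a3
            · rw [PP2_qv10] at h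
              exact h
          · exact absurd a1 h
        rw [e1] at n0 n4 ⊢
        linarith
  · have hv0 := PP2_ne a1
    by_cases a2 : ds w = 0
    · by_cases a3 : w.1 = 0
      · have e1 : ind (ds w = 0 ∧ w.1 = 0) = 1 := by unfold ind; rw [if_pos ⟨a2, a3⟩]
        linarith
      · have e1 : ind (ds w = 0) = 1 := by unfold ind; rw [if_pos a2]
        have h1 : mF (TT m n) p (fun f => ind (BdF f v w)) ≤ 16 * m / (p : ℝ) := by
          refine (mF_mono _ p _ _ fun f => ?_).trans (mF_DB hm hn p hp w.1 v a3 hv0)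
          refine ind_mono fun hB => ?_
          rcases hB with ⟨h, _⟩ | ⟨_, _, h⟩ | ⟨h, _⟩ | ⟨_, h, _⟩
          · exact absurd h a1
          · rcases h with h | h
            · rw [PP2_qv10] at h
              exact absurd h a3
            · rw [PP2_qv10] at h
              exact h
          · exact absurd h a1
          · exact absurd a2 h
        rw [e1] at n0 n2 ⊢
        linarith
    · have hw0 := PP2_ne a2
      have hBd : ∀ f : Fin (TT m n + 1) → ZMod p, BdF f v w → DA 1 0 f v w ∧ DA 0 1 f v w := by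
        intro f hB
        rcases hB with ⟨h, _⟩ | ⟨h, _⟩ | ⟨h, _⟩ | ⟨_, _, h⟩
        · exact absurd h a1
        · exact absurd h a2
        · exact absurd h a1
        · exact h
      by_cases a3 : v.1 = 0
      · by_cases a4 : v.2.2 = 0
        · have e1 : ind (v.1 = 0 ∧ v.2.2 = 0) = 1 := by unfold ind; rw [if_pos ⟨a3, a4⟩]
          linarith
        · have e1 : ind (v.1 = 0) = 1 := by unfold ind; rw [if_pos a3]
          have h1 : mF (TT m n) p (fun f => ind (BdF f v w)) ≤ 16 * n / (p : ℝ) := by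
            refine (mF_mono _ p _ _ fun f => ?_).trans (mF_DA' hm hn p hp v.2.2 w a4 hw0)
            refine ind_mono fun hB => ?_
            rcases (hBd f hB).2 with h | h
            · rw [PP2_qv01] at h
              exact absurd h a4
            · rw [PP2_qv01] at h
              exact h
          rw [e1, mul_one] at n6 ⊢
          linarith
      · by_cases a4 : v.2.2 = 0
        · have e1 : ind (v.2.2 = 0) = 1 := by unfold ind; rw [if_pos a4]
          have h1 : mF (TT m n) p (fun f => ind (BdF f v w)) ≤ 16 * n / (p : ℝ) := by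
            refine (mF_mono _ p _ _ fun f => ?_).trans (mF_DA hm hn p hp v.1 w a3 hw0)
            refine ind_mono fun hB => ?_
            rcases (hBd f hB).1 with h | h
            · rw [PP2_qv10] at h
              exact absurd h a3
            · rw [PP2_qv10] at h
              exact h
          rw [e1, mul_one] at n7 ⊢
          linarith
        · have h1 : mF (TT m n) p (fun f => ind (BdF f v w)) ≤ 256 * n ^ 2 / (p : ℝ) ^ 2 := by
            refine (mF_mono _ p _ _ fun f => ?_).trans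
              (mF_DAA hm hn p hp v.1 v.2.2 w a3 a4 hw0)
            refine ind_mono fun hB => ?_
            obtain ⟨h, h'⟩ := hBd f hB
            refine ⟨?_, ?_⟩
            · rcases h with h | h
              · rw [PP2_qv10] at h
                exact absurd h a3
              · rw [PP2_qv10] at h
                exact h
            · rcases h' with h | h
              · rw [PP2_qv01] at h
                exact absurd h a4
              · rw [PP2_qv01] at h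
                exact h
          linarith

/-- **Proof.** `qv v 1 0 = v.1`, `qv v 0 1 = v.2.2`. Fixed `(v, w)`: the mean value over `f` of `ind (BdF f v w)` is at most
`[ds v = 0][ds w = 0] + [ds w = 0][ds v ≠ 0] ([w.1 = 0] + 16 m / p) + [ds v = 0][ds w ≠ 0] ([v.1 = 0] + 16 n / p) + ([v.1 = 0 ∧ v.2.2 = 0] + [v.1 = 0] 16 n / p + [v.2.2 = 0] 16 n / p + 256 n² / p²)`
(`ds v ≠ 0` implies `v ≠ 0`). Mean values over `v` (over `w` the same): `[ds v = 0]`: at most `1 / p` (`p` odd: for given `(v.1, v.2.1)` or `(v.2.1, v.2.2)`...; `mQ_disc` in MP_10e784_agF/LP2.lean; models: `Av_Xe` in MP_10e784_agQ/QX2.lean, `Av_BdQ` in QT4.lean), `[v.1 = 0 ∧ ds v = 0]`: `1 / p²` (then `v.2.1 = 0`),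
`[v.1 = 0]`, `[v.2.2 = 0]`: `1 / p`, `[v.1 = 0 = v.2.2]`: `1 / p²`. Sum: `(1 + (1 + 16 m) + (1 + 16 n) + (1 + 32 n + 256 n²)) / p² = CB / p²`. -/
theorem Av_BdE {m n : ℕ} (hm : 1 ≤ m) (hn : 1 ≤ n) (p : ℕ) [Fact p.Prime] (hp : W0 m n ≤ p) :
    Av (TT m n) p (fun f v w => ind (BdF f v w)) ≤ (CB m n : ℝ) / (p : ℝ) ^ 2 := by
  have hp0 := BA_pos p
  have h2 : p ≠ 2 := by
    unfold W0 at hp
    omega
  have e1 : mQ p (fun v => ind (v.1 = 0)) = 1 / (p : ℝ) := by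
    have h := mQ_lead_root p none
    rw [if_pos rfl] at h
    rw [← h]
    refine congrArg (mQ p) (funext fun v => ?_)
    have hn : qv v (pt (none : Option (ZMod p))).1 (pt (none : Option (ZMod p))).2 = v.1 := by
      unfold qv
      simp [pt]
    rw [hn, and_self_iff]
  have e2 : mQ p (fun v => ind (ds v = 0)) = 1 / (p : ℝ) := mQ_disc p h2
  have e3 : mQ p (fun v => ind (ds v = 0 ∧ v.1 = 0)) = 1 / (p : ℝ) ^ 2 := by
    rw [← mQ_disc_root p h2 none]
    refine congrArg (mQ p) (funext fun v => ?_)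
    have hn : qv v (pt (none : Option (ZMod p))).1 (pt (none : Option (ZMod p))).2 = v.1 := by
      unfold qv
      simp [pt]
    rw [hn]
  have e6 := PP2_mQ_last p
  have e7 := PP2_mQ_ends p
  have e4 : mQ p (fun v => mQ p (fun w => ind (ds v = 0) * ind (ds w = 0))) =
      1 / (p : ℝ) * (1 / (p : ℝ)) := by
    have h : (fun v : ZMod p × ZMod p × ZMod p => mQ p (fun w => ind (ds v = 0) * ind (ds w = 0))) =
        fun v => 1 / (p : ℝ) * ind (ds v = 0) := by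
      funext v
      rw [mQ_smul, e2, mul_comm]
    rw [h, mQ_smul, e2]
  have hA : Av (TT m n) p (fun f v w => ind (BdF f v w)) ≤
      mQ p (fun v => mQ p (fun w => ind (ds v = 0) * ind (ds w = 0) +
      (ind (ds w = 0 ∧ w.1 = 0) + (16 * m / (p : ℝ)) * ind (ds w = 0) + ind (ds v = 0 ∧ v.1 = 0) +
        (16 * n / (p : ℝ)) * ind (ds v = 0) + ind (v.1 = 0 ∧ v.2.2 = 0) +
        (16 * n / (p : ℝ)) * ind (v.1 = 0) + (16 * n / (p : ℝ)) * ind (v.2.2 = 0) +
        256 * n ^ 2 / (p : ℝ) ^ 2))) := by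
    unfold Av
    exact mQ_mono p _ _ fun v => mQ_mono p _ _ fun w => PP2_main hm hn p hp v w
  refine hA.trans ?_
  have e5 : mQ p (fun v => mQ p (fun w => ind (ds v = 0) * ind (ds w = 0) +
      (ind (ds w = 0 ∧ w.1 = 0) + (16 * m / (p : ℝ)) * ind (ds w = 0) + ind (ds v = 0 ∧ v.1 = 0) +
        (16 * n / (p : ℝ)) * ind (ds v = 0) + ind (v.1 = 0 ∧ v.2.2 = 0) +
        (16 * n / (p : ℝ)) * ind (v.1 = 0) + (16 * n / (p : ℝ)) * ind (v.2.2 = 0) +
        256 * n ^ 2 / (p : ℝ) ^ 2))) =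
      mQ p (fun v => mQ p (fun w => ind (ds v = 0) * ind (ds w = 0))) +
      mQ p (fun v => mQ p (fun w =>
      (ind (ds w = 0 ∧ w.1 = 0) + (16 * m / (p : ℝ)) * ind (ds w = 0) + ind (ds v = 0 ∧ v.1 = 0) +
        (16 * n / (p : ℝ)) * ind (ds v = 0) + ind (v.1 = 0 ∧ v.2.2 = 0) +
        (16 * n / (p : ℝ)) * ind (v.1 = 0) + (16 * n / (p : ℝ)) * ind (v.2.2 = 0) +
        256 * n ^ 2 / (p : ℝ) ^ 2))) := by
    rw [← mQ_add]
    refine congrArg (mQ p) (funext fun v => ?_)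
    rw [← mQ_add]
  rw [e5, e4]
  simp only [mQ_add, mQ_smul, mQ_const, e1, e2, e3, e6, e7]
  refine le_of_eq ?_
  have hpn := hp0.ne'
  unfold CB
  push_cast
  field_simp
  ring

end HNE
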