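import Pool.Agent.Lib.MP_1ad228_ntE.PF1
import Pool.Agent.Lib.MP_1ad228_ntE.PP2
import Pool.Agent.Lib.MP_10e784_agQ.QV3

/-! Large primes. -/

set_option autoImplicit false

open Classical

namespace HNE

open Finset Polynomial FGO FQQ HNF

private theorem PF2_inv_sq (a b : ℕ) (ha : 0 < a) (Q : Finset ℕ) (hQ : ∀ p ∈ Q, a < p ∧ p ≤ b) :
    ∑ p ∈ Q, 1 / (p : ℝ) ^ 2 ≤ 1 / (a : ℝ) := by
  by_cases hab : a ≤ b
  · have h1 : Q ⊆ Finset.Ioc a b := by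
      intro p hp
      rw [Finset.mem_Ioc]
      exact hQ p hp
    have h2 : ∑ p ∈ Q, 1 / (p : ℝ) ^ 2 ≤ ∑ p ∈ Finset.Ioc a b, ((p : ℝ) ^ 2)⁻¹ := by
      refine (Finset.sum_le_sum_of_subset_of_nonneg h1 fun p _ _ => by positivity).trans (le_of_eq ?_)
      exact Finset.sum_congr rfl fun p _ => one_div _
    have h3 := sum_Ioc_inv_sq_le_sub (α := ℝ) (k := a) (n := b) (by omega) hab
    have h4 : (0 : ℝ) ≤ ((b : ℕ) : ℝ)⁻¹ := by positivity
    rw [one_div]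
    linarith
  · have h1 : Q = ∅ := by
      rw [Finset.eq_empty_iff_forall_notMem]
      intro p hp
      have := hQ p hp
      omega
    rw [h1, Finset.sum_empty]
    positivity

private theorem PF2_box {N : ℕ} {v : V} (hv : v ∈ FGO.box N) :
    |v.1| ≤ (N : ℤ) ∧ |v.2.1| ≤ (N : ℤ) ∧ |v.2.2| ≤ (N : ℤ) := by
  unfold FGO.box at hv
  rw [Finset.mem_product, Finset.mem_product, Finset.mem_Icc, Finset.mem_Icc, Finset.mem_Icc] at hv
  exact ⟨abs_le.2 hv.1, abs_le.2 hv.2.1, abs_le.2 hv.2.2⟩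

private theorem PF2_ne {N p : ℕ} (hp : N < p) {n : ℤ} (hn : |n| ≤ (N : ℤ)) (h0 : n ≠ 0) : ((n : ℤ) : ZMod p) ≠ 0 := by
  intro h
  rw [ZMod.intCast_zmod_eq_zero_iff_dvd] at h
  have h1 := Int.eq_zero_of_abs_lt_dvd h (by
    have : (N : ℤ) < (p : ℤ) := by exact_mod_cast hp
    linarith)
  exact h0 h1

private theorem PF2_ds {N : ℕ} {v : V} (hv : v ∈ FGO.box N) : |ds v| ≤ 5 * (N : ℤ) ^ 2 := by
  obtain ⟨h1, h2, h3⟩ := PF2_box hv
  have hN : (0 : ℤ) ≤ N := Int.natCast_nonneg N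
  unfold ds
  have e1 : |v.2.1 ^ 2| ≤ (N : ℤ) ^ 2 := by
    rw [abs_pow]
    exact pow_le_pow_left₀ (abs_nonneg _) h2 2
  have e2 : |4 * v.1 * v.2.2| ≤ 4 * (N : ℤ) ^ 2 := by
    rw [abs_mul, abs_mul]
    have : |(4 : ℤ)| = 4 := by norm_num
    rw [this]
    have e3 : |v.1| * |v.2.2| ≤ (N : ℤ) * N := mul_le_mul h1 h3 (abs_nonneg _) hN
    nlinarith
  have e4 := abs_sub (v.2.1 ^ 2) (4 * v.1 * v.2.2)
  linarith

/-- the number of the vectors with a property modulo `p` -/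
private theorem PF2_mean {T H p : ℕ} [Fact p.Prime] (hH : 0 < H) (hpH : p ≤ 4 * H) (P : (Fin (T + 1) → ZMod p) → Prop) (K : ℝ)
    (hK : mF T p (fun c => ind (P c)) ≤ K) :
    (((boxN T H).filter fun c => P (cN p c)).card : ℝ) ≤ (8 * (H : ℝ)) ^ (T + 1) * K := by
  have hc : (((boxN T H).filter fun c => P (cN p c)).card : ℝ) = ∑ c ∈ boxN T H, ind (P (cN p c)) := by
    rw [← Finset.sum_boole]
    refine Finset.sum_congr rfl fun c _ => ?_
    unfold ind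
    by_cases h : P (cN p c)
    · rw [if_pos h]
    · rw [if_neg h]
  rw [hc]
  exact (boxc_mean (m := T) hH hpH (fun c => ind (P c)) (fun c => ind_nonneg _)).trans
    (mul_le_mul_of_nonneg_left hK (by positivity))

/-- at most one large prime divides a discriminant -/
private theorem PF2_one {N b : ℕ} (hN : 0 < N) {v : V} (hv : v ∈ FGO.box N) (h0 : ds v ≠ 0) :
    ((Ioc (4 * N) b).filter fun p : ℕ => p.Prime ∧ (p : ℤ) ∣ ds v).card ≤ 1 := by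
  have hdsN := PF2_ds hv
  rw [Finset.card_le_one]
  intro a ha b hb
  by_contra hab
  obtain ⟨ha1, ha2, ha3⟩ := mem_filter.1 ha
  obtain ⟨hb1, hb2, hb3⟩ := mem_filter.1 hb
  have ha4 := (mem_Ioc.1 ha1).1
  have hb4 := (mem_Ioc.1 hb1).1
  have hco : IsCoprime (a : ℤ) (b : ℤ) := by
    rw [Nat.isCoprime_iff_coprime]
    exact (Nat.coprime_primes ha2 hb2).2 hab
  have h1 : (a : ℤ) * b ∣ ds v := hco.mul_dvd ha3 hb3
  have h2 : (a : ℤ) * b ≤ |ds v| := Int.le_of_dvd (abs_pos.2 h0) ((dvd_abs _ _).2 h1)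
  have h3 : (4 * (N : ℤ)) < a := by exact_mod_cast ha4
  have h4 : (4 * (N : ℤ)) < b := by exact_mod_cast hb4
  have hNz : (0 : ℤ) < N := by exact_mod_cast hN
  nlinarith

/-- a large prime divisor of a discriminant is at most `4 H` -/
private theorem PF2_le {N H p : ℕ} (hN : 2 ≤ N) (hH : N ^ 5 ≤ H) {v : V} (hv : v ∈ FGO.box N) (h0 : ds v ≠ 0)
    (hpd : (p : ℤ) ∣ ds v) : p ≤ 4 * H := by
  have h6 : (p : ℤ) ≤ |ds v| := Int.le_of_dvd (abs_pos.2 h0) ((dvd_abs _ _).2 hpd)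
  have h7 : (p : ℤ) ≤ 5 * (N : ℤ) ^ 2 := h6.trans (PF2_ds hv)
  have h8 : p ≤ 5 * N ^ 2 := by exact_mod_cast h7
  have h9 : 5 * N ^ 2 ≤ 4 * N ^ 5 := by
    have e1 : N ^ 5 = N ^ 2 * N ^ 3 := by ring
    have e2 : 2 ^ 3 ≤ N ^ 3 := Nat.pow_le_pow_left hN 3
    rw [e1]
    nlinarith [Nat.mul_le_mul_left (N ^ 2) e2]
  omega


private theorem PF2_row {k l : ℕ} (p : ℕ) (G : Fin k → Fin l → ℤ) (x z : ℤ) :
    (fun j => ((row G x z j : ℤ) : ZMod p)) = row (fun i j => ((G i j : ℤ) : ZMod p)) (x : ZMod p) (z : ZMod p) := by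
  funext j
  unfold row
  push_cast
  rfl

/-- the reduction of the number over `(1 : 0)` -/
private theorem PF2_rA {m n : ℕ} (p : ℕ) (f : Vn (TT m n)) (d : ℤ) (w : V) :
    ((Dn (rA (m := m) f).1 (rA (m := m) f).2 d w : ℤ) : ZMod p) =
      Dn (rA (m := m) (cN p f)).1 (rA (m := m) (cN p f)).2 (d : ZMod p) (cV p w) := by
  have h := map_Dn (Int.castRingHom (ZMod p)) (rA (m := m) f).1 (rA (m := m) f).2 d w
  have e1 : (fun i => (Int.castRingHom (ZMod p)) ((rA (m := m) f).1 i)) = (rA (m := m) (cN p f)).1 := by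
    have h1 := PF2_row p (Gm (cG f)) 1 0
    rw [Int.cast_one, Int.cast_zero] at h1
    exact h1
  have e2 : (fun i => (Int.castRingHom (ZMod p)) ((rA (m := m) f).2 i)) = (rA (m := m) (cN p f)).2 := by
    have h1 := PF2_row p (cH f) 1 0
    rw [Int.cast_one, Int.cast_zero] at h1
    exact h1
  rw [e1, e2] at h
  exact h

/-- the reduction of the number over `(0 : 1)` -/
private theorem PF2_rA' {m n : ℕ} (p : ℕ) (f : Vn (TT m n)) (d : ℤ) (w : V) :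
    ((Dn (rA' (m := m) f).1 (rA' (m := m) f).2 d w : ℤ) : ZMod p) =
      Dn (rA' (m := m) (cN p f)).1 (rA' (m := m) (cN p f)).2 (d : ZMod p) (cV p w) := by
  have h := map_Dn (Int.castRingHom (ZMod p)) (rA' (m := m) f).1 (rA' (m := m) f).2 d w
  have e1 : (fun i => (Int.castRingHom (ZMod p)) ((rA' (m := m) f).1 i)) = (rA' (m := m) (cN p f)).1 := by
    have h1 := PF2_row p (Gm (cG f)) 0 1
    rw [Int.cast_one, Int.cast_zero] at h1
    exact h1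
  have e2 : (fun i => (Int.castRingHom (ZMod p)) ((rA' (m := m) f).2 i)) = (rA' (m := m) (cN p f)).2 := by
    have h1 := PF2_row p (cH f) 0 1
    rw [Int.cast_one, Int.cast_zero] at h1
    exact h1
  rw [e1, e2] at h
  exact h

private def PF2_EA {F : Type} [CommRing F] {m n : ℕ} (f : Fin (TT m n + 1) → F) (d : F) (w : F × F × F) : Prop :=
  Dn (rA (m := m) f).1 (rA (m := m) f).2 d w = 0

private def PF2_EC {F : Type} [CommRing F] {m n : ℕ} (f : Fin (TT m n + 1) → F) (d : F) (w : F × F × F) : Prop :=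
  Dn (rA' (m := m) f).1 (rA' (m := m) f).2 d w = 0

private def PF2_EAA {F : Type} [CommRing F] {m n : ℕ} (f : Fin (TT m n + 1) → F) (d d' : F) (w : F × F × F) : Prop :=
  Dn (rA (m := m) f).1 (rA (m := m) f).2 d w = 0 ∧ Dn (rA' (m := m) f).1 (rA' (m := m) f).2 d' w = 0

private def PF2_EB {F : Type} [CommRing F] {m n : ℕ} (f : Fin (TT m n + 1) → F) (d : F) (v : F × F × F) : Prop :=
  Dn (rB (n := n) f).1 (rB (n := n) f).2 d v = 0

private theorem PF2_qv10 {F : Type} [CommRing F] (v : F × F × F) : qv v 1 0 = v.1 := by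
  unfold qv
  ring

private theorem PF2_qv01 {F : Type} [CommRing F] (v : F × F × F) : qv v 0 1 = v.2.2 := by
  unfold qv
  ring

/-- **Proof.** (Model: `large_Q`, QV3.lean of MP_10e784_agQ.) Let `p > 4 N` (`≥ W0 m n`) be a prime with `BdP p f u`. `p` does not divide `v1, v3, w1` (`≠ 0`, `≤ N`). `BdF` modulo `p` (`map_Dn` for the reduction: `p ∣ Dn ..` over `ℤ`; `row`, `col` commute with the reduction; `qv v 1 0 = v.1`, `qv v 0 1 = v.2.2`):
(i) `p ∣ ds v`, `p ∤ ds w`: `Dn_A = 0` modulo `p` (`DA 1 0`, `v1 ≠ 0`); at most one such prime `p`, and `p ≤ 5 N² ≤ 4 H` (as `QV3_one`, `QV3_le`): `boxc_mean` (as `QV3_mean` with `5` replaced by `TT m n`; it is private, copy it) with `mF_DA`: at most `(8 H)^(TT + 1) 16 n / (4 N)`.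
(ii) `p ∣ ds w`, `p ∤ ds v`: `DB 1 0`, `w1 ≠ 0`: `mF_DB`: at most `(8 H)^(TT + 1) 16 m / (4 N)`.
(iii) `p ∤ ds v ds w`, `p ≤ 4 H`: both `Dn_A = 0 = Dn_A'` modulo `p` (`v1, v3 ≠ 0`): `mF_DAA`: at most `(8 H)^(TT + 1) 256 n² / p²`, the sum over `p > 4 N` is at most `(8 H)^(TT + 1) 256 n² / (4 N)` (as `QV3_inv_sq`).
(iv) `p ∤ ds v ds w`, `p > 4 H`: `large_A`: at most `16 n (32 n + 2) (2 H + 1)^TT ≤ 16 n (32 n + 2) 3^TT H^(TT + 1) / N`.
(`W0 m n ≤ 4 N` and `H ≥ N⁵`, `H ≥ BD` for `N ≥ N1`.) -/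
theorem large_E {m n : ℕ} (hm : 1 ≤ m) (hn : 1 ≤ n) : ∃ C : ℝ, 0 < C ∧ ∃ N1 : ℕ, 16 ≤ N1 ∧ ∀ (H N : ℕ), N1 ≤ N → N ^ 5 ≤ H → ∀ u ∈ box2 N,
    u.1.1 ≠ 0 → u.1.2.2 ≠ 0 → u.2.1 ≠ 0 → ds u.1 ≠ 0 → ds u.2 ≠ 0 →
    (∀ p : ℕ, p.Prime → 4 * N < p → ¬ ((p : ℤ) ∣ ds u.1 ∧ (p : ℤ) ∣ ds u.2)) →
    (((boxN (TT m n) H).filter fun f => ∃ p : ℕ, p.Prime ∧ 4 * N < p ∧ BdP p f u).card : ℝ) ≤ C * (H : ℝ) ^ (TT m n + 1) / N := by
  obtain ⟨BD, hBD, hLA⟩ := large_A hm hn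
  refine ⟨(8 : ℝ) ^ (TT m n + 1) * (4 * n) + (8 : ℝ) ^ (TT m n + 1) * (4 * m) + (8 : ℝ) ^ (TT m n + 1) * (64 * (n : ℝ) ^ 2) +
    16 * n * (32 * n + 2) * (3 : ℝ) ^ (TT m n), ?_, 16 + BD + W0 m n, by omega, ?_⟩
  · have hn0 : (0 : ℝ) < n := by exact_mod_cast hn
    have hm0 : (0 : ℝ) < m := by exact_mod_cast hm
    positivity
  intro H N hN hH u hu hv1 hv3 hw1 hds1 hds2 hp
  have hN1 : 0 < N := by omega
  have hNN5 : N ≤ N ^ 5 := Nat.le_self_pow (by norm_num) N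
  have hH1 : 1 ≤ H := by omega
  have hNH : N ≤ H := by omega
  have hBDH : BD ≤ H := by omega
  have hN0 : (0 : ℝ) < N := by exact_mod_cast hN1
  have hH0 : (1 : ℝ) ≤ H := by exact_mod_cast hH1
  have hu' := hu
  rw [box2, mem_product] at hu'
  obtain ⟨hu1, hu2⟩ := hu'
  have hcv : ∀ p : ℕ, (p : ℤ) ∣ ds u.1 ↔ ds (cV p u.1) = 0 := by
    intro p
    rw [← ds_cast, ZMod.intCast_zmod_eq_zero_iff_dvd]
  have hcw : ∀ p : ℕ, (p : ℤ) ∣ ds u.2 ↔ ds (cV p u.2) = 0 := by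
    intro p
    rw [← ds_cast, ZMod.intCast_zmod_eq_zero_iff_dvd]
  have hne1 : ∀ p : ℕ, 4 * N < p → (cV p u.1).1 ≠ 0 := by
    intro p hp
    exact PF2_ne (by omega) (PF2_box hu1).1 hv1
  have hne3 : ∀ p : ℕ, 4 * N < p → (cV p u.1).2.2 ≠ 0 := by
    intro p hp
    exact PF2_ne (by omega) (PF2_box hu1).2.2 hv3
  have hne2 : ∀ p : ℕ, 4 * N < p → (cV p u.2).1 ≠ 0 := by
    intro p hp
    exact PF2_ne (by omega) (PF2_box hu2).1 hw1
  have hcV1 : ∀ p : ℕ, 4 * N < p → cV p u.1 ≠ 0 := by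
    intro p hp h
    apply hne1 p hp
    have h1 : (cV p u.1).1 = 0 := by
      rw [h]
      rfl
    exact h1
  have hcV2 : ∀ p : ℕ, 4 * N < p → cV p u.2 ≠ 0 := by
    intro p hp h
    apply hne2 p hp
    have h1 : (cV p u.2).1 = 0 := by
      rw [h]
      rfl
    exact h1
  -- the three events at one prime
  let EA : (p : ℕ) → Vn (TT m n) → Prop := fun p f => PF2_EA (m := m) (n := n) (cN p f) (cV p u.1).1 (cV p u.2)
  let EA' : (p : ℕ) → Vn (TT m n) → Prop := fun p f => PF2_EC (m := m) (n := n) (cN p f) (cV p u.1).2.2 (cV p u.2)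
  let EAA : (p : ℕ) → Vn (TT m n) → Prop := fun p f =>
    PF2_EAA (m := m) (n := n) (cN p f) (cV p u.1).1 (cV p u.1).2.2 (cV p u.2)
  let EB : (p : ℕ) → Vn (TT m n) → Prop := fun p f => PF2_EB (m := m) (n := n) (cN p f) (cV p u.2).1 (cV p u.1)
  let A1 : Finset ℕ := (Ioc (4 * N) (4 * H)).filter fun p : ℕ => p.Prime ∧ (p : ℤ) ∣ ds u.1
  let A2 : Finset ℕ := (Ioc (4 * N) (4 * H)).filter fun p : ℕ => p.Prime ∧ (p : ℤ) ∣ ds u.2
  let A3 : Finset ℕ := (Ioc (4 * N) (4 * H)).filter fun p => p.Prime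
  let S : Finset (Vn (TT m n)) := (boxN (TT m n) H).filter fun f => ∃ p : ℕ, p.Prime ∧ 4 * H < p ∧
      (p : ℤ) ∣ Dn (rA (m := m) f).1 (rA (m := m) f).2 u.1.1 u.2 ∧
      (p : ℤ) ∣ Dn (rA' (m := m) f).1 (rA' (m := m) f).2 u.1.2.2 u.2
  -- the counts for one prime
  have hcA : ∀ p : ℕ, p.Prime → 4 * N < p → p ≤ 4 * H →
      (((boxN (TT m n) H).filter fun f => EA p f).card : ℝ) ≤ (8 * (H : ℝ)) ^ (TT m n + 1) * (16 * n / (4 * (N : ℝ))) := by
    intro p hpp hpN hpH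
    have : Fact p.Prime := ⟨hpp⟩
    refine (PF2_mean (T := TT m n) (by omega) hpH (fun c => PF2_EA (m := m) (n := n) c (cV p u.1).1 (cV p u.2))
      (16 * n / (p : ℝ)) (mF_DA hm hn p (by omega) _ _ (hne1 p hpN) (hcV2 p hpN))).trans ?_
    refine mul_le_mul_of_nonneg_left ?_ (by positivity)
    refine div_le_div_of_nonneg_left (by positivity) (by positivity) ?_
    exact_mod_cast hpN.le
  have hcB : ∀ p : ℕ, p.Prime → 4 * N < p → p ≤ 4 * H →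
      (((boxN (TT m n) H).filter fun f => EB p f).card : ℝ) ≤ (8 * (H : ℝ)) ^ (TT m n + 1) * (16 * m / (4 * (N : ℝ))) := by
    intro p hpp hpN hpH
    have : Fact p.Prime := ⟨hpp⟩
    refine (PF2_mean (T := TT m n) (by omega) hpH (fun c => PF2_EB (m := m) (n := n) c (cV p u.2).1 (cV p u.1))
      (16 * m / (p : ℝ)) (mF_DB hm hn p (by omega) _ _ (hne2 p hpN) (hcV1 p hpN))).trans ?_
    refine mul_le_mul_of_nonneg_left ?_ (by positivity)
    refine div_le_div_of_nonneg_left (by positivity) (by positivity) ?_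
    exact_mod_cast hpN.le
  have hcAA : ∀ p : ℕ, p.Prime → 4 * N < p → p ≤ 4 * H →
      (((boxN (TT m n) H).filter fun f => EAA p f).card : ℝ) ≤
        (8 * (H : ℝ)) ^ (TT m n + 1) * ((256 * (n : ℝ) ^ 2) * (1 / (p : ℝ) ^ 2)) := by
    intro p hpp hpN hpH
    have : Fact p.Prime := ⟨hpp⟩
    refine PF2_mean (T := TT m n) (by omega) hpH (fun c =>
      PF2_EAA (m := m) (n := n) c (cV p u.1).1 (cV p u.1).2.2 (cV p u.2)) _ ?_
    refine (mF_DAA hm hn p (by omega) _ _ _ (hne1 p hpN) (hne3 p hpN) (hcV2 p hpN)).trans (le_of_eq ?_)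
    ring
  -- the covering
  have hsub : ((boxN (TT m n) H).filter fun f => ∃ p : ℕ, p.Prime ∧ 4 * N < p ∧ BdP p f u) ⊆
      ((A1.biUnion fun p => (boxN (TT m n) H).filter fun f => EA p f) ∪
      (A2.biUnion fun p => (boxN (TT m n) H).filter fun f => EB p f)) ∪
      ((A3.biUnion fun p => (boxN (TT m n) H).filter fun f => EAA p f) ∪ S) := by
    intro f hf
    obtain ⟨hfB, p, hpp, hpN, hbad⟩ := mem_filter.1 hf
    unfold BdP BdF at hbad
    have hDA : DA 1 0 (cN p f) (cV p u.1) (cV p u.2) → EA p f := by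
      intro h
      unfold DA at h
      rw [PF2_qv10] at h
      rcases h with h | h
      · exact absurd h (hne1 p hpN)
      · exact h
    have hDA' : DA 0 1 (cN p f) (cV p u.1) (cV p u.2) → EA' p f := by
      intro h
      unfold DA at h
      rw [PF2_qv01] at h
      rcases h with h | h
      · exact absurd h (hne3 p hpN)
      · exact h
    have hDB : DB 1 0 (cN p f) (cV p u.1) (cV p u.2) → EB p f := by
      intro h
      unfold DB at h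
      rw [PF2_qv10] at h
      rcases h with h | h
      · exact absurd h (hne2 p hpN)
      · exact h
    rcases hbad with ⟨h1, h2⟩ | ⟨h2, h1, h3⟩ | ⟨h1, h2, h3⟩ | ⟨h1, h2, h3, h4⟩
    · exact absurd ⟨(hcv p).2 h1, (hcw p).2 h2⟩ (hp p hpp hpN)
    · refine mem_union_left _ (mem_union_right _ (mem_biUnion.2 ⟨p, ?_, mem_filter.2 ⟨hfB, hDB h3⟩⟩))
      have hd := (hcw p).2 h2
      exact mem_filter.2 ⟨mem_Ioc.2 ⟨hpN, PF2_le (by omega) hH hu2 hds2 hd⟩, hpp, hd⟩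
    · refine mem_union_left _ (mem_union_left _ (mem_biUnion.2 ⟨p, ?_, mem_filter.2 ⟨hfB, hDA h3⟩⟩))
      have hd := (hcv p).2 h1
      exact mem_filter.2 ⟨mem_Ioc.2 ⟨hpN, PF2_le (by omega) hH hu1 hds1 hd⟩, hpp, hd⟩
    · by_cases hpH : p ≤ 4 * H
      · refine mem_union_right _ (mem_union_left _ (mem_biUnion.2 ⟨p, ?_, mem_filter.2 ⟨hfB, ⟨hDA h3, hDA' h4⟩⟩⟩))
        exact mem_filter.2 ⟨mem_Ioc.2 ⟨hpN, hpH⟩, hpp⟩
      · refine mem_union_right _ (mem_union_right _ (mem_filter.2 ⟨hfB, p, hpp, by omega, ?_, ?_⟩))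
        · rw [← ZMod.intCast_zmod_eq_zero_iff_dvd, PF2_rA]
          exact hDA h3
        · rw [← ZMod.intCast_zmod_eq_zero_iff_dvd, PF2_rA']
          exact hDA' h4
  have hcu := (card_le_card hsub).trans ((card_union_le _ _).trans (Nat.add_le_add
    ((card_union_le _ _).trans (Nat.add_le_add card_biUnion_le card_biUnion_le))
    ((card_union_le _ _).trans (Nat.add_le_add card_biUnion_le (le_refl S.card)))))
  have hcard : (((boxN (TT m n) H).filter fun f => ∃ p : ℕ, p.Prime ∧ 4 * N < p ∧ BdP p f u).card : ℝ) ≤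
      ((∑ p ∈ A1, (((boxN (TT m n) H).filter fun f => EA p f).card : ℝ)) +
      (∑ p ∈ A2, (((boxN (TT m n) H).filter fun f => EB p f).card : ℝ))) +
      ((∑ p ∈ A3, (((boxN (TT m n) H).filter fun f => EAA p f).card : ℝ)) + (S.card : ℝ)) := by
    exact_mod_cast hcu
  refine hcard.trans ?_
  clear hcard hcu hsub
  have s1 : (∑ p ∈ A1, (((boxN (TT m n) H).filter fun f => EA p f).card : ℝ)) ≤
      (8 * (H : ℝ)) ^ (TT m n + 1) * (16 * n / (4 * (N : ℝ))) := by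
    have hK : 0 ≤ (8 * (H : ℝ)) ^ (TT m n + 1) * (16 * n / (4 * (N : ℝ))) := by positivity
    have hA : (A1.card : ℝ) ≤ 1 := by exact_mod_cast PF2_one hN1 hu1 hds1
    refine (Finset.sum_le_card_nsmul A1 _ ((8 * (H : ℝ)) ^ (TT m n + 1) * (16 * n / (4 * (N : ℝ)))) fun p hp => ?_).trans ?_
    · obtain ⟨e1, e2, e3⟩ := mem_filter.1 hp
      exact hcA p e2 (mem_Ioc.1 e1).1 (mem_Ioc.1 e1).2
    · rw [nsmul_eq_mul]
      exact mul_le_of_le_one_left hK hA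
  have s2 : (∑ p ∈ A2, (((boxN (TT m n) H).filter fun f => EB p f).card : ℝ)) ≤
      (8 * (H : ℝ)) ^ (TT m n + 1) * (16 * m / (4 * (N : ℝ))) := by
    have hK : 0 ≤ (8 * (H : ℝ)) ^ (TT m n + 1) * (16 * m / (4 * (N : ℝ))) := by positivity
    have hA : (A2.card : ℝ) ≤ 1 := by exact_mod_cast PF2_one hN1 hu2 hds2
    refine (Finset.sum_le_card_nsmul A2 _ ((8 * (H : ℝ)) ^ (TT m n + 1) * (16 * m / (4 * (N : ℝ)))) fun p hp => ?_).trans ?_
    · obtain ⟨e1, e2, e3⟩ := mem_filter.1 hp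
      exact hcB p e2 (mem_Ioc.1 e1).1 (mem_Ioc.1 e1).2
    · rw [nsmul_eq_mul]
      exact mul_le_of_le_one_left hK hA
  have s3 : (∑ p ∈ A3, (((boxN (TT m n) H).filter fun f => EAA p f).card : ℝ)) ≤
      (8 * (H : ℝ)) ^ (TT m n + 1) * ((256 * (n : ℝ) ^ 2) * (1 / (4 * (N : ℝ)))) := by
    refine (Finset.sum_le_sum (g := fun p : ℕ => (8 * (H : ℝ)) ^ (TT m n + 1) * ((256 * (n : ℝ) ^ 2) * (1 / (p : ℝ) ^ 2)))
      fun p hp => ?_).trans ?_
    · obtain ⟨e1, e2⟩ := mem_filter.1 hp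
      exact hcAA p e2 (mem_Ioc.1 e1).1 (mem_Ioc.1 e1).2
    · rw [← Finset.mul_sum, ← Finset.mul_sum]
      refine mul_le_mul_of_nonneg_left (mul_le_mul_of_nonneg_left ?_ (by positivity)) (by positivity)
      have h := PF2_inv_sq (4 * N) (4 * H) (by omega) A3 (fun p hp => mem_Ioc.1 (mem_filter.1 hp).1)
      push_cast at h
      exact h
  have s4 : (S.card : ℝ) ≤ 16 * n * (32 * n + 2) * ((3 : ℝ) ^ (TT m n) * (H : ℝ) ^ (TT m n)) := by
    have h := hLA H N hN1 hNH hBDH u hu hv1 hv3 hw1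
    have h' : (S.card : ℝ) ≤ 16 * n * (32 * n + 2) * (2 * (H : ℝ) + 1) ^ (TT m n) := by exact_mod_cast h
    refine h'.trans ?_
    have e1 : (2 * (H : ℝ) + 1) ^ (TT m n) ≤ (3 * (H : ℝ)) ^ (TT m n) := pow_le_pow_left₀ (by positivity) (by linarith) _
    rw [mul_pow] at e1
    exact mul_le_mul_of_nonneg_left e1 (by positivity)
  have s5 : (H : ℝ) ^ (TT m n) ≤ (H : ℝ) ^ (TT m n + 1) / N := by
    rw [le_div_iff₀ hN0, pow_succ]
    exact mul_le_mul_of_nonneg_left (by exact_mod_cast hNH) (by positivity)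
  have s4' : (S.card : ℝ) ≤ 16 * n * (32 * n + 2) * (3 : ℝ) ^ (TT m n) * ((H : ℝ) ^ (TT m n + 1) / N) := by
    refine s4.trans ?_
    rw [← mul_assoc]
    exact mul_le_mul_of_nonneg_left s5 (by positivity)
  generalize (∑ p ∈ A1, (((boxN (TT m n) H).filter fun f => EA p f).card : ℝ)) = X1 at s1 ⊢
  generalize (∑ p ∈ A2, (((boxN (TT m n) H).filter fun f => EB p f).card : ℝ)) = X2 at s2 ⊢
  generalize (∑ p ∈ A3, (((boxN (TT m n) H).filter fun f => EAA p f).card : ℝ)) = X3 at s3 ⊢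
  generalize (S.card : ℝ) = X4 at s4' ⊢
  clear s4 s5
  rw [mul_pow] at s1 s2 s3
  have s6 : (8 : ℝ) ^ (TT m n + 1) * (H : ℝ) ^ (TT m n + 1) * (16 * n / (4 * (N : ℝ))) =
      (8 : ℝ) ^ (TT m n + 1) * (4 * n) * ((H : ℝ) ^ (TT m n + 1) / N) := by
    field_simp
    ring
  have s7 : (8 : ℝ) ^ (TT m n + 1) * (H : ℝ) ^ (TT m n + 1) * (16 * m / (4 * (N : ℝ))) =
      (8 : ℝ) ^ (TT m n + 1) * (4 * m) * ((H : ℝ) ^ (TT m n + 1) / N) := by
    field_simp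
    ring
  have s8 : (8 : ℝ) ^ (TT m n + 1) * (H : ℝ) ^ (TT m n + 1) * ((256 * (n : ℝ) ^ 2) * (1 / (4 * (N : ℝ)))) =
      (8 : ℝ) ^ (TT m n + 1) * (64 * (n : ℝ) ^ 2) * ((H : ℝ) ^ (TT m n + 1) / N) := by
    field_simp
    ring
  rw [s6] at s1
  rw [s7] at s2
  rw [s8] at s3
  have s9 : ((8 : ℝ) ^ (TT m n + 1) * (4 * n) + (8 : ℝ) ^ (TT m n + 1) * (4 * m) + (8 : ℝ) ^ (TT m n + 1) * (64 * (n : ℝ) ^ 2) +
      16 * n * (32 * n + 2) * (3 : ℝ) ^ (TT m n)) * (H : ℝ) ^ (TT m n + 1) / N =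
      (8 : ℝ) ^ (TT m n + 1) * (4 * n) * ((H : ℝ) ^ (TT m n + 1) / N) + (8 : ℝ) ^ (TT m n + 1) * (4 * m) * ((H : ℝ) ^ (TT m n + 1) / N) +
      (8 : ℝ) ^ (TT m n + 1) * (64 * (n : ℝ) ^ 2) * ((H : ℝ) ^ (TT m n + 1) / N) +
      16 * n * (32 * n + 2) * (3 : ℝ) ^ (TT m n) * ((H : ℝ) ^ (TT m n + 1) / N) := by
    rw [mul_div_assoc, add_mul, add_mul, add_mul]
  rw [s9]
  linarith

end HNE
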